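import Pool.Agent.Lib.H82OF.Defs

/-!
# Project H82OF, chunk SA: Schur averages
-/

open MeasureTheory Filter Topology Finset ProbabilityTheory
open scoped ENNReal ComplexConjugate Matrix

namespace Pool.Agent.Lib.H82OF

open Pool.Agent.Lib.H22M Pool.Agent.Lib.H82T Pool.Agent.Lib.H82OT

section

variable {K : Type*} [Group K] [TopologicalSpace K] [IsTopologicalGroup K] [CompactSpace K]
  [T2Space K] [SecondCountableTopology K] [MeasurableSpace K] [BorelSpace K]

private theorem SA_int_mul (muK : Measure K) [IsProbabilityMeasure muK] {a b c e : ℕ}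
    {F : K → Matrix (Fin b) (Fin c) ℂ} (hF : BMM F) (A : Matrix (Fin a) (Fin b) ℂ)
    (B : Matrix (Fin c) (Fin e) ℂ) (i : Fin a) (j : Fin e) :
    (A * (Matrix.of fun i j => ∫ k, F k i j ∂muK) * B) i j = ∫ k, (A * F k * B) i j ∂muK := by
  have h1 : ∀ x y, Integrable (fun k => F k x y) muK := fun x y => (hF x y).integrable
  have h2 : ∀ k, (A * F k * B) i j = ∑ x, (∑ y, A i y * F k y x) * B x j := by
    intro k
    simp only [Matrix.mul_apply]
  have h3 : (A * (Matrix.of fun i j => ∫ k, F k i j ∂muK) * B) i j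
      = ∑ x, (∑ y, A i y * ∫ k, F k y x ∂muK) * B x j := by
    simp only [Matrix.mul_apply, Matrix.of_apply]
  rw [h3, integral_congr_ae (Filter.Eventually.of_forall h2)]
  rw [integral_finset_sum]
  · refine Finset.sum_congr rfl fun x _ => ?_
    rw [integral_mul_const, integral_finset_sum]
    · congr 1
      refine Finset.sum_congr rfl fun y _ => ?_
      rw [integral_const_mul]
    · intro y _
      exact (h1 y x).const_mul _
  · intro x _
    refine Integrable.mul_const ?_ _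
    exact integrable_finset_sum _ fun y _ => (h1 y x).const_mul _

private theorem SA_bmm {d e : ℕ} {π : K → Matrix (Fin d) (Fin d) ℂ}
    {π' : K → Matrix (Fin e) (Fin e) ℂ} (hπ : Rep π) (hπ' : Rep π')
    (n : Matrix (Fin d) (Fin e) ℂ) : BMM fun k => π k * n * (π' k)ᴴ :=
  BMM.mul (BMM.mul hπ.bmm (fun i j => BM.const (n i j))) (BMM.conj hπ'.bmm)

/-- Averages are intertwiners. Proof. The integrands are bounded and measurable (`Rep.bmm`,
`BMM.mul`, `BM.integrable`). `(π h T π'(h)ᴴ)_ij = ∫ (π(hk) n π'(hk)ᴴ)_ij dk = T_ij` by left invariance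
(`integral_mul_left_eq_self`), and multiply by `π'(h)` on the right (`Rep.unit'`). -/
theorem avg_intertwine (muK : Measure K) [muK.IsHaarMeasure] [IsProbabilityMeasure muK]
    {d e : ℕ} {π : K → Matrix (Fin d) (Fin d) ℂ} {π' : K → Matrix (Fin e) (Fin e) ℂ}
    (hπ : Rep π) (hπ' : Rep π') (n : Matrix (Fin d) (Fin e) ℂ) (h : K) :
    π h * (Matrix.of fun i j => ∫ k, (π k * n * (π' k)ᴴ) i j ∂muK) =
      (Matrix.of fun i j => ∫ k, (π k * n * (π' k)ᴴ) i j ∂muK) * π' h := by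
  obtain ⟨T, hT⟩ : ∃ T : Matrix (Fin d) (Fin e) ℂ,
      T = Matrix.of fun i j => ∫ k, (π k * n * (π' k)ᴴ) i j ∂muK := ⟨_, rfl⟩
  rw [← hT]
  have key : π h * T * (π' h)ᴴ = T := by
    ext i j
    rw [hT, SA_int_mul muK (SA_bmm hπ hπ' n) (π h) (π' h)ᴴ i j]
    have h1 : ∀ k, (π h * (π k * n * (π' k)ᴴ) * (π' h)ᴴ) i j
        = (fun k => (π k * n * (π' k)ᴴ) i j) (h * k) := by
      intro k
      show _ = (π (h * k) * n * (π' (h * k))ᴴ) i j
      rw [hπ.mul, hπ'.mul, Matrix.conjTranspose_mul]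
      simp only [Matrix.mul_assoc]
    rw [integral_congr_ae (Filter.Eventually.of_forall h1),
      integral_mul_left_eq_self (μ := muK) (fun k => (π k * n * (π' k)ᴴ) i j) h]
    rfl
  calc π h * T = π h * T * ((π' h)ᴴ * π' h) := by rw [hπ'.unit' h, Matrix.mul_one]
    _ = (π h * T * (π' h)ᴴ) * π' h := by simp only [Matrix.mul_assoc]
    _ = T * π' h := by rw [key]

/-- Proof. The average `T` commutes with all `π h` (`avg_intertwine`), so `T = c • 1`, and
`trace T = ∫ trace (π k n π(k)ᴴ) = trace n`, so `c d = trace n`. (`d = 0`: no indices.) -/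
theorem schur_same (muK : Measure K) [muK.IsHaarMeasure] [IsProbabilityMeasure muK] {d : ℕ}
    {π : K → Matrix (Fin d) (Fin d) ℂ} (hπ : Irr π) (n : Matrix (Fin d) (Fin d) ℂ)
    (i j : Fin d) :
    ∫ k, (π k * n * (π k)ᴴ) i j ∂muK = if i = j then n.trace / d else 0 := by
  obtain ⟨T, hT⟩ : ∃ T : Matrix (Fin d) (Fin d) ℂ,
      T = Matrix.of fun i j => ∫ k, (π k * n * (π k)ᴴ) i j ∂muK := ⟨_, rfl⟩
  have hc : ∀ g, π g * T = T * π g := by
    intro g
    rw [hT]
    exact avg_intertwine muK hπ.toRep hπ.toRep n g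
  obtain ⟨c, hcT⟩ := hπ.irr T hc
  have hval : ∀ i j, ∫ k, (π k * n * (π k)ᴴ) i j ∂muK = T i j := by
    intro i j; rw [hT]; rfl
  have htr : T.trace = n.trace := by
    have h1 : T.trace = ∑ i, ∫ k, (π k * n * (π k)ᴴ) i i ∂muK := by
      rw [hT]; rfl
    rw [h1, ← integral_finset_sum]
    · have h2 : ∀ k, ∑ i, (π k * n * (π k)ᴴ) i i = n.trace := by
        intro k
        have h3 : ∑ i, (π k * n * (π k)ᴴ) i i = (π k * n * (π k)ᴴ).trace := rfl
        rw [h3, Matrix.trace_mul_cycle, hπ.toRep.unit' k, Matrix.one_mul]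
      rw [integral_congr_ae (Filter.Eventually.of_forall h2)]
      simp
    · intro i _
      exact (SA_bmm hπ.toRep hπ.toRep n i i).integrable
  have hcd : c * d = n.trace := by
    rw [← htr, hcT, Matrix.trace_smul, Matrix.trace_one, Fintype.card_fin, smul_eq_mul]
  have hd : (d : ℂ) ≠ 0 := by
    have : d ≠ 0 := by
      rintro rfl
      exact i.elim0
    exact_mod_cast this
  rw [hval, hcT, Matrix.smul_apply, smul_eq_mul]
  by_cases hij : i = j
  · subst hij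
    rw [if_pos rfl, Matrix.one_apply_eq, mul_one, eq_div_iff hd, hcd]
  · rw [if_neg hij, Matrix.one_apply_ne hij, mul_zero]

/-- Proof. Suppose some average `T` (for a matrix `n`) is not zero. `π g T = T π' g`. Then
`T Tᴴ` commutes with `π` and `Tᴴ T` with `π'` (take adjoints of the relation: `Tᴴ π(g) = π'(g) Tᴴ` using
`π(g)ᴴ = π(g⁻¹)` or unitarity), so `T Tᴴ = c • 1`, `Tᴴ T = c' • 1`; `c` is real and positive since
`T ≠ 0` (diagonal entries are sums of squares; `trace (T Tᴴ) = ∑ |T_ij|² > 0`), and `c = c'` from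
`T (Tᴴ T) = (T Tᴴ) T`. `U = c^(-1/2) T`. -/
theorem schur_diff (muK : Measure K) [muK.IsHaarMeasure] [IsProbabilityMeasure muK] {d e : ℕ}
    {π : K → Matrix (Fin d) (Fin d) ℂ} {π' : K → Matrix (Fin e) (Fin e) ℂ} (hπ : Irr π)
    (hπ' : Irr π') :
    Ineq muK π π' ∨ ∃ U : Matrix (Fin d) (Fin e) ℂ, U * Uᴴ = 1 ∧ Uᴴ * U = 1 ∧
      ∀ g, π g * U = U * π' g := by
  by_cases hI : Ineq muK π π'
  · exact Or.inl hI
  right
  unfold Ineq at hI
  push Not at hI
  obtain ⟨n, i, j, hn⟩ := hI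
  obtain ⟨T, hT⟩ : ∃ T : Matrix (Fin d) (Fin e) ℂ,
      T = Matrix.of fun i j => ∫ k, (π k * n * (π' k)ᴴ) i j ∂muK := ⟨_, rfl⟩
  have hTij : T i j ≠ 0 := by
    rw [hT]; exact hn
  have hg : ∀ g, π g * T = T * π' g := by
    intro g
    rw [hT]
    exact avg_intertwine muK hπ.toRep hπ'.toRep n g
  have hg' : ∀ g, Tᴴ * π g = π' g * Tᴴ := by
    intro g
    have h1 : Tᴴ * (π g)ᴴ = (π' g)ᴴ * Tᴴ := by
      rw [← Matrix.conjTranspose_mul, ← Matrix.conjTranspose_mul, hg g]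
    calc Tᴴ * π g = (π' g * (π' g)ᴴ) * Tᴴ * π g := by rw [hπ'.unit g, Matrix.one_mul]
      _ = π' g * ((π' g)ᴴ * Tᴴ) * π g := by simp only [Matrix.mul_assoc]
      _ = π' g * (Tᴴ * (π g)ᴴ) * π g := by rw [h1]
      _ = π' g * Tᴴ * ((π g)ᴴ * π g) := by simp only [Matrix.mul_assoc]
      _ = π' g * Tᴴ := by rw [hπ.toRep.unit' g, Matrix.mul_one]
  obtain ⟨c, hc⟩ := hπ.irr (T * Tᴴ) (fun g => by
    rw [← Matrix.mul_assoc, hg g, Matrix.mul_assoc, ← hg' g, ← Matrix.mul_assoc])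
  obtain ⟨c', hc'⟩ := hπ'.irr (Tᴴ * T) (fun g => by
    rw [← Matrix.mul_assoc, ← hg' g, Matrix.mul_assoc, hg g, ← Matrix.mul_assoc])
  have hcc : c = c' := by
    have h1 : T * (Tᴴ * T) = (T * Tᴴ) * T := (Matrix.mul_assoc _ _ _).symm
    rw [hc, hc', Matrix.mul_smul, Matrix.smul_mul, Matrix.mul_one, Matrix.one_mul] at h1
    have h2 := congrFun (congrFun h1 i) j
    rw [Matrix.smul_apply, Matrix.smul_apply, smul_eq_mul, smul_eq_mul] at h2
    exact (mul_right_cancel₀ hTij h2).symm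
  have hcr : c = ((∑ k, ‖T i k‖ ^ 2 : ℝ) : ℂ) := by
    have h1 := congrFun (congrFun hc i) i
    rw [Matrix.smul_apply, Matrix.one_apply_eq, smul_eq_mul, mul_one, Matrix.mul_apply] at h1
    rw [← h1, Complex.ofReal_sum]
    refine Finset.sum_congr rfl fun k _ => ?_
    rw [Matrix.conjTranspose_apply, Complex.star_def, Complex.mul_conj, Complex.normSq_eq_norm_sq]
  obtain ⟨r, hr⟩ : ∃ r : ℝ, r = ∑ k, ‖T i k‖ ^ 2 := ⟨_, rfl⟩
  rw [← hr] at hcr
  have hr0 : 0 < r := by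
    rw [hr]
    refine Finset.sum_pos' (fun k _ => by positivity) ⟨j, Finset.mem_univ j, ?_⟩
    have : 0 < ‖T i j‖ := norm_pos_iff.mpr hTij
    positivity
  have hs : (((Real.sqrt r)⁻¹ : ℝ) : ℂ) * (((Real.sqrt r)⁻¹ : ℝ) : ℂ) * c = 1 := by
    rw [hcr, ← Complex.ofReal_mul, ← Complex.ofReal_mul]
    have h1 : (Real.sqrt r)⁻¹ * (Real.sqrt r)⁻¹ * r = 1 := by
      have h2 : Real.sqrt r * Real.sqrt r = r := Real.mul_self_sqrt hr0.le
      have h3 : Real.sqrt r ≠ 0 := (Real.sqrt_pos.mpr hr0).ne'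
      calc (Real.sqrt r)⁻¹ * (Real.sqrt r)⁻¹ * r
          = (Real.sqrt r)⁻¹ * (Real.sqrt r)⁻¹ * (Real.sqrt r * Real.sqrt r) := by rw [h2]
        _ = 1 := by field_simp
    rw [h1, Complex.ofReal_one]
  obtain ⟨a, ha⟩ : ∃ a : ℝ, a = (Real.sqrt r)⁻¹ := ⟨_, rfl⟩
  rw [← ha] at hs
  refine ⟨(a : ℂ) • T, ?_, ?_, ?_⟩
  · rw [Matrix.conjTranspose_smul, Matrix.smul_mul, Matrix.mul_smul, hc, smul_smul, smul_smul]
    have : star (a : ℂ) = (a : ℂ) := by rw [Complex.star_def, Complex.conj_ofReal]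
    rw [this, hs, one_smul]
  · rw [Matrix.conjTranspose_smul, Matrix.smul_mul, Matrix.mul_smul, hc', ← hcc, smul_smul,
      smul_smul]
    have : star (a : ℂ) = (a : ℂ) := by rw [Complex.star_def, Complex.conj_ofReal]
    rw [this, hs, one_smul]
  · intro g
    rw [Matrix.mul_smul, hg g, Matrix.smul_mul]

end

end Pool.Agent.Lib.H82OF
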