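import Pool.Agent.Lib.H82OF.CE
import Pool.Agent.Lib.H82OF.SA

/-!
# Project H82OF, chunk AV: the averaging formula
-/

open MeasureTheory Filter Topology Finset ProbabilityTheory
open scoped ENNReal ComplexConjugate Matrix

namespace Pool.Agent.Lib.H82OF

open Pool.Agent.Lib.H22M Pool.Agent.Lib.H82T Pool.Agent.Lib.H82OT

private theorem av_expand {d e : ℕ} (A : Matrix (Fin d) (Fin d) ℂ) (B : Matrix (Fin d) (Fin e) ℂ)
    (C : Matrix (Fin e) (Fin e) ℂ) (i : Fin d) (j : Fin e) :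
    (A * B * Cᴴ) i j = ∑ a, ∑ b, A i a * conj (C j b) * B a b := by
  simp only [Matrix.mul_apply, Matrix.conjTranspose_apply, Finset.sum_mul]
  rw [Finset.sum_comm]
  refine Finset.sum_congr rfl fun a _ => Finset.sum_congr rfl fun b _ => ?_
  rw [starRingEnd_apply]
  ring

/-- If `N = D(κ) n D'(κ)ᴴ` with `N` and `n` measurable for `𝒲` and `κ` independent of `𝒲` with law
`muK`, then `N ω = ∫ D(k) n(ω) D'(k)ᴴ dk`. Proof. Fix `i, j`. The right side
`r ω = ∫ (D k n(ω) D'(k)ᴴ)_ij dk = ∑_{a,b} n(ω)_ab ∫ D(k)_ia conj D'(k)_jb dk` is in `WB 𝒲`. For `H` in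
`WB 𝒲`: `∫ H N_ij dρ = ∑_{a,b} ∫ (D_ia conj D'_jb)(κ) (H n_ab) dρ = ∑_{a,b} (∫ D_ia conj D'_jb)
∫ H n_ab dρ = ∫ H r dρ` (`hκ`). Conclude with `wb_ae_eq`. -/
theorem avg_formula {Ω K : Type*} (𝒲 : MeasurableSpace Ω) [mΩ : MeasurableSpace Ω]
    [Group K] [TopologicalSpace K] [MeasurableSpace K] [BorelSpace K] (muK : Measure K)
    [IsProbabilityMeasure muK] (ρ : Measure Ω) [IsProbabilityMeasure ρ] (hle : 𝒲 ≤ mΩ)
    (κ : Ω → K) (hκm : Measurable κ)
    (hκ : ∀ (u : K → ℂ) (H : Ω → ℂ), BM u → WB 𝒲 H →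
      ∫ ω, u (κ ω) * H ω ∂ρ = (∫ k, u k ∂muK) * ∫ ω, H ω ∂ρ)
    {d e : ℕ} {D : K → Matrix (Fin d) (Fin d) ℂ} {D' : K → Matrix (Fin e) (Fin e) ℂ}
    (hD : Rep D) (hD' : Rep D') (N n : Ω → Matrix (Fin d) (Fin e) ℂ) (hN : WM 𝒲 N)
    (hn : WM 𝒲 n) (heq : ∀ᵐ ω ∂ρ, N ω = D (κ ω) * n ω * (D' (κ ω))ᴴ) :
    ∀ᵐ ω ∂ρ, ∀ i j, N ω i j = ∫ k, (D k * n ω * (D' k)ᴴ) i j ∂muK := by
  rw [ae_all_iff]
  intro i
  rw [ae_all_iff]
  intro j
  have hDb : BMM D := hD.bmm
  have hDb' : BMM D' := hD'.bmm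
  have hu : ∀ a b, BM fun k => D k i a * conj (D' k j b) := fun a b =>
    (hDb i a).mul (hDb' j b).conj
  set c : Fin d → Fin e → ℂ := fun a b => ∫ k, D k i a * conj (D' k j b) ∂muK with hc
  -- the right side
  have hr : ∀ ω, ∫ k, (D k * n ω * (D' k)ᴴ) i j ∂muK = ∑ a, ∑ b, c a b * n ω a b := by
    intro ω
    simp_rw [av_expand]
    rw [integral_finsetSum]
    · refine Finset.sum_congr rfl fun a _ => ?_
      rw [integral_finsetSum]
      · refine Finset.sum_congr rfl fun b _ => ?_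
        rw [integral_mul_const]
      · intro b _
        exact ((hu a b).integrable).mul_const _
    · intro a _
      exact integrable_finsetSum _ fun b _ => ((hu a b).integrable).mul_const _
  simp_rw [hr]
  obtain ⟨hnm, Cn, hCn⟩ := hn
  have hnW : ∀ a b, WB 𝒲 fun ω => n ω a b := fun a b => ⟨hnm a b, Cn, fun ω => hCn ω a b⟩
  refine wb_ae_eq 𝒲 ρ hle (fun ω => N ω i j) (fun ω => ∑ a, ∑ b, c a b * n ω a b) (hN.wb i j) ?_ ?_
  · refine ⟨?_, ∑ a, ∑ b, ‖c a b‖ * Cn, fun ω => ?_⟩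
    · refine Finset.measurable_sum _ fun a _ => Finset.measurable_sum _ fun b _ => ?_
      exact (hnm a b).const_mul _
    · refine (norm_sum_le _ _).trans (Finset.sum_le_sum fun a _ => ?_)
      refine (norm_sum_le _ _).trans (Finset.sum_le_sum fun b _ => ?_)
      rw [norm_mul]
      exact mul_le_mul_of_nonneg_left (hCn ω a b) (norm_nonneg _)
  · intro H hH
    have hHb : BM H := hH.bm hle
    have hHn : ∀ a b, WB 𝒲 fun ω => H ω * n ω a b := by
      intro a b
      obtain ⟨hH1, CH, hCH⟩ := hH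
      refine ⟨hH1.mul (hnm a b), CH * Cn, fun ω => ?_⟩
      rw [norm_mul]
      exact mul_le_mul (hCH ω) (hCn ω a b) (norm_nonneg _) ((norm_nonneg _).trans (hCH ω))
    have h1 : ∫ ω, H ω * N ω i j ∂ρ =
        ∫ ω, ∑ a, ∑ b, (D (κ ω) i a * conj (D' (κ ω) j b)) * (H ω * n ω a b) ∂ρ := by
      refine integral_congr_ae ?_
      filter_upwards [heq] with ω hω
      rw [hω, av_expand, Finset.mul_sum]
      refine Finset.sum_congr rfl fun a _ => ?_
      rw [Finset.mul_sum]
      refine Finset.sum_congr rfl fun b _ => ?_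
      ring
    have hint : ∀ a b, Integrable
        (fun ω => (D (κ ω) i a * conj (D' (κ ω) j b)) * (H ω * n ω a b)) ρ := fun a b =>
      (((hu a b).comp hκm).mul ((hHn a b).bm hle)).integrable
    have h2 : ∫ ω, H ω * (∑ a, ∑ b, c a b * n ω a b) ∂ρ =
        ∑ a, ∑ b, c a b * ∫ ω, H ω * n ω a b ∂ρ := by
      have h3 : ∀ ω, H ω * (∑ a, ∑ b, c a b * n ω a b) =
          ∑ a, ∑ b, c a b * (H ω * n ω a b) := by
        intro ω
        rw [Finset.mul_sum]
        refine Finset.sum_congr rfl fun a _ => ?_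
        rw [Finset.mul_sum]
        refine Finset.sum_congr rfl fun b _ => ?_
        ring
      simp_rw [h3]
      rw [integral_finsetSum]
      · refine Finset.sum_congr rfl fun a _ => ?_
        rw [integral_finsetSum]
        · refine Finset.sum_congr rfl fun b _ => ?_
          rw [integral_const_mul]
        · intro b _
          exact (((hHn a b).bm hle).integrable).const_mul _
      · intro a _
        exact integrable_finsetSum _ fun b _ => (((hHn a b).bm hle).integrable).const_mul _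
    rw [h1, h2, integral_finsetSum]
    · refine Finset.sum_congr rfl fun a _ => ?_
      rw [integral_finsetSum]
      · refine Finset.sum_congr rfl fun b _ => ?_
        exact hκ (fun k => D k i a * conj (D' k j b)) (fun ω => H ω * n ω a b) (hu a b) (hHn a b)
      · intro b _
        exact hint a b
    · intro a _
      exact integrable_finsetSum _ fun b _ => hint a b

end Pool.Agent.Lib.H82OF
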