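import Pool.Agent.Lib.H82OF.Defs
import Pool.Agent.Lib.H82T.CV

/-!
# Project H82OF, chunk CE: conditioning on a map
-/

open MeasureTheory Filter Topology Finset ProbabilityTheory
open scoped ENNReal ComplexConjugate Matrix

namespace Pool.Agent.Lib.H82OF

open Pool.Agent.Lib.H22M Pool.Agent.Lib.H82T Pool.Agent.Lib.H82OT

/-- The conditional expectation of `f` given the map `π`, as a function on the target.
Proof. `exists_version` (`H82T/CV.lean`) for the σ-algebra `comap π`: the version `g` is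
`comap π`-measurable, so `g = v₀ ∘ π` with `v₀` measurable (`Measurable.exists_eq_measurable_comp` or
`Measurable.factorsThrough`-type lemma, used in `H82OT/KR3.lean` or `H82T/S4.lean`); truncate `v₀` to
`{‖v₀‖ ≤ C}` (this does not change `v₀ ∘ π` since `‖g‖ ≤ C`). -/
theorem exists_cond {Ω X : Type*} [MeasurableSpace Ω] [MeasurableSpace X] (ν : Measure Ω)
    [IsProbabilityMeasure ν] (π : Ω → X) (hπ : Measurable π) (f : Ω → ℂ) (hf : Measurable f)
    (C : ℝ) (hC0 : 0 ≤ C) (hC : ∀ ω, ‖f ω‖ ≤ C) :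
    ∃ v : X → ℂ, Measurable v ∧ (∀ x, ‖v x‖ ≤ C) ∧
      (fun ω => v (π ω)) =ᵐ[ν] ν[f|MeasurableSpace.comap π inferInstance] ∧
      ∀ h : X → ℂ, BM h → ∫ ω, h (π ω) * f ω ∂ν = ∫ ω, h (π ω) * v (π ω) ∂ν := by
  obtain ⟨g, hgm, hgC, hge, hgi⟩ := exists_version (MeasurableSpace.comap π inferInstance) ν
    hπ.comap_le f hf C hC0 (ae_of_all _ hC)
  obtain ⟨v₀, hv₀, hgv⟩ := hgm.exists_eq_measurable_comp
  classical
  have hgv' : ∀ ω, g ω = (if ‖v₀ (π ω)‖ ≤ C then v₀ (π ω) else 0) := by
    intro ω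
    have h1 : g ω = v₀ (π ω) := by rw [hgv]; rfl
    have h2 : ‖v₀ (π ω)‖ ≤ C := h1 ▸ hgC ω
    rw [if_pos h2, h1]
  refine ⟨fun x => if ‖v₀ x‖ ≤ C then v₀ x else 0,
    Measurable.ite (measurableSet_le hv₀.norm measurable_const) hv₀ measurable_const, ?_, ?_, ?_⟩
  · intro x
    dsimp only
    split_ifs with h
    · exact h
    · simpa using hC0
  · refine EventuallyEq.trans ?_ hge
    exact ae_of_all _ fun ω => (hgv' ω).symm
  · intro h hh
    obtain ⟨hm, C', hC'⟩ := hh
    have h1 := hgi (fun ω => h (π ω)) (hm.comp (comap_measurable π)) ⟨C', ae_of_all _ fun ω => hC' _⟩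
    rw [h1]
    refine integral_congr_ae (ae_of_all _ fun ω => ?_)
    dsimp only
    rw [hgv' ω]

/-- Two bounded `𝒲`-measurable functions with the same integrals against all bounded `𝒲`-measurable
functions agree almost everywhere. Proof. Take `H = conj (f - g)`: `∫ |f - g|² = 0`. -/
theorem wb_ae_eq {Ω : Type*} (𝒲 : MeasurableSpace Ω) [mΩ : MeasurableSpace Ω] (ν : Measure Ω)
    [IsProbabilityMeasure ν] (hle : 𝒲 ≤ mΩ) (f g : Ω → ℂ) (hf : WB 𝒲 f) (hg : WB 𝒲 g)
    (h : ∀ H : Ω → ℂ, WB 𝒲 H → ∫ ω, H ω * f ω ∂ν = ∫ ω, H ω * g ω ∂ν) :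
    ∀ᵐ ω ∂ν, f ω = g ω := by
  have hfb : BM f := hf.bm hle
  have hgb : BM g := hg.bm hle
  obtain ⟨hf1, Cf, hCf⟩ := hf
  obtain ⟨hg1, Cg, hCg⟩ := hg
  have hmeas : Measurable[𝒲] fun ω => conj (f ω - g ω) := by
    have h1 : Measurable[𝒲] fun ω => f ω - g ω := hf1.sub hg1
    exact (Complex.continuous_conj.measurable).comp h1
  have hH : WB 𝒲 fun ω => conj (f ω - g ω) := by
    refine ⟨hmeas, Cf + Cg, fun ω => ?_⟩
    rw [RCLike.norm_conj]
    exact (norm_sub_le _ _).trans (add_le_add (hCf ω) (hCg ω))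
  have hHb : BM fun ω => conj (f ω - g ω) := hH.bm hle
  have h1 := h _ hH
  have h2 : ∫ ω, conj (f ω - g ω) * (f ω - g ω) ∂ν = 0 := by
    have h3 : ∀ ω, conj (f ω - g ω) * (f ω - g ω) =
        conj (f ω - g ω) * f ω - conj (f ω - g ω) * g ω := fun ω => by ring
    simp_rw [h3]
    rw [integral_sub (hHb.mul hfb).integrable (hHb.mul hgb).integrable, h1, sub_self]
  have h4 : ∫ ω, ‖f ω - g ω‖ ^ 2 ∂ν = 0 := by
    have h5 : ((∫ ω, ‖f ω - g ω‖ ^ 2 ∂ν : ℝ) : ℂ) = 0 := by
      rw [← integral_complex_ofReal, ← h2]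
      refine integral_congr_ae (ae_of_all _ fun ω => ?_)
      dsimp only
      rw [mul_comm, Complex.mul_conj, Complex.normSq_eq_norm_sq]
    exact_mod_cast h5
  have h6 : Integrable (fun ω => ‖f ω - g ω‖ ^ 2) ν := by
    have := (hfb.sub hgb).memLp (m := ν) 2
    exact this.integrable_norm_pow (by norm_num)
  have h7 := (integral_eq_zero_iff_of_nonneg (fun ω => by positivity) h6).1 h4
  filter_upwards [h7] with ω hω
  have h8 : ‖f ω - g ω‖ ^ 2 = 0 := hω
  have h9 : ‖f ω - g ω‖ = 0 := by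
    exact pow_eq_zero_iff (two_ne_zero) |>.1 h8
  exact sub_eq_zero.1 (norm_eq_zero.1 h9)

/-- A bounded function on a product whose integrals against all products `a(w.1) b(w.2)` vanish is zero
almost everywhere. Proof. The measurable rectangles form a π-system: the class of the measurable sets
`A` with `∫_A f = 0` is closed under complements and disjoint unions
(`MeasurableSpace.induction_on_inter`, `generateFrom_prod`, `isPiSystem_prod`), so `∫_A f dμ = 0` for all
measurable `A`, and `f = 0` a.e. (`Integrable.ae_eq_zero_of_forall_setIntegral_eq_zero`). -/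
theorem ae_zero_of_prod {X Y : Type*} [MeasurableSpace X] [MeasurableSpace Y]
    (μ : Measure (X × Y)) [IsProbabilityMeasure μ] (f : X × Y → ℂ) (hf : BM f)
    (h : ∀ (a : X → ℂ) (b : Y → ℂ), BM a → BM b → ∫ w, a w.1 * b w.2 * f w ∂μ = 0) :
    ∀ᵐ w ∂μ, f w = 0 := by
  classical
  have hfi : Integrable f μ := hf.integrable
  have huniv : ∫ w, f w ∂μ = 0 := by
    have := h (fun _ => 1) (fun _ => 1) (BM.const 1) (BM.const 1)
    simpa using this
  have key : ∀ A : Set (X × Y), MeasurableSet A → ∫ w in A, f w ∂μ = 0 := by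
    intro A hA
    induction A, hA using MeasurableSpace.induction_on_inter generateFrom_prod.symm
      isPiSystem_prod with
    | empty => simp
    | basic t ht =>
      obtain ⟨s, hs, t', ht', rfl⟩ := ht
      have hs' : MeasurableSet s := hs
      have ht'' : MeasurableSet t' := ht'
      have h1 := h (s.indicator fun _ => 1) (t'.indicator fun _ => 1)
        ⟨measurable_const.indicator hs', 1, fun x => by
          by_cases hx : x ∈ s <;> simp [hx]⟩
        ⟨measurable_const.indicator ht'', 1, fun x => by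
          by_cases hx : x ∈ t' <;> simp [hx]⟩
      rw [← integral_indicator (hs'.prod ht''), ← h1]
      refine integral_congr_ae (ae_of_all _ fun w => ?_)
      dsimp only
      by_cases h1 : w.1 ∈ s <;> by_cases h2 : w.2 ∈ t' <;>
        simp [Set.indicator, Set.mem_prod, h1, h2]
    | compl t ht ih =>
      have h1 := integral_add_compl ht hfi
      rw [ih, huniv, zero_add] at h1
      exact h1
    | iUnion g hd hm ih =>
      rw [integral_iUnion hm hd hfi.integrableOn]
      simp [ih]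
  have := Integrable.ae_eq_zero_of_forall_setIntegral_eq_zero hfi fun s hs _ => key s hs
  filter_upwards [this] with w hw
  exact hw

end Pool.Agent.Lib.H82OF
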