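import Pool.Agent.Lib.H82OF.EK1
import Pool.Agent.Lib.H82OT.EV3

/-!
# Project H82OF, chunk CQ: the central inequality
-/

open MeasureTheory Filter Topology Finset ProbabilityTheory
open scoped ENNReal ComplexConjugate Matrix

namespace Pool.Agent.Lib.H82OF

open Pool.Agent.Lib.H22M Pool.Agent.Lib.H82T Pool.Agent.Lib.H82OT

/-- Proof. With the `d²` vectors: `A_kl = ∑_n x_n(k) u_n(l)`, `k, l ∈ Fin d × Fin d`,
`x_n(i,j) = X n i j`, `u_n(i,j) = G n i * conj (H n j)`. The left side is `|∑_k A_kk|² ≤ d² ∑_k |A_kk|² ≤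
d² ∑_{k,l} |A_kl|²` (`inner_mul_le_norm_mul_norm` or `sq_sum_le_card_mul_sum_sq`), and
`∑_{k,l} |A_kl|² = ∑_{n,m} (∑_k x_n(k) conj x_m(k)) (∑_l u_n(l) conj u_m(l))`, where
`∑_l u_n(l) conj u_m(l) = (∑_i G n i conj (G m i)) conj (∑_j H n j conj (H m j))`. -/
theorem trace_cs {d : ℕ} (N : ℕ) (X : ℕ → Matrix (Fin d) (Fin d) ℂ) (G H : ℕ → Fin d → ℂ) :
    ‖∑ n ∈ range N, ∑ i, ∑ j, G n i * X n i j * conj (H n j)‖ ^ 2 ≤
      (d : ℝ) ^ 2 * (∑ n ∈ range N, ∑ m ∈ range N, (∑ i, ∑ j, X n i j * conj (X m i j)) *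
        ((G n ⬝ᵥ star (G m)) * conj (H n ⬝ᵥ star (H m)))).re := by
  obtain ⟨A, hA⟩ : ∃ A : Fin d × Fin d → Fin d × Fin d → ℂ, A = fun k l =>
      ∑ n ∈ range N, X n k.1 k.2 * (G n l.1 * conj (H n l.2)) := ⟨_, rfl⟩
  have h1 : ∑ n ∈ range N, ∑ i, ∑ j, G n i * X n i j * conj (H n j) = ∑ k, A k k := by
    have e0 : ∑ k, A k k = ∑ n ∈ range N, ∑ k : Fin d × Fin d,
        X n k.1 k.2 * (G n k.1 * conj (H n k.2)) := by
      rw [hA]
      exact Finset.sum_comm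
    rw [e0]
    refine Finset.sum_congr rfl fun n _ => ?_
    rw [Fintype.sum_prod_type]
    refine Finset.sum_congr rfl fun i _ => Finset.sum_congr rfl fun j _ => ?_
    ring
  have h2 : ‖∑ k, A k k‖ ^ 2 ≤ (d : ℝ) ^ 2 * ∑ k, ‖A k k‖ ^ 2 := by
    have h3 : ‖∑ k, A k k‖ ≤ ∑ k, ‖A k k‖ := norm_sum_le _ _
    have h4 : (∑ k, ‖A k k‖) ^ 2 ≤ ((Finset.univ : Finset (Fin d × Fin d)).card : ℝ) *
        ∑ k, ‖A k k‖ ^ 2 := sq_sum_le_card_mul_sum_sq
    have h5 : ((Finset.univ : Finset (Fin d × Fin d)).card : ℝ) = (d : ℝ) ^ 2 := by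
      rw [Finset.card_univ, Fintype.card_prod, Fintype.card_fin]
      push_cast
      ring
    rw [h5] at h4
    exact le_trans (pow_le_pow_left₀ (norm_nonneg _) h3 2) h4
  have h6 : ∑ k, ‖A k k‖ ^ 2 ≤ ∑ k, ∑ l, ‖A k l‖ ^ 2 := by
    refine Finset.sum_le_sum fun k _ => ?_
    exact Finset.single_le_sum (f := fun l => ‖A k l‖ ^ 2) (fun l _ => by positivity)
      (Finset.mem_univ k)
  have h7 : ((∑ k, ∑ l, ‖A k l‖ ^ 2 : ℝ) : ℂ) =
      ∑ n ∈ range N, ∑ m ∈ range N, (∑ i, ∑ j, X n i j * conj (X m i j)) *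
        ((G n ⬝ᵥ star (G m)) * conj (H n ⬝ᵥ star (H m))) := by
    have e1 : ∀ k l, ((‖A k l‖ ^ 2 : ℝ) : ℂ) = ∑ n ∈ range N, ∑ m ∈ range N,
        (X n k.1 k.2 * conj (X m k.1 k.2)) * ((G n l.1 * conj (G m l.1)) *
          (conj (H n l.2) * H m l.2)) := by
      intro k l
      push_cast
      rw [← Complex.mul_conj', hA]
      simp only [map_sum, map_mul, Complex.conj_conj]
      rw [Finset.sum_mul_sum]
      refine Finset.sum_congr rfl fun n _ => Finset.sum_congr rfl fun m _ => ?_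
      ring
    have e2 : ∀ n m, (∑ i, ∑ j, X n i j * conj (X m i j)) *
        ((G n ⬝ᵥ star (G m)) * conj (H n ⬝ᵥ star (H m))) =
        ∑ k : Fin d × Fin d, ∑ l : Fin d × Fin d, (X n k.1 k.2 * conj (X m k.1 k.2)) *
          ((G n l.1 * conj (G m l.1)) * (conj (H n l.2) * H m l.2)) := by
      intro n m
      have e3 : (∑ i, ∑ j, X n i j * conj (X m i j)) =
          ∑ k : Fin d × Fin d, X n k.1 k.2 * conj (X m k.1 k.2) := by
        rw [Fintype.sum_prod_type]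
      have e4 : (G n ⬝ᵥ star (G m)) * conj (H n ⬝ᵥ star (H m)) =
          ∑ l : Fin d × Fin d, (G n l.1 * conj (G m l.1)) * (conj (H n l.2) * H m l.2) := by
        rw [Fintype.sum_prod_type]
        simp only [dotProduct, Pi.star_apply, map_sum, map_mul, RCLike.star_def, Complex.conj_conj]
        rw [Finset.sum_mul_sum]
      rw [e3, e4, Finset.sum_mul_sum]
    have e7 : ((∑ k, ∑ l, ‖A k l‖ ^ 2 : ℝ) : ℂ) = ∑ k, ∑ l, ((‖A k l‖ ^ 2 : ℝ) : ℂ) := by
      rw [Complex.ofReal_sum]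
      exact Finset.sum_congr rfl fun k _ => Complex.ofReal_sum _ _
    rw [e7, Finset.sum_congr rfl fun n _ => Finset.sum_congr rfl fun m _ => e2 n m,
      Finset.sum_congr rfl fun k _ => Finset.sum_congr rfl fun l _ => e1 k l]
    have e5 : ∀ k : Fin d × Fin d, ∑ l : Fin d × Fin d, ∑ n ∈ range N, ∑ m ∈ range N,
        (X n k.1 k.2 * conj (X m k.1 k.2)) * ((G n l.1 * conj (G m l.1)) *
          (conj (H n l.2) * H m l.2)) = ∑ n ∈ range N, ∑ m ∈ range N, ∑ l : Fin d × Fin d,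
        (X n k.1 k.2 * conj (X m k.1 k.2)) * ((G n l.1 * conj (G m l.1)) *
          (conj (H n l.2) * H m l.2)) := by
      intro k
      rw [Finset.sum_comm]
      refine Finset.sum_congr rfl fun n _ => ?_
      rw [Finset.sum_comm]
    rw [Finset.sum_congr rfl fun k _ => e5 k, Finset.sum_comm]
    refine Finset.sum_congr rfl fun n _ => ?_
    rw [Finset.sum_comm]
  have h8 : (∑ n ∈ range N, ∑ m ∈ range N, (∑ i, ∑ j, X n i j * conj (X m i j)) *
        ((G n ⬝ᵥ star (G m)) * conj (H n ⬝ᵥ star (H m)))).re = ∑ k, ∑ l, ‖A k l‖ ^ 2 := by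
    rw [← h7, Complex.ofReal_re]
  rw [h1, h8]
  exact le_trans h2 (mul_le_mul_of_nonneg_left h6 (by positivity))

/-- Proof. By induction on `n`: `(tw^[n] X) w = (cm n w.1)ᴴ X(R^[n] w.1, R^[n] w.2) cm n w.2`. -/
theorem tw_iter {B : Type*} {d : ℕ} (R : B → B) (Ψ : B → Matrix (Fin d) (Fin d) ℂ)
    (X : B × B → Matrix (Fin d) (Fin d) ℂ) (n : ℕ) (w : B × B) :
    ((tw R Ψ)^[n] X) w = (cm R Ψ n w.1)ᴴ * X (R^[n] w.1, R^[n] w.2) * cm R Ψ n w.2 := by
  induction n generalizing X w with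
  | zero => simp [cm]
  | succ n ih =>
    rw [Function.iterate_succ_apply, ih (tw R Ψ X) w]
    simp only [tw, cm, Function.iterate_succ_apply', Matrix.conjTranspose_mul, Matrix.mul_assoc]

theorem cm_unit {B : Type*} {d : ℕ} (R : B → B) (Ψ : B → Matrix (Fin d) (Fin d) ℂ)
    (hu : ∀ x, Ψ x * (Ψ x)ᴴ = 1) (n : ℕ) (x : B) : cm R Ψ n x * (cm R Ψ n x)ᴴ = 1 := by
  induction n with
  | zero => simp [cm]
  | succ n ih =>
    have h1 : cm R Ψ (n + 1) x = Ψ (R^[n] x) * cm R Ψ n x := rfl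
    rw [h1, Matrix.conjTranspose_mul, Matrix.mul_assoc, ← Matrix.mul_assoc (cm R Ψ n x), ih,
      Matrix.one_mul, hu]

theorem cm_bmm {B : Type*} [MeasurableSpace B] {d : ℕ} (R : B → B) (hR : Measurable R)
    (Ψ : B → Matrix (Fin d) (Fin d) ℂ) (hΨ : BMM Ψ) (n : ℕ) : BMM (cm R Ψ n) := by
  induction n with
  | zero =>
    intro i j
    exact BM.const _
  | succ n ih =>
    intro i j
    have h1 : (fun x => cm R Ψ (n + 1) x i j) =
        fun x => ∑ k, Ψ (R^[n] x) i k * cm R Ψ n x k j := by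
      funext x
      rfl
    rw [h1]
    refine BM.sum _ fun k _ => ?_
    exact ((hΨ i k).comp (hR.iterate n)).mul (ih k j)

end Pool.Agent.Lib.H82OF
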