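import Pool.Agent.Lib.H82OF.CQ

/-!
# Project H82OF, chunk CQ2: the central inequality, assembly
-/

open MeasureTheory Filter Topology Finset ProbabilityTheory
open scoped ENNReal ComplexConjugate Matrix

namespace Pool.Agent.Lib.H82OF

open Pool.Agent.Lib.H22M Pool.Agent.Lib.H82T Pool.Agent.Lib.H82OT

private theorem CQ2_hs_trace {d : ℕ} (A B : Matrix (Fin d) (Fin d) ℂ) :
    ∑ i, ∑ j, A i j * conj (B i j) = (A * Bᴴ).trace := by
  simp only [Matrix.trace, Matrix.diag, Matrix.mul_apply, Matrix.conjTranspose_apply]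
  rfl

private theorem CQ2_hs_unit {d : ℕ} (A B U V : Matrix (Fin d) (Fin d) ℂ) (hU : U * Uᴴ = 1)
    (hV : V * Vᴴ = 1) :
    ∑ i, ∑ j, (Uᴴ * A * V) i j * conj ((Uᴴ * B * V) i j) = ∑ i, ∑ j, A i j * conj (B i j) := by
  rw [CQ2_hs_trace, CQ2_hs_trace]
  have h : Uᴴ * A * V * (Uᴴ * B * V)ᴴ = Uᴴ * (A * Bᴴ * U) := by
    rw [Matrix.conjTranspose_mul, Matrix.conjTranspose_mul, Matrix.conjTranspose_conjTranspose]
    calc Uᴴ * A * V * (Vᴴ * (Bᴴ * U)) = Uᴴ * A * (V * Vᴴ) * (Bᴴ * U) := by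
          simp only [Matrix.mul_assoc]
      _ = Uᴴ * (A * Bᴴ * U) := by
          rw [hV, Matrix.mul_one]
          simp only [Matrix.mul_assoc]
  rw [h, Matrix.trace_mul_comm, Matrix.mul_assoc, hU, Matrix.mul_one]

private theorem CQ2_hs_self {d : ℕ} (A : Matrix (Fin d) (Fin d) ℂ) :
    ((∑ i, ∑ j, ‖A i j‖ ^ 2 : ℝ) : ℂ) = ∑ i, ∑ j, A i j * conj (A i j) := by
  push_cast
  refine Finset.sum_congr rfl fun i _ => Finset.sum_congr rfl fun j _ => ?_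
  exact (Complex.mul_conj' (A i j)).symm

private theorem CQ2_norm_unit {d : ℕ} (A U V : Matrix (Fin d) (Fin d) ℂ) (hU : U * Uᴴ = 1)
    (hV : V * Vᴴ = 1) :
    ∑ i, ∑ j, ‖(Uᴴ * A * V) i j‖ ^ 2 = ∑ i, ∑ j, ‖A i j‖ ^ 2 := by
  have h := (CQ2_hs_self (Uᴴ * A * V)).trans
    ((CQ2_hs_unit A A U V hU hV).trans (CQ2_hs_self A).symm)
  exact_mod_cast h

private theorem CQ2_hs_le {d : ℕ} (A B : Matrix (Fin d) (Fin d) ℂ) (T : ℝ)
    (hA : ∑ i, ∑ j, ‖A i j‖ ^ 2 ≤ T) (hB : ∑ i, ∑ j, ‖B i j‖ ^ 2 ≤ T) :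
    ‖∑ i, ∑ j, A i j * conj (B i j)‖ ≤ T := by
  calc ‖∑ i, ∑ j, A i j * conj (B i j)‖ ≤ ∑ i, ∑ j, ‖A i j‖ * ‖B i j‖ := by
        refine (norm_sum_le _ _).trans (Finset.sum_le_sum fun i _ => ?_)
        refine (norm_sum_le _ _).trans (Finset.sum_le_sum fun j _ => ?_)
        rw [norm_mul, RCLike.norm_conj]
    _ ≤ ∑ i, ∑ j, (‖A i j‖ ^ 2 / 2 + ‖B i j‖ ^ 2 / 2) := by
        refine Finset.sum_le_sum fun i _ => Finset.sum_le_sum fun j _ => ?_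
        nlinarith [sq_nonneg (‖A i j‖ - ‖B i j‖)]
    _ = (∑ i, ∑ j, ‖A i j‖ ^ 2) / 2 + (∑ i, ∑ j, ‖B i j‖ ^ 2) / 2 := by
        simp only [Finset.sum_add_distrib, Finset.sum_div]
    _ ≤ T := by linarith

private theorem CQ2_norm_integral_sq {Ω : Type*} [MeasurableSpace Ω] (μ : Measure Ω)
    [IsProbabilityMeasure μ] (f : Ω → ℂ) (hf : BM f) :
    ‖∫ w, f w ∂μ‖ ^ 2 ≤ ∫ w, ‖f w‖ ^ 2 ∂μ := by
  have h1 : Integrable (fun w => ‖f w‖) μ := hf.integrable.norm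
  have h2 : Integrable (fun w => ‖f w‖ ^ 2) μ := by
    have := (hf.mul hf).integrable (m := μ)
    refine this.norm.congr (Eventually.of_forall fun w => ?_)
    show ‖f w * f w‖ = ‖f w‖ ^ 2
    rw [norm_mul, sq]
  set c := ∫ w, ‖f w‖ ∂μ with hc
  have h3 : 0 ≤ ∫ w, (‖f w‖ - c) ^ 2 ∂μ := integral_nonneg fun w => sq_nonneg _
  have h4 : ∫ w, (‖f w‖ - c) ^ 2 ∂μ = (∫ w, ‖f w‖ ^ 2 ∂μ) - c ^ 2 := by
    have e : ∀ w, (‖f w‖ - c) ^ 2 = ‖f w‖ ^ 2 - (2 * c * ‖f w‖ - c ^ 2) := fun w => by ring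
    simp_rw [e]
    have hi : Integrable (fun w => 2 * c * ‖f w‖ - c ^ 2) μ :=
      (h1.const_mul _).sub (integrable_const _)
    rw [integral_sub h2 hi, integral_sub (h1.const_mul (2 * c)) (integrable_const (c ^ 2)),
      integral_const_mul, ← hc, integral_const, probReal_univ, one_smul]
    ring
  have h5 : ‖∫ w, f w ∂μ‖ ≤ c := norm_integral_le_integral_norm _
  have h6 : ‖∫ w, f w ∂μ‖ ^ 2 ≤ c ^ 2 := pow_le_pow_left₀ (norm_nonneg _) h5 2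
  linarith

/-- Proof. `γ n j w = ∑_{i,k} (tw^[n] X w)_ik conj ((tw^[j] X w)_ik)`. Bounded by `d² C²`: a twisted
translation preserves the Hilbert-Schmidt norm up to the point (`tw_iter`, `cm_unit`), which is at most
`d C` (cut `γ` off if convenient; here the bound holds everywhere). Invariance: `tw^[q] (tw^[n] X) =
tw^[n] X` a.e. (`tw` respects equality a.e. since `R × R` preserves `σ`, and `tw^[q] X = X` a.e.), so by
`tw_iter` `(tw^[n] X)(R^[q] w.1, R^[q] w.2) = cm q w.1 (tw^[n] X)(w) (cm q w.2)ᴴ` a.e., and the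
Hilbert-Schmidt inner product is invariant under multiplication by unitary matrices.
Inequality: by `QQ_tw_iter` `QQ σ X G H = QQ σ (tw^[n] X) (evr^[n] G) (evr^[n] H)` for all `n`; sum over
`n < N`: `N QQ σ X G H = ∫ ∑_n ∑_ij (evr^[n] G)_i (tw^[n] X)_ij conj ((evr^[n] H)_j) dσ`, so
`N² ‖QQ‖² ≤ ∫ ‖∑_n …‖² dσ ≤ d² re ∫ ∑_{n,j} γ n j (aa G n j)(w.1) conj ((aa H n j)(w.2)) dσ` (`trace_cs`). -/
theorem central {B : Type*} [MeasurableSpace B] {d : ℕ} (σ : Measure (B × B))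
    [IsProbabilityMeasure σ] (R : B → B) (hR : Measurable R)
    (hσ : MeasurePreserving (Prod.map R R) σ σ) (Ψ : B → Matrix (Fin d) (Fin d) ℂ)
    (hΨ : BMM Ψ) (hu : ∀ x, Ψ x * (Ψ x)ᴴ = 1) (X : B × B → Matrix (Fin d) (Fin d) ℂ)
    (hX : BMM X) (C : ℝ) (hC0 : 0 ≤ C) (hC : ∀ w i j, ‖X w i j‖ ≤ C) (q : ℕ)
    (hXq : ∀ᵐ w ∂σ, ((tw R Ψ)^[q] X) w = X w) :
    ∃ γ : ℕ → ℕ → B × B → ℂ, (∀ n j, BM (γ n j) ∧ (∀ w, ‖γ n j w‖ ≤ (d : ℝ) ^ 2 * C ^ 2) ∧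
        ∀ᵐ w ∂σ, γ n j (Prod.map (R^[q]) (R^[q]) w) = γ n j w) ∧
      ∀ (G H : B → Fin d → ℂ), BMR G → BMR H → ∀ N : ℕ,
        ‖QQ σ X G H‖ ^ 2 * (N : ℝ) ^ 2 ≤ (d : ℝ) ^ 2 * ∑ n ∈ range N, ∑ j ∈ range N,
          ‖∫ w, γ n j w * (aa R Ψ G n j w.1 * conj (aa R Ψ H n j w.2)) ∂σ‖ := by
  have h0 : BMR (fun (_ : B) (_ : Fin d) => (0 : ℂ)) := fun _ => BM.const 0
  have hY : ∀ n, BMM ((tw R Ψ)^[n] X) := fun n =>
    (QQ_tw_iter σ R hR hσ Ψ hΨ hu X hX _ _ h0 h0 n).1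
  have hcm := cm_unit R Ψ hu
  have hnorm : ∀ n w, ∑ i, ∑ j, ‖((tw R Ψ)^[n] X) w i j‖ ^ 2 ≤ (d : ℝ) ^ 2 * C ^ 2 := by
    intro n w
    rw [tw_iter R Ψ X n w, CQ2_norm_unit _ _ _ (hcm n w.1) (hcm n w.2)]
    calc ∑ i, ∑ j, ‖X (R^[n] w.1, R^[n] w.2) i j‖ ^ 2
        ≤ ∑ _i : Fin d, ∑ _j : Fin d, C ^ 2 :=
          Finset.sum_le_sum fun i _ => Finset.sum_le_sum fun j _ =>
            pow_le_pow_left₀ (norm_nonneg _) (hC _ i j) 2
      _ = (d : ℝ) ^ 2 * C ^ 2 := by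
          simp only [Finset.sum_const, Finset.card_univ, Fintype.card_fin, nsmul_eq_mul]
          ring
  have key : ∀ n, ∀ᵐ w ∂σ, ((tw R Ψ)^[q] ((tw R Ψ)^[n] X)) w = ((tw R Ψ)^[n] X) w := by
    intro n
    filter_upwards [(hσ.iterate n).quasiMeasurePreserving.ae hXq] with w hw
    have e : (tw R Ψ)^[q] ((tw R Ψ)^[n] X) = (tw R Ψ)^[n] ((tw R Ψ)^[q] X) := by
      rw [← Function.iterate_add_apply, add_comm, Function.iterate_add_apply]
    rw [Prod.map_iterate] at hw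
    rw [e, tw_iter R Ψ ((tw R Ψ)^[q] X) n w, tw_iter R Ψ X n w]
    have hw' : ((tw R Ψ)^[q] X) (R^[n] w.1, R^[n] w.2) = X (R^[n] w.1, R^[n] w.2) := hw
    rw [hw']
  refine ⟨fun n j w => ∑ i, ∑ k, ((tw R Ψ)^[n] X) w i k * conj (((tw R Ψ)^[j] X) w i k),
    fun n j => ⟨?_, ?_, ?_⟩, ?_⟩
  · exact BM.sum _ fun i _ => BM.sum _ fun k _ => (hY n i k).mul (hY j i k).conj
  · intro w
    exact CQ2_hs_le _ _ _ (hnorm n w) (hnorm j w)
  · filter_upwards [key n, key j] with w h1 h2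
    rw [tw_iter] at h1 h2
    have h3 := CQ2_hs_unit (((tw R Ψ)^[n] X) (R^[q] w.1, R^[q] w.2))
      (((tw R Ψ)^[j] X) (R^[q] w.1, R^[q] w.2)) (cm R Ψ q w.1) (cm R Ψ q w.2) (hcm q w.1)
      (hcm q w.2)
    rw [h1, h2] at h3
    exact h3.symm
  · intro G H hG hH N
    have hG' : ∀ n, BMR ((evr R Ψ)^[n] G) := fun n =>
      (QQ_tw_iter σ R hR hσ Ψ hΨ hu X hX G H hG hH n).2.1
    have hH' : ∀ n, BMR ((evr R Ψ)^[n] H) := fun n =>
      (QQ_tw_iter σ R hR hσ Ψ hΨ hu X hX H H hH hH n).2.1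
    have hQ : ∀ n, QQ σ ((tw R Ψ)^[n] X) ((evr R Ψ)^[n] G) ((evr R Ψ)^[n] H) = QQ σ X G H :=
      fun n => (QQ_tw_iter σ R hR hσ Ψ hΨ hu X hX G H hG hH n).2.2
    set f : ℕ → B × B → ℂ := fun n w => ∑ i, ∑ j, ((evr R Ψ)^[n] G) w.1 i *
      ((tw R Ψ)^[n] X) w i j * conj (((evr R Ψ)^[n] H) w.2 j) with hf
    have hfB : ∀ n, BM (f n) := fun n =>
      BM.sum _ fun i _ => BM.sum _ fun j _ =>
        (((hG' n i).comp measurable_fst).mul (hY n i j)).mul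
          ((hH' n j).comp measurable_snd).conj
    have hfQ : ∀ n, ∫ w, f n w ∂σ = QQ σ X G H := fun n => hQ n
    have hS : ∫ w, ∑ n ∈ range N, f n w ∂σ = (N : ℂ) * QQ σ X G H := by
      rw [integral_finsetSum _ fun n _ => (hfB n).integrable]
      simp only [hfQ, Finset.sum_const, Finset.card_range, nsmul_eq_mul]
    set T : B × B → ℂ := fun w => ∑ n ∈ range N, ∑ j ∈ range N,
      (∑ i, ∑ k, ((tw R Ψ)^[n] X) w i k * conj (((tw R Ψ)^[j] X) w i k)) *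
        (aa R Ψ G n j w.1 * conj (aa R Ψ H n j w.2)) with hT
    have haG : ∀ n j, BM (aa R Ψ G n j) := fun n j => by
      show BM fun y => ∑ i ∈ Finset.univ, ((evr R Ψ)^[n] G) y i * conj (((evr R Ψ)^[j] G) y i)
      exact BM.sum _ fun i _ => (hG' n i).mul (hG' j i).conj
    have haH : ∀ n j, BM (aa R Ψ H n j) := fun n j => by
      show BM fun y => ∑ i ∈ Finset.univ, ((evr R Ψ)^[n] H) y i * conj (((evr R Ψ)^[j] H) y i)
      exact BM.sum _ fun i _ => (hH' n i).mul (hH' j i).conj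
    have hTB1 : ∀ n j, BM fun w : B × B =>
        (∑ i, ∑ k, ((tw R Ψ)^[n] X) w i k * conj (((tw R Ψ)^[j] X) w i k)) *
        (aa R Ψ G n j w.1 * conj (aa R Ψ H n j w.2)) := fun n j =>
      (BM.sum _ fun i _ => BM.sum _ fun k _ => (hY n i k).mul (hY j i k).conj).mul
        (((haG n j).comp measurable_fst).mul ((haH n j).comp measurable_snd).conj)
    have hTB : BM T := BM.sum _ fun n _ => BM.sum _ fun j _ => hTB1 n j
    have hpt : ∀ w, ‖∑ n ∈ range N, f n w‖ ^ 2 ≤ (d : ℝ) ^ 2 * (T w).re := fun w =>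
      trace_cs N (fun n => ((tw R Ψ)^[n] X) w) (fun n => ((evr R Ψ)^[n] G) w.1)
        (fun n => ((evr R Ψ)^[n] H) w.2)
    have hSB : BM fun w => ∑ n ∈ range N, f n w := BM.sum _ fun n _ => hfB n
    have h1 := CQ2_norm_integral_sq σ _ hSB
    rw [hS, norm_mul, mul_pow, Complex.norm_natCast, mul_comm] at h1
    refine h1.trans ?_
    have hi1 : Integrable (fun w => ‖∑ n ∈ range N, f n w‖ ^ 2) σ := by
      refine ((hSB.mul hSB).integrable (m := σ)).norm.congr (Eventually.of_forall fun w => ?_)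
      show ‖(∑ n ∈ range N, f n w) * ∑ n ∈ range N, f n w‖ = ‖∑ n ∈ range N, f n w‖ ^ 2
      rw [norm_mul, sq]
    have hi2 : Integrable (fun w => (T w).re) σ := hTB.integrable.re
    have h2 : ∫ w, ‖∑ n ∈ range N, f n w‖ ^ 2 ∂σ ≤ ∫ w, (d : ℝ) ^ 2 * (T w).re ∂σ :=
      integral_mono hi1 (hi2.const_mul _) hpt
    refine h2.trans ?_
    rw [integral_const_mul]
    refine mul_le_mul_of_nonneg_left ?_ (by positivity)
    have h3 : ∫ w, (T w).re ∂σ = (∫ w, T w ∂σ).re := integral_re hTB.integrable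
    rw [h3]
    refine (Complex.re_le_norm _).trans ?_
    have h4 : ∫ w, T w ∂σ = ∑ n ∈ range N, ∑ j ∈ range N, ∫ w,
        (∑ i, ∑ k, ((tw R Ψ)^[n] X) w i k * conj (((tw R Ψ)^[j] X) w i k)) *
        (aa R Ψ G n j w.1 * conj (aa R Ψ H n j w.2)) ∂σ := by
      rw [hT, integral_finsetSum _ fun n _ =>
        (BM.sum _ fun j _ => hTB1 n j).integrable]
      refine Finset.sum_congr rfl fun n _ => ?_
      rw [integral_finsetSum _ fun j _ => (hTB1 n j).integrable]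
    rw [h4]
    refine (norm_sum_le _ _).trans (Finset.sum_le_sum fun n _ => ?_)
    exact norm_sum_le _ _

end Pool.Agent.Lib.H82OF
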