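import Pool.Agent.Lib.H82OT.KP5
import Pool.Agent.Lib.H82OT.LT1
import Pool.Agent.Lib.H22M.SZ

/-!
# Project H82OF (MP_10e165_an): definitions

Moebius disjointness in order three with an ARBITRARY compact group in the second step: one isometric
step with arbitrary fibre over an arbitrary compact group extension of the Kronecker factor. The paper
proof is `PROOF.md` in this folder.
-/

open MeasureTheory Filter Topology Finset ProbabilityTheory
open scoped ENNReal ComplexConjugate Matrix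

namespace Pool.Agent.Lib.H82OF

open Pool.Agent.Lib.H22M Pool.Agent.Lib.H82T Pool.Agent.Lib.H82OT

/-! ## Matrix valued functions -/

/-- Matrix valued functions with bounded measurable entries. -/
def BMM {Ω : Type*} [MeasurableSpace Ω] {d e : ℕ} (X : Ω → Matrix (Fin d) (Fin e) ℂ) : Prop :=
  ∀ i j, BM fun ω => X ω i j

/-- Rows with bounded measurable entries. -/
def BMR {Ω : Type*} [MeasurableSpace Ω] {d : ℕ} (F : Ω → Fin d → ℂ) : Prop :=
  ∀ i, BM fun ω => F ω i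

/-- Matrix valued functions whose entries are bounded and measurable for the σ-algebra `𝒲`. -/
def WM {Ω : Type*} (𝒲 : MeasurableSpace Ω) {d e : ℕ} (X : Ω → Matrix (Fin d) (Fin e) ℂ) : Prop :=
  (∀ i j, Measurable[𝒲] fun ω => X ω i j) ∧ ∃ C : ℝ, ∀ ω i j, ‖X ω i j‖ ≤ C

/-- Functions bounded and measurable for the σ-algebra `𝒲`. -/
def WB {Ω : Type*} (𝒲 : MeasurableSpace Ω) (f : Ω → ℂ) : Prop :=
  Measurable[𝒲] f ∧ ∃ C : ℝ, ∀ ω, ‖f ω‖ ≤ C

/-! ## Representations -/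

/-- A continuous unitary matrix representation of `K`. -/
structure Rep {K : Type*} [Group K] [TopologicalSpace K] {d : ℕ}
    (π : K → Matrix (Fin d) (Fin d) ℂ) : Prop where
  cont : ∀ i j, Continuous fun k => π k i j
  mul : ∀ g h, π (g * h) = π g * π h
  unit : ∀ g, π g * (π g)ᴴ = 1

/-- An irreducible unitary matrix representation: the commutant consists of the scalars. -/
structure Irr {K : Type*} [Group K] [TopologicalSpace K] {d : ℕ}
    (π : K → Matrix (Fin d) (Fin d) ℂ) : Prop extends Rep π where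
  irr : ∀ n : Matrix (Fin d) (Fin d) ℂ, (∀ g, π g * n = n * π g) → ∃ c : ℂ, n = c • 1

/-- Inequivalent: all averages `∫ π(k) n π'(k)ᴴ dk` vanish. -/
def Ineq {K : Type*} [MeasurableSpace K] (muK : Measure K) {d e : ℕ}
    (π : K → Matrix (Fin d) (Fin d) ℂ) (π' : K → Matrix (Fin e) (Fin e) ℂ) : Prop :=
  ∀ (n : Matrix (Fin d) (Fin e) ℂ) (i : Fin d) (j : Fin e),
    ∫ k, (π k * n * (π' k)ᴴ) i j ∂muK = 0

/-- The functions `f(z, k) = A(z) · π(k) w` of an irreducible representation. -/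
def IrrF {Z K : Type*} [MeasurableSpace Z] [Group K] [TopologicalSpace K] (f : Z × K → ℂ) :
    Prop :=
  ∃ (d : ℕ) (π : K → Matrix (Fin d) (Fin d) ℂ) (w : Fin d → ℂ) (A : Z → Fin d → ℂ),
    Irr π ∧ BMR A ∧ ∀ y, f y = A y.1 ⬝ᵥ (π y.2 *ᵥ w)

/-! ## The base: a group extension of the Kronecker factor -/

/-- `R = skew α φ` on `Z × K` (`R (z, k) = (α z, φ(z) k)`) is ergodic, its eigenfunctions are functions
of `z`, and its only eigenvalue which is a root of unity is `1`. -/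
structure Base {Z K : Type*} [CommGroup Z] [MeasurableSpace Z] [Group K] [MeasurableSpace K]
    (lam : Measure Z) (muK : Measure K) (α : Z) (φ : Z → K) : Prop where
  meas : Measurable φ
  erg : Ergodic (skew (M := K) α φ) (lam.prod muK)
  kron : ∀ (e : Z × K → ℂ) (l : ℂ), BM e →
    (∀ᵐ y ∂(lam.prod muK), e (skew α φ y) = l * e y) →
    ∃ g : Z → ℂ, BM g ∧ ∀ᵐ y ∂(lam.prod muK), e y = g y.1
  root : ∀ c : ℂ, IsEigenvalue (lam.prod muK) (skew (M := K) α φ) c → ∀ n : ℕ, 1 ≤ n →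
    c ^ n = 1 → c = 1

/-! ## The relative square -/

/-- `σ` is the relative square of `ρ` over the σ-algebra `GG` of the first coordinate and the
invariant sets. -/
structure IsRel {Y : Type*} [MeasurableSpace Y] (R : Y → Y) (p q : ℕ)
    (ρ σ : Measure (Y × Y)) : Prop where
  prob : IsProbabilityMeasure σ
  int : ∀ f g : Y → ℂ, BM f → BM g → ∫ z, f z.1 * g z.2 ∂σ =
    ∫ w, (ρ[fun z => f z.2|GG R p q ρ]) w * (ρ[fun z => g z.2|GG R p q ρ]) w ∂ρ

/-- On `(Z × K) × (Z × K)`: the σ-algebra of `z₁, z₂` and the invariant sets. -/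
@[reducible] def WZ {Z K : Type*} [MeasurableSpace Z] [MeasurableSpace K] (R : Z × K → Z × K)
    (p q : ℕ) (ρ : Measure ((Z × K) × (Z × K))) : MeasurableSpace ((Z × K) × (Z × K)) :=
  MeasurableSpace.comap (fun w : (Z × K) × (Z × K) => (w.1.1, w.2.1)) inferInstance ⊔
    aeInv ρ (Prod.map (R^[p]) (R^[q]))

/-- On `(Z × K) × (Z × K)`: the σ-algebra of `z₁` and the invariant sets. -/
@[reducible] def G1 {Z K : Type*} [MeasurableSpace Z] [MeasurableSpace K] (R : Z × K → Z × K)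
    (p q : ℕ) (ρ : Measure ((Z × K) × (Z × K))) : MeasurableSpace ((Z × K) × (Z × K)) :=
  MeasurableSpace.comap (fun w : (Z × K) × (Z × K) => w.1.1) inferInstance ⊔
    aeInv ρ (Prod.map (R^[p]) (R^[q]))

/-- The projection of a measure on `(Z × K) × (Z × K)` to `Z × Z`. -/
noncomputable def prZ {Z K : Type*} [MeasurableSpace Z] [MeasurableSpace K]
    (σ : Measure ((Z × K) × (Z × K))) : Measure (Z × Z) :=
  σ.map (Prod.map (Prod.fst : Z × K → Z) (Prod.fst : Z × K → Z))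

/-! ## Twisted translations and quadratic forms -/

/-- `(tw X)(w) = Ψ(w.1)ᴴ X(R w.1, R w.2) Ψ(w.2)`. -/
def tw {B : Type*} {d : ℕ} (R : B → B) (Ψ : B → Matrix (Fin d) (Fin d) ℂ)
    (X : B × B → Matrix (Fin d) (Fin d) ℂ) : B × B → Matrix (Fin d) (Fin d) ℂ :=
  fun w => (Ψ w.1)ᴴ * X (R w.1, R w.2) * Ψ w.2

/-- `∫ ∑ G_i(w.1) X_ij(w) conj (H_j(w.2)) dσ`. -/
noncomputable def QQ {B : Type*} [MeasurableSpace B] {d : ℕ} (σ : Measure (B × B))
    (X : B × B → Matrix (Fin d) (Fin d) ℂ) (G H : B → Fin d → ℂ) : ℂ :=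
  ∫ w, ∑ i, ∑ j, G w.1 i * X w i j * conj (H w.2 j) ∂σ

/-- The iterated cocycle: `cm n x = Ψ(R^(n-1) x) ⋯ Ψ(R x) Ψ(x)`. -/
def cm {B : Type*} {d : ℕ} (R : B → B) (Ψ : B → Matrix (Fin d) (Fin d) ℂ) :
    ℕ → B → Matrix (Fin d) (Fin d) ℂ
  | 0, _ => 1
  | n + 1, x => Ψ (R^[n] x) * cm R Ψ n x

/-- The map `(z, z') ↦ (z c^i, z c^(i+1))`, `c = z' / z`. -/
def th {Z : Type*} [CommGroup Z] (i : ℕ) (w : Z × Z) : Z × Z :=
  (w.1 * (w.2 * w.1⁻¹) ^ i, w.1 * (w.2 * w.1⁻¹) ^ (i + 1))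

/-! ## Small pairs -/

/-- `q` is a bad prime for `a, b, ε, p` at the level of the relative squares, with weights invariant
under `R^q × R^q`. -/
def BadJ {B : Type*} [MeasurableSpace B] (m : Measure B) (R : B → B) (a b : B → ℂ) (ε : ℝ)
    (p q : ℕ) : Prop :=
  ∃ (ρ σ : Measure (B × B)) (J : B × B → ℂ), IsJoin m R p q ρ ∧ IsRel R p q ρ σ ∧ BM J ∧
    (∀ z, ‖J z‖ ≤ 1) ∧ (∀ᵐ z ∂σ, J (Prod.map (R^[q]) (R^[q]) z) = J z) ∧
    ε < ‖∫ z, J z * (a z.1 * conj (b z.2)) ∂σ‖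

/-- For every `ε` and every good prime `p` at most `m0` primes `q` are bad in the sense of `BadJ`. -/
def SmJ {B : Type*} [MeasurableSpace B] (m : Measure B) (R : B → B) (a b : B → ℂ) : Prop :=
  ∀ ε : ℝ, 0 < ε → ∃ F0 : Finset ℂ, (1 : ℂ) ∉ F0 ∧ ∃ m0 : ℕ,
    ∀ p ∈ goodPrimes m R F0, ∀ Q : Finset ℕ,
      (∀ q ∈ Q, q.Prime ∧ q ≠ p ∧ BadJ m R a b ε p q) → Q.card ≤ m0

/-- `q` is a bad prime for the pair `f, g`: some joining of `R^p` and `R^q` correlates them. -/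
def BadP {Y : Type*} [MeasurableSpace Y] (m : Measure Y) (R : Y → Y) (f g : Y → ℂ) (ε : ℝ)
    (p q : ℕ) : Prop :=
  ∃ ρ : Measure (Y × Y), IsJoin m R p q ρ ∧
    ε < ‖∫ z, f z.1 * conj (g z.2) ∂ρ - (∫ y, f y ∂m) * conj (∫ y, g y ∂m)‖

/-- For every `ε` and every good prime `p` (outside a finite set) at most `m0` primes are bad for the
pair `f, g`. -/
def PS {Y : Type*} [MeasurableSpace Y] (m : Measure Y) (R : Y → Y) (f g : Y → ℂ) : Prop :=
  ∀ ε : ℝ, 0 < ε → ∃ F0 : Finset ℂ, (1 : ℂ) ∉ F0 ∧ ∃ (P0 : Finset ℕ) (m0 : ℕ),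
    ∀ p ∈ goodPrimes m R F0, p ∉ P0 → ∀ Q : Finset ℕ,
      (∀ q ∈ Q, q.Prime ∧ q ≠ p ∧ BadP m R f g ε p q) → Q.card ≤ m0

/-! ## Small lemmas -/

theorem BMM.conj {Ω : Type*} [MeasurableSpace Ω] {d e : ℕ} {X : Ω → Matrix (Fin d) (Fin e) ℂ}
    (hX : BMM X) : BMM fun ω => (X ω)ᴴ := fun i j => by
  simpa [Matrix.conjTranspose_apply] using (hX j i).conj

theorem BMM.mul {Ω : Type*} [MeasurableSpace Ω] {d e f : ℕ} {X : Ω → Matrix (Fin d) (Fin e) ℂ}
    {X' : Ω → Matrix (Fin e) (Fin f) ℂ} (hX : BMM X) (hX' : BMM X') : BMM fun ω => X ω * X' ω :=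
  fun i j => by
    simp_rw [Matrix.mul_apply]
    exact BM.sum _ fun k _ => (hX i k).mul (hX' k j)

theorem BMM.comp {Ω Ω' : Type*} [MeasurableSpace Ω] [MeasurableSpace Ω'] {d e : ℕ}
    {X : Ω → Matrix (Fin d) (Fin e) ℂ} (hX : BMM X) {g : Ω' → Ω} (hg : Measurable g) :
    BMM fun ω => X (g ω) := fun i j => (hX i j).comp hg

theorem BMM.smul {Ω : Type*} [MeasurableSpace Ω] {d e : ℕ} {X : Ω → Matrix (Fin d) (Fin e) ℂ}
    (c : ℂ) (hX : BMM X) : BMM fun ω => c • X ω := fun i j => by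
  simpa [Matrix.smul_apply] using (BM.const (Y := Ω) c).mul (hX i j)

theorem BMM.add {Ω : Type*} [MeasurableSpace Ω] {d e : ℕ} {X X' : Ω → Matrix (Fin d) (Fin e) ℂ}
    (hX : BMM X) (hX' : BMM X') : BMM fun ω => X ω + X' ω := fun i j => by
  simpa [Matrix.add_apply] using (hX i j).add (hX' i j)

/-- The entries of a unitary matrix are bounded by `1`. -/
theorem unit_entry {d : ℕ} {U : Matrix (Fin d) (Fin d) ℂ} (h : U * Uᴴ = 1) (i j : Fin d) :
    ‖U i j‖ ≤ 1 := by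
  have h1 : ∑ k, U i k * conj (U i k) = 1 := by
    have := congrFun (congrFun h i) i
    simpa [Matrix.mul_apply, Matrix.conjTranspose_apply] using this
  have h2 : (∑ k, ‖U i k‖ ^ 2 : ℝ) = 1 := by
    have h3 : ((∑ k, ‖U i k‖ ^ 2 : ℝ) : ℂ) = 1 := by
      rw [← h1, Complex.ofReal_sum]
      refine Finset.sum_congr rfl fun k _ => ?_
      rw [Complex.mul_conj, Complex.normSq_eq_norm_sq]
    exact_mod_cast h3
  have h4 : ‖U i j‖ ^ 2 ≤ 1 := by
    rw [← h2]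
    exact Finset.single_le_sum (f := fun k => ‖U i k‖ ^ 2) (fun _ _ => by positivity)
      (Finset.mem_univ j)
  nlinarith [norm_nonneg (U i j)]

theorem Rep.one {K : Type*} [Group K] [TopologicalSpace K] {d : ℕ}
    {π : K → Matrix (Fin d) (Fin d) ℂ} (h : Rep π) : π 1 = 1 := by
  have h1 : π 1 = π 1 * π 1 := by rw [← h.mul, one_mul]
  calc π 1 = π 1 * (π 1 * (π 1)ᴴ) := by rw [h.unit, mul_one]
    _ = (π 1 * π 1) * (π 1)ᴴ := by rw [mul_assoc]
    _ = π 1 * (π 1)ᴴ := by rw [← h1]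
    _ = 1 := h.unit 1

theorem Rep.unit' {K : Type*} [Group K] [TopologicalSpace K] {d : ℕ}
    {π : K → Matrix (Fin d) (Fin d) ℂ} (h : Rep π) (g : K) : (π g)ᴴ * π g = 1 :=
  mul_eq_one_comm.1 (h.unit g)

theorem Rep.bmm {K : Type*} [Group K] [TopologicalSpace K] [MeasurableSpace K] [BorelSpace K]
    {d : ℕ} {π : K → Matrix (Fin d) (Fin d) ℂ} (h : Rep π) : BMM π :=
  fun i j => ⟨(h.cont i j).measurable, 1, fun k => unit_entry (h.unit k) i j⟩

theorem WB.bm {Ω : Type*} {𝒲 : MeasurableSpace Ω} [mΩ : MeasurableSpace Ω] {f : Ω → ℂ}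
    (hf : WB 𝒲 f) (hle : 𝒲 ≤ mΩ) : BM f := ⟨hf.1.mono hle le_rfl, hf.2⟩

theorem WM.wb {Ω : Type*} {𝒲 : MeasurableSpace Ω} {d e : ℕ} {X : Ω → Matrix (Fin d) (Fin e) ℂ}
    (hX : WM 𝒲 X) (i : Fin d) (j : Fin e) : WB 𝒲 fun ω => X ω i j := by
  obtain ⟨h, C, hC⟩ := hX
  exact ⟨h i j, C, fun ω => hC ω i j⟩

theorem WM.bmm {Ω : Type*} {𝒲 : MeasurableSpace Ω} [mΩ : MeasurableSpace Ω] {d e : ℕ}
    {X : Ω → Matrix (Fin d) (Fin e) ℂ} (hX : WM 𝒲 X) (hle : 𝒲 ≤ mΩ) : BMM X :=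
  fun i j => (hX.wb i j).bm hle

theorem WZ_le {Z K : Type*} [MeasurableSpace Z] [MeasurableSpace K] (R : Z × K → Z × K)
    (p q : ℕ) (ρ : Measure ((Z × K) × (Z × K))) :
    WZ R p q ρ ≤ (inferInstance : MeasurableSpace ((Z × K) × (Z × K))) :=
  sup_le (Measurable.comap_le (by fun_prop)) (aeInv_le _ _)

theorem G1_le_WZ {Z K : Type*} [MeasurableSpace Z] [MeasurableSpace K] (R : Z × K → Z × K)
    (p q : ℕ) (ρ : Measure ((Z × K) × (Z × K))) : G1 R p q ρ ≤ WZ R p q ρ := by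
  refine sup_le ?_ le_sup_right
  refine le_trans ?_ le_sup_left
  rw [show (fun w : (Z × K) × (Z × K) => w.1.1) =
    Prod.fst ∘ (fun w : (Z × K) × (Z × K) => (w.1.1, w.2.1)) from rfl,
    ← MeasurableSpace.comap_comp]
  exact MeasurableSpace.comap_mono measurable_fst.comap_le

theorem G1_le_GG {Z K : Type*} [MeasurableSpace Z] [MeasurableSpace K] (R : Z × K → Z × K)
    (p q : ℕ) (ρ : Measure ((Z × K) × (Z × K))) : G1 R p q ρ ≤ GG R p q ρ := by
  refine sup_le ?_ le_sup_right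
  refine le_trans ?_ le_sup_left
  rw [show (fun w : (Z × K) × (Z × K) => w.1.1) =
    Prod.fst ∘ (fun w : (Z × K) × (Z × K) => w.1) from rfl, ← MeasurableSpace.comap_comp]
  exact MeasurableSpace.comap_mono measurable_fst.comap_le

theorem G1_le {Z K : Type*} [MeasurableSpace Z] [MeasurableSpace K] (R : Z × K → Z × K)
    (p q : ℕ) (ρ : Measure ((Z × K) × (Z × K))) :
    G1 R p q ρ ≤ (inferInstance : MeasurableSpace ((Z × K) × (Z × K))) :=
  (G1_le_WZ R p q ρ).trans (WZ_le R p q ρ)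

end Pool.Agent.Lib.H82OF
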