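import Pool.Agent.Lib.H82OF.CE

/-!
# Project H82OF, chunk EK1: the kernel of a representation
-/

open MeasureTheory Filter Topology Finset ProbabilityTheory
open scoped ENNReal ComplexConjugate Matrix

namespace Pool.Agent.Lib.H82OF

open Pool.Agent.Lib.H22M Pool.Agent.Lib.H82T Pool.Agent.Lib.H82OT

section

variable {Z K : Type*} [CommGroup Z] [TopologicalSpace Z] [IsTopologicalGroup Z]
  [CompactSpace Z] [T2Space Z] [SecondCountableTopology Z] [MeasurableSpace Z] [BorelSpace Z]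
  [Group K] [TopologicalSpace K] [IsTopologicalGroup K] [CompactSpace K] [T2Space K]
  [SecondCountableTopology K] [MeasurableSpace K] [BorelSpace K]

/-- Proof. `X_ij` = the function of `exists_cond` (CE) for `f w = (π(w.1.2) w₀)_i conj ((π(w.2.2) w₀')_j)`
and the map `w ↦ (w.1.1, w.2.1)` (the law is `prZ σ`); expand the dot products and use `exists_cond` for
`h (z, z') = A_i(z) conj A'_j(z')`. -/
theorem exists_kernel (σ : Measure ((Z × K) × (Z × K))) [IsProbabilityMeasure σ] {d : ℕ}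
    {π : K → Matrix (Fin d) (Fin d) ℂ} (hπ : Rep π) (w₀ w₀' : Fin d → ℂ) :
    ∃ X : Z × Z → Matrix (Fin d) (Fin d) ℂ, BMM X ∧
      ∀ A A' : Z → Fin d → ℂ, BMR A → BMR A' →
        ∫ z, (A z.1.1 ⬝ᵥ (π z.1.2 *ᵥ w₀)) * conj (A' z.2.1 ⬝ᵥ (π z.2.2 *ᵥ w₀')) ∂σ =
          QQ (prZ σ) X A A' := by
  classical
  have hb : ∀ (w : Fin d → ℂ) (i : Fin d), BM fun k : K => (π k *ᵥ w) i := by
    intro w i
    have h0 : (fun k : K => (π k *ᵥ w) i) = fun k => ∑ l, π k i l * w l := by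
      funext k
      simp only [Matrix.mulVec, dotProduct]
    rw [h0]
    exact BM.sum _ fun l _ => (hπ.bmm i l).mul (BM.const _)
  set f : Fin d → Fin d → ((Z × K) × (Z × K)) → ℂ :=
    fun i j w => (π w.1.2 *ᵥ w₀) i * conj ((π w.2.2 *ᵥ w₀') j) with hfdef
  have hf : ∀ i j, BM (f i j) := by
    intro i j
    exact ((hb w₀ i).comp (measurable_snd.comp measurable_fst)).mul
      ((hb w₀' j).comp (measurable_snd.comp measurable_snd)).conj
  have hmeas : Measurable (fun w : (Z × K) × (Z × K) => (w.1.1, w.2.1)) := by fun_prop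
  have hex : ∀ i j, ∃ v : Z × Z → ℂ, BM v ∧ ∀ h : Z × Z → ℂ, BM h →
      ∫ w, h (w.1.1, w.2.1) * f i j w ∂σ = ∫ w, h (w.1.1, w.2.1) * v (w.1.1, w.2.1) ∂σ := by
    intro i j
    obtain ⟨hm, C, hC⟩ := hf i j
    have hC0 : 0 ≤ C := le_trans (norm_nonneg _) (hC ((1, 1), (1, 1)))
    obtain ⟨v, hv, hvC, _, hvi⟩ := exists_cond σ
      (fun w : (Z × K) × (Z × K) => (w.1.1, w.2.1)) hmeas (f i j) hm C hC0 hC
    exact ⟨v, ⟨hv, C, hvC⟩, hvi⟩
  choose v hv hvi using hex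
  refine ⟨fun z => Matrix.of fun i j => v i j z, fun i j => hv i j, ?_⟩
  intro A A' hA hA'
  have hh : ∀ i j, BM fun z : Z × Z => A z.1 i * conj (A' z.2 j) := by
    intro i j
    exact ((hA i).comp measurable_fst).mul ((hA' j).comp measurable_snd).conj
  have h1 : ∀ z : (Z × K) × (Z × K),
      (A z.1.1 ⬝ᵥ (π z.1.2 *ᵥ w₀)) * conj (A' z.2.1 ⬝ᵥ (π z.2.2 *ᵥ w₀')) =
        ∑ i, ∑ j, (A z.1.1 i * conj (A' z.2.1 j)) * f i j z := by
    intro z
    simp only [dotProduct, map_sum, map_mul, Finset.sum_mul_sum, hfdef]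
    refine Finset.sum_congr rfl fun i _ => Finset.sum_congr rfl fun j _ => ?_
    ring
  have h2 : QQ (prZ σ) (fun z => Matrix.of fun i j => v i j z) A A' =
      ∫ w, ∑ i, ∑ j, (A w.1.1 i * conj (A' w.2.1 j)) * v i j (w.1.1, w.2.1) ∂σ := by
    have hm0 : Measurable (Prod.map (Prod.fst : Z × K → Z) (Prod.fst : Z × K → Z)) :=
      measurable_fst.prodMap measurable_fst
    have hBM : BM fun z : Z × Z => ∑ i, ∑ j, A z.1 i * v i j z * conj (A' z.2 j) := by
      refine BM.sum _ fun i _ => BM.sum _ fun j _ => ?_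
      exact (((hA i).comp measurable_fst).mul (hv i j)).mul ((hA' j).comp measurable_snd).conj
    have h3 : QQ (prZ σ) (fun z => Matrix.of fun i j => v i j z) A A' =
        ∫ z, (∑ i, ∑ j, A z.1 i * v i j z * conj (A' z.2 j)) ∂(prZ σ) := rfl
    rw [h3, prZ, integral_map hm0.aemeasurable hBM.1.aestronglyMeasurable]
    refine integral_congr_ae (Filter.Eventually.of_forall fun w => ?_)
    refine Finset.sum_congr rfl fun i _ => Finset.sum_congr rfl fun j _ => ?_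
    simp only [Prod.map_fst, Prod.map_snd]
    have h4 : Prod.map (Prod.fst : Z × K → Z) (Prod.fst : Z × K → Z) w = (w.1.1, w.2.1) := rfl
    rw [h4]
    ring
  rw [h2]
  simp_rw [h1]
  have hi1 : ∀ i j, Integrable (fun z : (Z × K) × (Z × K) =>
      (A z.1.1 i * conj (A' z.2.1 j)) * f i j z) σ := by
    intro i j
    exact (((hh i j).comp hmeas).mul (hf i j)).integrable
  have hi2 : ∀ i j, Integrable (fun z : (Z × K) × (Z × K) =>
      (A z.1.1 i * conj (A' z.2.1 j)) * v i j (z.1.1, z.2.1)) σ := by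
    intro i j
    exact (((hh i j).comp hmeas).mul ((hv i j).comp hmeas)).integrable
  rw [integral_finsetSum _ fun i _ => integrable_finsetSum _ fun j _ => hi1 i j,
    integral_finsetSum _ fun i _ => integrable_finsetSum _ fun j _ => hi2 i j]
  refine Finset.sum_congr rfl fun i _ => ?_
  rw [integral_finsetSum _ fun j _ => hi1 i j, integral_finsetSum _ fun j _ => hi2 i j]
  refine Finset.sum_congr rfl fun j _ => ?_
  exact hvi i j (fun z : Z × Z => A z.1 i * conj (A' z.2 j)) (hh i j)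

end

/-- The double sum as a dot product. -/
private theorem EK1_form {d : ℕ} (g h : Fin d → ℂ) (Y : Matrix (Fin d) (Fin d) ℂ) :
    ∑ i, ∑ j, g i * Y i j * conj (h j) = g ⬝ᵥ (Y *ᵥ star h) := by
  simp only [dotProduct, Matrix.mulVec, Finset.mul_sum, Pi.star_apply, RCLike.star_def]
  refine Finset.sum_congr rfl fun i _ => Finset.sum_congr rfl fun j _ => ?_
  ring

/-- Proof. Invariance of `μ` and the definition of `evr` (`H82OT/Defs.lean`): the integrand
`∑ G_i(R w.1) X_ij(R w.1, R w.2) conj (H_j(R w.2))` equals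
`∑ (evr G)_i (tw X)_ij conj ((evr H)_j)` since `Ψ Ψᴴ = 1`. -/
theorem QQ_tw {B : Type*} [MeasurableSpace B] {d : ℕ} (μ : Measure (B × B)) (R : B → B)
    (hμ : MeasurePreserving (Prod.map R R) μ μ) (Ψ : B → Matrix (Fin d) (Fin d) ℂ)
    (hΨ : BMM Ψ) (hu : ∀ x, Ψ x * (Ψ x)ᴴ = 1) (X : B × B → Matrix (Fin d) (Fin d) ℂ)
    (hX : BMM X) (G H : B → Fin d → ℂ) (hG : BMR G) (hH : BMR H) :
    QQ μ (tw R Ψ X) (evr R Ψ G) (evr R Ψ H) = QQ μ X G H := by
  classical
  have hBM : BM fun w : B × B => ∑ i, ∑ j, G w.1 i * X w i j * conj (H w.2 j) := by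
    refine BM.sum _ fun i _ => BM.sum _ fun j _ => ?_
    exact (((hG i).comp measurable_fst).mul (hX i j)).mul ((hH j).comp measurable_snd).conj
  have h1 : QQ μ X G H = ∫ w, (∑ i, ∑ j, G w.1 i * X w i j * conj (H w.2 j)) ∂μ := rfl
  have h2 : QQ μ X G H = ∫ w, (∑ i, ∑ j, G (Prod.map R R w).1 i * X (Prod.map R R w) i j *
      conj (H (Prod.map R R w).2 j)) ∂μ := by
    rw [h1]
    nth_rewrite 1 [← hμ.map_eq]
    exact integral_map hμ.measurable.aemeasurable hBM.1.aestronglyMeasurable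
  rw [h2, QQ]
  refine integral_congr_ae (Filter.Eventually.of_forall fun w => ?_)
  show (∑ i, ∑ j, evr R Ψ G w.1 i * tw R Ψ X w i j * conj (evr R Ψ H w.2 j)) =
    ∑ i, ∑ j, G (R w.1) i * X (R w.1, R w.2) i j * conj (H (R w.2) j)
  rw [EK1_form, EK1_form]
  simp only [evr, tw]
  rw [Matrix.star_vecMul, Matrix.mulVec_mulVec, ← Matrix.dotProduct_mulVec, Matrix.mulVec_mulVec]
  have h3 : Ψ w.1 * ((Ψ w.1)ᴴ * X (R w.1, R w.2) * Ψ w.2 * (Ψ w.2)ᴴ) = X (R w.1, R w.2) := by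
    rw [Matrix.mul_assoc ((Ψ w.1)ᴴ * X (R w.1, R w.2)), hu, Matrix.mul_one, ← Matrix.mul_assoc, hu,
      Matrix.one_mul]
  rw [h3]

/-- Proof. Induction on `n` with `QQ_tw` (`tw X`, `evr G` are again bounded and measurable). -/
theorem QQ_tw_iter {B : Type*} [MeasurableSpace B] {d : ℕ} (μ : Measure (B × B)) (R : B → B)
    (hR : Measurable R) (hμ : MeasurePreserving (Prod.map R R) μ μ)
    (Ψ : B → Matrix (Fin d) (Fin d) ℂ)
    (hΨ : BMM Ψ) (hu : ∀ x, Ψ x * (Ψ x)ᴴ = 1) (X : B × B → Matrix (Fin d) (Fin d) ℂ)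
    (hX : BMM X) (G H : B → Fin d → ℂ) (hG : BMR G) (hH : BMR H) (n : ℕ) :
    BMM ((tw R Ψ)^[n] X) ∧ BMR ((evr R Ψ)^[n] G) ∧
      QQ μ ((tw R Ψ)^[n] X) ((evr R Ψ)^[n] G) ((evr R Ψ)^[n] H) = QQ μ X G H := by
  classical
  have hbX : ∀ Y : B × B → Matrix (Fin d) (Fin d) ℂ, BMM Y → BMM (tw R Ψ Y) := by
    intro Y hY
    have hR2 : Measurable fun w : B × B => (R w.1, R w.2) :=
      (hR.comp measurable_fst).prodMk (hR.comp measurable_snd)
    exact ((hΨ.comp measurable_fst).conj.mul (hY.comp hR2)).mul (hΨ.comp measurable_snd)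
  have hbG : ∀ F : B → Fin d → ℂ, BMR F → BMR (evr R Ψ F) := by
    intro F hF i
    have h0 : (fun y => evr R Ψ F y i) = fun y => ∑ l, F (R y) l * Ψ y l i := by
      funext y
      simp only [evr, Matrix.vecMul, dotProduct]
    rw [h0]
    exact BM.sum _ fun l _ => ((hF l).comp hR).mul (hΨ l i)
  have key : ∀ n : ℕ, BMM ((tw R Ψ)^[n] X) ∧ BMR ((evr R Ψ)^[n] G) ∧ BMR ((evr R Ψ)^[n] H) ∧
      QQ μ ((tw R Ψ)^[n] X) ((evr R Ψ)^[n] G) ((evr R Ψ)^[n] H) = QQ μ X G H := by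
    intro n
    induction n with
    | zero => exact ⟨hX, hG, hH, rfl⟩
    | succ n ih =>
      obtain ⟨h1, h2, h3, h4⟩ := ih
      simp only [Function.iterate_succ_apply']
      refine ⟨hbX _ h1, hbG _ h2, hbG _ h3, ?_⟩
      rw [QQ_tw μ R hμ Ψ hΨ hu _ h1 _ _ h2 h3, h4]
  exact ⟨(key n).1, (key n).2.1, (key n).2.2.2⟩

end Pool.Agent.Lib.H82OF
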