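import Pool.Agent.Lib.H82OF.CE
import Pool.Agent.Lib.H82OF.EK1
import Pool.Agent.Lib.H22M.TG

/-!
# Project H82OF, chunk EC1: conditioning an equivariant kernel on the first coordinate
-/

open MeasureTheory Filter Topology Finset ProbabilityTheory
open scoped ENNReal ComplexConjugate Matrix

namespace Pool.Agent.Lib.H82OF

open Pool.Agent.Lib.H22M Pool.Agent.Lib.H82T Pool.Agent.Lib.H82OT

section

variable {Z K : Type*} [CommGroup Z] [TopologicalSpace Z] [IsTopologicalGroup Z]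
  [CompactSpace Z] [T2Space Z] [SecondCountableTopology Z] [MeasurableSpace Z] [BorelSpace Z]
  [Group K] [TopologicalSpace K] [IsTopologicalGroup K] [CompactSpace K] [T2Space K]
  [SecondCountableTopology K] [MeasurableSpace K] [BorelSpace K]

omit [SecondCountableTopology Z] in
private theorem ec1_char (ψ : PontryaginDual Z) : BM fun z : Z => ((ψ z : Circle) : ℂ) :=
  ⟨(CompactAbelian.continuous_char ψ).measurable, 1, fun _ => (Circle.norm_coe _).le⟩

/-- Proof. `V_ij` from `exists_cond` for the map `Prod.fst` and `f w = ψ(w.2 w.1⁻¹) N_ij(w)`. For the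
equivariance test against bounded measurable `h`: with `τ z = α z`,
`∫ h(α z) V(α z) dlam = ∫ h V dlam = ∫ h(w.1) ψ(w.2 w.1⁻¹) N(w) dμ = ∫ h(α w.1) ψ(w.2 w.1⁻¹) N(α w.1, α w.2)
dμ = ζ ∫ h(α w.1) ψ(…) Φ(w.1) N(w) Φ(w.2)ᴴ …`; here the right factor must be a function of `w.1` too,
which is the hypothesis `hN` (`N` is transformed by `Φ(w.1)` on both sides). So
`∫ h(α z) V(α z) = ∫ h(α z) ζ Φ(z) V(z) Φ(z)ᴴ` for all `h`. -/
theorem exists_fst_cond (lam : Measure Z) [lam.IsHaarMeasure] [IsProbabilityMeasure lam] (α : Z)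
    (μ : Measure (Z × Z)) [IsProbabilityMeasure μ] (hμ1 : μ.map Prod.fst = lam)
    (hμ : MeasurePreserving (fun w : Z × Z => (α * w.1, α * w.2)) μ μ) {d : ℕ}
    (Φ : Z → Matrix (Fin d) (Fin d) ℂ) (hΦ : BMM Φ) (ζ : ℂ)
    (N : Z × Z → Matrix (Fin d) (Fin d) ℂ) (hN : BMM N)
    (hNS : ∀ᵐ w ∂μ, N (α * w.1, α * w.2) = ζ • (Φ w.1 * N w * (Φ w.1)ᴴ))
    (ψ : PontryaginDual Z) :
    ∃ V : Z → Matrix (Fin d) (Fin d) ℂ, BMM V ∧
      (∀ (h : Z → ℂ) (i j : Fin d), BM h →
        ∫ w, h w.1 * (((ψ (w.2 * w.1⁻¹) : Circle) : ℂ) * N w i j) ∂μ = ∫ z, h z * V z i j ∂lam) ∧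
      ∀ᵐ z ∂lam, V (α * z) = ζ • (Φ z * V z * (Φ z)ᴴ) := by
  classical
  have hψ : BM fun w : Z × Z => ((ψ (w.2 * w.1⁻¹) : Circle) : ℂ) :=
    (ec1_char ψ).comp (measurable_snd.mul measurable_fst.inv)
  have hfB : ∀ i j, BM fun w : Z × Z => ((ψ (w.2 * w.1⁻¹) : Circle) : ℂ) * N w i j := fun i j =>
    hψ.mul (hN i j)
  have hex : ∀ i j, ∃ v : Z → ℂ, BM v ∧ ∀ h : Z → ℂ, BM h →
      ∫ w, h w.1 * (((ψ (w.2 * w.1⁻¹) : Circle) : ℂ) * N w i j) ∂μ = ∫ z, h z * v z ∂lam := by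
    intro i j
    obtain ⟨hm, C, hC⟩ := hfB i j
    obtain ⟨v, hv1, hv2, -, hv4⟩ := exists_cond μ Prod.fst measurable_fst _ hm |C| (abs_nonneg C)
      fun w => (hC w).trans (le_abs_self C)
    have hvB : BM v := ⟨hv1, |C|, hv2⟩
    refine ⟨v, hvB, fun h hh => ?_⟩
    rw [hv4 h hh, ← hμ1]
    exact (integral_map measurable_fst.aemeasurable (hh.mul hvB).1.aestronglyMeasurable).symm
  choose V hVB hVi using hex
  have hVM : BMM fun z : Z => (Matrix.of fun i j => V i j z : Matrix (Fin d) (Fin d) ℂ) :=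
    fun i j => hVB i j
  have hcS : ∀ w : Z × Z, (ψ (α * w.2 * (α * w.1)⁻¹) : Circle) = ψ (w.2 * w.1⁻¹) := by
    intro w
    congr 1
    rw [mul_inv, mul_comm α w.2, mul_assoc, mul_inv_cancel_left]
  refine ⟨fun z => Matrix.of fun i j => V i j z, hVM, fun h i j hh => hVi i j h hh, ?_⟩
  have hRt : BMM fun z : Z => ζ • (Φ z * (Matrix.of fun i j => V i j z) * (Φ z)ᴴ) :=
    ((hΦ.mul hVM).mul hΦ.conj).smul ζ
  have key : ∀ i j, ∀ᵐ z ∂lam, V i j (α * z) =
      (ζ • (Φ z * (Matrix.of fun i j => V i j z) * (Φ z)ᴴ)) i j := by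
    intro i j
    refine wb_ae_eq _ lam le_rfl _ _ ((hVB i j).comp (measurable_const_mul α)) (hRt i j)
      fun H hH => ?_
    have hHB : BM H := hH
    set h : Z → ℂ := fun z => H (α⁻¹ * z) with hh
    have hhB : BM h := hHB.comp (measurable_const_mul α⁻¹)
    have hhα : ∀ z, h (α * z) = H z := fun z => by
      simp only [hh, inv_mul_cancel_left]
    have e1 : ∫ z, H z * V i j (α * z) ∂lam = ∫ z, h z * V i j z ∂lam := by
      rw [← integral_mul_left_eq_self (fun z => h z * V i j z) α]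
      refine integral_congr_ae (ae_of_all _ fun z => ?_)
      dsimp only
      rw [hhα]
    have hF : Measurable fun w : Z × Z =>
        h w.1 * (((ψ (w.2 * w.1⁻¹) : Circle) : ℂ) * N w i j) :=
      ((hhB.comp measurable_fst).mul (hfB i j)).1
    have e2 : ∫ w, h w.1 * (((ψ (w.2 * w.1⁻¹) : Circle) : ℂ) * N w i j) ∂μ =
        ∫ w, h (α * w.1) * (((ψ (α * w.2 * (α * w.1)⁻¹) : Circle) : ℂ) *
          N (α * w.1, α * w.2) i j) ∂μ := by
      conv_lhs => rw [← hμ.map_eq]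
      exact integral_map hμ.measurable.aemeasurable hF.aestronglyMeasurable
    have e3 : ∫ w, h (α * w.1) * (((ψ (α * w.2 * (α * w.1)⁻¹) : Circle) : ℂ) *
          N (α * w.1, α * w.2) i j) ∂μ =
        ∫ w, ∑ a, ∑ b, (H w.1 * (ζ * (Φ w.1 i a * conj (Φ w.1 j b)))) *
          (((ψ (w.2 * w.1⁻¹) : Circle) : ℂ) * N w a b) ∂μ := by
      refine integral_congr_ae ?_
      filter_upwards [hNS] with w hw
      rw [hhα, hcS, hw]
      simp only [Matrix.smul_apply, Matrix.mul_apply, Matrix.conjTranspose_apply, smul_eq_mul,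
        Finset.sum_mul, Finset.mul_sum]
      rw [Finset.sum_comm]
      refine Finset.sum_congr rfl fun a _ => Finset.sum_congr rfl fun b _ => ?_
      rw [starRingEnd_apply]
      ring
    have hgc : ∀ a b, BM fun z : Z => H z * (ζ * (Φ z i a * conj (Φ z j b))) := fun a b =>
      hHB.mul ((BM.const ζ).mul ((hΦ i a).mul (hΦ j b).conj))
    rw [e1, ← hVi i j h hhB, e2, e3, integral_finsetSum]
    · have e5 : ∀ a, ∫ w, ∑ b, (H w.1 * (ζ * (Φ w.1 i a * conj (Φ w.1 j b)))) *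
          (((ψ (w.2 * w.1⁻¹) : Circle) : ℂ) * N w a b) ∂μ =
          ∫ z, ∑ b, (H z * (ζ * (Φ z i a * conj (Φ z j b)))) * V a b z ∂lam := by
        intro a
        rw [integral_finsetSum, integral_finsetSum]
        · refine Finset.sum_congr rfl fun b _ => ?_
          exact hVi a b _ (hgc a b)
        · intro b _
          exact ((hgc a b).mul (hVB a b)).integrable
        · intro b _
          exact (((hgc a b).comp measurable_fst).mul (hfB a b)).integrable
      simp_rw [e5]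
      rw [← integral_finsetSum]
      · refine integral_congr_ae (ae_of_all _ fun z => ?_)
        simp only [Matrix.smul_apply, Matrix.mul_apply, Matrix.conjTranspose_apply, smul_eq_mul,
          Finset.sum_mul, Finset.mul_sum, Matrix.of_apply]
        rw [Finset.sum_comm]
        refine Finset.sum_congr rfl fun b _ => Finset.sum_congr rfl fun a _ => ?_
        rw [starRingEnd_apply]
        ring
      · intro a _
        exact integrable_finsetSum _ fun b _ => ((hgc a b).mul (hVB a b)).integrable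
    · intro a _
      exact integrable_finsetSum _ fun b _ =>
        (((hgc a b).comp measurable_fst).mul (hfB a b)).integrable
  have hall : ∀ᵐ z ∂lam, ∀ i j, V i j (α * z) =
      (ζ • (Φ z * (Matrix.of fun i j => V i j z) * (Φ z)ᴴ)) i j := by
    rw [ae_all_iff]
    intro i
    rw [ae_all_iff]
    exact key i
  filter_upwards [hall] with z hz
  ext i j
  exact hz i j

/-- Proof. As `h` and `ψ` vary: `h(w.1) ψ(w.2 w.1⁻¹) = h(w.1) conj ψ(w.1) ψ(w.2)`, so
`∫ a(w.1) ψ(w.2) f = 0` for all bounded measurable `a` and characters `ψ`; approximate bounded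
measurable `b(w.2)` in `L²(μ.map snd)` by trigonometric polynomials (`tg_approx`, `H22M/TG.lean`);
`ae_zero_of_prod`. -/
theorem ae_zero_of_psi (μ : Measure (Z × Z)) [IsProbabilityMeasure μ] (f : Z × Z → ℂ)
    (hf : BM f)
    (h : ∀ (h : Z → ℂ) (ψ : PontryaginDual Z), BM h →
      ∫ w, h w.1 * (((ψ (w.2 * w.1⁻¹) : Circle) : ℂ) * f w) ∂μ = 0) :
    ∀ᵐ w ∂μ, f w = 0 := by
  have hchar : ∀ (a : Z → ℂ) (ψ : PontryaginDual Z), BM a →
      ∫ w, a w.1 * (((ψ w.2 : Circle) : ℂ) * f w) ∂μ = 0 := by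
    intro a ψ ha
    rw [← h (fun z => a z * ((ψ z : Circle) : ℂ)) ψ (ha.mul (ec1_char ψ))]
    refine integral_congr_ae (ae_of_all _ fun w => ?_)
    have h1 : (ψ w.2 : Circle) = ψ w.1 * ψ (w.2 * w.1⁻¹) := by
      rw [← map_mul]
      congr 1
      rw [mul_comm w.1, inv_mul_cancel_right]
    dsimp only
    rw [h1, Circle.coe_mul]
    ring
  refine ae_zero_of_prod μ f hf fun a b ha hb => ?_
  have hprob : IsProbabilityMeasure (μ.map Prod.snd) :=
    Measure.isProbabilityMeasure_map measurable_snd.aemeasurable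
  obtain ⟨ham, Ca, hCa⟩ := id ha
  obtain ⟨hfm, Cf, hCf⟩ := id hf
  have hCa0 : 0 ≤ Ca := (norm_nonneg _).trans (hCa 1)
  have hCf0 : 0 ≤ Cf := (norm_nonneg _).trans (hCf 1)
  have key : ∀ δ : ℝ, 0 < δ → ‖∫ w, a w.1 * b w.2 * f w ∂μ‖ ≤ Ca * Cf * δ := by
    intro δ hδ
    obtain ⟨F, t, hF⟩ := tg_approx (μ.map Prod.snd) b hb δ hδ
    have hT : BM fun z : Z => ∑ χ ∈ F, t χ * ((χ z : Circle) : ℂ) :=
      BM.sum _ fun χ _ => (BM.const _).mul (ec1_char χ)
    have hD : BM fun z : Z => b z - ∑ χ ∈ F, t χ * ((χ z : Circle) : ℂ) := hb.sub hT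
    have e0 : ∫ w, a w.1 * (∑ χ ∈ F, t χ * ((χ w.2 : Circle) : ℂ)) * f w ∂μ = 0 := by
      have e1 : ∀ w : Z × Z, a w.1 * (∑ χ ∈ F, t χ * ((χ w.2 : Circle) : ℂ)) * f w =
          ∑ χ ∈ F, t χ * (a w.1 * (((χ w.2 : Circle) : ℂ) * f w)) := by
        intro w
        rw [Finset.mul_sum, Finset.sum_mul]
        refine Finset.sum_congr rfl fun χ _ => ?_
        ring
      simp_rw [e1]
      rw [integral_finsetSum]
      · refine Finset.sum_eq_zero fun χ _ => ?_
        rw [integral_const_mul, hchar a χ ha, mul_zero]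
      · intro χ _
        exact (((ha.comp measurable_fst).mul
          (((ec1_char χ).comp measurable_snd).mul hf)).integrable).const_mul _
    have e2 : ∫ w, a w.1 * b w.2 * f w ∂μ =
        ∫ w, a w.1 * (b w.2 - ∑ χ ∈ F, t χ * ((χ w.2 : Circle) : ℂ)) * f w ∂μ := by
      have e3 : ∀ w : Z × Z, a w.1 * (b w.2 - ∑ χ ∈ F, t χ * ((χ w.2 : Circle) : ℂ)) * f w =
          a w.1 * b w.2 * f w - a w.1 * (∑ χ ∈ F, t χ * ((χ w.2 : Circle) : ℂ)) * f w := by
        intro w
        ring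
      simp_rw [e3]
      rw [integral_sub, e0, sub_zero]
      · exact (((ha.comp measurable_fst).mul (hb.comp measurable_snd)).mul hf).integrable
      · exact (((ha.comp measurable_fst).mul (hT.comp measurable_snd)).mul hf).integrable
    have hDsq : Integrable (fun w : Z × Z =>
        ‖b w.2 - ∑ χ ∈ F, t χ * ((χ w.2 : Circle) : ℂ)‖ ^ 2) μ :=
      ((hD.comp measurable_snd).memLp (m := μ) 2).integrable_norm_pow (by norm_num)
    have e4 : ∫ w : Z × Z, ‖b w.2 - ∑ χ ∈ F, t χ * ((χ w.2 : Circle) : ℂ)‖ ^ 2 ∂μ ≤ δ ^ 2 := by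
      refine le_trans (le_of_eq ?_) hF
      exact (integral_map measurable_snd.aemeasurable
        (hD.1.norm.pow_const 2).aestronglyMeasurable).symm
    have e5 : ‖∫ w, a w.1 * (b w.2 - ∑ χ ∈ F, t χ * ((χ w.2 : Circle) : ℂ)) * f w ∂μ‖ ≤
        ∫ w : Z × Z, Ca * Cf * (1 / (2 * δ) *
          ‖b w.2 - ∑ χ ∈ F, t χ * ((χ w.2 : Circle) : ℂ)‖ ^ 2 + δ / 2) ∂μ := by
      refine norm_integral_le_of_norm_le
        ((((hDsq.const_mul _).add (integrable_const _)).const_mul _)) (ae_of_all _ fun w => ?_)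
      rw [norm_mul, norm_mul]
      set y := ‖b w.2 - ∑ χ ∈ F, t χ * ((χ w.2 : Circle) : ℂ)‖ with hy
      have hy0 : 0 ≤ y := norm_nonneg _
      have h1 : y ≤ 1 / (2 * δ) * y ^ 2 + δ / 2 := by
        have h2 : 1 / (2 * δ) * y ^ 2 + δ / 2 - y = (y - δ) ^ 2 / (2 * δ) := by
          field_simp
          ring
        have h3 : 0 ≤ (y - δ) ^ 2 / (2 * δ) := by positivity
        linarith
      calc ‖a w.1‖ * y * ‖f w‖ ≤ Ca * y * Cf :=
            mul_le_mul (mul_le_mul_of_nonneg_right (hCa _) hy0) (hCf _) (norm_nonneg _)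
              (mul_nonneg hCa0 hy0)
        _ = Ca * Cf * y := by ring
        _ ≤ Ca * Cf * (1 / (2 * δ) * y ^ 2 + δ / 2) :=
            mul_le_mul_of_nonneg_left h1 (mul_nonneg hCa0 hCf0)
    rw [e2]
    refine e5.trans ?_
    rw [integral_const_mul, integral_add (hDsq.const_mul _) (integrable_const _),
      integral_const_mul]
    refine mul_le_mul_of_nonneg_left ?_ (mul_nonneg hCa0 hCf0)
    simp only [integral_const, probReal_univ, one_smul]
    have h6 : 1 / (2 * δ) * ∫ w : Z × Z, ‖b w.2 - ∑ χ ∈ F, t χ * ((χ w.2 : Circle) : ℂ)‖ ^ 2 ∂μ ≤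
        1 / (2 * δ) * δ ^ 2 := mul_le_mul_of_nonneg_left e4 (by positivity)
    have h7 : 1 / (2 * δ) * δ ^ 2 = δ / 2 := by
      field_simp
    linarith
  have hzero : ‖∫ w, a w.1 * b w.2 * f w ∂μ‖ ≤ 0 := by
    refine le_of_forall_pos_le_add fun ε hε => ?_
    rw [zero_add]
    have hpos : 0 < Ca * Cf + 1 := by
      have := mul_nonneg hCa0 hCf0
      linarith
    refine (key (ε / (Ca * Cf + 1)) (by positivity)).trans ?_
    rw [mul_div_assoc', div_le_iff₀ hpos]
    nlinarith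
  exact norm_le_zero_iff.1 hzero

end

end Pool.Agent.Lib.H82OF
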