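import Pool.Agent.Lib.H82OF.ET1
import Pool.Agent.Lib.H82OF.ET2
import Pool.Agent.Lib.H82OF.EC1
import Pool.Agent.Lib.H22M.TG

/-!
# Project H82OF, chunk ET: invariant functions on the projection are invariant under th i
-/

open MeasureTheory Filter Topology Finset ProbabilityTheory
open scoped ENNReal ComplexConjugate Matrix

namespace Pool.Agent.Lib.H82OF

open Pool.Agent.Lib.H22M Pool.Agent.Lib.H82T Pool.Agent.Lib.H82OT

section

variable {Z K : Type*} [CommGroup Z] [TopologicalSpace Z] [IsTopologicalGroup Z]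
  [CompactSpace Z] [T2Space Z] [SecondCountableTopology Z] [MeasurableSpace Z] [BorelSpace Z]
  [Group K] [TopologicalSpace K] [IsTopologicalGroup K] [CompactSpace K] [T2Space K]
  [SecondCountableTopology K] [MeasurableSpace K] [BorelSpace K]

private theorem ET_const (lam : Measure Z) [lam.IsHaarMeasure] [IsProbabilityMeasure lam]
    (muK : Measure K) [muK.IsHaarMeasure] [IsProbabilityMeasure muK] {α : Z} {φ : Z → K}
    (hB : Base lam muK α φ) (μ : Measure (Z × Z)) [IsProbabilityMeasure μ]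
    (hμ1 : μ.map Prod.fst = lam)
    (hμ : MeasurePreserving (fun w : Z × Z => (α * w.1, α * w.2)) μ μ)
    (s : Z × Z → ℂ) (hs : BM s) (hsS : ∀ᵐ w ∂μ, s (α * w.1, α * w.2) = s w)
    (ψ : PontryaginDual Z) :
    ∃ S : ℂ, ∀ h : Z → ℂ, BM h →
      ∫ w, h w.1 * (((ψ (w.2 * w.1⁻¹) : Circle) : ℂ) * s w) ∂μ = S * ∫ z, h z ∂lam := by
  obtain ⟨V, hV, hV1, hV2⟩ := exists_fst_cond lam α μ hμ1 hμ (d := 1) (fun _ => 1)
    (fun i j => BM.const _) 1 (fun w => Matrix.of fun _ _ => s w) (fun i j => hs)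
    (by
      filter_upwards [hsS] with w hw
      ext i j
      simp [hw]) ψ
  have hV3 : ∀ᵐ z ∂lam, V (α * z) 0 0 = V z 0 0 := by
    filter_upwards [hV2] with z hz
    rw [hz]
    simp
  have hv : Measurable fun z => V z 0 0 := (hV 0 0).1
  have hg : Measurable fun y : Z × K => V y.1 0 0 := hv.comp measurable_fst
  have hq : Measure.QuasiMeasurePreserving (Prod.fst : Z × K → Z) (lam.prod muK) lam :=
    Measure.quasiMeasurePreserving_fst
  have hinv : (fun y : Z × K => V y.1 0 0) ∘ skew (M := K) α φ =ᵐ[lam.prod muK]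
      fun y : Z × K => V y.1 0 0 := hq.ae hV3
  obtain ⟨c, hc⟩ := hB.erg.quasiErgodic.ae_eq_const_of_ae_eq_comp₀ hg.nullMeasurable hinv
  have h3 : (lam.prod muK).map Prod.fst = lam := by
    simp
  refine ⟨c, fun h hh => ?_⟩
  refine (hV1 h 0 0 hh).trans ?_
  have hm : Measurable fun z => h z * V z 0 0 := hh.1.mul hv
  have e1 : ∫ z, h z * V z 0 0 ∂lam = ∫ y : Z × K, h y.1 * V y.1 0 0 ∂(lam.prod muK) := by
    conv_lhs => rw [← h3]
    rw [integral_map measurable_fst.aemeasurable hm.aestronglyMeasurable]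
  have e2 : ∫ z, h z ∂lam = ∫ y : Z × K, h y.1 ∂(lam.prod muK) := by
    conv_lhs => rw [← h3]
    rw [integral_map measurable_fst.aemeasurable hh.1.aestronglyMeasurable]
  rw [e1, e2, ← integral_const_mul]
  refine integral_congr_ae ?_
  filter_upwards [hc] with y hy
  have hy' : V y.1 0 0 = c := hy
  rw [hy', mul_comm]

omit [IsTopologicalGroup Z] [CompactSpace Z] [T2Space Z] [SecondCountableTopology Z]
  [MeasurableSpace Z] [BorelSpace Z] in
private theorem ET_pow (χ : PontryaginDual Z) (c : Z) (i : ℕ) : (χ ^ i) c = (χ c) ^ i := by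
  induction i with
  | zero => rfl
  | succ n ih =>
    rw [pow_succ, pow_succ, ← ih]
    rfl

private theorem ET_tend (lam : Measure Z) [IsProbabilityMeasure lam]
    (μ : Measure (Z × Z)) [IsProbabilityMeasure μ] (hμ1 : μ.map Prod.fst = lam)
    (G : Z × Z → ℂ) (hG : BM G)
    (h0 : ∀ χ : PontryaginDual Z, ∫ w, ((χ w.1 : Circle) : ℂ) * G w ∂μ = 0)
    (h : Z → ℂ) (hh : BM h) : ∫ w, h w.1 * G w ∂μ = 0 := by
  obtain ⟨C, hC⟩ := hG.2
  have hC0 : 0 ≤ C := (norm_nonneg _).trans (hC (1, 1))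
  have key : ∀ k : ℝ, 0 < k → ‖∫ w, h w.1 * G w ∂μ‖ ≤ C * k := by
    intro k hk
    obtain ⟨F, t, hF⟩ := tg_approx lam h hh k hk
    have hT : BM fun z : Z => ∑ χ ∈ F, t χ * ((χ z : Circle) : ℂ) :=
      BM.sum F fun χ _ => (BM.const (t χ)).mul
        ⟨sz_meas_char χ, 1, fun z => by rw [Circle.norm_coe]⟩
    have hT1 : BM fun w : Z × Z => ∑ χ ∈ F, t χ * ((χ w.1 : Circle) : ℂ) :=
      hT.comp measurable_fst
    have hh1 : BM fun w : Z × Z => h w.1 := hh.comp measurable_fst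
    have hT0 : ∫ w, (∑ χ ∈ F, t χ * ((χ w.1 : Circle) : ℂ)) * G w ∂μ = 0 := by
      have e1 : ∀ w : Z × Z, (∑ χ ∈ F, t χ * ((χ w.1 : Circle) : ℂ)) * G w =
          ∑ χ ∈ F, t χ * (((χ w.1 : Circle) : ℂ) * G w) := by
        intro w
        rw [Finset.sum_mul]
        exact Finset.sum_congr rfl fun χ _ => by ring
      simp_rw [e1]
      rw [integral_finsetSum]
      · refine Finset.sum_eq_zero fun χ _ => ?_
        rw [integral_const_mul, h0 χ, mul_zero]
      · intro χ _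
        exact ((BM.const (t χ)).mul ((BM.comp (⟨sz_meas_char χ, 1, fun z => by
          rw [Circle.norm_coe]⟩ : BM fun z : Z => ((χ z : Circle) : ℂ))
            measurable_fst).mul hG)).integrable
    have e2 : ∫ w, h w.1 * G w ∂μ =
        ∫ w, (h w.1 - ∑ χ ∈ F, t χ * ((χ w.1 : Circle) : ℂ)) * G w ∂μ := by
      simp_rw [sub_mul]
      rw [integral_sub (hh1.mul hG).integrable (hT1.mul hG).integrable, hT0, sub_zero]
    have hD : BM fun z : Z => h z - ∑ χ ∈ F, t χ * ((χ z : Circle) : ℂ) := hh.sub hT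
    have hDm : Measurable fun z : Z => ‖h z - ∑ χ ∈ F, t χ * ((χ z : Circle) : ℂ)‖ ^ 2 :=
      (hD.1.norm).pow_const 2
    have hDi : Integrable (fun z : Z => ‖h z - ∑ χ ∈ F, t χ * ((χ z : Circle) : ℂ)‖ ^ 2) lam :=
      (hD.memLp (p := 2)).integrable_norm_pow (by norm_num)
    rw [e2]
    calc ‖∫ w, (h w.1 - ∑ χ ∈ F, t χ * ((χ w.1 : Circle) : ℂ)) * G w ∂μ‖
        ≤ ∫ w, ‖(h w.1 - ∑ χ ∈ F, t χ * ((χ w.1 : Circle) : ℂ)) * G w‖ ∂μ :=
          norm_integral_le_integral_norm _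
      _ ≤ ∫ w, C * ((k + ‖h w.1 - ∑ χ ∈ F, t χ * ((χ w.1 : Circle) : ℂ)‖ ^ 2 / k) / 2) ∂μ := by
          refine integral_mono_of_nonneg (Eventually.of_forall fun w => norm_nonneg _) ?_
            (Eventually.of_forall fun w => ?_)
          · have h5 : Integrable (fun w : Z × Z =>
                ‖h w.1 - ∑ χ ∈ F, t χ * ((χ w.1 : Circle) : ℂ)‖ ^ 2) μ := by
              have h6 := ((hD.comp (measurable_fst (α := Z) (β := Z))).memLp
                (m := μ) (p := 2)).integrable_norm_pow (by norm_num)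
              exact h6
            exact (((integrable_const k).add (h5.div_const k)).div_const 2).const_mul C
          · show ‖_‖ ≤ _
            rw [norm_mul, mul_comm]
            refine mul_le_mul (hC w) ?_ (norm_nonneg _) hC0
            have h7 : 0 ≤ (k - ‖h w.1 - ∑ χ ∈ F, t χ * ((χ w.1 : Circle) : ℂ)‖) ^ 2 :=
              sq_nonneg _
            rw [le_div_iff₀ (by norm_num : (0 : ℝ) < 2), ← sub_nonneg]
            have h8 : k + ‖h w.1 - ∑ χ ∈ F, t χ * ((χ w.1 : Circle) : ℂ)‖ ^ 2 / k -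
                ‖h w.1 - ∑ χ ∈ F, t χ * ((χ w.1 : Circle) : ℂ)‖ * 2 =
                (k - ‖h w.1 - ∑ χ ∈ F, t χ * ((χ w.1 : Circle) : ℂ)‖) ^ 2 / k := by
              field_simp
              ring
            rw [h8]
            positivity
      _ = C * ((k + (∫ z, ‖h z - ∑ χ ∈ F, t χ * ((χ z : Circle) : ℂ)‖ ^ 2 ∂lam) / k) / 2) := by
          have h5 : Integrable (fun w : Z × Z =>
                ‖h w.1 - ∑ χ ∈ F, t χ * ((χ w.1 : Circle) : ℂ)‖ ^ 2) μ := by
            have h6 := ((hD.comp (measurable_fst (α := Z) (β := Z))).memLp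
                (m := μ) (p := 2)).integrable_norm_pow (by norm_num)
            exact h6
          rw [integral_const_mul, integral_div, integral_add (integrable_const k)
            (h5.div_const k), integral_div]
          have h9 : ∫ z, ‖h z - ∑ χ ∈ F, t χ * ((χ z : Circle) : ℂ)‖ ^ 2 ∂lam =
              ∫ w, ‖h w.1 - ∑ χ ∈ F, t χ * ((χ w.1 : Circle) : ℂ)‖ ^ 2 ∂μ := by
            conv_lhs => rw [← hμ1]
            rw [integral_map measurable_fst.aemeasurable hDm.aestronglyMeasurable]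
          rw [h9]
          simp
      _ ≤ C * k := by
          refine mul_le_mul_of_nonneg_left ?_ hC0
          have h10 : (∫ z, ‖h z - ∑ χ ∈ F, t χ * ((χ z : Circle) : ℂ)‖ ^ 2 ∂lam) / k ≤ k := by
            rw [div_le_iff₀ hk]
            nlinarith
          linarith
  have h11 : ‖∫ w, h w.1 * G w ∂μ‖ ≤ 0 := by
    refine le_of_forall_pos_le_add fun ε hε => ?_
    have h12 := key (ε / (C + 1)) (by positivity)
    have h13 : C * (ε / (C + 1)) ≤ ε := by
      rw [mul_div_assoc', div_le_iff₀ (by positivity)]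
      nlinarith
    linarith
  exact norm_le_zero_iff.1 h11

/-- An invariant function on `(Z × Z, prZ σ)` is invariant under all the maps `th i`. Proof. Let `c = z'/z`.
For a character `ψ` let `v` be the conditional expectation of `ψ(c) s` given `z` (`exists_fst_cond` with
`d = 1`, `Φ = 1`, `ζ = 1`, or `exists_cond`): `v` is invariant under the rotation, which is ergodic (a factor
of `Base.erg`), so constant `= s^(ψ)`: `∫ χ(z) ψ(c) s dμ = s^(ψ) ∫ χ dlam`. Since `th i` preserves `μ`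
(`th_preserves`) and its inverse is `(z, z') ↦ (z c^(-i), z' c^(-i))` with the same `c`:
`∫ χ(z) ψ(c) s(th i) dμ = ∫ χ(z c^(-i)) ψ(c) s dμ = ∫ χ(z) (χ^(-i) ψ)(c) s dμ = s^(χ^(-i) ψ) ∫ χ dlam`,
which is `s^(ψ) ∫ χ dlam` in both cases `χ = 1`, `χ ≠ 1`. So `s(th i) - s` has vanishing integrals against
all `χ(z) ψ(c)`, hence (approximate `h` by trigonometric polynomials, `tg_approx`) against all
`h(z) ψ(c)`: `ae_zero_of_psi`. -/
theorem inv_th (lam : Measure Z) [lam.IsHaarMeasure] [IsProbabilityMeasure lam]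
    (muK : Measure K) [muK.IsHaarMeasure] [IsProbabilityMeasure muK] {α : Z} {φ : Z → K}
    (hB : Base lam muK α φ) (p q : ℕ) (ρ σ : Measure ((Z × K) × (Z × K)))
    (hσ : RelSq (lam.prod muK) (skew α φ) p q ρ σ) (s : Z × Z → ℂ) (hs : BM s)
    (hsS : ∀ᵐ w ∂(prZ σ), s (α * w.1, α * w.2) = s w) (i : ℕ) :
    ∀ᵐ w ∂(prZ σ), s (th i w) = s w := by
  have hprob := hσ.prob
  have hfst : Measurable (Prod.map (Prod.fst : Z × K → Z) (Prod.fst : Z × K → Z)) :=
    measurable_fst.prodMap measurable_fst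
  have : IsProbabilityMeasure (prZ σ) := Measure.isProbabilityMeasure_map hfst.aemeasurable
  have hμ1 : (prZ σ).map Prod.fst = lam :=
    (sigmaZ_marginals lam muK α φ p q ρ σ hσ).1
  have hμ : MeasurePreserving (fun w : Z × Z => (α * w.1, α * w.2)) (prZ σ) (prZ σ) :=
    sigmaZ_invariant lam muK α φ p q ρ σ hσ
  have hS := fun ψ => ET_const lam muK hB (prZ σ) hμ1 hμ s hs hsS ψ
  choose S hS using hS
  have hth := th_preserves lam muK hB p q ρ σ hσ i
  have hcm : Measurable fun w : Z × Z => w.2 * w.1⁻¹ := by fun_prop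
  have hch : ∀ χ : PontryaginDual Z, BM fun z : Z => ((χ z : Circle) : ℂ) := fun χ =>
    ⟨sz_meas_char χ, 1, fun z => by rw [Circle.norm_coe]⟩
  have hsth : BM fun w => s (th i w) := hs.comp hth.measurable
  have hf : BM fun w => s (th i w) - s w := hsth.sub hs
  have hc : ∀ w : Z × Z, (th i w).2 * (th i w).1⁻¹ = w.2 * w.1⁻¹ := by
    intro w
    show w.1 * (w.2 * w.1⁻¹) ^ (i + 1) * (w.1 * (w.2 * w.1⁻¹) ^ i)⁻¹ = w.2 * w.1⁻¹
    rw [mul_inv_eq_iff_eq_mul, pow_succ, mul_comm (w.2 * w.1⁻¹) (w.1 * (w.2 * w.1⁻¹) ^ i),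
      mul_assoc]
  have h0 : ∀ (ψ χ : PontryaginDual Z), ∫ w, ((χ w.1 : Circle) : ℂ) *
      (((ψ (w.2 * w.1⁻¹) : Circle) : ℂ) * (s (th i w) - s w)) ∂(prZ σ) = 0 := by
    intro ψ χ
    have hψc : BM fun w : Z × Z => ((ψ (w.2 * w.1⁻¹) : Circle) : ℂ) := (hch ψ).comp hcm
    have hχ1 : BM fun w : Z × Z => ((χ w.1 : Circle) : ℂ) := (hch χ).comp measurable_fst
    have e1 : ∫ w, ((χ w.1 : Circle) : ℂ) *
        (((ψ (w.2 * w.1⁻¹) : Circle) : ℂ) * (s (th i w) - s w)) ∂(prZ σ) =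
        ∫ w, ((χ w.1 : Circle) : ℂ) * (((ψ (w.2 * w.1⁻¹) : Circle) : ℂ) * s (th i w)) ∂(prZ σ) -
        ∫ w, ((χ w.1 : Circle) : ℂ) * (((ψ (w.2 * w.1⁻¹) : Circle) : ℂ) * s w) ∂(prZ σ) := by
      rw [← integral_sub (hχ1.mul (hψc.mul hsth)).integrable (hχ1.mul (hψc.mul hs)).integrable]
      refine integral_congr_ae (Eventually.of_forall fun w => ?_)
      ring
    have e2 : ∀ w : Z × Z, ((χ w.1 : Circle) : ℂ) *
        (((ψ (w.2 * w.1⁻¹) : Circle) : ℂ) * s (th i w)) =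
        (fun w' : Z × Z => ((χ w'.1 : Circle) : ℂ) *
          (((((χ ^ i)⁻¹ * ψ) (w'.2 * w'.1⁻¹) : Circle) : ℂ) * s w')) (th i w) := by
      intro w
      show _ = ((χ (th i w).1 : Circle) : ℂ) *
          (((((χ ^ i)⁻¹ * ψ) ((th i w).2 * (th i w).1⁻¹) : Circle) : ℂ) * s (th i w))
      rw [hc w]
      have e3 : χ w.1 = χ (th i w).1 * ((χ ^ i)⁻¹) (w.2 * w.1⁻¹) := by
        have e31 : ((χ ^ i)⁻¹) (w.2 * w.1⁻¹) = ((χ (w.2 * w.1⁻¹)) ^ i)⁻¹ := by
          rw [← ET_pow χ (w.2 * w.1⁻¹) i]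
          rfl
        have e32 : (th i w).1 = w.1 * (w.2 * w.1⁻¹) ^ i := rfl
        rw [e31, e32, map_mul, map_pow, mul_inv_cancel_right]
      have e4 : ((χ ^ i)⁻¹ * ψ) (w.2 * w.1⁻¹) = ((χ ^ i)⁻¹) (w.2 * w.1⁻¹) * ψ (w.2 * w.1⁻¹) :=
        rfl
      rw [e3, e4, Circle.coe_mul, Circle.coe_mul]
      ring
    have hF : BM (fun w' : Z × Z => ((χ w'.1 : Circle) : ℂ) *
          (((((χ ^ i)⁻¹ * ψ) (w'.2 * w'.1⁻¹) : Circle) : ℂ) * s w')) :=
      hχ1.mul (((hch ((χ ^ i)⁻¹ * ψ)).comp hcm).mul hs)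
    have e5 : ∫ w, ((χ w.1 : Circle) : ℂ) *
        (((ψ (w.2 * w.1⁻¹) : Circle) : ℂ) * s (th i w)) ∂(prZ σ) =
        S ((χ ^ i)⁻¹ * ψ) * ∫ z, ((χ z : Circle) : ℂ) ∂lam := by
      have e6 := integral_map (μ := prZ σ) (φ := th i) hth.measurable.aemeasurable
        (f := fun w' : Z × Z => ((χ w'.1 : Circle) : ℂ) *
          (((((χ ^ i)⁻¹ * ψ) (w'.2 * w'.1⁻¹) : Circle) : ℂ) * s w')) (by
        rw [hth.map_eq]
        exact hF.1.aestronglyMeasurable)
      rw [hth.map_eq] at e6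
      rw [integral_congr_ae (Eventually.of_forall e2), ← e6]
      exact hS ((χ ^ i)⁻¹ * ψ) (fun z => ((χ z : Circle) : ℂ)) (hch χ)
    rw [e1, e5, hS ψ (fun z => ((χ z : Circle) : ℂ)) (hch χ)]
    by_cases hχ : χ = 1
    · subst hχ
      simp
    · rw [Pool.Agent.Lib.CompactAbelian.integral_char_eq_zero lam χ hχ]
      simp
  have hz := ae_zero_of_psi (prZ σ) (fun w => s (th i w) - s w) hf fun h ψ hh =>
    ET_tend lam (prZ σ) hμ1 (fun w => ((ψ (w.2 * w.1⁻¹) : Circle) : ℂ) * (s (th i w) - s w))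
      (((hch ψ).comp hcm).mul hf) (h0 ψ) h hh
  filter_upwards [hz] with w hw
  exact sub_eq_zero.1 hw

end

end Pool.Agent.Lib.H82OF
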