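import Pool.Agent.Lib.H82OF.Defs
import Pool.Agent.Lib.H22M.JJ

/-!
# Project H82OF, chunk RS: the relative square
-/

open MeasureTheory Filter Topology Finset ProbabilityTheory
open scoped ENNReal ComplexConjugate Matrix

namespace Pool.Agent.Lib.H82OF

open Pool.Agent.Lib.H22M Pool.Agent.Lib.H82T Pool.Agent.Lib.H82OT

/-- Proof. The proof of `exists_relSq` (`H22M/JJ.lean`), with `hσ.int` for the formula. -/
theorem IsRel.relSq {Y : Type*} [MeasurableSpace Y] {m : Measure Y}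
    [IsProbabilityMeasure m] (R : Y ≃ᵐ Y) (hR : Ergodic R m) {p q : ℕ}
    (herg : Ergodic ((⇑R)^[p]) m) (hpq : p.Coprime q) {ρ σ : Measure (Y × Y)}
    (hρ : IsJoin m R p q ρ) (hσ : IsRel R p q ρ σ) : RelSq m R p q ρ σ := by
  have hρp : IsProbabilityMeasure ρ := hρ.prob
  have hσp : IsProbabilityMeasure σ := hσ.prob
  obtain ⟨-, hσ⟩ := hσ
  have hnorm := relSq_norm (⇑R) p q hρ.fst hρ.snd hσ
  have hmarg := relSq_marginals (⇑R) hρ hσ
  refine ⟨hσp, hmarg.1, hmarg.2, relSq_invariant R hρ hσ,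
    fun f hf => (qf_eq_l2 (⇑R) p q hσ f hf).1, hnorm.1, hnorm.2.1, hnorm.2.2, ?_, ?_⟩
  · intro e c he hc h hne
    have h0 := condExp_eigen_zero hR herg hpq hρ e he c hc h hne
    refine ⟨?_, fun g hg => ⟨?_, ?_⟩⟩
    · rw [(qf_eq_l2 (⇑R) p q hσ e he).2, l2_congr (g := fun _ => 0) h0, l2_const, norm_zero]
    · rw [hσ e g he hg]
      have h1 : (fun w => (ρ[fun z => e z.2|GG (⇑R) p q ρ]) w *
          (ρ[fun z => g z.2|GG (⇑R) p q ρ]) w) =ᵐ[ρ] fun _ => (0 : ℂ) := by
        filter_upwards [h0] with w hw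
        rw [hw]; simp
      rw [integral_congr_ae h1, integral_zero]
    · rw [hσ g e hg he]
      have h1 : (fun w => (ρ[fun z => g z.2|GG (⇑R) p q ρ]) w *
          (ρ[fun z => e z.2|GG (⇑R) p q ρ]) w) =ᵐ[ρ] fun _ => (0 : ℂ) := by
        filter_upwards [h0] with w hw
        rw [hw]; simp
      rw [integral_congr_ae h1, integral_zero]
  · intro e l he hl h g hg
    have h0 := condExp_eigen_pow hR.toMeasurePreserving hρ e he l hl h
    have he2 : BM (fun z : Y × Y => e z.2) := he.comp measurable_snd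
    have hg2 : BM (fun z : Y × Y => g z.2) := hg.comp measurable_snd
    have hsm : StronglyMeasurable[GG (⇑R) p q ρ] (ρ[fun z => e z.2|GG (⇑R) p q ρ]) :=
      stronglyMeasurable_condExp
    have hint : Integrable (fun z : Y × Y => (ρ[fun z => e z.2|GG (⇑R) p q ρ]) z * g z.2) ρ := by
      refine (he2.mul hg2).integrable.congr ?_
      filter_upwards [h0] with w hw
      rw [hw]
    have hpull : ρ[fun z => (ρ[fun z => e z.2|GG (⇑R) p q ρ]) z * g z.2|GG (⇑R) p q ρ] =ᵐ[ρ]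
        fun w => (ρ[fun z => e z.2|GG (⇑R) p q ρ]) w * (ρ[fun z => g z.2|GG (⇑R) p q ρ]) w :=
      condExp_bilin_of_stronglyMeasurable_left (ContinuousLinearMap.mul ℝ ℂ) hsm hint
        hg2.integrable
    rw [hσ e g he hg]
    calc ∫ w, (ρ[fun z => e z.2|GG (⇑R) p q ρ]) w * (ρ[fun z => g z.2|GG (⇑R) p q ρ]) w ∂ρ
        = ∫ w, (ρ[fun z => (ρ[fun z => e z.2|GG (⇑R) p q ρ]) z * g z.2|GG (⇑R) p q ρ]) w ∂ρ := by
          refine integral_congr_ae ?_
          exact hpull.symm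
      _ = ∫ w, (ρ[fun z => e z.2|GG (⇑R) p q ρ]) w * g w.2 ∂ρ :=
          integral_condExp (GG_le (⇑R) p q ρ)
      _ = ∫ w, e w.2 * g w.2 ∂ρ := by
          refine integral_congr_ae ?_
          filter_upwards [h0] with w hw
          rw [hw]
      _ = ∫ y, e y * g y ∂m := by
          rw [← hρ.snd, integral_map measurable_snd.aemeasurable]
          exact (he.mul hg).1.aestronglyMeasurable

/-- Proof. `exists_relSquare` (`H22M/SQ.lean`) with `π = Prod.snd`. -/
theorem exists_isRel {Y : Type*} [MeasurableSpace Y] [StandardBorelSpace Y]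
    (R : Y → Y) (p q : ℕ) (ρ : Measure (Y × Y)) [IsProbabilityMeasure ρ] :
    ∃ σ : Measure (Y × Y), IsRel R p q ρ σ := by
  obtain ⟨σ, hσp, hσ⟩ := exists_relSquare (GG R p q ρ) ρ (GG_le R p q ρ) Prod.snd
    measurable_snd
  exact ⟨σ, ⟨hσp, hσ⟩⟩

end Pool.Agent.Lib.H82OF
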