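import Pool.Agent.Lib.H82OF.EK2
import Pool.Agent.Lib.H82OF.EX
import Pool.Agent.Lib.H82OF.RS

/-!
# Project H82OF, chunk EE: invariance for one representation
-/

open MeasureTheory Filter Topology Finset ProbabilityTheory
open scoped ENNReal ComplexConjugate Matrix

namespace Pool.Agent.Lib.H82OF

open Pool.Agent.Lib.H22M Pool.Agent.Lib.H82T Pool.Agent.Lib.H82OT

section

variable {Z K : Type*} [CommGroup Z] [TopologicalSpace Z] [IsTopologicalGroup Z]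
  [CompactSpace Z] [T2Space Z] [SecondCountableTopology Z] [MeasurableSpace Z] [BorelSpace Z]
  [Group K] [TopologicalSpace K] [IsTopologicalGroup K] [CompactSpace K] [T2Space K]
  [SecondCountableTopology K] [MeasurableSpace K] [BorelSpace K]

/-- Proof. Let `X` be the kernel of `exists_kernel`, `μ = prZ σ`, `Φ z = π(φ z)`, `a(y) = A(y.1) · π(y.2) w₀`:
`a (R y) = (evr (α * ·) Φ A)(y.1) · π(y.2) w₀`. Since `σ` is invariant under `R^[q] × R^[q]` (`RelSq.inv`),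
`QQ μ X (evr^[q] A) (evr^[q] A') = QQ μ X A A'`, so `tw^[q] X = X` a.e. (`tw_eq_of_QQ` with the rotation as
a measurable equivalence, `MeasurableEquiv.mulLeft α`). Components `Xk κ` (`tw_components`) vanish for
`κ ≠ 1` (`component_zero`), so `X = Xk 1` a.e. and `tw X = X` a.e. Then
`∫ (a ∘ R)(z.1) conj ((a' ∘ R)(z.2)) dσ = QQ μ X (evr A) (evr A') = QQ μ (tw X) (evr A) (evr A') =
QQ μ X A A'` (`QQ_tw`). -/
theorem same_invariant (lam : Measure Z) [lam.IsHaarMeasure] [IsProbabilityMeasure lam]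
    (muK : Measure K) [muK.IsHaarMeasure] [IsProbabilityMeasure muK] {α : Z} {φ : Z → K}
    (hB : Base lam muK α φ) (p q : ℕ) (hp : p.Prime) (hq : q.Prime) (hpq : q ≠ p)
    (ρ σ : Measure ((Z × K) × (Z × K)))
    (hσ : RelSq (lam.prod muK) (skew α φ) p q ρ σ) {d : ℕ}
    {π : K → Matrix (Fin d) (Fin d) ℂ} (hπ : Irr π) (w₀ w₀' : Fin d → ℂ)
    (A A' : Z → Fin d → ℂ) (hA : BMR A) (hA' : BMR A') (f f' : Z × K → ℂ)
    (hf : ∀ y, f y = A y.1 ⬝ᵥ (π y.2 *ᵥ w₀)) (hf' : ∀ y, f' y = A' y.1 ⬝ᵥ (π y.2 *ᵥ w₀')) :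
    ∫ z, f (skew α φ z.1) * conj (f' (skew α φ z.2)) ∂σ = ∫ z, f z.1 * conj (f' z.2) ∂σ := by
  classical
  have hpσ : IsProbabilityMeasure σ := hσ.prob
  have hpμ : IsProbabilityMeasure (prZ σ) :=
    Measure.isProbabilityMeasure_map (measurable_fst.prodMap measurable_fst).aemeasurable
  obtain ⟨X, hX, hXQ⟩ := exists_kernel σ hπ.toRep w₀ w₀'
  have hμS : MeasurePreserving (Prod.map (MeasurableEquiv.mulLeft α : Z → Z)
      (MeasurableEquiv.mulLeft α : Z → Z)) (prZ σ) (prZ σ) :=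
    sigmaZ_invariant lam muK α φ p q ρ σ hσ
  have hR : Measurable (MeasurableEquiv.mulLeft α : Z → Z) := (MeasurableEquiv.mulLeft α).measurable
  have hΨ : BMM fun z : Z => π (φ z) := hπ.toRep.bmm.comp hB.meas
  have hu : ∀ z : Z, (fun z : Z => π (φ z)) z * ((fun z : Z => π (φ z)) z)ᴴ = 1 :=
    fun z => hπ.toRep.unit _
  -- one step of the evolution
  have hstep : ∀ (w : Fin d → ℂ) (G : Z → Fin d → ℂ) (y : Z × K),
      G (skew α φ y).1 ⬝ᵥ (π (skew α φ y).2 *ᵥ w) =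
        evr (MeasurableEquiv.mulLeft α : Z → Z) (fun z : Z => π (φ z)) G y.1 ⬝ᵥ
          (π y.2 *ᵥ w) := by
    intro w G y
    show G (α * y.1) ⬝ᵥ (π (φ y.1 * y.2) *ᵥ w) = (G (α * y.1) ᵥ* π (φ y.1)) ⬝ᵥ (π y.2 *ᵥ w)
    rw [hπ.toRep.mul, ← Matrix.mulVec_mulVec, Matrix.dotProduct_mulVec]
  have hiter : ∀ (w : Fin d → ℂ) (G : Z → Fin d → ℂ) (n : ℕ) (y : Z × K),
      G ((skew α φ)^[n] y).1 ⬝ᵥ (π ((skew α φ)^[n] y).2 *ᵥ w) =
        (evr (MeasurableEquiv.mulLeft α : Z → Z) (fun z : Z => π (φ z)))^[n] G y.1 ⬝ᵥ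
          (π y.2 *ᵥ w) := by
    intro w G n
    induction n with
    | zero => exact fun y => rfl
    | succ n ih =>
      intro y
      rw [Function.iterate_succ_apply, Function.iterate_succ_apply', ih, hstep]
  have hBMw : ∀ w : Fin d → ℂ, ∀ G : Z → Fin d → ℂ, BMR G →
      BM fun y : Z × K => G y.1 ⬝ᵥ (π y.2 *ᵥ w) := by
    intro w G hG
    have h0 : (fun y : Z × K => G y.1 ⬝ᵥ (π y.2 *ᵥ w)) =
        fun y => ∑ i, G y.1 i * ∑ l, π y.2 i l * w l := by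
      funext y
      simp only [Matrix.mulVec, dotProduct]
    rw [h0]
    exact BM.sum _ fun i _ => ((hG i).comp measurable_fst).mul
      (BM.sum _ fun l _ => ((hπ.toRep.bmm i l).comp measurable_snd).mul (BM.const _))
  -- the kernel is invariant under the q-th power
  have hq1 : ∀ G H : Z → Fin d → ℂ, BMR G → BMR H →
      QQ (prZ σ) X ((evr (MeasurableEquiv.mulLeft α : Z → Z) (fun z : Z => π (φ z)))^[q] G)
        ((evr (MeasurableEquiv.mulLeft α : Z → Z) (fun z : Z => π (φ z)))^[q] H) =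
        QQ (prZ σ) X G H := by
    intro G H hG hH
    have h1 := (QQ_tw_iter (prZ σ) _ hR hμS _ hΨ hu X hX G H hG hH q).2.1
    have h2 := (QQ_tw_iter (prZ σ) _ hR hμS _ hΨ hu X hX H G hH hG q).2.1
    rw [← hXQ _ _ h1 h2, ← hXQ _ _ hG hH]
    have h3 : BM fun z : (Z × K) × (Z × K) =>
        (G z.1.1 ⬝ᵥ (π z.1.2 *ᵥ w₀)) * conj (H z.2.1 ⬝ᵥ (π z.2.2 *ᵥ w₀')) :=
      ((hBMw w₀ G hG).comp measurable_fst).mul ((hBMw w₀' H hH).comp measurable_snd).conj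
    have h4 := integral_map (μ := σ) hσ.inv.measurable.aemeasurable
      (f := fun z : (Z × K) × (Z × K) =>
        (G z.1.1 ⬝ᵥ (π z.1.2 *ᵥ w₀)) * conj (H z.2.1 ⬝ᵥ (π z.2.2 *ᵥ w₀')))
      h3.1.aestronglyMeasurable
    rw [hσ.inv.map_eq] at h4
    rw [h4]
    refine integral_congr_ae (Eventually.of_forall fun z => ?_)
    have h5 := hiter w₀ G q z.1
    have h6 := hiter w₀' H q z.2
    show _ = (G ((skew α φ)^[q] z.1).1 ⬝ᵥ (π ((skew α φ)^[q] z.1).2 *ᵥ w₀)) *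
      conj (H ((skew α φ)^[q] z.2).1 ⬝ᵥ (π ((skew α φ)^[q] z.2).2 *ᵥ w₀'))
    rw [h5, h6]
  have htw := tw_eq_of_QQ (prZ σ) (MeasurableEquiv.mulLeft α) hμS _ hΨ hu X hX q hq1
  obtain ⟨Xk, hXkB, hXkS, hXks⟩ := tw_components (prZ σ) _ hR _ hΨ X hX q hq.one_le htw
  -- the components for the nontrivial roots of unity vanish
  have hz : ∀ κ ∈ Polynomial.nthRootsFinset q (1 : ℂ), κ ≠ 1 →
      ∀ᵐ w ∂(prZ σ), Xk κ w = 0 := by
    intro κ hκ hκ1
    rw [Polynomial.mem_nthRootsFinset hq.pos] at hκ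
    exact component_zero lam muK hB p q hp hq hpq ρ σ hσ hπ κ hκ hκ1 (Xk κ) (hXkB κ)
      (hXkS κ hκ)
  have hz' : ∀ᵐ w ∂(prZ σ), ∀ κ ∈ Polynomial.nthRootsFinset q (1 : ℂ), κ ≠ 1 → Xk κ w = 0 := by
    refine (Finset.eventually_all _).2 fun κ hκ => ?_
    by_cases hκ1 : κ = 1
    · exact Eventually.of_forall fun w h => absurd hκ1 h
    · filter_upwards [hz κ hκ hκ1] with w hw h
      exact hw
  have hX1 : ∀ᵐ w ∂(prZ σ), X w = Xk 1 w := by
    filter_upwards [hz'] with w hw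
    rw [← hXks w]
    refine Finset.sum_eq_single_of_mem 1 ?_ fun κ hκ hκ1 => hw κ hκ hκ1
    rw [Polynomial.mem_nthRootsFinset hq.pos, one_pow]
  have hcongr : ∀ (Y Y' : Z × Z → Matrix (Fin d) (Fin d) ℂ) (G H : Z → Fin d → ℂ),
      (∀ᵐ w ∂(prZ σ), Y w = Y' w) → QQ (prZ σ) Y G H = QQ (prZ σ) Y' G H := by
    intro Y Y' G H hYY
    unfold QQ
    refine integral_congr_ae ?_
    filter_upwards [hYY] with w hw
    rw [hw]
  have htw1 : ∀ᵐ w ∂(prZ σ), tw (MeasurableEquiv.mulLeft α : Z → Z) (fun z : Z => π (φ z))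
      (Xk 1) w = Xk 1 w := by
    filter_upwards [hXkS 1 (one_pow q)] with w hw
    rw [hw, one_smul]
  have hA1 := (QQ_tw_iter (prZ σ) _ hR hμS _ hΨ hu X hX A A' hA hA' 1).2.1
  have hA2 := (QQ_tw_iter (prZ σ) _ hR hμS _ hΨ hu X hX A' A hA' hA 1).2.1
  rw [Function.iterate_one] at hA1 hA2
  have hL : ∫ z, f (skew α φ z.1) * conj (f' (skew α φ z.2)) ∂σ =
      QQ (prZ σ) X (evr (MeasurableEquiv.mulLeft α : Z → Z) (fun z : Z => π (φ z)) A)
        (evr (MeasurableEquiv.mulLeft α : Z → Z) (fun z : Z => π (φ z)) A') := by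
    rw [← hXQ _ _ hA1 hA2]
    refine integral_congr_ae (Eventually.of_forall fun z => ?_)
    show f (skew α φ z.1) * conj (f' (skew α φ z.2)) = _
    rw [hf, hf', hstep, hstep]
  have hRt : ∫ z, f z.1 * conj (f' z.2) ∂σ = QQ (prZ σ) X A A' := by
    rw [← hXQ _ _ hA hA']
    refine integral_congr_ae (Eventually.of_forall fun z => ?_)
    show f z.1 * conj (f' z.2) = _
    rw [hf, hf']
  rw [hL, hRt, hcongr X (Xk 1) _ _ hX1, hcongr X (Xk 1) A A' hX1,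
    ← QQ_tw (prZ σ) _ hμS _ hΨ hu (Xk 1) (hXkB 1) A A' hA hA']
  exact (hcongr _ _ _ _ htw1).symm

end

end Pool.Agent.Lib.H82OF
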