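import Pool.Agent.Lib.H82OF.EK1

/-!
# Project H82OF, chunk EK2: the kernel is invariant under the q-th power of the twisted translation
-/

open MeasureTheory Filter Topology Finset ProbabilityTheory
open scoped ENNReal ComplexConjugate Matrix

namespace Pool.Agent.Lib.H82OF

open Pool.Agent.Lib.H22M Pool.Agent.Lib.H82T Pool.Agent.Lib.H82OT

private theorem EK2_tw_bmm {B : Type*} [MeasurableSpace B] {d : ℕ} {R : B → B} (hR : Measurable R)
    {Ψ : B → Matrix (Fin d) (Fin d) ℂ} (hΨ : BMM Ψ) {X : B × B → Matrix (Fin d) (Fin d) ℂ}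
    (hX : BMM X) : BMM (tw R Ψ X) := by
  have h1 : BMM fun w : B × B => X (R w.1, R w.2) :=
    hX.comp ((hR.comp measurable_fst).prodMk (hR.comp measurable_snd))
  exact ((hΨ.conj.comp measurable_fst).mul h1).mul (hΨ.comp measurable_snd)

private theorem EK2_iter_bmm {B : Type*} [MeasurableSpace B] {d : ℕ} {R : B → B}
    (hR : Measurable R) {Ψ : B → Matrix (Fin d) (Fin d) ℂ} (hΨ : BMM Ψ)
    {X : B × B → Matrix (Fin d) (Fin d) ℂ} (hX : BMM X) (n : ℕ) : BMM ((tw R Ψ)^[n] X) := by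
  induction n with
  | zero => exact hX
  | succ n ih =>
    rw [Function.iterate_succ_apply']
    exact EK2_tw_bmm hR hΨ ih

private theorem EK2_surj {B : Type*} [MeasurableSpace B] {d : ℕ} (R : B ≃ᵐ B)
    {Ψ : B → Matrix (Fin d) (Fin d) ℂ} (hΨ : BMM Ψ) (hu : ∀ x, Ψ x * (Ψ x)ᴴ = 1) (q : ℕ) :
    ∀ G' : B → Fin d → ℂ, BMR G' → ∃ G : B → Fin d → ℂ, BMR G ∧ (evr R Ψ)^[q] G = G' := by
  induction q with
  | zero => exact fun G' hG' => ⟨G', hG', rfl⟩
  | succ q ih =>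
    intro G' hG'
    obtain ⟨G₁, hG₁, h1⟩ := ih G' hG'
    refine ⟨fun x => G₁ (R.symm x) ᵥ* (Ψ (R.symm x))ᴴ, ?_, ?_⟩
    · intro i
      simp only [Matrix.vecMul, dotProduct]
      refine BM.sum _ fun k _ => ?_
      exact ((hG₁ k).comp R.symm.measurable).mul ((hΨ.conj k i).comp R.symm.measurable)
    · rw [Function.iterate_succ_apply]
      have h2 : evr R Ψ (fun x => G₁ (R.symm x) ᵥ* (Ψ (R.symm x))ᴴ) = G₁ := by
        funext y
        unfold evr
        dsimp only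
        rw [R.symm_apply_apply, Matrix.vecMul_vecMul, mul_eq_one_comm.1 (hu y), Matrix.vecMul_one]
      rw [h2, h1]

private theorem EK2_QQ_single {B : Type*} [MeasurableSpace B] {d : ℕ} (μ : Measure (B × B))
    (X : B × B → Matrix (Fin d) (Fin d) ℂ) (i j : Fin d) (a b : B → ℂ) :
    QQ μ X (fun x k => if k = i then a x else 0) (fun x k => if k = j then conj (b x) else 0) =
      ∫ w, a w.1 * b w.2 * X w i j ∂μ := by
  unfold QQ
  refine integral_congr_ae (ae_of_all _ fun w => ?_)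
  dsimp only
  rw [Finset.sum_eq_single i, Finset.sum_eq_single j]
  · rw [if_pos rfl, if_pos rfl, Complex.conj_conj]
    ring
  · intro k _ hk
    rw [if_neg hk, map_zero, mul_zero]
  · intro h
    exact absurd (Finset.mem_univ _) h
  · intro k _ hk
    rw [if_neg hk]
    simp
  · intro h
    exact absurd (Finset.mem_univ _) h

private theorem EK2_single_bmr {B : Type*} [MeasurableSpace B] {d : ℕ} (i : Fin d) {a : B → ℂ}
    (ha : BM a) : BMR fun x (k : Fin d) => if k = i then a x else 0 := by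
  intro k
  by_cases hk : k = i
  · simpa only [if_pos hk] using ha
  · simpa only [if_neg hk] using BM.const (Y := B) 0

private theorem EK2_sum_zero (q : ℕ) (hq : 1 ≤ q) (n : ℕ) (hn : 0 < n) (hnq : n < q) :
    ∑ ζ ∈ Polynomial.nthRootsFinset q (1 : ℂ), (ζ⁻¹) ^ n = 0 := by
  have hq0 : 0 < q := hq
  set ξ : ℂ := Complex.exp (2 * Real.pi * Complex.I / q) with hξd
  have hξ : IsPrimitiveRoot ξ q := Complex.isPrimitiveRoot_exp q hq0.ne'
  have hξ0 : ξ ≠ 0 := Complex.exp_ne_zero _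
  have hne : (ξ⁻¹) ^ n ≠ 1 := by
    rw [inv_pow]
    intro h
    exact hξ.pow_ne_one_of_pos_of_lt hn.ne' hnq (inv_eq_one.mp h)
  have hT : ∑ ζ ∈ Polynomial.nthRootsFinset q (1 : ℂ), (ζ⁻¹) ^ n =
      ∑ ζ ∈ Polynomial.nthRootsFinset q (1 : ℂ), ((ξ * ζ)⁻¹) ^ n := by
    symm
    refine Finset.sum_nbij' (fun ζ => ξ * ζ) (fun ζ => ξ⁻¹ * ζ) ?_ ?_ ?_ ?_ ?_
    · intro ζ hζ
      rw [Polynomial.mem_nthRootsFinset hq0] at hζ ⊢
      rw [mul_pow, hζ, hξ.pow_eq_one, one_mul]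
    · intro ζ hζ
      rw [Polynomial.mem_nthRootsFinset hq0] at hζ ⊢
      rw [mul_pow, hζ, inv_pow, hξ.pow_eq_one, inv_one, one_mul]
    · intro ζ _
      exact inv_mul_cancel_left₀ hξ0 ζ
    · intro ζ _
      exact mul_inv_cancel_left₀ hξ0 ζ
    · intro ζ _
      rfl
  have hT2 : ∑ ζ ∈ Polynomial.nthRootsFinset q (1 : ℂ), ((ξ * ζ)⁻¹) ^ n =
      (ξ⁻¹) ^ n * ∑ ζ ∈ Polynomial.nthRootsFinset q (1 : ℂ), (ζ⁻¹) ^ n := by
    rw [Finset.mul_sum]
    refine Finset.sum_congr rfl fun ζ _ => ?_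
    rw [mul_inv, mul_pow]
  rw [hT2] at hT
  have h3 : (1 - (ξ⁻¹) ^ n) * ∑ ζ ∈ Polynomial.nthRootsFinset q (1 : ℂ), (ζ⁻¹) ^ n = 0 := by
    rw [sub_mul, one_mul, sub_eq_zero]
    exact hT
  exact (mul_eq_zero.mp h3).resolve_left (sub_ne_zero.mpr (Ne.symm hne))

private theorem EK2_card (q : ℕ) (hq : 1 ≤ q) :
    (Polynomial.nthRootsFinset q (1 : ℂ)).card = q :=
  (Complex.isPrimitiveRoot_exp q (by omega)).card_nthRootsFinset

/-- If `QQ μ X` is unchanged when both rows evolve `q` times, then `tw^[q] X = X`. Proof. By `QQ_tw_iter`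
`QQ μ (tw^[q] X) (evr^[q] G) (evr^[q] H) = QQ μ X G H = QQ μ X (evr^[q] G) (evr^[q] H)`. Every bounded
measurable row is `evr^[q] G` for some bounded measurable `G` (`evr` is invertible:
`G(x) = G'(R⁻¹ x) Ψ(R⁻¹ x)ᴴ`). Taking rows with one nonzero entry, the entries of
`Y = tw^[q] X - X` satisfy `∫ a(w.1) b(w.2) Y_ij dμ = 0` for all bounded measurable `a, b`:
`ae_zero_of_prod` (CE). -/
theorem tw_eq_of_QQ {B : Type*} [MeasurableSpace B] {d : ℕ} (μ : Measure (B × B))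
    [IsProbabilityMeasure μ] (R : B ≃ᵐ B) (hμ : MeasurePreserving (Prod.map R R) μ μ)
    (Ψ : B → Matrix (Fin d) (Fin d) ℂ)
    (hΨ : BMM Ψ) (hu : ∀ x, Ψ x * (Ψ x)ᴴ = 1) (X : B × B → Matrix (Fin d) (Fin d) ℂ)
    (hX : BMM X) (q : ℕ)
    (h : ∀ G H : B → Fin d → ℂ, BMR G → BMR H →
      QQ μ X ((evr R Ψ)^[q] G) ((evr R Ψ)^[q] H) = QQ μ X G H) :
    ∀ᵐ w ∂μ, ((tw R Ψ)^[q] X) w = X w := by
  have hRm : Measurable R := R.measurable
  have hX' : BMM ((tw R Ψ)^[q] X) := EK2_iter_bmm hRm hΨ hX q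
  have key : ∀ i j, ∀ᵐ w ∂μ, ((tw R Ψ)^[q] X) w i j - X w i j = 0 := by
    intro i j
    refine ae_zero_of_prod μ (fun w => ((tw R Ψ)^[q] X) w i j - X w i j)
      ((hX' i j).sub (hX i j)) fun a b ha hb => ?_
    obtain ⟨G, hG, hGe⟩ := EK2_surj R hΨ hu q _ (EK2_single_bmr i ha)
    obtain ⟨H, hH, hHe⟩ := EK2_surj R hΨ hu q _ (EK2_single_bmr j hb.conj)
    have h1 := (QQ_tw_iter μ R hRm hμ Ψ hΨ hu X hX G H hG hH q).2.2
    have h2 := h G H hG hH
    rw [hGe, hHe, EK2_QQ_single] at h1 h2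
    have h3 : ∀ w : B × B, a w.1 * b w.2 * (((tw R Ψ)^[q] X) w i j - X w i j) =
        a w.1 * b w.2 * ((tw R Ψ)^[q] X) w i j - a w.1 * b w.2 * X w i j := fun w => by ring
    simp_rw [h3]
    have hab : BM fun w : B × B => a w.1 * b w.2 :=
      (ha.comp measurable_fst).mul (hb.comp measurable_snd)
    rw [integral_sub (hab.mul (hX' i j)).integrable (hab.mul (hX i j)).integrable, h1, h2, sub_self]
  have key2 : ∀ᵐ w ∂μ, ∀ i j, ((tw R Ψ)^[q] X) w i j - X w i j = 0 := by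
    rw [ae_all_iff]
    intro i
    rw [ae_all_iff]
    exact key i
  filter_upwards [key2] with w hw
  ext i j
  exact sub_eq_zero.1 (hw i j)

/-- Components. Proof. `Xk κ = q⁻¹ ∑_{n<q} (κ⁻¹)^n tw^[n] X` for `κ^q = 1` and `0` otherwise.
`tw (Xk κ) = κ Xk κ` a.e. by shifting the sum and `tw^[q] X = X` a.e.; the sum over the `q`-th roots of
unity: compare `exists_components` in `H82OT/CI2.lean` (the same computation for scalar functions). -/
theorem tw_components {B : Type*} [MeasurableSpace B] {d : ℕ} (μ : Measure (B × B))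
    (R : B → B) (hR : Measurable R)
    (Ψ : B → Matrix (Fin d) (Fin d) ℂ) (hΨ : BMM Ψ)
    (X : B × B → Matrix (Fin d) (Fin d) ℂ) (hX : BMM X) (q : ℕ) (hq : 1 ≤ q)
    (h : ∀ᵐ w ∂μ, ((tw R Ψ)^[q] X) w = X w) :
    ∃ Xk : ℂ → B × B → Matrix (Fin d) (Fin d) ℂ, (∀ κ, BMM (Xk κ)) ∧
      (∀ κ : ℂ, κ ^ q = 1 → ∀ᵐ w ∂μ, tw R Ψ (Xk κ) w = κ • Xk κ w) ∧
      ∀ w, ∑ κ ∈ Polynomial.nthRootsFinset q (1 : ℂ), Xk κ w = X w := by
  classical
  have hq0 : 0 < q := hq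
  have hqC : (q : ℂ) ≠ 0 := Nat.cast_ne_zero.2 hq0.ne'
  let Xk : ℂ → B × B → Matrix (Fin d) (Fin d) ℂ := fun κ w =>
    if κ ^ q = 1 then (q : ℂ)⁻¹ • ∑ n ∈ range q, (κ⁻¹) ^ n • ((tw R Ψ)^[n] X) w else 0
  have hXk : ∀ κ w, Xk κ w =
    if κ ^ q = 1 then (q : ℂ)⁻¹ • ∑ n ∈ range q, (κ⁻¹) ^ n • ((tw R Ψ)^[n] X) w else 0 :=
    fun _ _ => rfl
  refine ⟨Xk, ?_, ?_, ?_⟩
  · intro κ
    by_cases hκ : κ ^ q = 1
    · have he : Xk κ = fun w => (q : ℂ)⁻¹ • ∑ n ∈ range q, (κ⁻¹) ^ n • ((tw R Ψ)^[n] X) w := by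
        funext w
        rw [hXk, if_pos hκ]
      rw [he]
      refine BMM.smul _ ?_
      intro i j
      have hs : (fun w => (∑ n ∈ range q, (κ⁻¹) ^ n • ((tw R Ψ)^[n] X) w) i j) =
          fun w => ∑ n ∈ range q, (κ⁻¹) ^ n * ((tw R Ψ)^[n] X) w i j := by
        funext w
        rw [Matrix.sum_apply]
        rfl
      rw [hs]
      exact BM.sum _ fun n _ => (BM.const _).mul (EK2_iter_bmm hR hΨ hX n i j)
    · have he : Xk κ = fun _ => 0 := by
        funext w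
        rw [hXk, if_neg hκ]
      rw [he]
      intro i j
      exact BM.const 0
  · intro κ hκ
    have hκ0 : κ ≠ 0 := by
      rintro rfl
      rw [zero_pow hq0.ne'] at hκ
      exact zero_ne_one hκ
    filter_upwards [h] with w hw
    have h1 : tw R Ψ (Xk κ) w =
        (q : ℂ)⁻¹ • ∑ n ∈ range q, (κ⁻¹) ^ n • ((tw R Ψ)^[n + 1] X) w := by
      unfold tw
      rw [hXk, if_pos hκ, Matrix.mul_smul, Matrix.smul_mul, Finset.mul_sum, Finset.sum_mul]
      refine congrArg _ (Finset.sum_congr rfl fun n _ => ?_)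
      rw [Matrix.mul_smul, Matrix.smul_mul]
      refine congrArg _ ?_
      have h4 : (tw R Ψ)^[n + 1] X = tw R Ψ ((tw R Ψ)^[n] X) := Function.iterate_succ_apply' _ _ _
      exact (congrFun h4 w).symm
    have h2 : ∑ n ∈ range q, (κ⁻¹) ^ n • ((tw R Ψ)^[n + 1] X) w =
        κ • ∑ n ∈ range q, (κ⁻¹) ^ (n + 1) • ((tw R Ψ)^[n + 1] X) w := by
      rw [Finset.smul_sum]
      refine Finset.sum_congr rfl fun n _ => ?_
      rw [smul_smul, pow_succ]
      refine congrArg (fun c : ℂ => c • ((tw R Ψ)^[n + 1] X) w) ?_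
      field_simp
    have h3 : ∑ n ∈ range q, (κ⁻¹) ^ (n + 1) • ((tw R Ψ)^[n + 1] X) w =
        ∑ n ∈ range q, (κ⁻¹) ^ n • ((tw R Ψ)^[n] X) w := by
      have e1 := Finset.sum_range_succ' (fun n => (κ⁻¹) ^ n • ((tw R Ψ)^[n] X) w) q
      have e2 := Finset.sum_range_succ (fun n => (κ⁻¹) ^ n • ((tw R Ψ)^[n] X) w) q
      have e3 : (κ⁻¹) ^ q • ((tw R Ψ)^[q] X) w = (κ⁻¹) ^ 0 • ((tw R Ψ)^[0] X) w := by
        rw [hw, inv_pow, hκ, inv_one, pow_zero]
        rfl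
      rw [e3] at e2
      exact add_right_cancel (e1.symm.trans e2)
    rw [h1, h2, h3, hXk, if_pos hκ, smul_comm]
  · intro w
    have h1 : ∀ κ ∈ Polynomial.nthRootsFinset q (1 : ℂ), Xk κ w =
        (q : ℂ)⁻¹ • ∑ n ∈ range q, (κ⁻¹) ^ n • ((tw R Ψ)^[n] X) w := by
      intro κ hκ
      rw [Polynomial.mem_nthRootsFinset hq0] at hκ
      rw [hXk, if_pos hκ]
    rw [Finset.sum_congr rfl h1, ← Finset.smul_sum, Finset.sum_comm]
    have h2 : ∀ n ∈ range q, ∑ κ ∈ Polynomial.nthRootsFinset q (1 : ℂ),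
        (κ⁻¹) ^ n • ((tw R Ψ)^[n] X) w = if n = 0 then (q : ℂ) • X w else 0 := by
      intro n hn
      rw [← Finset.sum_smul]
      by_cases h0 : n = 0
      · subst h0
        rw [if_pos rfl]
        simp only [pow_zero, Finset.sum_const, EK2_card q hq, nsmul_eq_mul, mul_one,
          Function.iterate_zero, id_eq]
      · rw [if_neg h0, EK2_sum_zero q hq n (Nat.pos_of_ne_zero h0) (mem_range.1 hn), zero_smul]
    rw [Finset.sum_congr rfl h2, Finset.sum_ite_eq' (range q) 0, if_pos (mem_range.2 hq0),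
      smul_smul, inv_mul_cancel₀ hqC, one_smul]

end Pool.Agent.Lib.H82OF
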