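import Pool.Agent.Lib.H82OF.Defs

/-!
# Project H82OF, chunk JL3: factors of ergodic maps
-/

open MeasureTheory Filter Topology Finset ProbabilityTheory
open scoped ENNReal ComplexConjugate Matrix

namespace Pool.Agent.Lib.H82OF

open Pool.Agent.Lib.H22M Pool.Agent.Lib.H82T Pool.Agent.Lib.H82OT

/-- Proof. `m₁ = m.map τ`, `τ ∘ R^[n] = R₁^[n] ∘ τ` a.e. (induction; `R` preserves `m`).
`R₁^[n]` preserves `m₁`. If `R₁^[n]⁻¹ A = A`, `A` measurable, then `B = τ⁻¹ A` satisfies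
`(R^[n])⁻¹ B = B` a.e., so `B` is null or conull (`Ergodic.ae_empty_or_univ_of_ae_le_preimage`-type lemma
or `Ergodic.quasiErgodic`), hence `A` too. -/
theorem ergodic_factor {Y Y₁ : Type*} [MeasurableSpace Y] [MeasurableSpace Y₁] {m : Measure Y}
    [IsProbabilityMeasure m] {m₁ : Measure Y₁} (R : Y ≃ᵐ Y) (hR : MeasurePreserving R m m)
    (R₁ : Y₁ ≃ᵐ Y₁) (τ : Y → Y₁) (hτ : MeasurePreserving τ m m₁)
    (hτR : ∀ᵐ y ∂m, τ (R y) = R₁ (τ y)) (n : ℕ) (herg : Ergodic ((⇑R)^[n]) m) :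
    Ergodic ((⇑R₁)^[n]) m₁ := by
  classical
  have hmap : m.map τ = m₁ := hτ.map_eq
  have hτm : Measurable τ := hτ.measurable
  -- `R₁` preserves `m₁`
  have hR₁ : MeasurePreserving R₁ m₁ m₁ := by
    refine ⟨R₁.measurable, ?_⟩
    ext A hA
    rw [Measure.map_apply R₁.measurable hA, ← hmap,
      Measure.map_apply hτm (R₁.measurable hA), Measure.map_apply hτm hA]
    have h1 : m (τ ⁻¹' (R₁ ⁻¹' A)) = m (R ⁻¹' (τ ⁻¹' A)) := by
      refine measure_congr ?_
      filter_upwards [hτR] with y hy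
      refine propext ?_
      show R₁ (τ y) ∈ A ↔ τ (R y) ∈ A
      rw [hy]
    rw [h1, hR.measure_preimage (hτm hA).nullMeasurableSet]
  -- iterates
  have hcomm : ∀ k : ℕ, ∀ᵐ y ∂m, τ ((⇑R)^[k] y) = (⇑R₁)^[k] (τ y) := by
    intro k
    induction k with
    | zero => exact Eventually.of_forall fun y => rfl
    | succ k ih =>
      have h2 : ∀ᵐ y ∂m, τ (R ((⇑R)^[k] y)) = R₁ (τ ((⇑R)^[k] y)) :=
        (hR.iterate k).quasiMeasurePreserving.ae hτR
      filter_upwards [ih, h2] with y hy hy2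
      rw [Function.iterate_succ_apply', Function.iterate_succ_apply', hy2, hy]
  refine ⟨hR₁.iterate n, ⟨?_⟩⟩
  intro A hA hAinv
  have hB : MeasurableSet (τ ⁻¹' A) := hτm hA
  have hBinv : ((⇑R)^[n]) ⁻¹' (τ ⁻¹' A) =ᵐ[m] τ ⁻¹' A := by
    filter_upwards [hcomm n] with y hy
    refine propext ?_
    show τ ((⇑R)^[n] y) ∈ A ↔ τ y ∈ A
    rw [hy]
    have := Set.ext_iff.mp hAinv (τ y)
    exact this
  have hconst : EventuallyConst (τ ⁻¹' A) (ae m) :=
    herg.quasiErgodic.aeconst_set₀ hB.nullMeasurableSet hBinv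
  rw [eventuallyConst_set'] at hconst ⊢
  rcases hconst with h | h
  · left
    rw [ae_eq_empty] at h ⊢
    rw [← hmap, Measure.map_apply hτm hA]
    exact h
  · right
    rw [eventuallyEq_univ] at h ⊢
    rw [← hmap, mem_ae_iff, Measure.map_apply hτm hA.compl]
    exact h

end Pool.Agent.Lib.H82OF
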