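import Pool.Agent.Lib.H82OF.JL2
import Pool.Agent.Lib.H82OF.JL3
import Pool.Agent.Lib.H82OT.FN5

/-!
# Project H82OF, chunk FN1: the criterion
-/

open MeasureTheory Filter Topology Finset ProbabilityTheory
open scoped ENNReal ComplexConjugate Matrix

namespace Pool.Agent.Lib.H82OF

open Pool.Agent.Lib.H22M Pool.Agent.Lib.H82T Pool.Agent.Lib.H82OT

/-- Proof. `P0, m0, F0` from `hPS` for `ε₀`. Given `p` and `Q` with more than `m0` elements, some `q ∈ Q` is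
not bad. A joining `ρ₁` of `R₁^p` and `R₁^q` lifts to `ρ` (`exists_joining_lift`), and
`∫ F(z.1) conj F(z.2) dρ₁ = ∫ F(τ z.1) conj F(τ z.2) dρ`, `∫ F ∘ τ dm = ∫ F dm₁ = 0`. -/
theorem bound_of_PS {Y Y₁ : Type*} [MeasurableSpace Y] [StandardBorelSpace Y]
    [MeasurableSpace Y₁] {m : Measure Y} [IsProbabilityMeasure m] {m₁ : Measure Y₁}
    [IsProbabilityMeasure m₁] (R : Y ≃ᵐ Y) (hR : MeasurePreserving R m m) (R₁ : Y₁ ≃ᵐ Y₁)
    (τ : Y → Y₁) (hτ : MeasurePreserving τ m m₁) (hτR : ∀ᵐ y ∂m, τ (R y) = R₁ (τ y))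
    (F : Y₁ → ℂ) (hF : Measurable F) (hF1 : ∀ y, ‖F y‖ ≤ 1) (hF0 : ∫ y, F y ∂m₁ = 0)
    (hPS : PS m R (fun y => F (τ y)) (fun y => F (τ y))) (ε₀ : ℝ) (hε : 0 < ε₀) :
    ∃ F0 : Finset ℂ, 1 ∉ F0 ∧ ∃ (P0 : Finset ℕ) (m0 : ℕ), ∀ p ∈ goodPrimes m R F0, p ∉ P0 →
      ∀ Q : Finset ℕ, (∀ q ∈ Q, q.Prime ∧ q ≠ p) → m0 < Q.card →
        ∃ q ∈ Q, ∀ ρ₁ : Measure (Y₁ × Y₁), IsJoin m₁ R₁ p q ρ₁ →
          ‖∫ z, F z.1 * conj (F z.2) ∂ρ₁‖ ≤ ε₀ := by
  obtain ⟨F0, hF0', P0, m0, h1⟩ := hPS ε₀ hε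
  refine ⟨F0, hF0', P0, m0, fun p hp hpP Q hQp hcard => ?_⟩
  have h2 : ∃ q ∈ Q, ¬ BadP m R (fun y => F (τ y)) (fun y => F (τ y)) ε₀ p q := by
    by_contra hcon
    push Not at hcon
    have h3 := h1 p hp hpP Q fun q hq => ⟨(hQp q hq).1, (hQp q hq).2, hcon q hq⟩
    omega
  obtain ⟨q, hq, hbad⟩ := h2
  refine ⟨q, hq, fun ρ₁ hρ₁ => ?_⟩
  obtain ⟨ρ, hρ, hmap⟩ := exists_joining_lift R hR R₁ τ hτ hτR hρ₁
  have h4 : ∫ y, F (τ y) ∂m = 0 := by
    rw [← hF0, ← hτ.map_eq, integral_map hτ.measurable.aemeasurable]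
    exact hF.aestronglyMeasurable
  have hmeas : Measurable fun z : Y₁ × Y₁ => F z.1 * conj (F z.2) :=
    (hF.comp measurable_fst).mul
      (Complex.continuous_conj.measurable.comp (hF.comp measurable_snd))
  have h5 : ∫ z, F z.1 * conj (F z.2) ∂ρ₁ = ∫ z, F (τ z.1) * conj (F (τ z.2)) ∂ρ := by
    rw [← hmap, integral_map (hτ.measurable.prodMap hτ.measurable).aemeasurable
      hmeas.aestronglyMeasurable]
    rfl
  rw [h5]
  by_contra hcon
  refine hbad ⟨ρ, hρ, ?_⟩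
  rw [h4, zero_mul, sub_zero]
  exact not_le.1 hcon

/-- Removing finitely many primes does not change the divergence. -/
private theorem fn1_not_summable_diff (P : Set ℕ) (P0 : Finset ℕ)
    (h : ¬ Summable (P.indicator fun p : ℕ => 1 / (p : ℝ))) :
    ¬ Summable ((P \ (P0 : Set ℕ)).indicator fun p : ℕ => 1 / (p : ℝ)) := by
  intro h1
  apply h
  refine (summable_congr_cofinite ?_).1 h1
  have h2 : ∀ᶠ p : ℕ in cofinite, p ∉ (P0 : Set ℕ) := P0.finite_toSet.compl_mem_cofinite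
  filter_upwards [h2] with p hp
  by_cases hpP : p ∈ P
  · rw [Set.indicator_of_mem (show p ∈ P \ (P0 : Set ℕ) from ⟨hpP, hp⟩), Set.indicator_of_mem hpP]
  · rw [Set.indicator_of_notMem (fun h3 : p ∈ P \ (P0 : Set ℕ) => hpP h3.1),
      Set.indicator_of_notMem hpP]

/-- Proof. Port of `main_of_QS` (`H82OT/FN5.lean`) with `bound_of_PS` for `(m₁, R₁)`; the ergodicity of
the iterates of `R₁` by `ergodic_factor` (JL3) and `ergodic_iterate` for `R` (`eq_one_of_root hD`); the set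
of primes is `goodPrimes m R F0 \ P0`. -/
theorem main_of_PS {Y Y₁ : Type*} [MeasurableSpace Y] [StandardBorelSpace Y]
    [MeasurableSpace Y₁] {m : Measure Y} [IsProbabilityMeasure m] {m₁ : Measure Y₁}
    [IsProbabilityMeasure m₁] (R : Y ≃ᵐ Y) (hR : Ergodic R m) (hD : ManyGoodPrimes m R)
    (hQ : ∀ F : Y → ℂ, BM F → PS m R F F) (R₁ : Y₁ ≃ᵐ Y₁)
    (τ : Y → Y₁) (hτ : MeasurePreserving τ m m₁) (hτR : ∀ᵐ y ∂m, τ (R y) = R₁ (τ y))
    {X : Type*} [MetricSpace X] [CompactSpace X] [MeasurableSpace X] [BorelSpace X]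
    (T : X ≃ₜ X) (ν : Measure X) (θ : X → Y₁) (ψ : Y₁ → X)
    (hmodel : IsUEModel T ν m₁ R₁ θ ψ) (f : C(X, ℂ)) (x : X) :
    Tendsto (fun N : ℕ => (1 / (N : ℂ)) *
      ∑ n ∈ Icc 1 N, f ((⇑T)^[n] x) * (ArithmeticFunction.moebius n : ℂ)) atTop (𝓝 0) := by
  have hroot : ∀ c : ℂ, IsEigenvalue m R c → ∀ n : ℕ, 1 ≤ n → c ^ n = 1 → c = 1 :=
    fun c hc n hn h => eq_one_of_root hD c hc n hn h
  have hergn : ∀ n : ℕ, 1 ≤ n → Ergodic ((⇑R₁)^[n]) m₁ := fun n hn =>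
    ergodic_factor R hR.toMeasurePreserving R₁ τ hτ hτR n (ergodic_iterate hR hroot n hn)
  have hνp : IsProbabilityMeasure ν := hmodel.prob
  set c₀ : ℂ := ∫ x, f x ∂ν with hc₀
  set L : ℝ := 2 * ‖f‖ + 1 with hL
  have hL0 : 0 < L := by positivity
  have hLC : (L : ℂ) ≠ 0 := by exact_mod_cast hL0.ne'
  set g : C(X, ℂ) := (L : ℂ)⁻¹ • (f - ContinuousMap.const X c₀) with hg
  have hgx : ∀ x, g x = (L : ℂ)⁻¹ * (f x - c₀) := fun x => rfl
  have hc₀n : ‖c₀‖ ≤ ‖f‖ := by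
    have h1 := norm_integral_le_of_norm_le_const (μ := ν) (f := fun x => f x) (C := ‖f‖)
      (Eventually.of_forall fun x => f.norm_coe_le_norm x)
    simpa using h1
  have hg1 : ∀ x, ‖g x‖ ≤ 1 := by
    intro x
    rw [hgx, norm_mul, norm_inv, Complex.norm_real, Real.norm_of_nonneg hL0.le,
      inv_mul_le_iff₀ hL0, mul_one]
    calc ‖f x - c₀‖ ≤ ‖f x‖ + ‖c₀‖ := norm_sub_le _ _
      _ ≤ ‖f‖ + ‖f‖ := add_le_add (f.norm_coe_le_norm x) hc₀n
      _ ≤ L := by rw [hL]; linarith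
  have hF0 : ∫ y, g (ψ y) ∂m₁ = 0 := by
    have h1 : ∫ y, g (ψ y) ∂m₁ = ∫ x, g x ∂ν := by
      rw [← hmodel.map_psi, integral_map hmodel.meas_psi.aemeasurable]
      exact g.continuous.measurable.aestronglyMeasurable
    have hfi : Integrable (fun x => f x) ν :=
      Integrable.of_bound f.continuous.measurable.aestronglyMeasurable ‖f‖
        (Eventually.of_forall fun x => f.norm_coe_le_norm x)
    rw [h1]
    simp_rw [hgx]
    rw [integral_const_mul, integral_sub hfi (integrable_const _), integral_const]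
    simp [hc₀]
  have hgm : Measurable fun y => g (ψ y) := g.continuous.measurable.comp hmodel.meas_psi
  have hmain : Tendsto (fun N : ℕ =>
      (∑ n ∈ Icc 1 N, (ArithmeticFunction.moebius n : ℂ) * g ((⇑T)^[n] x)) / N) atTop (𝓝 0) := by
    apply katai_average (fun n => g ((⇑T)^[n] x)) (fun n => hg1 _)
    intro ε hε
    obtain ⟨F0, h1, P0, m0, hm0⟩ := bound_of_PS R hR.toMeasurePreserving R₁ τ hτ hτR
      (fun y => g (ψ y)) hgm (fun y => hg1 _) hF0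
      (hQ _ ⟨hgm.comp hτ.measurable, 1, fun y => hg1 _⟩) (ε / 2) (by positivity)
    refine ⟨goodPrimes m R F0 \ (P0 : Set ℕ), fun p hp => hp.1.1,
      fn1_not_summable_diff _ P0 (hD F0 h1), m0, fun p hp Q hQ' hcard => ?_⟩
    obtain ⟨q, hq, hbound⟩ := hm0 p hp.1 (fun h => hp.2 (Finset.mem_coe.2 h)) Q hQ' hcard
    refine ⟨q, hq, ?_⟩
    exact eventually_le_of_join T.continuous R₁.measurable hmodel hergn p q hp.1.1.one_le
      (hQ' q hq).1.one_le g x (ε / 2) ε (by linarith) hbound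
  have h2 := (hmain.const_mul (L : ℂ)).add (moebius_mean.const_mul c₀)
  rw [mul_zero, mul_zero, add_zero] at h2
  refine h2.congr fun N => ?_
  have h3 : ∀ n, f ((⇑T)^[n] x) = (L : ℂ) * g ((⇑T)^[n] x) + c₀ := by
    intro n
    rw [hgx]
    field_simp
    ring
  simp_rw [h3, div_eq_mul_inv, one_mul]
  rw [Finset.sum_mul, Finset.mul_sum, Finset.sum_mul, Finset.mul_sum, Finset.mul_sum,
    ← Finset.sum_add_distrib]
  refine Finset.sum_congr rfl fun n _ => ?_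
  ring

end Pool.Agent.Lib.H82OF
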