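import Pool.Agent.Lib.H82OF.LVD

/-!
# Project H82OF, chunk LV1: levels from their data, eigenvalues of a level
-/

open MeasureTheory Filter Topology Finset ProbabilityTheory
open scoped ENNReal ComplexConjugate Matrix

namespace Pool.Agent.Lib.H82OF

open Pool.Agent.Lib.H22M Pool.Agent.Lib.H82T Pool.Agent.Lib.H82OT

section

variable {Z K : Type*} [CommGroup Z] [TopologicalSpace Z] [IsTopologicalGroup Z]
  [CompactSpace Z] [T2Space Z] [SecondCountableTopology Z] [MeasurableSpace Z] [BorelSpace Z]
  [Group K] [TopologicalSpace K] [IsTopologicalGroup K] [CompactSpace K] [T2Space K]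
  [SecondCountableTopology K] [MeasurableSpace K] [BorelSpace K]

/-- Proof. `IsEigenvalue` is the same for `(Y, m, R)` and `(Z × K, lam.prod muK, skew α φ)`: an
eigenfunction `e` of the skew product gives the eigenfunction `e ∘ P`; conversely for an eigenfunction
`e` of `R` with `‖e‖ = 1` a.e. replace `e` by a bounded version (`e y = e y / ‖e y‖` or `1` where
`‖e y‖ ≠ 1`), `e = g ∘ fst ∘ P` a.e. by `kron`, and the relations for `g ∘ fst` hold a.e. on `Z × K` since
`lam.prod muK` is the image of `m` (`MeasurePreserving`, `ae_map_iff` with measurable sets). -/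
theorem Lev.goodPrimes_eq {Y : Type*} [MeasurableSpace Y] {m : Measure Y}
    [IsProbabilityMeasure m] {R : Y → Y} (hRm : MeasurePreserving R m m)
    {lam : Measure Z} {muK : Measure K} {α : Z} {φ : Z → K} {P : Y → Z × K}
    (h : Lev m R lam muK α φ P) (F0 : Finset ℂ) :
    goodPrimes m R F0 = goodPrimes (lam.prod muK) (skew (M := K) α φ) F0 := by
  have hiff : ∀ c : ℂ, IsEigenvalue m R c ↔ IsEigenvalue (lam.prod muK) (skew (M := K) α φ) c := by
    intro c
    constructor
    · rintro ⟨f, hf, hf1, hfe⟩
      classical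
      set e : Y → ℂ := fun y => if ‖f y‖ = 1 then f y else 1 with he
      have heb : BM e := by
        refine ⟨Measurable.ite (measurableSet_eq_fun hf.norm measurable_const) hf
          measurable_const, 1, fun y => ?_⟩
        simp only [he]
        split_ifs with h1
        · exact h1.le
        · simp
      have hef : ∀ᵐ y ∂m, e y = f y := by
        filter_upwards [hf1] with y hy
        simp only [he]
        rw [if_pos hy]
      have hefR : ∀ᵐ y ∂m, e (R y) = f (R y) := hRm.quasiMeasurePreserving.ae hef
      have hee : ∀ᵐ y ∂m, e (R y) = c * e y := by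
        filter_upwards [hef, hefR, hfe] with y h1 h2 h3
        rw [h1, h2, h3]
      obtain ⟨g, hg, hge⟩ := h.kron e c heb hee
      have hgeR : ∀ᵐ y ∂m, e (R y) = g (P (R y)).1 := hRm.quasiMeasurePreserving.ae hge
      refine ⟨fun w => g w.1, hg.1.comp measurable_fst, ?_, ?_⟩
      · rw [← h.pres.map_eq]
        refine (ae_map_iff h.pres.measurable.aemeasurable
          (measurableSet_eq_fun (hg.1.comp measurable_fst).norm measurable_const)).2 ?_
        filter_upwards [hge, hef, hf1] with y h1 h2 h3
        show ‖g (P y).1‖ = 1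
        rw [← h1, h2, h3]
      · rw [← h.pres.map_eq]
        have hsk : Measurable fun w : Z × K => g (skew (M := K) α φ w).1 :=
          hg.1.comp (measurable_fst.const_mul α)
        refine (ae_map_iff h.pres.measurable.aemeasurable
          (measurableSet_eq_fun hsk ((hg.1.comp measurable_fst).const_mul c))).2 ?_
        filter_upwards [hge, hgeR, hee] with y h1 h2 h3
        rw [← h.equi y, ← h2, h3, h1]
        rfl
    · rintro ⟨f, hf, hf1, hfe⟩
      refine ⟨fun y => f (P y), hf.comp h.pres.measurable, h.pres.quasiMeasurePreserving.ae hf1, ?_⟩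
      have h1 := h.pres.quasiMeasurePreserving.ae hfe
      filter_upwards [h1] with y hy
      rw [h.equi y]
      exact hy
  unfold goodPrimes
  simp only [hiff]

/-- A level from its data. Proof. `Base`: `erg`: a factor of an ergodic map is ergodic (an invariant set
`A` gives the invariant set `P⁻¹ A`; `Ergodic` of the image, or `MeasurePreserving` and
`PreErgodic.of_...`); `kron`: for an eigenfunction `e` of the skew product `e ∘ P = g ∘ fst ∘ P` a.e., so
`e = g ∘ fst` a.e.; `root`: eigenvalues of the skew product are eigenvalues of `R`. -/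
theorem exists_lev {Y : Type*} [MeasurableSpace Y] {m : Measure Y} [IsProbabilityMeasure m]
    (R : Y ≃ᵐ Y) (hR : Ergodic R m)
    (hroot : ∀ c : ℂ, IsEigenvalue m R c → ∀ n : ℕ, 1 ≤ n → c ^ n = 1 → c = 1)
    (lam : Measure Z) [IsProbabilityMeasure lam] (muK : Measure K) [IsProbabilityMeasure muK]
    (α : Z) (φ : Z → K) (hφ : Measurable φ) (π : Y → Z) (k : Y → K) (hπk : MeasurePreserving (fun y => (π y, k y)) m (lam.prod muK))
    (hπR : ∀ y, π (R y) = α * π y) (hkR : ∀ y, k (R y) = φ (π y) * k y)
    (hkron : ∀ (e : Y → ℂ) (l : ℂ), BM e → (∀ᵐ y ∂m, e (R y) = l * e y) →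
      ∃ g : Z → ℂ, BM g ∧ ∀ᵐ y ∂m, e y = g (π y)) :
    Lev m R lam muK α φ (fun y => (π y, k y)) := by
  have hequi : ∀ y, ((π (R y), k (R y)) : Z × K) = skew (M := K) α φ (π y, k y) := by
    intro y
    rw [hπR, hkR]
    rfl
  have hskm : Measurable (skew (M := K) α φ) := by
    refine Measurable.prodMk (measurable_fst.const_mul α) ?_
    exact (hφ.comp measurable_fst).smul measurable_snd
  have herg : Ergodic (skew (M := K) α φ) (lam.prod muK) :=
    hπk.ergodic_of_ergodic_semiconj hR hskm fun y => hequi y
  refine ⟨hπk, hequi, ⟨hφ, herg, ?_, ?_⟩, hkron⟩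
  · intro e l he hel
    have h1 : ∀ᵐ y ∂m, e (π (R y), k (R y)) = l * e (π y, k y) := by
      have h2 := hπk.quasiMeasurePreserving.ae hel
      filter_upwards [h2] with y hy
      rw [hequi y]
      exact hy
    obtain ⟨g, hg, hge⟩ := hkron (fun y => e (π y, k y)) l (he.comp hπk.measurable) h1
    refine ⟨g, hg, ?_⟩
    rw [← hπk.map_eq]
    exact (ae_map_iff hπk.measurable.aemeasurable
      (measurableSet_eq_fun he.1 (hg.1.comp measurable_fst))).2 hge
  · rintro c ⟨f, hf, hf1, hfe⟩ n hn hc
    refine hroot c ⟨fun y => f (π y, k y), hf.comp hπk.measurable,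
      hπk.quasiMeasurePreserving.ae hf1, ?_⟩ n hn hc
    have h2 := hπk.quasiMeasurePreserving.ae hfe
    filter_upwards [h2] with y hy
    rw [hequi y]
    exact hy

end

end Pool.Agent.Lib.H82OF
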