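import Pool.Agent.Lib.H82OF.PM5
import Pool.Agent.Lib.H82OF.PS1
import Pool.Agent.Lib.H82OT.FN2

/-!
# Project H82OF, chunk PM6: functions of the top step
-/

open MeasureTheory Filter Topology Finset ProbabilityTheory
open scoped ENNReal ComplexConjugate Matrix

namespace Pool.Agent.Lib.H82OF

open Pool.Agent.Lib.H22M Pool.Agent.Lib.H82T Pool.Agent.Lib.H82OT

section

variable {Z K : Type*} [CommGroup Z] [TopologicalSpace Z] [IsTopologicalGroup Z]
  [CompactSpace Z] [T2Space Z] [SecondCountableTopology Z] [MeasurableSpace Z] [BorelSpace Z]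
  [Group K] [TopologicalSpace K] [IsTopologicalGroup K] [CompactSpace K] [T2Space K]
  [SecondCountableTopology K] [MeasurableSpace K] [BorelSpace K]

/-- Functions of the top step. Proof. `PS.approx` (PS1) with `Pf = Pg` = the functions
`y ↦ ∑ i, F y i * G i (v y)` with `FTD muM G D`, `RowB (BB P) F` (`exists_finite_type`, `H82OT/FN2.lean`).
For two of them `F = F' ∘ P` (`rowB_factor`), `E y i = G i (v y)`, `Ψ x = Matrix.of (D (g x))`: bounded
measurable (`FTD.measD`, `hg`; unitary by `FTD.unit`; entries bounded by `1`: `unit_entry`),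
`E (R y) i = G i (g (P y) • v y) = ∑_j D (g (P y)) i j * G j (v y)` (`FTD.rel`); `G i` is continuous on the
compact `M`, so bounded (`FTD.cont`): `PS_module`. The model is `QS_top` in `H82OT/FN3.lean`. -/
theorem PS_top {Y L M : Type*} [mY : MeasurableSpace Y] [StandardBorelSpace Y] {m : Measure Y}
    [IsProbabilityMeasure m]
    (R : Y ≃ᵐ Y) (hR : Ergodic R m)
    (hroot : ∀ c : ℂ, IsEigenvalue m R c → ∀ n : ℕ, 1 ≤ n → c ^ n = 1 → c = 1)
    (lam : Measure Z) [lam.IsHaarMeasure]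
    [IsProbabilityMeasure lam] (muK : Measure K) [muK.IsHaarMeasure] [IsProbabilityMeasure muK]
    {α : Z} {φ : Z → K} {P : Y → Z × K} (hL : Lev m R lam muK α φ P)
    [Group L] [TopologicalSpace L] [IsTopologicalGroup L] [CompactSpace L] [T2Space L]
    [SecondCountableTopology L] [MeasurableSpace L] [BorelSpace L]
    [TopologicalSpace M] [CompactSpace M] [T2Space M] [SecondCountableTopology M]
    [MeasurableSpace M] [BorelSpace M]
    [MulAction L M] [ContinuousSMul L M] [MulAction.IsPretransitive L M]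
    (muM : Measure M) [IsProbabilityMeasure muM] [SMulInvariantMeasure L M muM]
    (v : Y → M) (hv : MeasurePreserving v m muM) (g : Z × K → L) (hg : Measurable g)
    (hvR : ∀ y, v (R y) = g (P y) • v y) (f f' : Y → ℂ)
    (hf : Measurable[BB P ⊔ MeasurableSpace.comap v inferInstance] f)
    (hb : ∃ C : ℝ, ∀ y, ‖f y‖ ≤ C)
    (hf' : Measurable[BB P ⊔ MeasurableSpace.comap v inferInstance] f')
    (hb' : ∃ C : ℝ, ∀ y, ‖f' y‖ ≤ C) : PS m R f f' := by
  have hle : BB P ≤ mY := hL.pres.measurable.comap_le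
  have hvm : Measurable v := hv.measurable
  have hfm : Measurable f := hf.mono (sup_le hle hvm.comap_le) le_rfl
  have hfm' : Measurable f' := hf'.mono (sup_le hle hvm.comap_le) le_rfl
  have hGB : ∀ (d : ℕ) (G : Fin d → M → ℂ) (D : L → Fin d → Fin d → ℂ), FTD muM G D →
      BMR (fun y i => G i (v y)) := by
    intro d G D hD i
    refine ⟨(hD.cont i).measurable.comp hvm, ?_⟩
    obtain ⟨C, hC⟩ := (isCompact_range (hD.cont i)).isBounded.exists_norm_le
    exact ⟨C, fun y => hC _ ⟨v y, rfl⟩⟩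
  have hunit : ∀ (d : ℕ) (G : Fin d → M → ℂ) (D : L → Fin d → Fin d → ℂ), FTD muM G D →
      ∀ x : Z × K, Matrix.of (D (g x)) * (Matrix.of (D (g x)))ᴴ = 1 := by
    intro d G D hD x
    ext i j
    rw [Matrix.mul_apply, Matrix.one_apply]
    exact hD.unit (g x) i j
  have hbm : ∀ (d : ℕ) (G : Fin d → M → ℂ) (D : L → Fin d → Fin d → ℂ), FTD muM G D →
      BMM (fun x : Z × K => Matrix.of (D (g x))) := by
    intro d G D hD i j
    exact ⟨(hD.measD i j).comp hg, 1, fun x => unit_entry (hunit d G D hD x) i j⟩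
  have hrel : ∀ (d : ℕ) (G : Fin d → M → ℂ) (D : L → Fin d → Fin d → ℂ), FTD muM G D →
      ∀ᵐ y ∂m, (fun i => G i (v (R y))) =
        (Matrix.of (D (g (P y)))) *ᵥ (fun i => G i (v y)) := by
    intro d G D hD
    refine Eventually.of_forall fun y => ?_
    funext i
    show G i (v (R y)) = ∑ j, D (g (P y)) i j * G j (v y)
    rw [hvR]
    exact hD.rel (g (P y)) (v y) i
  let Pf : (Y → ℂ) → Prop := fun q =>
    ∃ (d : ℕ) (G : Fin d → M → ℂ) (D : L → Fin d → Fin d → ℂ) (F : Y → Fin d → ℂ),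
      FTD muM G D ∧ RowB (BB P) F ∧ q = fun y => ∑ i, F y i * G i (v y)
  have hPf : ∀ q, Pf q → BM q := by
    rintro q ⟨d, G, D, F, hD, hF, rfl⟩
    obtain ⟨C, hC⟩ := hF.2
    refine BM.sum _ fun i _ => ?_
    exact BM.mul ⟨(hF.1 i).mono hle le_rfl, C, fun y => hC y i⟩ (hGB d G D hD i)
  have happ : ∀ q : Y → ℂ, Measurable[BB P ⊔ MeasurableSpace.comap v inferInstance] q →
      (∃ C : ℝ, ∀ y, ‖q y‖ ≤ C) → ∀ δ : ℝ, 0 < δ →
      ∃ q', Pf q' ∧ l2 m (fun y => q y - q' y) ≤ δ := by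
    intro q hq hqb δ hδ
    obtain ⟨d, G, D, F, hD, hF, hl2⟩ :=
      exists_finite_type (K := L) (BB P) muM m hle v hv q hq hqb δ hδ
    exact ⟨_, ⟨d, G, D, F, hD, hF, rfl⟩, hl2⟩
  refine PS.approx f f' ⟨hfm, hb⟩ ⟨hfm', hb'⟩ Pf Pf hPf hPf (happ f hf hb) (happ f' hf' hb') ?_
  rintro _ _ ⟨d, G, D, F, hD, hF, rfl⟩ ⟨d', G', D', F', hD', hF', rfl⟩
  obtain ⟨F₁, hF₁, hF₁e⟩ := rowB_factor P F hF
  obtain ⟨F₂, hF₂, hF₂e⟩ := rowB_factor P F' hF'
  have key := PS_module R hR hroot lam muK hL (fun x => Matrix.of (D (g x)))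
    (fun x => Matrix.of (D' (g x))) (hbm d G D hD) (hbm d' G' D' hD') (hunit d G D hD)
    (hunit d' G' D' hD') (fun y i => G i (v y)) (hGB d G D hD) (hrel d G D hD)
    (fun y i => G' i (v y)) (hGB d' G' D' hD') (hrel d' G' D' hD') F₁ hF₁ F₂ hF₂
  have e1 : (fun y => ∑ i, F y i * G i (v y)) =
      fun y => F₁ (P y) ⬝ᵥ (fun i => G i (v y)) := by
    funext y
    rw [hF₁e]
    rfl
  have e2 : (fun y => ∑ i, F' y i * G' i (v y)) =
      fun y => F₂ (P y) ⬝ᵥ (fun i => G' i (v y)) := by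
    funext y
    rw [hF₂e]
    rfl
  rw [e1, e2]
  exact key

end

end Pool.Agent.Lib.H82OF
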