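import Pool.Agent.Lib.H82OF.PS1
import Pool.Agent.Lib.H82T.F2

/-!
# Project H82OF, chunk PS3: inverse limits
-/

open MeasureTheory Filter Topology Finset ProbabilityTheory
open scoped ENNReal ComplexConjugate Matrix

namespace Pool.Agent.Lib.H82OF

open Pool.Agent.Lib.H22M Pool.Agent.Lib.H82T Pool.Agent.Lib.H82OT

/-- Proof. `PS.approx` with `Pf = Pg` = the bounded functions measurable for some `𝒞 i`: by `f2_approx`
(`H82T/F2.lean`) for `𝒮 = Set.range 𝒞` they approximate every bounded measurable function (the proof of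
`QS_all` in `H82OT/FN4.lean` is the model); for two of them use a common upper bound of `𝒞 i`, `𝒞 j`. -/
theorem PS_all {Y ι : Type*} [Nonempty ι] (𝒞 : ι → MeasurableSpace Y) [mY : MeasurableSpace Y]
    {m : Measure Y} [IsProbabilityMeasure m] {R : Y → Y} (hdir : Directed (· ≤ ·) 𝒞)
    (hle : ∀ i, 𝒞 i ≤ mY)
    (hgen : ∀ A : Set Y, MeasurableSet A → ∃ B, MeasurableSet[⨆ i, 𝒞 i] B ∧ m (symmDiff A B) = 0)
    (hQ : ∀ (i : ι) (f g : Y → ℂ), Measurable[𝒞 i] f → (∃ C : ℝ, ∀ y, ‖f y‖ ≤ C) →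
      Measurable[𝒞 i] g → (∃ C : ℝ, ∀ y, ‖g y‖ ≤ C) → PS m R f g)
    (F G : Y → ℂ) (hF : BM F) (hG : BM G) : PS m R F G := by
  have hne : (Set.range 𝒞).Nonempty := Set.range_nonempty 𝒞
  have hdir' : DirectedOn (· ≤ ·) (Set.range 𝒞) := directedOn_range.2 hdir
  have hle' : ∀ ℬ ∈ Set.range 𝒞, ℬ ≤ mY := by
    rintro _ ⟨i, rfl⟩
    exact hle i
  have happ : ∀ H : Y → ℂ, BM H → ∀ δ : ℝ, 0 < δ →
      ∃ f' : Y → ℂ, (∃ i, Measurable[𝒞 i] f' ∧ ∃ C : ℝ, ∀ y, ‖f' y‖ ≤ C) ∧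
        l2 m (fun y => H y - f' y) ≤ δ := by
    intro H hH δ hδ
    obtain ⟨⟨_, i, rfl⟩, f', hf', hb', hd⟩ := f2_approx (Set.range 𝒞) m hne hdir' hle'
      (by
        rw [sSup_range]
        exact hgen) H hH.1 hH.2 δ hδ
    exact ⟨f', ⟨i, hf', hb'⟩, hd⟩
  refine PS.approx F G hF hG
    (fun f' => ∃ i, Measurable[𝒞 i] f' ∧ ∃ C : ℝ, ∀ y, ‖f' y‖ ≤ C)
    (fun f' => ∃ i, Measurable[𝒞 i] f' ∧ ∃ C : ℝ, ∀ y, ‖f' y‖ ≤ C)
    (fun f' h' => ?_) (fun f' h' => ?_) (happ F hF) (happ G hG) ?_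
  · obtain ⟨i, h1, h2⟩ := h'
    exact ⟨h1.mono (hle i) le_rfl, h2⟩
  · obtain ⟨i, h1, h2⟩ := h'
    exact ⟨h1.mono (hle i) le_rfl, h2⟩
  · rintro f' g' ⟨i, h1, h2⟩ ⟨j, h3, h4⟩
    obtain ⟨k, hik, hjk⟩ := hdir i j
    exact hQ k f' g' (h1.mono hik le_rfl) h2 (h3.mono hjk le_rfl) h4

end Pool.Agent.Lib.H82OF
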