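import Pool.Agent.Lib.H82OF.FN1
import Pool.Agent.Lib.H82OF.PM6
import Pool.Agent.Lib.H82OF.PS3
import Pool.Agent.Lib.H82OF.LV1

/-!
# Project H82OF, chunk FN2: the main theorem
-/

open MeasureTheory Filter Topology Finset ProbabilityTheory
open scoped ENNReal ComplexConjugate Matrix

namespace Pool.Agent.Lib.H82OF

open Pool.Agent.Lib.H22M Pool.Agent.Lib.H82T Pool.Agent.Lib.H82OT

/-- Proof. `hroot` by `eq_one_of_root hD` (see `main_of_QS` in `H82OT/FN5.lean`); `exists_lev` (LV1) for every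
`i`; `PS_top` (PM6) and `PS_all` (PS3) for `𝒞 i = BB P_i ⊔ comap (v i)`, `P_i y = (π y, k i y)`;
`main_of_PS`. -/
theorem main_levels {Y Y₁ Z X ι : Type*} [Nonempty ι] [MeasurableSpace Y] [StandardBorelSpace Y]
    [MeasurableSpace Y₁] {m : Measure Y} [IsProbabilityMeasure m] {m₁ : Measure Y₁}
    [IsProbabilityMeasure m₁] (R : Y ≃ᵐ Y) (hR : Ergodic R m) (hD : ManyGoodPrimes m R)
    [CommGroup Z] [TopologicalSpace Z] [IsTopologicalGroup Z]
    [CompactSpace Z] [T2Space Z] [SecondCountableTopology Z] [MeasurableSpace Z] [BorelSpace Z]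
    (lam : Measure Z) [lam.IsHaarMeasure] [IsProbabilityMeasure lam]
    (π : Y → Z) (α : Z) (hπR : ∀ y, π (R y) = α * π y)
    (hkron : ∀ (e : Y → ℂ) (l : ℂ), BM e → (∀ᵐ y ∂m, e (R y) = l * e y) →
      ∃ g : Z → ℂ, BM g ∧ ∀ᵐ y ∂m, e y = g (π y))
    {K L M : ι → Type*} [∀ i, Group (K i)] [∀ i, TopologicalSpace (K i)]
    [∀ i, IsTopologicalGroup (K i)] [∀ i, CompactSpace (K i)] [∀ i, T2Space (K i)]
    [∀ i, SecondCountableTopology (K i)] [∀ i, MeasurableSpace (K i)] [∀ i, BorelSpace (K i)]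
    (muK : ∀ i, Measure (K i)) [∀ i, (muK i).IsHaarMeasure] [∀ i, IsProbabilityMeasure (muK i)]
    (k : ∀ i, Y → K i) (φ : ∀ i, Z → K i) (hφ : ∀ i, Measurable (φ i))
    (hk : ∀ i, MeasurePreserving (fun y => (π y, k i y)) m (lam.prod (muK i)))
    (hkR : ∀ i y, k i (R y) = φ i (π y) * k i y)
    [∀ i, Group (L i)] [∀ i, TopologicalSpace (L i)]
    [∀ i, IsTopologicalGroup (L i)] [∀ i, CompactSpace (L i)] [∀ i, T2Space (L i)]
    [∀ i, SecondCountableTopology (L i)] [∀ i, MeasurableSpace (L i)] [∀ i, BorelSpace (L i)]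
    [∀ i, TopologicalSpace (M i)] [∀ i, CompactSpace (M i)] [∀ i, T2Space (M i)]
    [∀ i, SecondCountableTopology (M i)] [∀ i, MeasurableSpace (M i)] [∀ i, BorelSpace (M i)]
    [∀ i, MulAction (L i) (M i)] [∀ i, ContinuousSMul (L i) (M i)]
    [∀ i, MulAction.IsPretransitive (L i) (M i)]
    (muM : ∀ i, Measure (M i)) [∀ i, IsProbabilityMeasure (muM i)]
    [∀ i, SMulInvariantMeasure (L i) (M i) (muM i)]
    (v : ∀ i, Y → M i) (hv : ∀ i, MeasurePreserving (v i) m (muM i))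
    (g : ∀ i, Z × K i → L i) (hg : ∀ i, Measurable (g i))
    (hvR : ∀ i y, v i (R y) = g i (π y, k i y) • v i y)
    (hdir : Directed (· ≤ ·) fun i =>
      MeasurableSpace.comap (fun y => (π y, k i y)) inferInstance ⊔
        MeasurableSpace.comap (v i) inferInstance)
    (hgen : ∀ A : Set Y, MeasurableSet A → ∃ B,
      MeasurableSet[⨆ i, (MeasurableSpace.comap (fun y => (π y, k i y)) inferInstance ⊔
        MeasurableSpace.comap (v i) inferInstance)] B ∧ m (symmDiff A B) = 0)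
    (R₁ : Y₁ ≃ᵐ Y₁) (τ : Y → Y₁) (hτ : MeasurePreserving τ m m₁)
    (hτR : ∀ᵐ y ∂m, τ (R y) = R₁ (τ y))
    [MetricSpace X] [CompactSpace X] [MeasurableSpace X] [BorelSpace X]
    (T : X ≃ₜ X) (ν : Measure X) (θ : X → Y₁) (ψ : Y₁ → X)
    (hmodel : IsUEModel T ν m₁ R₁ θ ψ) (f : C(X, ℂ)) (x : X) :
    Tendsto (fun N : ℕ => (1 / (N : ℂ)) *
      ∑ n ∈ Icc 1 N, f ((⇑T)^[n] x) * (ArithmeticFunction.moebius n : ℂ)) atTop (𝓝 0) := by
  have hroot : ∀ c : ℂ, IsEigenvalue m R c → ∀ n : ℕ, 1 ≤ n → c ^ n = 1 → c = 1 :=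
    fun c hc n hn h => eq_one_of_root hD c hc n hn h
  have hL : ∀ i, Lev m R lam (muK i) α (φ i) (fun y => (π y, k i y)) := fun i =>
    exists_lev R hR hroot lam (muK i) α (φ i) (hφ i) π (k i) (hk i) hπR (hkR i) hkron
  refine main_of_PS R hR hD (fun F hF => ?_) R₁ τ hτ hτR T ν θ ψ hmodel f x
  refine PS_all (fun i => MeasurableSpace.comap (fun y => (π y, k i y)) inferInstance ⊔
    MeasurableSpace.comap (v i) inferInstance) hdir
    (fun i => sup_le (hk i).measurable.comap_le (hv i).measurable.comap_le) hgen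
    (fun i F₁ F₂ h1 hb1 h2 hb2 => ?_) F F hF hF
  exact PS_top R hR hroot lam (muK i) (hL i) (muM i) (v i) (hv i) (g i) (hg i) (hvR i) F₁ F₂
    h1 hb1 h2 hb2

end Pool.Agent.Lib.H82OF
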