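import Pool.Agent.Lib.H82OF.Defs
import Pool.Agent.Lib.H22M.P6

/-!
# Project H82OF, chunk FR: finite type data on a group
-/

open MeasureTheory Filter Topology Finset ProbabilityTheory
open scoped ENNReal ComplexConjugate Matrix

namespace Pool.Agent.Lib.H82OF

open Pool.Agent.Lib.H22M Pool.Agent.Lib.H82T Pool.Agent.Lib.H82OT

section

variable {K : Type*} [Group K] [TopologicalSpace K] [IsTopologicalGroup K] [CompactSpace K]
  [T2Space K] [SecondCountableTopology K] [MeasurableSpace K] [BorelSpace K]

omit [IsTopologicalGroup K] [T2Space K] [SecondCountableTopology K] in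
/-- The coefficients of a combination of the `G_l` are its Fourier coefficients. -/
theorem fr_coef (muK : Measure K) [IsProbabilityMeasure muK] {n : ℕ}
    {G : Fin n → K → ℂ} {D : K → Fin n → Fin n → ℂ} (h : FTD muK G D) (a : Fin n → ℂ)
    (j : Fin n) : ∫ u, (∑ l, a l * G l u) * conj (G j u) ∂muK = a j := by
  have hmul : ∀ l, Integrable (fun u => G l u * conj (G j u)) muK := by
    intro l
    have hl := h.cont l
    have hj := h.cont j
    apply Continuous.integrable_of_hasCompactSupport
    · fun_prop
    · exact HasCompactSupport.of_compactSpace _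
  have h1 : ∀ u, (∑ l, a l * G l u) * conj (G j u) = ∑ l, a l * (G l u * conj (G j u)) := by
    intro u
    rw [Finset.sum_mul]
    exact Finset.sum_congr rfl fun l _ => mul_assoc _ _ _
  rw [integral_congr_ae (Eventually.of_forall h1),
    integral_finsetSum _ (fun l _ => (hmul l).const_mul _)]
  simp only [integral_const_mul, h.orth]
  simp

/-- Proof. `rel` with `u = 1` gives the formula `G i k = ∑ D k i j G j 1`. Homomorphism: for all `u`,
`∑_j D(gh)_ij G_j(u) = G_i(g h u) = ∑_j (D(g) D(h))_ij G_j(u)`, and the `G_j` are orthonormal, hence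
linearly independent (multiply by `conj G_l(u)` and integrate: `FTD.orth`). Unitary: `FTD.unit`.
Continuity: `D k i j = ∫ G_i(k u) conj G_j(u) du` by `rel` and `orth`, continuous in `k`
(`continuous_parametric_integral_of_continuous` on the compact set `univ`, as in `H22M/P5.lean`). -/
theorem ftd_rep (muK : Measure K) [muK.IsHaarMeasure] [IsProbabilityMeasure muK] {n : ℕ}
    {G : Fin n → K → ℂ} {D : K → Fin n → Fin n → ℂ} (h : FTD muK G D) :
    Rep (fun k => Matrix.of (D k)) ∧
      ∀ k, (fun i => G i k) = Matrix.of (D k) *ᵥ (fun i => G i 1) := by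
  have hD : ∀ k i j, D k i j = ∫ u, G i (k • u) * conj (G j u) ∂muK := by
    intro k i j
    rw [integral_congr_ae (Eventually.of_forall fun u => by rw [h.rel k u i])]
    exact (fr_coef muK h (D k i) j).symm
  refine ⟨⟨fun i j => ?_, fun g g' => ?_, fun g => ?_⟩, fun k => ?_⟩
  · have hGi := h.cont i
    have hGj := h.cont j
    have hc : Continuous fun k : K => ∫ v in Set.univ, G i (k • v) * conj (G j v) ∂muK := by
      apply continuous_parametric_integral_of_continuous (f := fun (k : K) (v : K) =>
        G i (k • v) * conj (G j v)) ?_ isCompact_univ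
      simp only [Function.uncurry_def]
      fun_prop
    have h2 : (fun k => Matrix.of (D k) i j) =
        fun k : K => ∫ v in Set.univ, G i (k • v) * conj (G j v) ∂muK := by
      funext k
      rw [Matrix.of_apply, hD, Measure.restrict_univ]
    rw [h2]
    exact hc
  · ext i j
    rw [Matrix.of_apply, Matrix.mul_apply]
    simp only [Matrix.of_apply]
    have h1 : ∀ u, G i ((g * g') • u) = ∑ l, (∑ m, D g i m * D g' m l) * G l u := by
      intro u
      rw [mul_smul, h.rel g (g' • u) i]
      simp only [h.rel g' u, Finset.mul_sum, Finset.sum_mul]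
      rw [Finset.sum_comm]
      exact Finset.sum_congr rfl fun l _ => Finset.sum_congr rfl fun m _ => (mul_assoc _ _ _).symm
    rw [hD, integral_congr_ae (Eventually.of_forall fun u => by rw [h1 u])]
    exact fr_coef muK h (fun l => ∑ m, D g i m * D g' m l) j
  · ext i j
    rw [Matrix.mul_apply]
    simp only [Matrix.conjTranspose_apply, Matrix.of_apply, Matrix.one_apply]
    exact h.unit g i j
  · funext i
    have h1 := h.rel k 1 i
    rw [smul_eq_mul, mul_one] at h1
    rw [h1]
    rfl

end

end Pool.Agent.Lib.H82OF
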