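import Pool.Agent.Lib.H82OF.Defs
import Pool.Agent.Lib.H22M.TG

/-!
# Project H82OF, chunk HC2: from characters and invariant functions to the generated σ-algebra
-/

open MeasureTheory Filter Topology Finset ProbabilityTheory
open scoped ENNReal ComplexConjugate Matrix

namespace Pool.Agent.Lib.H82OF

open Pool.Agent.Lib.H22M Pool.Agent.Lib.H82T Pool.Agent.Lib.H82OT

section

variable {Z K : Type*} [CommGroup Z] [TopologicalSpace Z] [IsTopologicalGroup Z]
  [CompactSpace Z] [T2Space Z] [SecondCountableTopology Z] [MeasurableSpace Z] [BorelSpace Z]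
  [Group K] [TopologicalSpace K] [IsTopologicalGroup K] [CompactSpace K] [T2Space K]
  [SecondCountableTopology K] [MeasurableSpace K] [BorelSpace K]

private theorem hc2_char (χ : PontryaginDual Z) : BM fun z : Z => ((χ z : Circle) : ℂ) :=
  ⟨(CompactAbelian.continuous_char χ).measurable, 1, fun z => (Circle.norm_coe (χ z)).le⟩

private theorem hc2_ind {X : Type*} [MeasurableSpace X] (A : Set X) (hA : MeasurableSet A) :
    BM (A.indicator fun _ => (1 : ℂ)) := by
  refine ⟨measurable_const.indicator hA, 1, fun z => ?_⟩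
  by_cases hz : z ∈ A
  · simp [hz]
  · simp [hz]

private theorem hc2_norm_int {Ω : Type*} [MeasurableSpace Ω] (ρ : Measure Ω)
    [IsProbabilityMeasure ρ] (u v : Ω → ℂ) (hu : BM u) (hv : BM v) (C : ℝ) (hC : ∀ ω, ‖u ω‖ ≤ C)
    (k : ℝ) (hk : 0 < k) (hvk : ∫ ω, ‖v ω‖ ^ 2 ∂ρ ≤ k ^ 2) :
    ‖∫ ω, u ω * v ω ∂ρ‖ ≤ C * k := by
  have hC0 : 0 ≤ C := by
    obtain ⟨ω⟩ : Nonempty Ω := nonempty_of_isProbabilityMeasure ρ
    exact (norm_nonneg _).trans (hC ω)
  have hint : Integrable (fun ω => ‖v ω‖ ^ 2) ρ := by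
    have h1 := (hv.memLp (m := ρ) 2).integrable_norm_pow (by norm_num)
    simpa using h1
  -- `‖v‖ ≤ (‖v‖ ^ 2 / k + k) / 2`
  calc ‖∫ ω, u ω * v ω ∂ρ‖ ≤ ∫ ω, C * ((‖v ω‖ ^ 2 / k + k) / 2) ∂ρ := by
        refine norm_integral_le_of_norm_le ?_ (Eventually.of_forall fun ω => ?_)
        · exact (((hint.div_const k).add (integrable_const k)).div_const 2).const_mul C
        · rw [norm_mul]
          refine mul_le_mul (hC ω) ?_ (norm_nonneg _) hC0
          have h2 : ‖v ω‖ ^ 2 / k + k - 2 * ‖v ω‖ = (‖v ω‖ - k) ^ 2 / k := by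
            field_simp
            ring
          have h3 : 0 ≤ (‖v ω‖ - k) ^ 2 / k := by positivity
          linarith
    _ = C * (((∫ ω, ‖v ω‖ ^ 2 ∂ρ) / k + k) / 2) := by
        rw [integral_const_mul, integral_div, integral_add (hint.div_const k) (integrable_const k),
          integral_div]
        simp
    _ ≤ C * k := by
        refine mul_le_mul_of_nonneg_left ?_ hC0
        have h4 : (∫ ω, ‖v ω‖ ^ 2 ∂ρ) / k ≤ k := by
          rw [div_le_iff₀ hk]
          nlinarith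
        linarith

/-- Characters of one coordinate are enough. -/
private theorem hc2_one {Ω : Type*} [MeasurableSpace Ω] (ρ : Measure Ω) [IsProbabilityMeasure ρ]
    (a : Ω → Z) (ha : Measurable a) (u : Ω → ℂ) (hu : BM u)
    (h : ∀ χ : PontryaginDual Z, ∫ ω, u ω * ((χ (a ω) : Circle) : ℂ) ∂ρ = 0)
    (F : Z → ℂ) (hF : BM F) : ∫ ω, u ω * F (a ω) ∂ρ = 0 := by
  obtain ⟨C, hC⟩ := hu.2
  have hC0 : 0 ≤ C := by
    obtain ⟨ω⟩ : Nonempty Ω := nonempty_of_isProbabilityMeasure ρ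
    exact (norm_nonneg _).trans (hC ω)
  rw [← norm_le_zero_iff]
  refine le_of_forall_pos_le_add fun ε hε => ?_
  rw [zero_add]
  have hk : 0 < ε / (C + 1) := by positivity
  have _inst : IsProbabilityMeasure (ρ.map a) := Measure.isProbabilityMeasure_map ha.aemeasurable
  obtain ⟨G, t, hG⟩ := tg_approx (ρ.map a) F hF (ε / (C + 1)) hk
  set T : Z → ℂ := fun z => ∑ χ ∈ G, t χ * ((χ z : Circle) : ℂ) with hT
  have hTB : BM T := BM.sum _ fun χ _ => (BM.const (Y := Z) (t χ)).mul (hc2_char χ)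
  have hTa : ∫ ω, u ω * T (a ω) ∂ρ = 0 := by
    have h1 : ∀ ω, u ω * T (a ω) = ∑ χ ∈ G, t χ * (u ω * ((χ (a ω) : Circle) : ℂ)) := by
      intro ω
      rw [hT]
      simp only [Finset.mul_sum]
      exact Finset.sum_congr rfl fun χ _ => by ring
    simp_rw [h1]
    rw [integral_finsetSum]
    · refine Finset.sum_eq_zero fun χ _ => ?_
      rw [integral_const_mul, h χ, mul_zero]
    · intro χ _
      exact ((hu.mul ((hc2_char χ).comp ha)).integrable).const_mul _
  have hFa : BM fun ω => F (a ω) := hF.comp ha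
  have hTa' : BM fun ω => T (a ω) := hTB.comp ha
  have h2 : ∫ ω, u ω * F (a ω) ∂ρ = ∫ ω, u ω * (F (a ω) - T (a ω)) ∂ρ := by
    have h3 : ∀ ω, u ω * (F (a ω) - T (a ω)) = u ω * F (a ω) - u ω * T (a ω) := fun ω => by ring
    simp_rw [h3]
    rw [integral_sub (hu.mul hFa).integrable (hu.mul hTa').integrable, hTa, sub_zero]
  rw [h2]
  have h4 : ∫ ω, ‖F (a ω) - T (a ω)‖ ^ 2 ∂ρ ≤ (ε / (C + 1)) ^ 2 := by
    have h5 : ∫ z, ‖F z - T z‖ ^ 2 ∂(ρ.map a) = ∫ ω, ‖F (a ω) - T (a ω)‖ ^ 2 ∂ρ := by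
      rw [integral_map ha.aemeasurable]
      exact (((hF.sub hTB).1.norm.pow_const 2)).aestronglyMeasurable
    rw [← h5]
    exact hG
  refine (hc2_norm_int ρ u _ hu (hFa.sub hTa') C hC _ hk h4).trans ?_
  rw [mul_div_assoc', div_le_iff₀ (by positivity)]
  nlinarith

private theorem hc2_main {Ω : Type*} (𝒲 : MeasurableSpace Ω) [mΩ : MeasurableSpace Ω]
    (ρ : Measure Ω) [IsProbabilityMeasure ρ]
    (S : Ω → Ω) (a b : Ω → Z) (ha : Measurable a) (hb : Measurable b) (f : Ω → ℂ) (hf : BM f)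
    (h : ∀ (χ₁ χ₂ : PontryaginDual Z) (J : Ω → ℂ), BM J → (∀ᵐ ω ∂ρ, J (S ω) = J ω) →
      ∫ ω, f ω * (((χ₁ (a ω) : Circle) : ℂ) * ((χ₂ (b ω) : Circle) : ℂ) * J ω) ∂ρ = 0)
    (H : Ω → ℂ)
    (h𝒲 : 𝒲 = MeasurableSpace.comap (fun ω => (a ω, b ω)) inferInstance ⊔ aeInv ρ S)
    (hH : WB 𝒲 H) :
    ∫ ω, f ω * H ω ∂ρ = 0 := by
  have hle : 𝒲 ≤ mΩ := by
    rw [h𝒲]
    exact sup_le (Measurable.comap_le (ha.prodMk hb)) (aeInv_le _ _)
  have hfi : Integrable f ρ := hf.integrable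
  -- step 1
  have h1 : ∀ (F₁ F₂ : Z → ℂ) (J : Ω → ℂ), BM F₁ → BM F₂ → BM J →
      (∀ᵐ ω ∂ρ, J (S ω) = J ω) → ∫ ω, f ω * (F₁ (a ω) * F₂ (b ω) * J ω) ∂ρ = 0 := by
    intro F₁ F₂ J hF₁ hF₂ hJ hJS
    have h2 : ∀ χ₂ : PontryaginDual Z,
        ∫ ω, (f ω * (((χ₂ (b ω) : Circle) : ℂ) * J ω)) * F₁ (a ω) ∂ρ = 0 := by
      intro χ₂
      refine hc2_one ρ a ha _ (hf.mul (((hc2_char χ₂).comp hb).mul hJ)) (fun χ => ?_) F₁ hF₁
      rw [← h χ χ₂ J hJ hJS]
      exact integral_congr_ae (Eventually.of_forall fun ω => by ring)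
    have h3 : ∫ ω, (f ω * (F₁ (a ω) * J ω)) * F₂ (b ω) ∂ρ = 0 := by
      refine hc2_one ρ b hb _ (hf.mul ((hF₁.comp ha).mul hJ)) (fun χ => ?_) F₂ hF₂
      rw [← h2 χ]
      exact integral_congr_ae (Eventually.of_forall fun ω => by ring)
    rw [← h3]
    exact integral_congr_ae (Eventually.of_forall fun ω => by ring)
  -- step 2
  set P : Set (Set Ω) := {s | ∃ (A A' : Set Z) (I : Set Ω), MeasurableSet A ∧ MeasurableSet A' ∧
    MeasurableSet[aeInv ρ S] I ∧ s = a ⁻¹' A ∩ b ⁻¹' A' ∩ I} with hP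
  have hleA : MeasurableSpace.comap a inferInstance ≤ 𝒲 := by
    rw [h𝒲]
    refine le_trans ?_ le_sup_left
    rintro _ ⟨A, hA, rfl⟩
    exact ⟨Prod.fst ⁻¹' A, measurable_fst hA, rfl⟩
  have hleB : MeasurableSpace.comap b inferInstance ≤ 𝒲 := by
    rw [h𝒲]
    refine le_trans ?_ le_sup_left
    rintro _ ⟨A, hA, rfl⟩
    exact ⟨Prod.snd ⁻¹' A, measurable_snd hA, rfl⟩
  have hleI : aeInv ρ S ≤ 𝒲 := by
    rw [h𝒲]
    exact le_sup_right
  have hgen : 𝒲 = MeasurableSpace.generateFrom P := by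
    refine le_antisymm ?_ (MeasurableSpace.generateFrom_le ?_)
    rw [h𝒲]
    refine sup_le ?_ ?_
    · have h2 : Measurable[MeasurableSpace.generateFrom P] a := by
        intro A hA
        refine MeasurableSpace.measurableSet_generateFrom ⟨A, Set.univ, Set.univ, hA,
          MeasurableSet.univ, @MeasurableSet.univ _ (aeInv ρ S), ?_⟩
        simp
      have h3 : Measurable[MeasurableSpace.generateFrom P] b := by
        intro A hA
        refine MeasurableSpace.measurableSet_generateFrom ⟨Set.univ, A, Set.univ,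
          MeasurableSet.univ, hA, @MeasurableSet.univ _ (aeInv ρ S), ?_⟩
        simp
      exact (Measurable.prodMk h2 h3).comap_le
    · intro t ht
      refine MeasurableSpace.measurableSet_generateFrom ⟨Set.univ, Set.univ, t,
        MeasurableSet.univ, MeasurableSet.univ, ht, ?_⟩
      simp
    · rintro _ ⟨A, A', I, hA, hA', hI, rfl⟩
      exact @MeasurableSet.inter _ 𝒲 _ _ (@MeasurableSet.inter _ 𝒲 _ _ (hleA _ ⟨A, hA, rfl⟩)
        (hleB _ ⟨A', hA', rfl⟩)) (hleI _ hI)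
  have hpi : IsPiSystem P := by
    rintro _ ⟨A, A', I, hA, hA', hI, rfl⟩ _ ⟨D, D', I', hD, hD', hI', rfl⟩ -
    refine ⟨A ∩ D, A' ∩ D', I ∩ I', hA.inter hD, hA'.inter hD',
      @MeasurableSet.inter _ (aeInv ρ S) _ _ hI hI', ?_⟩
    ext z
    simp only [Set.mem_inter_iff, Set.mem_preimage]
    tauto
  have h0 : ∀ s ∈ P, ∫ z in s, f z ∂ρ = 0 := by
    rintro _ ⟨A, A', I, hA, hA', hI, rfl⟩
    have h2 := h1 (A.indicator fun _ => (1 : ℂ)) (A'.indicator fun _ => (1 : ℂ))
      (I.indicator fun _ => (1 : ℂ)) (hc2_ind A hA) (hc2_ind A' hA') (hc2_ind I hI.1) (by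
        filter_upwards [hI.2] with ω hω
        have h3 : S ω ∈ I ↔ ω ∈ I := by
          have h4 : (S ⁻¹' I) ω = I ω := hω
          exact iff_of_eq h4
        by_cases h5 : ω ∈ I
        · rw [Set.indicator_of_mem h5, Set.indicator_of_mem (h3.2 h5)]
        · rw [Set.indicator_of_notMem h5, Set.indicator_of_notMem (fun h6 => h5 (h3.1 h6))])
    rw [← integral_indicator (((ha hA).inter (hb hA')).inter hI.1), ← h2]
    refine integral_congr_ae (Eventually.of_forall fun ω => ?_)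
    by_cases e1 : a ω ∈ A
    · by_cases e2 : b ω ∈ A'
      · by_cases e3 : ω ∈ I
        · simp [Set.indicator, e1, e2, e3]
        · simp [Set.indicator, e1, e2, e3]
      · simp [Set.indicator, e1, e2]
    · simp [Set.indicator, e1]
  have huniv : ∫ z, f z ∂ρ = 0 := by
    have h2 := h0 Set.univ ⟨Set.univ, Set.univ, Set.univ, MeasurableSet.univ, MeasurableSet.univ,
      @MeasurableSet.univ _ (aeInv ρ S), by simp⟩
    rwa [setIntegral_univ] at h2
  have hall : ∀ s, MeasurableSet[𝒲] s → ∫ z in s, f z ∂ρ = 0 := by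
    intro s hs
    refine MeasurableSpace.induction_on_inter (m := 𝒲)
      (C := fun s _ => ∫ z in s, f z ∂ρ = 0) hgen hpi ?_ ?_ ?_ ?_ s hs
    · simp
    · exact h0
    · intro t ht ih
      have h2 := integral_add_compl (hle t ht) hfi
      rw [ih, zero_add, huniv] at h2
      exact h2
    · intro g hd hg ih
      rw [integral_iUnion (fun i => hle _ (hg i)) hd hfi.integrableOn]
      simp only [ih, tsum_zero]
  -- step 3
  have hcond : ρ[f|𝒲] =ᵐ[ρ] 0 := by
    refine (ae_eq_condExp_of_forall_setIntegral_eq hle hfi (fun s _ _ => integrableOn_zero) ?_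
      aestronglyMeasurable_zero).symm
    intro s hs _
    rw [hall s hs]
    simp
  obtain ⟨hHm, C', hC'⟩ := hH
  obtain ⟨C, hC⟩ := hf.2
  obtain ⟨g, -, -, hg, hgint⟩ := exists_version 𝒲 ρ hle f hf.1 (max C 0) (le_max_right _ _)
    (Eventually.of_forall fun ω => (hC ω).trans (le_max_left _ _))
  have h4 := hgint H hHm ⟨C', Eventually.of_forall hC'⟩
  have h5 : ∫ ω, f ω * H ω ∂ρ = ∫ ω, H ω * f ω ∂ρ :=
    integral_congr_ae (Eventually.of_forall fun ω => by ring)
  rw [h5, h4]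
  have h6 : (fun ω => H ω * g ω) =ᵐ[ρ] fun _ => (0 : ℂ) := by
    filter_upwards [hg, hcond] with ω e1 e2
    rw [e1, e2]
    simp
  rw [integral_congr_ae h6]
  simp

/-- A general extension argument. `Ω` with two maps `a, b : Ω → Z` and `f` bounded such that the integrals
of `f` against all `χ₁(a) χ₂(b) J`, `J` bounded and invariant, vanish; then the integrals of `f` against
all bounded functions measurable for `σ(a, b) ∨ aeInv` vanish.
Proof. (1) For fixed `J` the complex measure `f J ρ` has vanishing integrals against all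
`χ₁(a) χ₂(b)`, so against `F₁(a) F₂(b)` for bounded measurable `F₁, F₂`: approximate `F₁` in
`L²(ρ.map a)` and `F₂` in `L²(ρ.map b)` by trigonometric polynomials (`tg_approx`, `H22M/TG.lean`;
`f J` and `F₁, F₂` are bounded; first replace `F₁`, then `F₂`).
(2) The sets `a⁻¹ A ∩ b⁻¹ A' ∩ I`, `I` in `aeInv`, form a π-system generating the σ-algebra; the sets
`s` of the σ-algebra with `∫_s f = 0` form a Dynkin system (see the proof of `condExp_eq_zero_of` in
`H22M/CE.lean`); the indicator function of `I` is invariant a.e.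
(3) So `∫_s f = 0` for all `s` in the σ-algebra, i.e. the conditional expectation of `f` is `0`, and
`∫ H f = ∫ H E(f|·) = 0` (`exists_version` in `H82T/CV.lean`, or approximate `H` by simple functions). -/
theorem zero_of_chars {Ω : Type*} [MeasurableSpace Ω] (ρ : Measure Ω) [IsProbabilityMeasure ρ]
    (S : Ω → Ω) (a b : Ω → Z) (ha : Measurable a) (hb : Measurable b) (f : Ω → ℂ) (hf : BM f)
    (h : ∀ (χ₁ χ₂ : PontryaginDual Z) (J : Ω → ℂ), BM J → (∀ᵐ ω ∂ρ, J (S ω) = J ω) →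
      ∫ ω, f ω * (((χ₁ (a ω) : Circle) : ℂ) * ((χ₂ (b ω) : Circle) : ℂ) * J ω) ∂ρ = 0)
    (H : Ω → ℂ)
    (hH : WB (MeasurableSpace.comap (fun ω => (a ω, b ω)) inferInstance ⊔ aeInv ρ S) H) :
    ∫ ω, f ω * H ω ∂ρ = 0 := by
  exact hc2_main _ ρ S a b ha hb f hf h H rfl hH

end

end Pool.Agent.Lib.H82OF
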