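import Pool.Agent.Lib.H82OF.IA1
import Pool.Agent.Lib.H82OF.SA

/-!
# Project H82OF, chunk IA: approximation orthogonal to the functions of z
-/

open MeasureTheory Filter Topology Finset ProbabilityTheory
open scoped ENNReal ComplexConjugate Matrix

namespace Pool.Agent.Lib.H82OF

open Pool.Agent.Lib.H22M Pool.Agent.Lib.H82T Pool.Agent.Lib.H82OT

private theorem IA_triv {K : Type*} [Group K] [TopologicalSpace K] :
    Irr (fun _ : K => (1 : Matrix (Fin 1) (Fin 1) ℂ)) where
  cont i j := continuous_const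
  mul g h := (mul_one _).symm
  unit g := by rw [Matrix.conjTranspose_one, mul_one]
  irr n _ := by
    refine ⟨n 0 0, ?_⟩
    ext i j
    have hi : i = 0 := Subsingleton.elim _ _
    have hj : j = 0 := Subsingleton.elim _ _
    subst hi
    subst hj
    rw [Matrix.smul_apply, Matrix.one_apply_eq, smul_eq_mul, mul_one]

private theorem IA_pyth {Y : Type*} [MeasurableSpace Y] (m : Measure Y) [IsProbabilityMeasure m]
    {G B : Y → ℂ} (hG : BM G) (hB : BM B) (h : ∫ y, G y * conj (B y) ∂m = 0) :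
    l2 m G ≤ l2 m (fun y => G y - B y) := by
  unfold l2
  refine Real.sqrt_le_sqrt ?_
  have i1 : Integrable (fun y => ‖G y‖ ^ 2) m := by
    have := (hG.mul hG.conj).integrable (m := m)
    refine this.norm.congr (Filter.Eventually.of_forall fun y => ?_)
    show ‖G y * conj (G y)‖ = ‖G y‖ ^ 2
    rw [norm_mul, RCLike.norm_conj, sq]
  have i2 : Integrable (fun y => ‖B y‖ ^ 2) m := by
    have := (hB.mul hB.conj).integrable (m := m)
    refine this.norm.congr (Filter.Eventually.of_forall fun y => ?_)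
    show ‖B y * conj (B y)‖ = ‖B y‖ ^ 2
    rw [norm_mul, RCLike.norm_conj, sq]
  have i0 : Integrable (fun y => G y * conj (B y)) m := (hG.mul hB.conj).integrable
  have i3 : Integrable (fun y => (G y * conj (B y)).re) m := i0.re
  have e : ∀ y, ‖G y - B y‖ ^ 2 = ‖G y‖ ^ 2 + ‖B y‖ ^ 2 - 2 * (G y * conj (B y)).re := by
    intro y
    rw [← Complex.normSq_eq_norm_sq, ← Complex.normSq_eq_norm_sq, ← Complex.normSq_eq_norm_sq]
    exact Complex.normSq_sub _ _
  have h3 : ∫ y, (G y * conj (B y)).re ∂m = 0 := by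
    have h4 := integral_re i0
    rw [h] at h4
    refine h4.trans ?_
    simp
  have h5 : 0 ≤ ∫ y, ‖B y‖ ^ 2 ∂m := integral_nonneg fun y => by positivity
  have h6 : ∫ y, ‖G y - B y‖ ^ 2 ∂m =
      ∫ y, ‖G y‖ ^ 2 ∂m + ∫ y, ‖B y‖ ^ 2 ∂m - 2 * ∫ y, (G y * conj (B y)).re ∂m := by
    have e1 := integral_sub (i1.add i2) (i3.const_mul 2)
    have e2 := integral_add i1 i2
    have e3 : ∫ y, ‖G y - B y‖ ^ 2 ∂m = ∫ y, (((fun y => ‖G y‖ ^ 2) + fun y => ‖B y‖ ^ 2) y -
        2 * (G y * conj (B y)).re) ∂m :=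
      integral_congr_ae (Filter.Eventually.of_forall e)
    have e4 : ∫ y, ((fun y => ‖G y‖ ^ 2) + fun y => ‖B y‖ ^ 2) y ∂m =
        ∫ y, ‖G y‖ ^ 2 ∂m + ∫ y, ‖B y‖ ^ 2 ∂m := e2
    rw [e3, e1, e4, integral_const_mul]
  rw [h6, h3]
  linarith

section

variable {Z K : Type*} [CommGroup Z] [TopologicalSpace Z] [IsTopologicalGroup Z]
  [CompactSpace Z] [T2Space Z] [SecondCountableTopology Z] [MeasurableSpace Z] [BorelSpace Z]
  [Group K] [TopologicalSpace K] [IsTopologicalGroup K] [CompactSpace K] [T2Space K]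
  [SecondCountableTopology K] [MeasurableSpace K] [BorelSpace K]

/-- The average over `K` of a function of an irreducible representation: either `π` is inequivalent
to the trivial representation and the average `∫ f(z, k) dk` is `0` for all `z`, or `f` is a function of
`z`. Proof. `schur_diff` for `π` and the trivial representation `k ↦ 1 : Matrix (Fin 1) (Fin 1) ℂ`: in
the first case `∫ (π k *ᵥ w)_i dk = 0` (`n = w` as a matrix with one column). In the second case
`π g U = U`, `U Uᴴ = 1`, so `π g = 1` for all `g`. -/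
theorem IrrF.avg (muK : Measure K) [muK.IsHaarMeasure] [IsProbabilityMeasure muK]
    {f : Z × K → ℂ} (h : IrrF f) :
    (∀ z, ∫ k, f (z, k) ∂muK = 0) ∨ ∃ g : Z → ℂ, BM g ∧ ∀ y, f y = g y.1 := by
  obtain ⟨d, π, w, A, hπ, hA, hf⟩ := h
  rcases schur_diff muK hπ (IA_triv (K := K)) with h1 | ⟨U, hU, -, hg⟩
  · left
    intro z
    have h2 : ∀ i, ∫ k, (π k *ᵥ w) i ∂muK = 0 := by
      intro i
      have h3 := h1 (Matrix.of fun (i : Fin d) (_ : Fin 1) => w i) i 0
      have h4 : ∀ k, (π k * (Matrix.of fun (i : Fin d) (_ : Fin 1) => w i) *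
          (1 : Matrix (Fin 1) (Fin 1) ℂ)ᴴ) i 0 = (π k *ᵥ w) i := by
        intro k
        rw [Matrix.conjTranspose_one, Matrix.mul_one]
        rfl
      rw [← h3]
      exact integral_congr_ae (Filter.Eventually.of_forall fun k => (h4 k).symm)
    have h5 : ∀ k, f (z, k) = ∑ i, A z i * (π k *ᵥ w) i := fun k => hf (z, k)
    rw [integral_congr_ae (Filter.Eventually.of_forall h5), integral_finsetSum]
    · exact Finset.sum_eq_zero fun i _ => by rw [integral_const_mul, h2, mul_zero]
    · intro i _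
      refine Integrable.const_mul ?_ _
      exact (BM.sum Finset.univ fun j _ => (hπ.toRep.bmm i j).mul (BM.const (w j))).integrable
  · right
    have h1 : ∀ g, π g = 1 := by
      intro g
      calc π g = π g * (U * Uᴴ) := by rw [hU, Matrix.mul_one]
        _ = π g * U * Uᴴ := (Matrix.mul_assoc _ _ _).symm
        _ = U * (1 : Matrix (Fin 1) (Fin 1) ℂ) * Uᴴ := by rw [hg g]
        _ = 1 := by rw [Matrix.mul_one, hU]
    refine ⟨fun z => A z ⬝ᵥ w, BM.sum _ fun i _ => (hA i).mul (BM.const _), fun y => ?_⟩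
    rw [hf y, h1, Matrix.one_mulVec]

private theorem IA_fub (lam : Measure Z) [IsProbabilityMeasure lam] (muK : Measure K)
    [IsProbabilityMeasure muK] {f : Z × K → ℂ} (hf : BM f)
    (h0 : ∀ z, ∫ k, f (z, k) ∂muK = 0) (h : Z → ℂ) (hh : BM h) :
    ∫ y, f y * conj (h y.1) ∂(lam.prod muK) = 0 := by
  rw [integral_prod _ (hf.mul (hh.comp measurable_fst).conj).integrable]
  have h1 : ∀ z, ∫ k, f (z, k) * conj (h z) ∂muK = 0 := by
    intro z
    rw [integral_mul_const, h0, zero_mul]
  have h2 : ∀ z, ∫ k, f (z, k) * conj (h (z, k).1) ∂muK = 0 := h1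
  simp_rw [h2]
  exact integral_zero _ _

/-- Proof. Take the `f i` from `exists_irr_approx` and keep only those with `∫ f(z, k) dk = 0` for all `z`
(first case of `IrrF.avg`; the others are functions of `z`). These are orthogonal to functions of `z`
(Fubini). With `a = ∑ (kept)`, `b = ∑ (not kept)`, a function of `z`: `F - a ⟂ b`, so
`‖F - a - b‖² = ‖F - a‖² + ‖b‖² ≥ ‖F - a‖²`. -/
theorem exists_irr_approx_orth (lam : Measure Z) [IsProbabilityMeasure lam] (muK : Measure K)
    [muK.IsHaarMeasure] [IsProbabilityMeasure muK] (F : Z × K → ℂ) (hF : BM F)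
    (ho : ∀ h : Z → ℂ, BM h → ∫ y, F y * conj (h y.1) ∂(lam.prod muK) = 0) (δ : ℝ)
    (hδ : 0 < δ) :
    ∃ (ι : Type) (_ : Fintype ι) (f : ι → Z × K → ℂ), (∀ i, IrrF (f i)) ∧
      (∀ i, ∀ h : Z → ℂ, BM h → ∫ y, f i y * conj (h y.1) ∂(lam.prod muK) = 0) ∧
      l2 (lam.prod muK) (fun y => F y - ∑ i, f i y) ≤ δ := by
  classical
  obtain ⟨ι, hι, f, hf, hl⟩ := exists_irr_approx lam muK F hF δ hδ
  set P : ι → Prop := fun i => ∀ z, ∫ k, f i (z, k) ∂muK = 0 with hP
  have hcase : ∀ i, ∃ g : Z → ℂ, BM g ∧ (¬ P i → ∀ y, f i y = g y.1) := by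
    intro i
    rcases (hf i).avg muK with h1 | ⟨g, hg, h2⟩
    · exact ⟨fun _ => 0, BM.const 0, fun h3 => absurd h1 h3⟩
    · exact ⟨g, hg, fun _ => h2⟩
  choose g hg hgf using hcase
  have horth : ∀ i, P i → ∀ h : Z → ℂ, BM h →
      ∫ y, f i y * conj (h y.1) ∂(lam.prod muK) = 0 := fun i hi h hh =>
    IA_fub lam muK (hf i).bm hi h hh
  refine ⟨{i // P i}, inferInstance, fun i => f i.1, fun i => hf i.1,
    fun i => horth i.1 i.2, ?_⟩
  set hb : Z → ℂ := fun z => ∑ i ∈ Finset.univ.filter (fun i => ¬ P i), g i z with hhb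
  have hbm : BM hb := BM.sum _ fun i _ => hg i
  have hsub : ∀ y : Z × K, ∑ i : {i // P i}, f i.1 y =
      ∑ i ∈ Finset.univ.filter P, f i y := by
    intro y
    exact (Finset.sum_subtype (Finset.univ.filter P) (p := P) (fun i => by simp)
      (fun i => f i y)).symm
  have hG : BM fun y => F y - ∑ i ∈ Finset.univ.filter P, f i y :=
    hF.sub (BM.sum _ fun i _ => (hf i).bm)
  have hfun : (fun y => F y - ∑ i : {i // P i}, f i.1 y) =
      fun y => F y - ∑ i ∈ Finset.univ.filter P, f i y := by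
    funext y
    rw [hsub y]
  rw [hfun]
  have h0 : ∫ y, (F y - ∑ i ∈ Finset.univ.filter P, f i y) * conj (hb y.1) ∂(lam.prod muK) = 0 := by
    have e : ∀ y : Z × K, (F y - ∑ i ∈ Finset.univ.filter P, f i y) * conj (hb y.1) =
        F y * conj (hb y.1) - ∑ i ∈ Finset.univ.filter P, f i y * conj (hb y.1) := by
      intro y
      rw [sub_mul, Finset.sum_mul]
    have hc : BM fun y : Z × K => conj (hb y.1) := (hbm.comp measurable_fst).conj
    rw [integral_congr_ae (Filter.Eventually.of_forall e), integral_sub (hF.mul hc).integrable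
      (BM.sum _ fun i _ => ((hf i).bm).mul hc).integrable, ho hb hbm, integral_finsetSum]
    · rw [Finset.sum_eq_zero fun i hi => horth i (Finset.mem_filter.1 hi).2 hb hbm, sub_zero]
    · intro i _
      exact (((hf i).bm).mul hc).integrable
  refine (IA_pyth (lam.prod muK) hG (hbm.comp measurable_fst) h0).trans ?_
  refine le_trans (le_of_eq ?_) hl
  congr 1
  funext y
  have h1 : ∑ i, f i y = ∑ i ∈ Finset.univ.filter P, f i y + hb y.1 := by
    rw [← Finset.sum_filter_add_sum_filter_not Finset.univ P (fun i => f i y), hhb]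
    congr 1
    exact Finset.sum_congr rfl fun i hi => hgf i (Finset.mem_filter.1 hi).2 y
  rw [h1]
  ring

end

end Pool.Agent.Lib.H82OF
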