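import Pool.Agent.Lib.H82OF.ID2
import Pool.Agent.Lib.H82OF.FR
import Pool.Agent.Lib.H22M.P6

/-!
# Project H82OF, chunk IA1: approximation by functions of irreducible representations
-/

open MeasureTheory Filter Topology Finset ProbabilityTheory
open scoped ENNReal ComplexConjugate Matrix

namespace Pool.Agent.Lib.H82OF

open Pool.Agent.Lib.H22M Pool.Agent.Lib.H82T Pool.Agent.Lib.H82OT

section

variable {Z K : Type*} [CommGroup Z] [TopologicalSpace Z] [IsTopologicalGroup Z]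
  [CompactSpace Z] [T2Space Z] [SecondCountableTopology Z] [MeasurableSpace Z] [BorelSpace Z]
  [Group K] [TopologicalSpace K] [IsTopologicalGroup K] [CompactSpace K] [T2Space K]
  [SecondCountableTopology K] [MeasurableSpace K] [BorelSpace K]

/-- Proof. `π` has bounded entries (`Rep.bmm`); finite sums of products. -/
theorem IrrF.bm {f : Z × K → ℂ} (h : IrrF f) : BM f := by
  obtain ⟨d, π, w, A, hπ, hA, hf⟩ := h
  have h1 : f = fun y => ∑ i, A y.1 i * ∑ j, π y.2 i j * w j := by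
    funext y
    rw [hf]
    rfl
  rw [h1]
  exact BM.sum _ fun i _ => ((hA i).comp measurable_fst).mul
    (BM.sum _ fun j _ => ((hπ.toRep.bmm i j).comp measurable_snd).mul (BM.const _))

/-- Proof. `exists_ft_approx` (`H22M/P6.lean`) with `M = K`: `ft G b` with `G, D, b`; `ftd_rep`,
`exists_irr_decomp` for `D`: `ft G b (z, k) = b(z) · G(k) = b(z) · D(k) G(1) =
∑_l (b(z) ᵥ* W_l) · (π_l(k) (W_lᴴ G(1)))` (insert `1 = ∑ W_l W_lᴴ` and use
`D(k) W_l = W_l π_l(k)`). -/
theorem exists_irr_approx (lam : Measure Z) [IsProbabilityMeasure lam] (muK : Measure K)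
    [muK.IsHaarMeasure] [IsProbabilityMeasure muK] (F : Z × K → ℂ) (hF : BM F) (δ : ℝ)
    (hδ : 0 < δ) :
    ∃ (ι : Type) (_ : Fintype ι) (f : ι → Z × K → ℂ), (∀ i, IrrF (f i)) ∧
      l2 (lam.prod muK) (fun y => F y - ∑ i, f i y) ≤ δ := by
  obtain ⟨n, G, D, b, hFTD, hb, hl⟩ := exists_ft_approx K lam muK F hF δ hδ
  obtain ⟨hrep, hG⟩ := ftd_rep muK hFTD
  obtain ⟨ι, hι, d, π, W, hirr, hW, hsum, hint⟩ := exists_irr_decomp _ hrep
  refine ⟨ι, hι, fun l y => ((fun i => b i y.1) ᵥ* W l) ⬝ᵥ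
    (π l y.2 *ᵥ ((W l)ᴴ *ᵥ (fun i => G i 1))), fun l => ?_, ?_⟩
  · refine ⟨d l, π l, (W l)ᴴ *ᵥ (fun i => G i 1), fun z => (fun i => b i z) ᵥ* W l, hirr l,
      fun i => ?_, fun y => rfl⟩
    have h1 : (fun z => ((fun i => b i z) ᵥ* W l) i) = fun z => ∑ j, b j z * W l j i := by
      funext z
      rfl
    rw [h1]
    exact BM.sum _ fun j _ => (hb j).mul (BM.const _)
  · have h2 : ∀ y : Z × K, ft G b y = ∑ l, ((fun i => b i y.1) ᵥ* W l) ⬝ᵥ
        (π l y.2 *ᵥ ((W l)ᴴ *ᵥ (fun i => G i 1))) := by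
      intro y
      have h3 : ft G b y = (fun i => b i y.1) ⬝ᵥ (Matrix.of (D y.2) *ᵥ (fun i => G i 1)) := by
        rw [← hG y.2]
        rfl
      have h4 : Matrix.of (D y.2) = ∑ l, W l * π l y.2 * (W l)ᴴ := by
        calc Matrix.of (D y.2) = Matrix.of (D y.2) * ∑ l, W l * (W l)ᴴ := by
              rw [hsum, mul_one]
          _ = ∑ l, W l * π l y.2 * (W l)ᴴ := by
              rw [Finset.mul_sum]
              refine Finset.sum_congr rfl fun l _ => ?_
              rw [← Matrix.mul_assoc, ← hint l y.2]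
      rw [h3, h4, Matrix.sum_mulVec, dotProduct_sum]
      refine Finset.sum_congr rfl fun l _ => ?_
      rw [← Matrix.mulVec_mulVec, ← Matrix.mulVec_mulVec, Matrix.dotProduct_mulVec]
    simp_rw [← h2]
    exact hl

end

end Pool.Agent.Lib.H82OF
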