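import Pool.Agent.Lib.H82OF.Defs

/-!
# Project H82OF, chunk ID1: splitting a reducible representation
-/

open MeasureTheory Filter Topology Finset ProbabilityTheory
open scoped ENNReal ComplexConjugate Matrix

namespace Pool.Agent.Lib.H82OF

open Pool.Agent.Lib.H22M Pool.Agent.Lib.H82T Pool.Agent.Lib.H82OT

private theorem ID1_rep {K : Type*} [Group K] [TopologicalSpace K] {n d : ℕ}
    (D : K → Matrix (Fin n) (Fin n) ℂ) (hD : Rep D) (W : Matrix (Fin n) (Fin d) ℂ)
    (hW : Wᴴ * W = 1) (hP : ∀ g, D g * (W * Wᴴ) = (W * Wᴴ) * D g) :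
    Rep (fun g => Wᴴ * D g * W) ∧ ∀ g, D g * W = W * (Wᴴ * D g * W) := by
  have hc : ∀ g, D g * W = W * (Wᴴ * D g * W) := by
    intro g
    calc D g * W = D g * (W * (Wᴴ * W)) := by rw [hW, Matrix.mul_one]
      _ = (D g * (W * Wᴴ)) * W := by simp only [Matrix.mul_assoc]
      _ = ((W * Wᴴ) * D g) * W := by rw [hP]
      _ = W * (Wᴴ * D g * W) := by simp only [Matrix.mul_assoc]
  refine ⟨⟨?_, ?_, ?_⟩, hc⟩
  · intro i j
    simp only [Matrix.mul_apply]
    exact continuous_finsetSum _ fun k _ =>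
      (continuous_finsetSum _ fun l _ => continuous_const.mul (hD.cont l k)).mul
        continuous_const
  · intro g h
    show Wᴴ * D (g * h) * W = Wᴴ * D g * W * (Wᴴ * D h * W)
    calc Wᴴ * D (g * h) * W = Wᴴ * D g * (D h * W) := by
          rw [hD.mul]
          simp only [Matrix.mul_assoc]
      _ = Wᴴ * D g * (W * (Wᴴ * D h * W)) := by rw [← hc]
      _ = Wᴴ * D g * W * (Wᴴ * D h * W) := by simp only [Matrix.mul_assoc]
  · intro g
    show Wᴴ * D g * W * (Wᴴ * D g * W)ᴴ = 1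
    have h1 : (Wᴴ * D g * W)ᴴ = Wᴴ * (D g)ᴴ * W := by
      rw [Matrix.conjTranspose_mul, Matrix.conjTranspose_mul, Matrix.conjTranspose_conjTranspose]
      simp only [Matrix.mul_assoc]
    rw [h1]
    calc Wᴴ * D g * W * (Wᴴ * (D g)ᴴ * W) = Wᴴ * (D g * (W * Wᴴ)) * (D g)ᴴ * W := by
          simp only [Matrix.mul_assoc]
      _ = Wᴴ * ((W * Wᴴ) * D g) * (D g)ᴴ * W := by rw [hP]
      _ = (Wᴴ * W) * (Wᴴ * (D g * (D g)ᴴ) * W) := by simp only [Matrix.mul_assoc]
      _ = 1 := by rw [hD.unit, Matrix.mul_one, hW, Matrix.mul_one]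

private theorem ID1_proj {n d : ℕ} (U : Matrix (Fin n) (Fin n) ℂ) (p : Fin n → Prop)
    [DecidablePred p] (e : Fin d ≃ {i // p i}) :
    (U.submatrix id (fun a => ((e a : {i // p i}) : Fin n))) *
      (U.submatrix id (fun a => ((e a : {i // p i}) : Fin n)))ᴴ =
      U * Matrix.diagonal (fun i => if p i then (1 : ℂ) else 0) * Uᴴ := by
  ext i j
  simp only [Matrix.mul_apply, Matrix.conjTranspose_apply, Matrix.submatrix_apply, id]
  rw [Equiv.sum_comp e (fun x : {i // p i} => U i x * star (U j x))]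
  have h1 : ∀ k, (∑ l, U i l * Matrix.diagonal (fun i => if p i then (1 : ℂ) else 0) l k) *
      star (U j k) = if p k then U i k * star (U j k) else 0 := by
    intro k
    have h2 : ∑ l, U i l * Matrix.diagonal (fun i => if p i then (1 : ℂ) else 0) l k =
        U i k * (if p k then (1 : ℂ) else 0) := by
      rw [Finset.sum_eq_single k]
      · rw [Matrix.diagonal_apply_eq]
      · intro b _ hb
        rw [Matrix.diagonal_apply_ne _ hb, mul_zero]
      · intro h
        exact absurd (Finset.mem_univ k) h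
    rw [h2]
    split_ifs <;> simp
  rw [Finset.sum_congr rfl fun k _ => h1 k, ← Finset.sum_filter]
  exact (Finset.sum_subtype (Finset.univ.filter p) (by simp)
    (fun x => U i x * star (U j x))).symm

private theorem ID1_gram {n d₁ d₂ : ℕ} (U : Matrix (Fin n) (Fin n) ℂ) (hU : Uᴴ * U = 1)
    (f₁ : Fin d₁ → Fin n) (f₂ : Fin d₂ → Fin n) (a : Fin d₁) (b : Fin d₂) :
    ((U.submatrix id f₁)ᴴ * (U.submatrix id f₂)) a b = if f₁ a = f₂ b then 1 else 0 := by
  have h1 : ((U.submatrix id f₁)ᴴ * (U.submatrix id f₂)) a b = (Uᴴ * U) (f₁ a) (f₂ b) := by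
    simp only [Matrix.mul_apply, Matrix.conjTranspose_apply, Matrix.submatrix_apply, id]
  rw [h1, hU, Matrix.one_apply]

/-- A hermitian matrix in the commutant which is not scalar. -/
private theorem ID1_herm {K : Type*} [Group K] [TopologicalSpace K] {n : ℕ}
    (D : K → Matrix (Fin n) (Fin n) ℂ) (hD : Rep D) (hn : ¬ Irr D) :
    ∃ H : Matrix (Fin n) (Fin n) ℂ, H.IsHermitian ∧ (∀ g, D g * H = H * D g) ∧
      ∀ c : ℂ, H ≠ c • 1 := by
  have hm : ∃ m : Matrix (Fin n) (Fin n) ℂ, (∀ g, D g * m = m * D g) ∧ ∀ c : ℂ, m ≠ c • 1 := by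
    by_contra h
    refine hn ⟨hD, fun m hm => ?_⟩
    by_contra h2
    exact h ⟨m, hm, fun c hc => h2 ⟨c, hc⟩⟩
  obtain ⟨m, hm, hs⟩ := hm
  have hm' : ∀ g, D g * mᴴ = mᴴ * D g := by
    intro g
    have h1 : mᴴ * (D g)ᴴ = (D g)ᴴ * mᴴ := by
      rw [← Matrix.conjTranspose_mul, ← Matrix.conjTranspose_mul, hm]
    calc D g * mᴴ = D g * (mᴴ * ((D g)ᴴ * D g)) := by rw [hD.unit', Matrix.mul_one]
      _ = D g * (mᴴ * (D g)ᴴ) * D g := by simp only [Matrix.mul_assoc]
      _ = D g * ((D g)ᴴ * mᴴ) * D g := by rw [h1]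
      _ = (D g * (D g)ᴴ) * mᴴ * D g := by simp only [Matrix.mul_assoc]
      _ = mᴴ * D g := by rw [hD.unit, Matrix.one_mul]
  by_cases hA : ∃ c : ℂ, m + mᴴ = c • 1
  · by_cases hB : ∃ c : ℂ, Complex.I • (m - mᴴ) = c • 1
    · exfalso
      obtain ⟨c, hc⟩ := hA
      obtain ⟨c', hc'⟩ := hB
      refine hs ((c - Complex.I * c') / 2) ?_
      have h3 : m - mᴴ = (-(Complex.I * c')) • (1 : Matrix (Fin n) (Fin n) ℂ) := by
        have h4 : (-Complex.I) • (Complex.I • (m - mᴴ)) = m - mᴴ := by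
          rw [smul_smul]
          have h5 : -Complex.I * Complex.I = 1 := by
            rw [neg_mul, Complex.I_mul_I, neg_neg]
          rw [h5, one_smul]
        rw [← h4, hc', smul_smul, neg_mul]
      have h6 : m = (1 / 2 : ℂ) • ((m + mᴴ) + (m - mᴴ)) := by
        have h7 : (m + mᴴ) + (m - mᴴ) = (2 : ℂ) • m := by
          rw [two_smul]
          abel
        rw [h7, smul_smul]
        norm_num
      rw [h6, hc, h3, ← add_smul, smul_smul]
      congr 1
      ring
    · refine ⟨Complex.I • (m - mᴴ), ?_, ?_, fun c hc => hB ⟨c, hc⟩⟩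
      · unfold Matrix.IsHermitian
        rw [Matrix.conjTranspose_smul, Matrix.conjTranspose_sub,
          Matrix.conjTranspose_conjTranspose]
        have h8 : star Complex.I = -Complex.I := Complex.conj_I
        rw [h8, neg_smul, ← smul_neg, neg_sub]
      · intro g
        rw [Matrix.mul_smul, Matrix.smul_mul, Matrix.mul_sub, Matrix.sub_mul, hm, hm']
  · refine ⟨m + mᴴ, ?_, ?_, fun c hc => hA ⟨c, hc⟩⟩
    · unfold Matrix.IsHermitian
      rw [Matrix.conjTranspose_add, Matrix.conjTranspose_conjTranspose, add_comm]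
    · intro g
      rw [Matrix.mul_add, Matrix.add_mul, hm, hm']

/-- A unitary representation with a non scalar intertwiner splits. Proof. Let `n` commute with all
`D g` and not be scalar. `nᴴ` commutes with all `D g` too (adjoints; `D(g)ᴴ D(g) = 1`), so the hermitian
matrices `n + nᴴ` and `i (n - nᴴ)` do, and one of them, `H`, is not scalar. Let `λ` be an eigenvalue of
`H` (`H.eigenvalues` of `Matrix.IsHermitian`), `d₁` the number of the indices `i` of the eigenvector basis
with eigenvalue `λ`, `0 < d₁ < n` since `H` is not scalar. Let `U` be the unitary matrix of eigenvectors,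
`W₁` the columns with eigenvalue `λ` and `W₂` the other columns (reindex by `Fin d₁`, `Fin d₂`).
`W₁ᴴ W₁ = 1`, `W₂ᴴ W₂ = 1`, `W₁ᴴ W₂ = 0`, `W₁ W₁ᴴ + W₂ W₂ᴴ = 1`. The projection `P = W₁ W₁ᴴ` commutes with
all `D g`: the eigenspace of `λ` is invariant under `D g` since `H` commutes with `D g`, and so is its
orthogonal complement (`D g` unitary) (or: `P` is a polynomial in `H`). `D_i g = W_iᴴ D g W_i`; then
`D g W_i = W_i D_i g`, and `D_i` is a representation, unitary and continuous. -/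
theorem exists_split {K : Type*} [Group K] [TopologicalSpace K] {n : ℕ}
    (D : K → Matrix (Fin n) (Fin n) ℂ) (hD : Rep D) (hn : ¬ Irr D) :
    ∃ (d₁ d₂ : ℕ) (D₁ : K → Matrix (Fin d₁) (Fin d₁) ℂ) (D₂ : K → Matrix (Fin d₂) (Fin d₂) ℂ)
      (W₁ : Matrix (Fin n) (Fin d₁) ℂ) (W₂ : Matrix (Fin n) (Fin d₂) ℂ),
      d₁ < n ∧ d₂ < n ∧ Rep D₁ ∧ Rep D₂ ∧ W₁ᴴ * W₁ = 1 ∧ W₂ᴴ * W₂ = 1 ∧ W₁ᴴ * W₂ = 0 ∧
      W₁ * W₁ᴴ + W₂ * W₂ᴴ = 1 ∧ (∀ g, D g * W₁ = W₁ * D₁ g) ∧ ∀ g, D g * W₂ = W₂ * D₂ g := by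
  classical
  obtain ⟨H, hH, hc, hs⟩ := ID1_herm D hD hn
  have hn0 : 0 < n := by
    rcases Nat.eq_zero_or_pos n with h | h
    · subst h
      exact absurd (Subsingleton.elim H ((0 : ℂ) • 1)) (hs 0)
    · exact h
  set U : Matrix (Fin n) (Fin n) ℂ := (hH.eigenvectorUnitary : Matrix (Fin n) (Fin n) ℂ) with hUdef
  have hU1 : Uᴴ * U = 1 := Unitary.coe_star_mul_self hH.eigenvectorUnitary
  have hU2 : U * Uᴴ = 1 := Unitary.coe_mul_star_self hH.eigenvectorUnitary
  set L : Fin n → ℝ := hH.eigenvalues with hLdef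
  have hspec : H = U * Matrix.diagonal (fun i => (L i : ℂ)) * Uᴴ := by
    have h1 := hH.spectral_theorem
    rw [Unitary.conjStarAlgAut_apply] at h1
    exact h1
  set i0 : Fin n := ⟨0, hn0⟩ with hi0
  have hex : ∃ i1, ¬ (L i1 = L i0) := by
    by_contra h
    push Not at h
    refine hs (L i0 : ℂ) ?_
    rw [hspec]
    have h2 : Matrix.diagonal (fun i => (L i : ℂ)) = (L i0 : ℂ) • (1 : Matrix (Fin n) (Fin n) ℂ) := by
      rw [Matrix.smul_one_eq_diagonal]
      congr 1
      funext i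
      rw [h i]
    rw [h2, Matrix.mul_smul, Matrix.mul_one, Matrix.smul_mul, hU2]
  obtain ⟨i1, hi1⟩ := hex
  -- commutation with the projections
  have hcomm : ∀ (p : Fin n → Prop) [DecidablePred p], (∀ i j, L i = L j → (p i ↔ p j)) → ∀ g,
      D g * (U * Matrix.diagonal (fun i => if p i then (1 : ℂ) else 0) * Uᴴ) =
        (U * Matrix.diagonal (fun i => if p i then (1 : ℂ) else 0) * Uᴴ) * D g := by
    intro p _ hp g
    set B : Matrix (Fin n) (Fin n) ℂ := Uᴴ * D g * U with hB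
    have hDg : D g = U * B * Uᴴ := by
      calc D g = (U * Uᴴ) * D g * (U * Uᴴ) := by rw [hU2, Matrix.one_mul, Matrix.mul_one]
        _ = U * B * Uᴴ := by rw [hB]; simp only [Matrix.mul_assoc]
    have h3 : B * Matrix.diagonal (fun i => (L i : ℂ)) =
        Matrix.diagonal (fun i => (L i : ℂ)) * B := by
      have h4 : Uᴴ * (D g * H) * U = Uᴴ * (H * D g) * U := by rw [hc]
      have h5 : Uᴴ * (D g * H) * U = B * Matrix.diagonal (fun i => (L i : ℂ)) := by
        calc Uᴴ * (D g * H) * U =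
            Uᴴ * (D g * (U * Matrix.diagonal (fun i => (L i : ℂ)) * Uᴴ)) * U := by rw [← hspec]
          _ = (Uᴴ * D g * U) * Matrix.diagonal (fun i => (L i : ℂ)) * (Uᴴ * U) := by
              simp only [Matrix.mul_assoc]
          _ = B * Matrix.diagonal (fun i => (L i : ℂ)) := by rw [hU1, Matrix.mul_one]
      have h6 : Uᴴ * (H * D g) * U = Matrix.diagonal (fun i => (L i : ℂ)) * B := by
        calc Uᴴ * (H * D g) * U =
            Uᴴ * ((U * Matrix.diagonal (fun i => (L i : ℂ)) * Uᴴ) * D g) * U := by rw [← hspec]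
          _ = (Uᴴ * U) * (Matrix.diagonal (fun i => (L i : ℂ)) * (Uᴴ * D g * U)) := by
              simp only [Matrix.mul_assoc]
          _ = Matrix.diagonal (fun i => (L i : ℂ)) * B := by rw [hU1, Matrix.one_mul]
      rw [← h5, ← h6, h4]
    have h7 : B * Matrix.diagonal (fun i => if p i then (1 : ℂ) else 0) =
        Matrix.diagonal (fun i => if p i then (1 : ℂ) else 0) * B := by
      ext i j
      have h8 := congrFun (congrFun h3 i) j
      rw [Matrix.mul_diagonal, Matrix.diagonal_mul] at h8 ⊢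
      by_cases hij : L i = L j
      · have h9 := hp i j hij
        by_cases hpi : p i
        · rw [if_pos hpi, if_pos (h9.1 hpi), mul_comm]
        · rw [if_neg hpi, if_neg (fun h => hpi (h9.2 h)), mul_comm]
      · have h10 : B i j = 0 := by
          have h11 : ((L i : ℂ) - L j) * B i j = 0 := by
            rw [sub_mul, ← h8]
            ring
          rcases mul_eq_zero.1 h11 with h12 | h12
          · exact absurd (by exact_mod_cast (sub_eq_zero.1 h12)) hij
          · exact h12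
        rw [h10, zero_mul, mul_zero]
    rw [hDg]
    calc U * B * Uᴴ * (U * Matrix.diagonal (fun i => if p i then (1 : ℂ) else 0) * Uᴴ) =
        U * B * (Uᴴ * U) * Matrix.diagonal (fun i => if p i then (1 : ℂ) else 0) * Uᴴ := by
          simp only [Matrix.mul_assoc]
      _ = U * (B * Matrix.diagonal (fun i => if p i then (1 : ℂ) else 0)) * Uᴴ := by
          rw [hU1, Matrix.mul_one]
          simp only [Matrix.mul_assoc]
      _ = U * (Matrix.diagonal (fun i => if p i then (1 : ℂ) else 0) * B) * Uᴴ := by rw [h7]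
      _ = U * Matrix.diagonal (fun i => if p i then (1 : ℂ) else 0) * (Uᴴ * U) * B * Uᴴ := by
          rw [hU1, Matrix.mul_one]
          simp only [Matrix.mul_assoc]
      _ = U * Matrix.diagonal (fun i => if p i then (1 : ℂ) else 0) * Uᴴ * (U * B * Uᴴ) := by
          simp only [Matrix.mul_assoc]
  let e₁ := (Fintype.equivFin {i // L i = L i0}).symm
  let e₂ := (Fintype.equivFin {i // ¬ (L i = L i0)}).symm
  set W₁ := U.submatrix id (fun a => ((e₁ a : {i // L i = L i0}) : Fin n)) with hW₁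
  set W₂ := U.submatrix id (fun a => ((e₂ a : {i // ¬ (L i = L i0)}) : Fin n)) with hW₂
  have hP₁ := ID1_proj U (fun i => L i = L i0) e₁
  have hP₂ := ID1_proj U (fun i => ¬ (L i = L i0)) e₂
  rw [← hW₁] at hP₁
  rw [← hW₂] at hP₂
  have hG₁ : W₁ᴴ * W₁ = 1 := by
    ext a b
    rw [hW₁, ID1_gram U hU1, Matrix.one_apply]
    by_cases hab : a = b
    · subst hab
      simp
    · rw [if_neg hab, if_neg]
      intro h
      exact hab (e₁.injective (Subtype.ext h))
  have hG₂ : W₂ᴴ * W₂ = 1 := by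
    ext a b
    rw [hW₂, ID1_gram U hU1, Matrix.one_apply]
    by_cases hab : a = b
    · subst hab
      simp
    · rw [if_neg hab, if_neg]
      intro h
      exact hab (e₂.injective (Subtype.ext h))
  have hG₁₂ : W₁ᴴ * W₂ = 0 := by
    ext a b
    rw [hW₁, hW₂, ID1_gram U hU1, if_neg]
    · rfl
    · intro h
      have h1 := (e₁ a).2
      rw [h] at h1
      exact (e₂ b).2 h1
  have hsum : W₁ * W₁ᴴ + W₂ * W₂ᴴ = 1 := by
    rw [hP₁, hP₂, ← Matrix.add_mul, ← Matrix.mul_add, Matrix.diagonal_add]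
    have h13 : (fun i => (if L i = L i0 then (1 : ℂ) else 0) +
        (if ¬ (L i = L i0) then (1 : ℂ) else 0)) = fun _ => 1 := by
      funext i
      by_cases h : L i = L i0 <;> simp [h]
    rw [h13, Matrix.diagonal_one, Matrix.mul_one, hU2]
  have hC₁ : ∀ g, D g * (W₁ * W₁ᴴ) = (W₁ * W₁ᴴ) * D g := by
    intro g
    rw [hP₁]
    exact hcomm (fun i => L i = L i0) (fun i j hij => by
      show L i = L i0 ↔ L j = L i0
      rw [hij]) g
  have hC₂ : ∀ g, D g * (W₂ * W₂ᴴ) = (W₂ * W₂ᴴ) * D g := by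
    intro g
    rw [hP₂]
    exact hcomm (fun i => ¬ (L i = L i0)) (fun i j hij => by
      show ¬ (L i = L i0) ↔ ¬ (L j = L i0)
      rw [hij]) g
  obtain ⟨hR₁, hI₁⟩ := ID1_rep D hD W₁ hG₁ hC₁
  obtain ⟨hR₂, hI₂⟩ := ID1_rep D hD W₂ hG₂ hC₂
  refine ⟨_, _, fun g => W₁ᴴ * D g * W₁, fun g => W₂ᴴ * D g * W₂, W₁, W₂, ?_, ?_, hR₁, hR₂,
    hG₁, hG₂, hG₁₂, hsum, hI₁, hI₂⟩
  · have h14 := Fintype.card_subtype_lt (p := fun i => L i = L i0) (x := i1) hi1
    rwa [Fintype.card_fin] at h14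
  · have h15 := Fintype.card_subtype_lt (p := fun i => ¬ (L i = L i0)) (x := i0)
      (fun h => h rfl)
    rwa [Fintype.card_fin] at h15

end Pool.Agent.Lib.H82OF
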