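import Pool.Agent.Lib.H82OF.ID1

/-!
# Project H82OF, chunk ID2: decomposition into irreducible representations
-/

open MeasureTheory Filter Topology Finset ProbabilityTheory
open scoped ENNReal ComplexConjugate Matrix

namespace Pool.Agent.Lib.H82OF

open Pool.Agent.Lib.H22M Pool.Agent.Lib.H82T Pool.Agent.Lib.H82OT

/-- Proof. Strong induction on `n`. If `D` is irreducible take one block, `W = 1`. Otherwise
`exists_split`, the induction hypothesis for `D₁` and `D₂`, index type `ι₁ ⊕ ι₂`,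
`W (inl l) = W₁ * W' l`, `W (inr l) = W₂ * W'' l`. -/
theorem exists_irr_decomp {K : Type*} [Group K] [TopologicalSpace K] {n : ℕ}
    (D : K → Matrix (Fin n) (Fin n) ℂ) (hD : Rep D) :
    ∃ (ι : Type) (_ : Fintype ι) (d : ι → ℕ) (π : ∀ l, K → Matrix (Fin (d l)) (Fin (d l)) ℂ)
      (W : ∀ l, Matrix (Fin n) (Fin (d l)) ℂ), (∀ l, Irr (π l)) ∧ (∀ l, (W l)ᴴ * W l = 1) ∧
      (∑ l, W l * (W l)ᴴ = 1) ∧ ∀ l g, D g * W l = W l * π l g := by
  classical
  induction n using Nat.strong_induction_on with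
  | _ n ih =>
    by_cases hirr : Irr D
    · refine ⟨Unit, inferInstance, fun _ => n, fun _ => D, fun _ => 1, fun _ => hirr,
        fun _ => ?_, ?_, fun _ g => ?_⟩
      · rw [Matrix.conjTranspose_one, Matrix.one_mul]
      · rw [Finset.univ_unique, Finset.sum_singleton, Matrix.conjTranspose_one, Matrix.one_mul]
      · rw [Matrix.mul_one, Matrix.one_mul]
    · obtain ⟨d₁, d₂, D₁, D₂, W₁, W₂, h1, h2, hD₁, hD₂, hW₁, hW₂, -, hsum, hint₁, hint₂⟩ :=
        exists_split D hD hirr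
      obtain ⟨ι₁, fι₁, e₁, π₁, U₁, hI₁, hU₁, hs₁, hc₁⟩ := ih d₁ h1 D₁ hD₁
      obtain ⟨ι₂, fι₂, e₂, π₂, U₂, hI₂, hU₂, hs₂, hc₂⟩ := ih d₂ h2 D₂ hD₂
      refine ⟨ι₁ ⊕ ι₂, inferInstance, Sum.elim e₁ e₂,
        fun l => Sum.rec (motive := fun l => K → Matrix (Fin (Sum.elim e₁ e₂ l))
          (Fin (Sum.elim e₁ e₂ l)) ℂ) (fun a => π₁ a) (fun b => π₂ b) l,
        fun l => Sum.rec (motive := fun l => Matrix (Fin n) (Fin (Sum.elim e₁ e₂ l)) ℂ)
          (fun a => W₁ * U₁ a) (fun b => W₂ * U₂ b) l, ?_, ?_, ?_, ?_⟩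
      · rintro (a | b)
        · exact hI₁ a
        · exact hI₂ b
      · rintro (a | b)
        · change (W₁ * U₁ a)ᴴ * (W₁ * U₁ a) = 1
          rw [Matrix.conjTranspose_mul, Matrix.mul_assoc, ← Matrix.mul_assoc W₁ᴴ W₁ (U₁ a), hW₁,
            Matrix.one_mul, hU₁ a]
        · change (W₂ * U₂ b)ᴴ * (W₂ * U₂ b) = 1
          rw [Matrix.conjTranspose_mul, Matrix.mul_assoc, ← Matrix.mul_assoc W₂ᴴ W₂ (U₂ b), hW₂,
            Matrix.one_mul, hU₂ b]
      · rw [Fintype.sum_sum_type]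
        change ∑ a, (W₁ * U₁ a) * (W₁ * U₁ a)ᴴ + ∑ b, (W₂ * U₂ b) * (W₂ * U₂ b)ᴴ = 1
        have ea : ∀ a, (W₁ * U₁ a) * (W₁ * U₁ a)ᴴ = W₁ * (U₁ a * (U₁ a)ᴴ) * W₁ᴴ := by
          intro a
          rw [Matrix.conjTranspose_mul]
          simp only [Matrix.mul_assoc]
        have eb : ∀ b, (W₂ * U₂ b) * (W₂ * U₂ b)ᴴ = W₂ * (U₂ b * (U₂ b)ᴴ) * W₂ᴴ := by
          intro b
          rw [Matrix.conjTranspose_mul]
          simp only [Matrix.mul_assoc]
        rw [Finset.sum_congr rfl (fun a _ => ea a), Finset.sum_congr rfl (fun b _ => eb b),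
          ← Matrix.sum_mul, ← Matrix.sum_mul, ← Matrix.mul_sum, ← Matrix.mul_sum, hs₁, hs₂,
          Matrix.mul_one, Matrix.mul_one, hsum]
      · rintro (a | b) g
        · change D g * (W₁ * U₁ a) = (W₁ * U₁ a) * π₁ a g
          rw [← Matrix.mul_assoc, hint₁, Matrix.mul_assoc, hc₁, Matrix.mul_assoc]
        · change D g * (W₂ * U₂ b) = (W₂ * U₂ b) * π₂ b g
          rw [← Matrix.mul_assoc, hint₂, Matrix.mul_assoc, hc₂, Matrix.mul_assoc]

end Pool.Agent.Lib.H82OF
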