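import Pool.Agent.Lib.H82OF.Defs
import Pool.Agent.Lib.H82OT.FN2

/-!
# Project H82OF, chunk IQ1: approximation over the first coordinate
-/

open MeasureTheory Filter Topology Finset ProbabilityTheory
open scoped ENNReal ComplexConjugate Matrix

namespace Pool.Agent.Lib.H82OF

open Pool.Agent.Lib.H22M Pool.Agent.Lib.H82T Pool.Agent.Lib.H82OT

section

variable {Z K : Type*} [CommGroup Z] [TopologicalSpace Z] [IsTopologicalGroup Z]
  [CompactSpace Z] [T2Space Z] [SecondCountableTopology Z] [MeasurableSpace Z] [BorelSpace Z]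
  [Group K] [TopologicalSpace K] [IsTopologicalGroup K] [CompactSpace K] [T2Space K]
  [SecondCountableTopology K] [MeasurableSpace K] [BorelSpace K]

/-- Proof. `exists_finite_type` (`H82OT/FN2.lean`) on `Y = (Z × K) × (Z × K)` with `ℬ = G1`,
`v w = w.1.2` (law `muK`: `hρ.fst` and the second marginal of `lam.prod muK`), `M = K` with left
multiplication. `GG ≤ G1 ⊔ comap v`: the σ-algebra of `w.1 = (w.1.1, w.1.2)` is the supremum of the σ-algebras
of the coordinates (`MeasurableSpace.comap_prodMk`-type lemma or `MeasurableSpace.prod` unfolded: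
`MeasurableSpace.prod = comap fst ⊔ comap snd`, `MeasurableSpace.comap_sup`). -/
theorem y1_approx (lam : Measure Z) [IsProbabilityMeasure lam]
    (muK : Measure K) [muK.IsHaarMeasure] [IsProbabilityMeasure muK] (R : Z × K → Z × K)
    (p q : ℕ) (ρ : Measure ((Z × K) × (Z × K))) (hρ : IsJoin (lam.prod muK) R p q ρ)
    (x : (Z × K) × (Z × K) → ℂ) (hx : WB (GG R p q ρ) x) (δ : ℝ) (hδ : 0 < δ) :
    ∃ (n : ℕ) (G : Fin n → K → ℂ) (D : K → Fin n → Fin n → ℂ)
      (C : Fin n → (Z × K) × (Z × K) → ℂ), FTD muK G D ∧ (∀ i, WB (G1 R p q ρ) (C i)) ∧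
      l2 ρ (fun w => x w - ∑ i, C i w * G i w.1.2) ≤ δ := by
  haveI := hρ.prob
  have hv : MeasurePreserving (fun w : (Z × K) × (Z × K) => w.1.2) ρ muK := by
    have h1 : MeasurePreserving (Prod.fst : (Z × K) × (Z × K) → Z × K) ρ (lam.prod muK) :=
      ⟨measurable_fst, hρ.fst⟩
    have h2 : MeasurePreserving (Prod.snd : Z × K → K) (lam.prod muK) muK :=
      measurePreserving_snd
    exact h2.comp h1
  have hle2 : GG R p q ρ ≤ G1 R p q ρ ⊔
      MeasurableSpace.comap (fun w : (Z × K) × (Z × K) => w.1.2) inferInstance := by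
    refine sup_le ?_ (le_sup_of_le_left le_sup_right)
    have h3 : (inferInstance : MeasurableSpace (Z × K)) =
        MeasurableSpace.comap Prod.fst inferInstance ⊔
          MeasurableSpace.comap Prod.snd inferInstance := rfl
    rw [h3, MeasurableSpace.comap_sup, MeasurableSpace.comap_comp, MeasurableSpace.comap_comp]
    exact sup_le (le_sup_of_le_left le_sup_left) le_sup_right
  obtain ⟨d, G, D, F, hFTD, hRow, hl⟩ := exists_finite_type (K := K) (G1 R p q ρ) muK ρ
    (G1_le R p q ρ) (fun w : (Z × K) × (Z × K) => w.1.2) hv x (hx.1.mono hle2 le_rfl) hx.2 δ hδ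
  obtain ⟨hR1, C, hC⟩ := hRow
  exact ⟨d, G, D, fun i w => F w i, hFTD, fun i => ⟨hR1 i, C, fun w => hC w i⟩, hl⟩

end

end Pool.Agent.Lib.H82OF
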