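import Pool.Agent.Lib.H82OF.Defs

/-!
# Project H82OF, chunk IQ2: a Bessel argument over a sub-σ-algebra
-/

open MeasureTheory Filter Topology Finset ProbabilityTheory
open scoped ENNReal ComplexConjugate Matrix

namespace Pool.Agent.Lib.H82OF

open Pool.Agent.Lib.H22M Pool.Agent.Lib.H82T Pool.Agent.Lib.H82OT

private theorem IQ2_WB_conj {Ω : Type*} {ℬ : MeasurableSpace Ω} {f : Ω → ℂ} (hf : WB ℬ f) :
    WB ℬ fun ω => conj (f ω) := by
  obtain ⟨h1, C, hC⟩ := hf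
  refine ⟨Complex.continuous_conj.measurable.comp h1, C, fun ω => ?_⟩
  rw [RCLike.norm_conj]
  exact hC ω

private theorem IQ2_WB_mul {Ω : Type*} {ℬ : MeasurableSpace Ω} {f g : Ω → ℂ} (hf : WB ℬ f)
    (hg : WB ℬ g) : WB ℬ fun ω => f ω * g ω := by
  obtain ⟨h1, C, hC⟩ := hf
  obtain ⟨h2, C', hC'⟩ := hg
  refine ⟨h1.mul h2, C * C', fun ω => ?_⟩
  rw [norm_mul]
  exact mul_le_mul (hC ω) (hC' ω) (norm_nonneg _) ((norm_nonneg _).trans (hC ω))

private theorem IQ2_WB_sub {Ω : Type*} {ℬ : MeasurableSpace Ω} {f g : Ω → ℂ} (hf : WB ℬ f)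
    (hg : WB ℬ g) : WB ℬ fun ω => f ω - g ω := by
  obtain ⟨h1, C, hC⟩ := hf
  obtain ⟨h2, C', hC'⟩ := hg
  exact ⟨h1.sub h2, C + C', fun ω => (norm_sub_le _ _).trans (add_le_add (hC ω) (hC' ω))⟩

private theorem IQ2_pyth {Ω : Type*} [MeasurableSpace Ω] (ρ : Measure Ω) [IsFiniteMeasure ρ]
    (u v : Ω → ℂ) (hu : BM u) (hv : BM v) (h : ∫ ω, u ω * conj (v ω) ∂ρ = 0) :
    l2 ρ u ≤ l2 ρ (fun ω => u ω + v ω) := by
  have h' : ∫ ω, v ω * conj (u ω) ∂ρ = 0 := by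
    have h1 : ∫ ω, v ω * conj (u ω) ∂ρ = conj (∫ ω, u ω * conj (v ω) ∂ρ) := by
      rw [← integral_conj]
      refine integral_congr_ae (Eventually.of_forall fun ω => ?_)
      simp [mul_comm]
    rw [h1, h, map_zero]
  have e : ((l2 ρ (fun ω => u ω + v ω) ^ 2 : ℝ) : ℂ) = ((l2 ρ u ^ 2 + l2 ρ v ^ 2 : ℝ) : ℂ) := by
    rw [← Pool.Agent.Lib.H82OT.integral_mul_conj ρ (fun ω => u ω + v ω), Complex.ofReal_add,
      ← Pool.Agent.Lib.H82OT.integral_mul_conj ρ u, ← Pool.Agent.Lib.H82OT.integral_mul_conj ρ v]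
    have e1 : (fun ω => (u ω + v ω) * conj (u ω + v ω)) = fun ω =>
        (u ω * conj (u ω) + v ω * conj (v ω)) + (u ω * conj (v ω) + v ω * conj (u ω)) := by
      funext ω
      rw [map_add]
      ring
    rw [e1, integral_add (((hu.mul hu.conj).add (hv.mul hv.conj)).integrable)
      (((hu.mul hv.conj).add (hv.mul hu.conj)).integrable),
      integral_add (hu.mul hu.conj).integrable (hv.mul hv.conj).integrable,
      integral_add (hu.mul hv.conj).integrable (hv.mul hu.conj).integrable, h, h']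
    ring
  have e' : l2 ρ (fun ω => u ω + v ω) ^ 2 = l2 ρ u ^ 2 + l2 ρ v ^ 2 := by exact_mod_cast e
  have h2 : 0 ≤ l2 ρ v ^ 2 := sq_nonneg _
  exact (sq_le_sq₀ (Pool.Agent.Lib.H22M.l2_nonneg ρ u)
    (Pool.Agent.Lib.H22M.l2_nonneg ρ _)).1 (by rw [e']; linarith)

/-- Proof. All functions are bounded and measurable. With `P = ∑_i c_i G_i(κ)`:
(1) `∫ P conj x' = ∑_i ∫ c_i conj (conj (G_i(κ)) x') = ∑_i ∫ c_i conj c'_i` (`hc'` with `H = conj c_i`,
conjugated).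
(2) `x - P` is orthogonal to all `C_j G_j(κ)`, `C_j` in `WB ℬ`:
`∫ x conj(C_j G_j) = ∫ conj C_j c_j` (`hc`), and `∫ P conj (C_j G_j) = ∑_i ∫ c_i conj C_j (G_i conj G_j)(κ)
= ∫ c_j conj C_j` (`hκ`, `horth`). So `x - P ⟂ P - ∑ C_j G_j` and
`l2 (x - P) ≤ l2 (x - ∑ C_j G_j) ≤ δ` (Pythagoras).
(3) `‖∫ x conj x' - ∫ P conj x'‖ ≤ l2 (x - P) l2 x'` (`norm_integral_mul_le` in `H82OT/LT1.lean`). -/
theorem bessel {Ω K : Type*} (ℬ : MeasurableSpace Ω) [mΩ : MeasurableSpace Ω]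
    [MeasurableSpace K] (muK : Measure K)
    [IsProbabilityMeasure muK] (ρ : Measure Ω) [IsProbabilityMeasure ρ] (hle : ℬ ≤ mΩ)
    (κ : Ω → K) (hκm : Measurable κ)
    (hκ : ∀ (u : K → ℂ) (H : Ω → ℂ), BM u → WB ℬ H →
      ∫ ω, u (κ ω) * H ω ∂ρ = (∫ k, u k ∂muK) * ∫ ω, H ω ∂ρ)
    {n : ℕ} (G : Fin n → K → ℂ) (hG : ∀ i, BM (G i))
    (horth : ∀ i j, ∫ u, G i u * conj (G j u) ∂muK = if i = j then 1 else 0)
    (x x' : Ω → ℂ) (hx : BM x) (hx' : BM x') (c c' : Fin n → Ω → ℂ) (hcW : ∀ i, WB ℬ (c i))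
    (hcW' : ∀ i, WB ℬ (c' i))
    (hc : ∀ i (H : Ω → ℂ), WB ℬ H →
      ∫ ω, H ω * (x ω * conj (G i (κ ω))) ∂ρ = ∫ ω, H ω * c i ω ∂ρ)
    (hc' : ∀ i (H : Ω → ℂ), WB ℬ H →
      ∫ ω, H ω * (x' ω * conj (G i (κ ω))) ∂ρ = ∫ ω, H ω * c' i ω ∂ρ)
    (C : Fin n → Ω → ℂ) (hC : ∀ i, WB ℬ (C i)) (δ : ℝ)
    (hδ : l2 ρ (fun ω => x ω - ∑ i, C i ω * G i (κ ω)) ≤ δ) :
    ‖∫ ω, x ω * conj (x' ω) ∂ρ - ∫ ω, ∑ i, c i ω * conj (c' i ω) ∂ρ‖ ≤ δ * l2 ρ x' := by
  have hGκ : ∀ i, BM fun ω => G i (κ ω) := fun i => (hG i).comp hκm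
  have hcB : ∀ i, BM (c i) := fun i => (hcW i).bm hle
  have hcB' : ∀ i, BM (c' i) := fun i => (hcW' i).bm hle
  have hPB : BM fun ω => ∑ i, c i ω * G i (κ ω) :=
    BM.sum _ fun i _ => (hcB i).mul (hGκ i)
  -- (1)
  have h1 : ∫ ω, (∑ i, c i ω * G i (κ ω)) * conj (x' ω) ∂ρ =
      ∫ ω, ∑ i, c i ω * conj (c' i ω) ∂ρ := by
    have e1 : (fun ω => (∑ i, c i ω * G i (κ ω)) * conj (x' ω)) = fun ω =>
        ∑ i, (c i ω * G i (κ ω)) * conj (x' ω) := by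
      funext ω
      rw [Finset.sum_mul]
    rw [e1, integral_finsetSum _ (fun i _ => (((hcB i).mul (hGκ i)).mul hx'.conj).integrable),
      integral_finsetSum _ (fun i _ => ((hcB i).mul (hcB' i).conj).integrable)]
    refine Finset.sum_congr rfl fun i _ => ?_
    have e2 := hc' i (fun ω => conj (c i ω)) (IQ2_WB_conj (hcW i))
    have e3 := congrArg (starRingEnd ℂ) e2
    rw [← integral_conj, ← integral_conj] at e3
    calc ∫ ω, c i ω * G i (κ ω) * conj (x' ω) ∂ρ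
        = ∫ ω, conj (conj (c i ω) * (x' ω * conj (G i (κ ω)))) ∂ρ := by
          refine integral_congr_ae (Eventually.of_forall fun ω => ?_)
          simp only [map_mul, Complex.conj_conj]
          ring
      _ = ∫ ω, conj (conj (c i ω) * c' i ω) ∂ρ := e3
      _ = ∫ ω, c i ω * conj (c' i ω) ∂ρ := by
          refine integral_congr_ae (Eventually.of_forall fun ω => ?_)
          simp only [map_mul, Complex.conj_conj]
  -- (2)
  have h2 : ∀ (j : Fin n) (D : Ω → ℂ), WB ℬ D →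
      ∫ ω, (x ω - ∑ i, c i ω * G i (κ ω)) * conj (D ω * G j (κ ω)) ∂ρ = 0 := by
    intro j D hD
    have hDB : BM D := hD.bm hle
    have e1 : (fun ω => (x ω - ∑ i, c i ω * G i (κ ω)) * conj (D ω * G j (κ ω))) = fun ω =>
        conj (D ω) * (x ω * conj (G j (κ ω))) -
          ∑ i, (G i (κ ω) * conj (G j (κ ω))) * (c i ω * conj (D ω)) := by
      funext ω
      rw [sub_mul, map_mul, Finset.sum_mul]
      congr 1
      · ring
      · exact Finset.sum_congr rfl fun i _ => by ring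
    have hb : ∀ i, BM fun ω => (G i (κ ω) * conj (G j (κ ω))) * (c i ω * conj (D ω)) :=
      fun i => ((hGκ i).mul (hGκ j).conj).mul ((hcB i).mul hDB.conj)
    rw [e1, integral_sub ((hDB.conj.mul (hx.mul (hGκ j).conj)).integrable)
      ((BM.sum _ fun i _ => hb i).integrable), integral_finsetSum _ (fun i _ => (hb i).integrable),
      hc j (fun ω => conj (D ω)) (IQ2_WB_conj hD)]
    have e2 : ∀ i, ∫ ω, (G i (κ ω) * conj (G j (κ ω))) * (c i ω * conj (D ω)) ∂ρ =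
        (if i = j then 1 else 0) * ∫ ω, c i ω * conj (D ω) ∂ρ := by
      intro i
      rw [← horth i j]
      exact hκ (fun k => G i k * conj (G j k)) (fun ω => c i ω * conj (D ω))
        ((hG i).mul (hG j).conj) (IQ2_WB_mul (hcW i) (IQ2_WB_conj hD))
    rw [Finset.sum_congr rfl fun i _ => e2 i]
    simp only [ite_mul, one_mul, zero_mul, Finset.sum_ite_eq', Finset.mem_univ, if_true]
    rw [sub_eq_zero]
    exact integral_congr_ae (Eventually.of_forall fun ω => mul_comm _ _)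
  have huB : BM fun ω => x ω - ∑ i, c i ω * G i (κ ω) := hx.sub hPB
  have hvB : BM fun ω => ∑ i, (c i ω - C i ω) * G i (κ ω) :=
    BM.sum _ fun i _ => ((hcB i).sub ((hC i).bm hle)).mul (hGκ i)
  have h3 : ∫ ω, (x ω - ∑ i, c i ω * G i (κ ω)) *
      conj (∑ i, (c i ω - C i ω) * G i (κ ω)) ∂ρ = 0 := by
    have e1 : (fun ω => (x ω - ∑ i, c i ω * G i (κ ω)) *
        conj (∑ i, (c i ω - C i ω) * G i (κ ω))) = fun ω =>
        ∑ j, (x ω - ∑ i, c i ω * G i (κ ω)) * conj ((c j ω - C j ω) * G j (κ ω)) := by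
      funext ω
      rw [map_sum, Finset.mul_sum]
    rw [e1, integral_finsetSum _ (fun j _ => (huB.mul
      (((hcB j).sub ((hC j).bm hle)).mul (hGκ j)).conj).integrable)]
    exact Finset.sum_eq_zero fun j _ => h2 j _ (IQ2_WB_sub (hcW j) (hC j))
  have h4 : l2 ρ (fun ω => x ω - ∑ i, c i ω * G i (κ ω)) ≤ δ := by
    refine le_trans (IQ2_pyth ρ _ _ huB hvB h3) ?_
    have e1 : (fun ω => (x ω - ∑ i, c i ω * G i (κ ω)) + ∑ i, (c i ω - C i ω) * G i (κ ω)) =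
        fun ω => x ω - ∑ i, C i ω * G i (κ ω) := by
      funext ω
      have e2 : ∑ i, (c i ω - C i ω) * G i (κ ω) =
          ∑ i, c i ω * G i (κ ω) - ∑ i, C i ω * G i (κ ω) := by
        rw [← Finset.sum_sub_distrib]
        exact Finset.sum_congr rfl fun i _ => by ring
      rw [e2]
      ring
    rw [e1]
    exact hδ
  -- (3)
  have h5 : ∫ ω, x ω * conj (x' ω) ∂ρ - ∫ ω, ∑ i, c i ω * conj (c' i ω) ∂ρ =
      ∫ ω, (x ω - ∑ i, c i ω * G i (κ ω)) * conj (x' ω) ∂ρ := by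
    rw [← h1, ← integral_sub (hx.mul hx'.conj).integrable (hPB.mul hx'.conj).integrable]
    exact integral_congr_ae (Eventually.of_forall fun ω => by ring)
  rw [h5]
  exact (Pool.Agent.Lib.H22M.norm_integral_mul_conj_le (m := ρ) huB hx').trans
    (mul_le_mul_of_nonneg_right h4 (Pool.Agent.Lib.H22M.l2_nonneg ρ x'))

end Pool.Agent.Lib.H82OF
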