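import Pool.Agent.Lib.H82OF.IQ3
import Pool.Agent.Lib.H82OF.IQ4

/-!
# Project H82OF, chunk IQ5: the coefficients of inequivalent representations have disjoint supports
-/

open MeasureTheory Filter Topology Finset ProbabilityTheory
open scoped ENNReal ComplexConjugate Matrix

namespace Pool.Agent.Lib.H82OF

open Pool.Agent.Lib.H22M Pool.Agent.Lib.H82T Pool.Agent.Lib.H82OT

private theorem IQ5_mul {Ω : Type*} [𝒲 : MeasurableSpace Ω] {f g : Ω → ℂ} (hf : WB 𝒲 f)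
    (hg : WB 𝒲 g) : WB 𝒲 fun ω => f ω * g ω :=
  BM.mul (Y := Ω) hf hg

private theorem IQ5_chi {Ω : Type*} [𝒲 : MeasurableSpace Ω] {D : Set Ω}
    (hD : MeasurableSet D) : WB 𝒲 (Dᶜ.indicator fun _ => (1 : ℂ)) := by
  refine ⟨measurable_const.indicator hD.compl, 1, fun ω => ?_⟩
  by_cases h : ω ∈ Dᶜ
  · rw [Set.indicator_of_mem h]
    simp
  · rw [Set.indicator_of_notMem h]
    simp

private theorem IQ5_mono {Ω : Type*} {𝒲 𝒲' : MeasurableSpace Ω} {f : Ω → ℂ} (hf : WB 𝒲 f)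
    (h : 𝒲 ≤ 𝒲') : WB 𝒲' f := ⟨hf.1.mono h le_rfl, hf.2⟩

section

variable {Z K : Type*} [CommGroup Z] [TopologicalSpace Z] [IsTopologicalGroup Z]
  [CompactSpace Z] [T2Space Z] [SecondCountableTopology Z] [MeasurableSpace Z] [BorelSpace Z]
  [Group K] [TopologicalSpace K] [IsTopologicalGroup K] [CompactSpace K] [T2Space K]
  [SecondCountableTopology K] [MeasurableSpace K] [BorelSpace K]

/-- Proof. Let `H` be in `WB G1` and `H' = 1_{Dᶜ} H` (in `WB G1`, as `D` is in `aeInv ≤ G1`).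
`∫ H' c = ∫ H' a(w.2) conj ((β(w.1.2) u₀)_r) = ∑_i ∫ (H' A_i(w.2.1)) ((π(w.2.2) w₀)_i conj (…)_r)
= ∑_i ∫ H' A_i(w.2.1) m_ir = 0` (`H' A_i(w.2.1)` is in `WB WZ`; `m = 0` off `D`). So
`∫ H (1_{Dᶜ} c) = 0` for all `H` in `WB G1`: `1_{Dᶜ} c = 0` a.e. (`wb_ae_eq`). -/
theorem coeff_support (lam : Measure Z) [IsProbabilityMeasure lam]
    (muK : Measure K) [IsProbabilityMeasure muK] {α : Z} {φ : Z → K} (p q : ℕ)
    (ρ : Measure ((Z × K) × (Z × K))) (hρ : IsJoin (lam.prod muK) (skew α φ) p q ρ)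
    {d e : ℕ} {π : K → Matrix (Fin d) (Fin d) ℂ} {β : K → Matrix (Fin e) (Fin e) ℂ}
    (hπ : Rep π) (hβ : Rep β) (w₀ : Fin d → ℂ) (u₀ : Fin e → ℂ)
    (m : (Z × K) × (Z × K) → Matrix (Fin d) (Fin e) ℂ) (hm : WM (WZ (skew α φ) p q ρ) m)
    (hmI : ∀ i j (H : (Z × K) × (Z × K) → ℂ), WB (WZ (skew α φ) p q ρ) H →
        ∫ w, H w * ((π w.2.2 *ᵥ w₀) i * conj ((β w.1.2 *ᵥ u₀) j)) ∂ρ =
          ∫ w, H w * m w i j ∂ρ)
    (D : Set ((Z × K) × (Z × K)))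
    (hD : MeasurableSet[aeInv ρ (Prod.map ((skew α φ)^[p]) ((skew α φ)^[q]))] D)
    (hmD : ∀ᵐ w ∂ρ, w ∉ D → m w = 0) (A : Z → Fin d → ℂ) (hA : BMR A) (r : Fin e)
    (c : (Z × K) × (Z × K) → ℂ) (hc : WB (G1 (skew α φ) p q ρ) c)
    (hcI : ∀ H : (Z × K) × (Z × K) → ℂ, WB (G1 (skew α φ) p q ρ) H →
      ∫ w, H w * ((A w.2.1 ⬝ᵥ (π w.2.2 *ᵥ w₀)) * conj ((β w.1.2 *ᵥ u₀) r)) ∂ρ =
        ∫ w, H w * c w ∂ρ) :
    ∀ᵐ w ∂ρ, w ∉ D → c w = 0 := by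
  have := hρ.prob
  have hchi : WB (aeInv ρ (Prod.map ((skew α φ)^[p]) ((skew α φ)^[q])))
      (Dᶜ.indicator fun _ => (1 : ℂ)) :=
    @IQ5_chi _ (aeInv ρ (Prod.map ((skew α φ)^[p]) ((skew α φ)^[q]))) D hD
  have hchiG : WB (G1 (skew α φ) p q ρ) (Dᶜ.indicator fun _ => (1 : ℂ)) :=
    IQ5_mono hchi le_sup_right
  have hπm : ∀ i, BM fun w : (Z × K) × (Z × K) => (π w.2.2 *ᵥ w₀) i := by
    intro i
    have h1 : (fun w : (Z × K) × (Z × K) => (π w.2.2 *ᵥ w₀) i) =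
        fun w => ∑ j ∈ Finset.univ, π w.2.2 i j * w₀ j := by
      funext w
      simp [Matrix.mulVec, dotProduct]
    rw [h1]
    exact BM.sum _ fun j _ => ((hπ.bmm i j).comp (measurable_snd.comp measurable_snd)).mul
      (BM.const _)
  have hβm : BM fun w : (Z × K) × (Z × K) => conj ((β w.1.2 *ᵥ u₀) r) := by
    have h1 : (fun w : (Z × K) × (Z × K) => (β w.1.2 *ᵥ u₀) r) =
        fun w => ∑ j ∈ Finset.univ, β w.1.2 r j * u₀ j := by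
      funext w
      simp [Matrix.mulVec, dotProduct]
    have h2 : BM fun w : (Z × K) × (Z × K) => (β w.1.2 *ᵥ u₀) r := by
      rw [h1]
      exact BM.sum _ fun j _ => ((hβ.bmm r j).comp (measurable_snd.comp measurable_fst)).mul
        (BM.const _)
    exact h2.conj
  have hAZ : ∀ i, WB (WZ (skew α φ) p q ρ) fun w : (Z × K) × (Z × K) => A w.2.1 i := by
    intro i
    obtain ⟨h1, C, hC⟩ := hA i
    refine ⟨?_, C, fun w => hC _⟩
    have h2 : Measurable fun z : Z × Z => A z.2 i := h1.comp measurable_snd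
    have h3 : Measurable[MeasurableSpace.comap (fun w : (Z × K) × (Z × K) => (w.1.1, w.2.1))
        inferInstance] fun w : (Z × K) × (Z × K) => A w.2.1 i :=
      h2.comp (comap_measurable (fun w : (Z × K) × (Z × K) => (w.1.1, w.2.1)))
    exact h3.mono le_sup_left le_rfl
  have key : ∀ H : (Z × K) × (Z × K) → ℂ, WB (G1 (skew α φ) p q ρ) H →
      ∫ w, H w * (Dᶜ.indicator (fun _ => (1 : ℂ)) w * c w) ∂ρ =
        ∫ w, H w * (fun _ : (Z × K) × (Z × K) => (0 : ℂ)) w ∂ρ := by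
    intro H hH
    have hH' : WB (G1 (skew α φ) p q ρ) fun w => H w * Dᶜ.indicator (fun _ => (1 : ℂ)) w :=
      @IQ5_mul _ (G1 (skew α φ) p q ρ) _ _ hH hchiG
    have hH'Z : WB (WZ (skew α φ) p q ρ) fun w => H w * Dᶜ.indicator (fun _ => (1 : ℂ)) w :=
      IQ5_mono hH' (G1_le_WZ _ _ _ _)
    have h0 := hcI _ hH'
    have h1 : ∫ w, H w * (Dᶜ.indicator (fun _ => (1 : ℂ)) w * c w) ∂ρ =
        ∫ w, (fun w => H w * Dᶜ.indicator (fun _ => (1 : ℂ)) w) w * c w ∂ρ := by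
      refine integral_congr_ae (Eventually.of_forall fun w => ?_)
      simp only
      ring
    rw [h1, ← h0]
    have h2 : ∀ i, WB (WZ (skew α φ) p q ρ) fun w =>
        (H w * Dᶜ.indicator (fun _ => (1 : ℂ)) w) * A w.2.1 i := fun i =>
      @IQ5_mul _ (WZ (skew α φ) p q ρ) _ _ hH'Z (hAZ i)
    have h3 : ∫ w, (fun w => H w * Dᶜ.indicator (fun _ => (1 : ℂ)) w) w *
          ((A w.2.1 ⬝ᵥ (π w.2.2 *ᵥ w₀)) * conj ((β w.1.2 *ᵥ u₀) r)) ∂ρ =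
        ∑ i, ∫ w, ((H w * Dᶜ.indicator (fun _ => (1 : ℂ)) w) * A w.2.1 i) *
          ((π w.2.2 *ᵥ w₀) i * conj ((β w.1.2 *ᵥ u₀) r)) ∂ρ := by
      rw [← integral_finsetSum]
      · refine integral_congr_ae (Eventually.of_forall fun w => ?_)
        simp only [dotProduct, Finset.sum_mul, Finset.mul_sum]
        refine Finset.sum_congr rfl fun i _ => ?_
        ring
      · intro i _
        exact (((h2 i).bm (WZ_le _ _ _ _)).mul ((hπm i).mul hβm)).integrable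
    rw [h3]
    have h4 : ∀ i, ∫ w, ((H w * Dᶜ.indicator (fun _ => (1 : ℂ)) w) * A w.2.1 i) *
          ((π w.2.2 *ᵥ w₀) i * conj ((β w.1.2 *ᵥ u₀) r)) ∂ρ = 0 := by
      intro i
      rw [hmI i r _ (h2 i)]
      refine integral_eq_zero_of_ae ?_
      filter_upwards [hmD] with w hw
      by_cases hwD : w ∈ D
      · have h5 : w ∉ Dᶜ := fun h => h hwD
        simp [Set.indicator_of_notMem h5]
      · simp [hw hwD]
    rw [Finset.sum_eq_zero fun i _ => h4 i]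
    simp
  have hcc : WB (G1 (skew α φ) p q ρ) fun w => Dᶜ.indicator (fun _ => (1 : ℂ)) w * c w :=
    @IQ5_mul _ (G1 (skew α φ) p q ρ) _ _ hchiG hc
  have h00 : WB (G1 (skew α φ) p q ρ) fun _ : (Z × K) × (Z × K) => (0 : ℂ) :=
    ⟨measurable_const, 0, fun _ => by simp⟩
  have hfin := wb_ae_eq (G1 (skew α φ) p q ρ) ρ (G1_le _ _ _ _) _ _ hcc h00 key
  filter_upwards [hfin] with w hw hwD
  have h5 : w ∈ Dᶜ := hwD
  simpa [Set.indicator_of_mem h5] using hw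

/-- Proof. `exists_inter` for `(π, w₀)` and `(π', w₀')` with the same `(β, u₀)`, `exists_support`, and
`coeff_support` with `D` for `c` and with `Dᶜ` for `c'`. -/
theorem coeff_mul_zero (lam : Measure Z) [lam.IsHaarMeasure] [IsProbabilityMeasure lam]
    (muK : Measure K) [muK.IsHaarMeasure] [IsProbabilityMeasure muK] {α : Z} {φ : Z → K}
    (hB : Base lam muK α φ) (p q : ℕ) (hp : 1 ≤ p) (hq : 1 ≤ q)
    (ρ : Measure ((Z × K) × (Z × K))) (hρ : IsJoin (lam.prod muK) (skew α φ) p q ρ)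
    {d d' e : ℕ} {π : K → Matrix (Fin d) (Fin d) ℂ} {π' : K → Matrix (Fin d') (Fin d') ℂ}
    {β : K → Matrix (Fin e) (Fin e) ℂ} (hπ : Rep π) (hπ' : Rep π') (hβ : Irr β)
    (hine : Ineq muK π π') (w₀ : Fin d → ℂ) (w₀' : Fin d' → ℂ) (u₀ : Fin e → ℂ)
    (A : Z → Fin d → ℂ) (hA : BMR A) (A' : Z → Fin d' → ℂ) (hA' : BMR A') (r : Fin e)
    (c c' : (Z × K) × (Z × K) → ℂ) (hc : WB (G1 (skew α φ) p q ρ) c)
    (hc' : WB (G1 (skew α φ) p q ρ) c')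
    (hcI : ∀ H : (Z × K) × (Z × K) → ℂ, WB (G1 (skew α φ) p q ρ) H →
      ∫ w, H w * ((A w.2.1 ⬝ᵥ (π w.2.2 *ᵥ w₀)) * conj ((β w.1.2 *ᵥ u₀) r)) ∂ρ =
        ∫ w, H w * c w ∂ρ)
    (hcI' : ∀ H : (Z × K) × (Z × K) → ℂ, WB (G1 (skew α φ) p q ρ) H →
      ∫ w, H w * ((A' w.2.1 ⬝ᵥ (π' w.2.2 *ᵥ w₀')) * conj ((β w.1.2 *ᵥ u₀) r)) ∂ρ =
        ∫ w, H w * c' w ∂ρ) :
    ∀ᵐ w ∂ρ, c w * conj (c' w) = 0 := by
  obtain ⟨m, hm, hmI, hmS⟩ := exists_inter lam muK hB p q ρ hρ hπ hβ.toRep w₀ u₀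
  obtain ⟨m', hm', hmI', hmS'⟩ := exists_inter lam muK hB p q ρ hρ hπ' hβ.toRep w₀' u₀
  obtain ⟨D, hD, hD1, hD2⟩ := exists_support lam muK hB p q hp hq ρ hρ hπ hπ' hβ hine m m' hm hm'
    hmS hmS'
  have h1 := coeff_support lam muK p q ρ hρ hπ hβ.toRep w₀ u₀ m hm hmI D hD hD1 A hA r c hc hcI
  have hDc : MeasurableSet[aeInv ρ (Prod.map ((skew α φ)^[p]) ((skew α φ)^[q]))] Dᶜ :=
    @MeasurableSet.compl _ _ (aeInv ρ (Prod.map ((skew α φ)^[p]) ((skew α φ)^[q]))) hD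
  have hD2' : ∀ᵐ w ∂ρ, w ∉ Dᶜ → m' w = 0 := by
    filter_upwards [hD2] with w hw hwD
    exact hw (not_not.1 hwD)
  have h2 := coeff_support lam muK p q ρ hρ hπ' hβ.toRep w₀' u₀ m' hm' hmI' Dᶜ hDc hD2' A' hA' r
    c' hc' hcI'
  filter_upwards [h1, h2] with w hw1 hw2
  by_cases hwD : w ∈ D
  · rw [hw2 (fun h => h hwD)]
    simp
  · rw [hw1 hwD]
    simp

end

end Pool.Agent.Lib.H82OF
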