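import Pool.Agent.Lib.H82OF.IQ1
import Pool.Agent.Lib.H82OF.IQ2
import Pool.Agent.Lib.H82OF.IQ5
import Pool.Agent.Lib.H82OF.ID2
import Pool.Agent.Lib.H82OF.FR
import Pool.Agent.Lib.H82OF.IA
import Pool.Agent.Lib.H22M.JB

/-!
# Project H82OF, chunk IQ6: inequivalent representations are orthogonal for the relative square
-/

open MeasureTheory Filter Topology Finset ProbabilityTheory
open scoped ENNReal ComplexConjugate Matrix

namespace Pool.Agent.Lib.H82OF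

open Pool.Agent.Lib.H22M Pool.Agent.Lib.H82T Pool.Agent.Lib.H82OT

private theorem IQ6_mul {Ω : Type*} [𝒲 : MeasurableSpace Ω] {f g : Ω → ℂ} (hf : WB 𝒲 f)
    (hg : WB 𝒲 g) : WB 𝒲 fun ω => f ω * g ω :=
  BM.mul (Y := Ω) hf hg

private theorem IQ6_conj {Ω : Type*} [𝒲 : MeasurableSpace Ω] {f : Ω → ℂ} (hf : WB 𝒲 f) :
    WB 𝒲 fun ω => conj (f ω) :=
  BM.conj (Y := Ω) hf

private theorem IQ6_lin {Ω : Type*} [𝒲 : MeasurableSpace Ω] {n : ℕ} {f : Fin n → Ω → ℂ}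
    (hf : ∀ i, WB 𝒲 (f i)) (a : Fin n → ℂ) : WB 𝒲 fun ω => ∑ i, f i ω * a i :=
  BM.sum (Y := Ω) Finset.univ fun i _ => BM.mul (Y := Ω) (hf i) (BM.const (a i))

private theorem IQ6_mono {Ω : Type*} {𝒲 𝒲' : MeasurableSpace Ω} {f : Ω → ℂ} (hf : WB 𝒲 f)
    (h : 𝒲 ≤ 𝒲') : WB 𝒲' f := ⟨hf.1.mono h le_rfl, hf.2⟩

private theorem IQ6_vers {Ω : Type*} (𝒜 : MeasurableSpace Ω) [mΩ : MeasurableSpace Ω]
    (ρ : Measure Ω) [IsProbabilityMeasure ρ] (h𝒜 : 𝒜 ≤ mΩ) (h : Ω → ℂ) (hh : BM h) :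
    ∃ g : Ω → ℂ, WB 𝒜 g ∧ g =ᵐ[ρ] ρ[h|𝒜] ∧
      ∀ f : Ω → ℂ, WB 𝒜 f → ∫ w, f w * h w ∂ρ = ∫ w, f w * g w ∂ρ := by
  obtain ⟨C, hC⟩ := hh.2
  obtain ⟨g, g1, g2, g3, g4⟩ := exists_version 𝒜 ρ h𝒜 h hh.1 (max C 0) (le_max_right _ _)
    (Eventually.of_forall fun w => (hC w).trans (le_max_left _ _))
  refine ⟨g, ⟨g1, _, g2⟩, g3, fun f hf => ?_⟩
  obtain ⟨C', hC'⟩ := hf.2
  exact g4 f hf.1 ⟨C', Eventually.of_forall hC'⟩

/-- The coefficients in the new basis. -/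
private theorem IQ6_coef {Ω K : Type*} {𝒢 ℬ : MeasurableSpace Ω} [mΩ : MeasurableSpace Ω]
    [MeasurableSpace K] (ρ : Measure Ω) [IsProbabilityMeasure ρ] (hle : 𝒢 ≤ mΩ) (hBG : ℬ ≤ 𝒢)
    (a x : Ω → ℂ) (ha : BM a)
    (hxI : ∀ f : Ω → ℂ, WB 𝒢 f → ∫ ω, f ω * a ω ∂ρ = ∫ ω, f ω * x ω ∂ρ)
    {n e : ℕ} (G : Fin n → K → ℂ) (κ : Ω → K)
    (hGκ : ∀ i, WB 𝒢 fun ω => G i (κ ω)) (c : Fin n → Ω → ℂ) (hcW : ∀ i, WB ℬ (c i))
    (hc : ∀ i (H : Ω → ℂ), WB ℬ H →
      ∫ ω, H ω * (x ω * conj (G i (κ ω))) ∂ρ = ∫ ω, H ω * c i ω ∂ρ)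
    (W : Matrix (Fin n) (Fin e) ℂ) (v : K → Fin e → ℂ) (r : Fin e)
    (hv : ∀ k, conj (v k r) = ∑ i, W i r * conj (G i k)) (H : Ω → ℂ) (hH : WB ℬ H) :
    ∫ ω, H ω * (a ω * conj (v (κ ω) r)) ∂ρ = ∫ ω, H ω * ∑ i, c i ω * W i r ∂ρ := by
  have hHG : WB 𝒢 H := IQ6_mono hH hBG
  have hB : ∀ i, BM fun ω => H ω * conj (G i (κ ω)) := fun i =>
    (hHG.bm hle).mul ((hGκ i).bm hle).conj
  have h1 : ∀ i, ∫ ω, (H ω * conj (G i (κ ω))) * a ω ∂ρ = ∫ ω, H ω * c i ω ∂ρ := by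
    intro i
    have h2 : WB 𝒢 fun ω => H ω * conj (G i (κ ω)) :=
      @IQ6_mul _ 𝒢 _ _ hHG (@IQ6_conj _ 𝒢 _ (hGκ i))
    rw [hxI _ h2, ← hc i H hH]
    refine integral_congr_ae (Eventually.of_forall fun ω => ?_)
    simp only
    ring
  have h3 : ∫ ω, H ω * (a ω * conj (v (κ ω) r)) ∂ρ =
      ∫ ω, ∑ i, W i r * ((H ω * conj (G i (κ ω))) * a ω) ∂ρ := by
    refine integral_congr_ae (Eventually.of_forall fun ω => ?_)
    simp only
    rw [hv, Finset.mul_sum, Finset.mul_sum]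
    exact Finset.sum_congr rfl fun i _ => by ring
  have h4 : ∫ ω, H ω * ∑ i, c i ω * W i r ∂ρ =
      ∫ ω, ∑ i, W i r * (H ω * c i ω) ∂ρ := by
    refine integral_congr_ae (Eventually.of_forall fun ω => ?_)
    simp only
    rw [Finset.mul_sum]
    exact Finset.sum_congr rfl fun i _ => by ring
  rw [h3, h4, integral_finsetSum _ fun i _ => ((hB i).mul ha).integrable.const_mul _,
    integral_finsetSum _ fun i _ =>
      (((hHG.bm hle).mul (((IQ6_mono (hcW i) hBG)).bm hle)).integrable).const_mul _]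
  refine Finset.sum_congr rfl fun i _ => ?_
  rw [integral_const_mul, integral_const_mul, h1 i]

/-- `∑ c_i conj c'_i` in the new basis. -/
private theorem IQ6_basis {n : ℕ} {ι : Type} [Fintype ι] {d : ι → ℕ}
    (W : ∀ l, Matrix (Fin n) (Fin (d l)) ℂ) (hs : ∑ l, W l * (W l)ᴴ = 1) (c c' : Fin n → ℂ) :
    ∑ i, c i * conj (c' i) =
      ∑ l, ∑ r, (∑ i, c i * W l i r) * conj (∑ i, c' i * W l i r) := by
  have h1 : ∀ i j, ∑ l, ∑ r, W l i r * conj (W l j r) = if i = j then 1 else 0 := by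
    intro i j
    have h2 := congrFun (congrFun hs i) j
    rw [Matrix.sum_apply] at h2
    simpa [Matrix.mul_apply, Matrix.conjTranspose_apply, Matrix.one_apply] using h2
  calc ∑ i, c i * conj (c' i) = ∑ i, ∑ j, c i * conj (c' j) * (if i = j then 1 else 0) := by
        refine Finset.sum_congr rfl fun i _ => ?_
        simp
    _ = ∑ i, ∑ j, c i * conj (c' j) * ∑ l, ∑ r, W l i r * conj (W l j r) := by
        refine Finset.sum_congr rfl fun i _ => Finset.sum_congr rfl fun j _ => ?_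
        rw [h1]
    _ = ∑ i, ∑ j, ∑ l, ∑ r, (c i * W l i r) * (conj (c' j) * conj (W l j r)) := by
        refine Finset.sum_congr rfl fun i _ => Finset.sum_congr rfl fun j _ => ?_
        rw [Finset.mul_sum]
        refine Finset.sum_congr rfl fun l _ => ?_
        rw [Finset.mul_sum]
        exact Finset.sum_congr rfl fun r _ => by ring
    _ = ∑ l, ∑ r, ∑ i, ∑ j, (c i * W l i r) * (conj (c' j) * conj (W l j r)) := by
        have e1 : ∀ i, ∑ j, ∑ l, ∑ r, (c i * W l i r) * (conj (c' j) * conj (W l j r)) =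
            ∑ l, ∑ r, ∑ j, (c i * W l i r) * (conj (c' j) * conj (W l j r)) := by
          intro i
          rw [Finset.sum_comm]
          exact Finset.sum_congr rfl fun l _ => Finset.sum_comm
        rw [Finset.sum_congr rfl fun i _ => e1 i, Finset.sum_comm]
        exact Finset.sum_congr rfl fun l _ => Finset.sum_comm
    _ = _ := by
        refine Finset.sum_congr rfl fun l _ => Finset.sum_congr rfl fun r _ => ?_
        rw [map_sum, Finset.sum_mul_sum]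
        refine Finset.sum_congr rfl fun i _ => Finset.sum_congr rfl fun j _ => ?_
        rw [map_mul]

section

variable {Z K : Type*} [CommGroup Z] [TopologicalSpace Z] [IsTopologicalGroup Z]
  [CompactSpace Z] [T2Space Z] [SecondCountableTopology Z] [MeasurableSpace Z] [BorelSpace Z]
  [Group K] [TopologicalSpace K] [IsTopologicalGroup K] [CompactSpace K] [T2Space K]
  [SecondCountableTopology K] [MeasurableSpace K] [BorelSpace K]

private theorem IQ6_bm {d : ℕ} {π : K → Matrix (Fin d) (Fin d) ℂ} (hπ : Rep π) (w₀ : Fin d → ℂ)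
    (A : Z → Fin d → ℂ) (hA : BMR A) : BM fun z : Z × K => A z.1 ⬝ᵥ (π z.2 *ᵥ w₀) := by
  simp only [dotProduct, Matrix.mulVec]
  exact BM.sum _ fun i _ => ((hA i).comp measurable_fst).mul
    (BM.sum _ fun j _ => ((hπ.bmm i j).comp measurable_snd).mul (BM.const _))

/-- Proof. Let `x, x'` be bounded `GG`-measurable versions of `ρ[a ∘ snd|GG]`, `ρ[b ∘ snd|GG]`
(`exists_version`); `∫ a(z.1) conj b(z.2) dσ = ∫ x conj x' dρ` (`IsRel.int`, `condExp_conj` in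
`H22M/JB.lean`). Let `δ > 0`; `y1_approx` for `x`: `n, G, D, C`. `ftd_rep`: `G(k) = D(k) G(1)`;
`exists_irr_decomp` for `D`: `β_l, W_l`. Let `c_i, c'_i` be bounded `G1`-measurable versions of the
conditional expectations of `x conj G_i(w.1.2)`, `x' conj G_i(w.1.2)` given `G1`. For `H` in `WB G1` and
`g` a function of `w.1` the product `H g` is `GG`-measurable, so
`∫ H x conj G_i = ∫ H a(w.2) conj G_i(w.1.2)` (*). `bessel` (`κ w = w.1.2`, `ℬ = G1`, `haar_fst`;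
`G1 ≤ WZ`): `‖∫ x conj x'‖ ≤ δ l2 x' + ‖∫ ∑ c_i conj c'_i‖`. Put `c^l = c ᵥ* W_l`,
`c'^l = c' ᵥ* W_l`: `∑_i c_i conj c'_i = ∑_l ∑_r c^l_r conj c'^l_r` (`∑ W_l W_lᴴ = 1`). With
`u_l = W_lᴴ G(1)`: `(β_l(k) u_l)_r = (W_lᴴ D(k) G(1))_r = ∑_i conj (W_l)_ir G_i(k)` (from
`D W_l = W_l β_l`, adjoints and unitarity: `W_lᴴ D(k) = β_l(k) W_lᴴ`), so by (*) `c^l_r` satisfies the
hypothesis `hcI` of `coeff_mul_zero` for `(β_l, u_l)`, also `c'^l_r`; all products are `0` a.e. Let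
`δ → 0`. -/
theorem ineq_zero (lam : Measure Z) [lam.IsHaarMeasure] [IsProbabilityMeasure lam]
    (muK : Measure K) [muK.IsHaarMeasure] [IsProbabilityMeasure muK] {α : Z} {φ : Z → K}
    (hB : Base lam muK α φ) (p q : ℕ) (hp : 1 ≤ p) (hq : 1 ≤ q)
    (ρ σ : Measure ((Z × K) × (Z × K))) (hρ : IsJoin (lam.prod muK) (skew α φ) p q ρ)
    (hσ : IsRel (skew α φ) p q ρ σ)
    {d d' : ℕ} {π : K → Matrix (Fin d) (Fin d) ℂ} {π' : K → Matrix (Fin d') (Fin d') ℂ}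
    (hπ : Rep π) (hπ' : Rep π') (hine : Ineq muK π π') (w₀ : Fin d → ℂ) (w₀' : Fin d' → ℂ)
    (A : Z → Fin d → ℂ) (hA : BMR A) (A' : Z → Fin d' → ℂ) (hA' : BMR A') :
    ∫ z, (A z.1.1 ⬝ᵥ (π z.1.2 *ᵥ w₀)) * conj (A' z.2.1 ⬝ᵥ (π' z.2.2 *ᵥ w₀')) ∂σ = 0 := by
  have := hρ.prob
  set R : Z × K → Z × K := skew α φ with hR
  have haB := IQ6_bm hπ w₀ A hA
  have hbB := IQ6_bm hπ' w₀' A' hA'
  have hle := GG_le R p q ρ
  have ha2 : BM fun w : (Z × K) × (Z × K) => A w.2.1 ⬝ᵥ (π w.2.2 *ᵥ w₀) :=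
    haB.comp measurable_snd
  have hb2 : BM fun w : (Z × K) × (Z × K) => A' w.2.1 ⬝ᵥ (π' w.2.2 *ᵥ w₀') :=
    hbB.comp measurable_snd
  obtain ⟨x, hx, hxe, hxI⟩ := IQ6_vers (GG R p q ρ) ρ hle _ ha2
  obtain ⟨x', hx', hxe', hxI'⟩ := IQ6_vers (GG R p q ρ) ρ hle _ hb2
  have hxB : BM x := hx.bm hle
  have hxB' : BM x' := hx'.bm hle
  -- the integral
  have hint : ∫ z, (A z.1.1 ⬝ᵥ (π z.1.2 *ᵥ w₀)) * conj (A' z.2.1 ⬝ᵥ (π' z.2.2 *ᵥ w₀')) ∂σ =
      ∫ w, x w * conj (x' w) ∂ρ := by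
    have h1 := hσ.int (fun z => A z.1 ⬝ᵥ (π z.2 *ᵥ w₀))
      (fun z => conj (A' z.1 ⬝ᵥ (π' z.2 *ᵥ w₀'))) haB hbB.conj
    rw [h1]
    have h2 := condExp_conj (GG R p q ρ) ρ hle
      (fun w : (Z × K) × (Z × K) => A' w.2.1 ⬝ᵥ (π' w.2.2 *ᵥ w₀')) hb2.integrable
    refine integral_congr_ae ?_
    filter_upwards [h2, hxe, hxe'] with w h3 h4 h5
    rw [h3, h4, h5]
  rw [hint]
  -- the estimate
  have key : ∀ δ : ℝ, 0 < δ → ‖∫ w, x w * conj (x' w) ∂ρ‖ ≤ δ * l2 ρ x' := by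
    intro δ hδ
    obtain ⟨n, G, D, C, hFTD, hCW, hl⟩ := y1_approx lam muK R p q ρ hρ x hx δ hδ
    obtain ⟨hDR, hG1⟩ := ftd_rep muK hFTD
    obtain ⟨ι, fι, e, β, W, hI, hW, hs, hc⟩ := exists_irr_decomp (fun k => Matrix.of (D k)) hDR
    have hGB : ∀ i, BM (G i) := by
      intro i
      obtain ⟨C0, hC0⟩ := isCompact_univ.exists_bound_of_continuousOn (hFTD.cont i).continuousOn
      exact ⟨(hFTD.cont i).measurable, C0, fun k => hC0 k (Set.mem_univ k)⟩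
    have hGκ : ∀ i, WB (GG R p q ρ) fun w : (Z × K) × (Z × K) => G i w.1.2 := by
      intro i
      obtain ⟨h1, C0, hC0⟩ := hGB i
      refine ⟨?_, C0, fun w => hC0 _⟩
      have h2 : Measurable fun y : Z × K => G i y.2 := h1.comp measurable_snd
      have h3 : Measurable[MeasurableSpace.comap (Prod.fst : (Z × K) × (Z × K) → Z × K)
          inferInstance] fun w : (Z × K) × (Z × K) => G i w.1.2 :=
        h2.comp (comap_measurable (Prod.fst : (Z × K) × (Z × K) → Z × K))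
      exact h3.mono le_sup_left le_rfl
    have hGκB : ∀ i, BM fun w : (Z × K) × (Z × K) => G i w.1.2 := fun i => (hGκ i).bm hle
    have hG1le := G1_le R p q ρ
    choose c hcW hce hcI using fun i => IQ6_vers (G1 R p q ρ) ρ
      hG1le (fun w => x w * conj (G i w.1.2)) (hxB.mul (hGκB i).conj)
    choose c' hcW' hce' hcI' using fun i => IQ6_vers (G1 R p q ρ) ρ
      hG1le (fun w => x' w * conj (G i w.1.2)) (hxB'.mul (hGκB i).conj)
    have hbes := bessel (G1 R p q ρ) muK ρ hG1le (fun w : (Z × K) × (Z × K) => w.1.2)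
      (measurable_snd.comp measurable_fst)
      (fun u H hu hH => haar_fst lam muK hB p q hp ρ hρ u hu H (IQ6_mono hH (G1_le_WZ R p q ρ)))
      G hGB hFTD.orth x x' hxB hxB' c c' hcW hcW' hcI hcI' C hCW δ hl
    have hzero : ∫ w, ∑ i, c i w * conj (c' i w) ∂ρ = 0 := by
      have hae : ∀ l r, ∀ᵐ w ∂ρ, (∑ i, c i w * W l i r) * conj (∑ i, c' i w * W l i r) = 0 := by
        intro l r
        set u : Fin (e l) → ℂ := (W l)ᴴ *ᵥ (fun i => G i 1) with hu
        have hcomm : ∀ k, β l k * (W l)ᴴ = (W l)ᴴ * Matrix.of (D k) := by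
          intro k
          have h1 := congrArg Matrix.conjTranspose (hc l k)
          rw [Matrix.conjTranspose_mul, Matrix.conjTranspose_mul] at h1
          have h2 : β l k * (W l)ᴴ * (Matrix.of (D k))ᴴ = (W l)ᴴ := by
            rw [Matrix.mul_assoc, h1, ← Matrix.mul_assoc, (hI l).unit k, Matrix.one_mul]
          calc β l k * (W l)ᴴ = β l k * (W l)ᴴ * ((Matrix.of (D k))ᴴ * Matrix.of (D k)) := by
                rw [hDR.unit' k, Matrix.mul_one]
            _ = (β l k * (W l)ᴴ * (Matrix.of (D k))ᴴ) * Matrix.of (D k) := by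
                simp only [Matrix.mul_assoc]
            _ = (W l)ᴴ * Matrix.of (D k) := by rw [h2]
        have hv : ∀ k, conj ((β l k *ᵥ u) r) = ∑ i, W l i r * conj (G i k) := by
          intro k
          have h1 : β l k *ᵥ u = (W l)ᴴ *ᵥ (fun i => G i k) := by
            rw [hu, Matrix.mulVec_mulVec, hcomm, ← Matrix.mulVec_mulVec, ← hG1 k]
          rw [h1]
          simp only [Matrix.mulVec, dotProduct, Matrix.conjTranspose_apply, map_sum, map_mul,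
            RCLike.star_def, Complex.conj_conj]
        have hWl : WB (G1 R p q ρ) fun w => ∑ i, c i w * W l i r :=
          @IQ6_lin _ (G1 R p q ρ) _ _ hcW _
        have hWl' : WB (G1 R p q ρ) fun w => ∑ i, c' i w * W l i r :=
          @IQ6_lin _ (G1 R p q ρ) _ _ hcW' _
        refine coeff_mul_zero lam muK hB p q hp hq ρ hρ hπ hπ' (hI l) hine w₀ w₀' u A hA A' hA' r
          _ _ hWl hWl' ?_ ?_
        · intro H hH
          exact IQ6_coef ρ hle (G1_le_GG R p q ρ) _ x ha2 hxI G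
            (fun w : (Z × K) × (Z × K) => w.1.2) hGκ c hcW hcI (W l)
            (fun k => β l k *ᵥ u) r hv H hH
        · intro H hH
          exact IQ6_coef ρ hle (G1_le_GG R p q ρ) _ x' hb2 hxI' G
            (fun w : (Z × K) × (Z × K) => w.1.2) hGκ c' hcW' hcI' (W l)
            (fun k => β l k *ᵥ u) r hv H hH
      refine integral_eq_zero_of_ae ?_
      have hall : ∀ᵐ w ∂ρ, ∀ l r,
          (∑ i, c i w * W l i r) * conj (∑ i, c' i w * W l i r) = 0 := by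
        rw [ae_all_iff]
        intro l
        rw [ae_all_iff]
        exact hae l
      filter_upwards [hall] with w hw
      rw [IQ6_basis W hs]
      simp only [Pi.zero_apply]
      exact Finset.sum_eq_zero fun l _ => Finset.sum_eq_zero fun r _ => hw l r
    rw [hzero, sub_zero] at hbes
    exact hbes
  have hn : ‖∫ w, x w * conj (x' w) ∂ρ‖ ≤ 0 := by
    refine le_of_forall_pos_le_add fun ε hε => ?_
    have h1 := l2_nonneg ρ x'
    have h2 := key (ε / (l2 ρ x' + 1)) (by positivity)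
    have h3 : ε / (l2 ρ x' + 1) * l2 ρ x' ≤ ε := by
      rw [div_mul_eq_mul_div, div_le_iff₀ (by positivity)]
      nlinarith
    linarith
  exact norm_le_zero_iff.1 hn

end

end Pool.Agent.Lib.H82OF
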