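import Pool.Agent.Lib.H82OF.Defs
import Pool.Agent.Lib.H22M.SQ

/-!
# Project H82OF, chunk JL1: disintegration over a factor
-/

open MeasureTheory Filter Topology Finset ProbabilityTheory
open scoped ENNReal ComplexConjugate Matrix

namespace Pool.Agent.Lib.H82OF

open Pool.Agent.Lib.H22M Pool.Agent.Lib.H82T Pool.Agent.Lib.H82OT

/-- The conditional expectation given a factor map, as a kernel. Proof. `κ = condDistrib id τ m`
(`Y` is nonempty since `m` is a probability measure); `compProd_map_condDistrib`: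
`(m.map τ) ⊗ₘ κ = m.map (fun y => (τ y, y))`, and `Measure.integral_compProd` for
`(x, y) ↦ h x * f y` (bounded and measurable). -/
theorem exists_cond_op {Y Y₁ : Type*} [MeasurableSpace Y] [StandardBorelSpace Y]
    [MeasurableSpace Y₁] (m : Measure Y) [IsProbabilityMeasure m] (m₁ : Measure Y₁)
    (τ : Y → Y₁) (hτ : MeasurePreserving τ m m₁) :
    ∃ κ : Kernel Y₁ Y, IsMarkovKernel κ ∧ ∀ (f : Y → ℂ) (h : Y₁ → ℂ), BM f → BM h →
      ∫ y, h (τ y) * f y ∂m = ∫ x, h x * ∫ y, f y ∂(κ x) ∂m₁ := by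
  have hne : Nonempty Y := by
    by_contra hc
    rw [not_nonempty_iff] at hc
    have h1 : m Set.univ = 1 := measure_univ
    rw [Set.univ_eq_empty_iff.2 hc, measure_empty] at h1
    exact zero_ne_one h1
  have hm₁ : IsProbabilityMeasure m₁ := by
    rw [← hτ.map_eq]
    exact Measure.isProbabilityMeasure_map hτ.measurable.aemeasurable
  refine ⟨condDistrib id τ m, inferInstance, fun f h hf hh => ?_⟩
  have hkey : m₁ ⊗ₘ condDistrib id τ m = m.map (fun y => (τ y, y)) := by
    have h1 : (m.map τ) ⊗ₘ condDistrib id τ m = m.map (fun y => (τ y, id y)) :=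
      compProd_map_condDistrib aemeasurable_id
    rw [hτ.map_eq] at h1
    exact h1
  have hF : BM (fun z : Y₁ × Y => h z.1 * f z.2) :=
    (hh.comp measurable_fst).mul (hf.comp measurable_snd)
  have h2 : ∫ z, h z.1 * f z.2 ∂(m₁ ⊗ₘ condDistrib id τ m) =
      ∫ x, ∫ y, h x * f y ∂(condDistrib id τ m x) ∂m₁ :=
    Measure.integral_compProd hF.integrable
  have h3 : ∫ z, h z.1 * f z.2 ∂(m.map (fun y => (τ y, y))) = ∫ y, h (τ y) * f y ∂m :=
    integral_map (hτ.measurable.prodMk measurable_id).aemeasurable hF.1.aestronglyMeasurable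
  rw [← h3, ← hkey, h2]
  refine integral_congr_ae (Filter.Eventually.of_forall fun x => ?_)
  exact integral_const_mul (h x) f

/-- The relatively independent extension. Proof. `ρ` = the second marginal of
`ρ₁ ⊗ₘ ((κ.comap Prod.fst measurable_fst) ×ₖ (κ.comap Prod.snd measurable_snd))`, i.e.
`ρ₁.bind (fun x => (κ x.1).prod (κ x.2))`; the proof of `exists_relSquare` in `H22M/SQ.lean` is the
model (`integral_prod_mul` for the product of the two measures). -/
theorem exists_lift_measure {Y Y₁ : Type*} [MeasurableSpace Y] [MeasurableSpace Y₁]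
    (κ : Kernel Y₁ Y) [IsMarkovKernel κ] (ρ₁ : Measure (Y₁ × Y₁)) [IsProbabilityMeasure ρ₁] :
    ∃ ρ : Measure (Y × Y), IsProbabilityMeasure ρ ∧ ∀ f g : Y → ℂ, BM f → BM g →
      ∫ z, f z.1 * g z.2 ∂ρ = ∫ x, (∫ y, f y ∂(κ x.1)) * (∫ y, g y ∂(κ x.2)) ∂ρ₁ := by
  let K1 : Kernel (Y₁ × Y₁) Y := κ.comap Prod.fst measurable_fst
  let K2 : Kernel (Y₁ × Y₁) Y := κ.comap Prod.snd measurable_snd
  have hK1 : IsMarkovKernel K1 := inferInstance
  have hK2 : IsMarkovKernel K2 := inferInstance
  let K : Kernel (Y₁ × Y₁) (Y × Y) := K1 ×ₖ K2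
  have hK : IsMarkovKernel K := inferInstance
  refine ⟨(ρ₁ ⊗ₘ K).map Prod.snd,
    Measure.isProbabilityMeasure_map measurable_snd.aemeasurable, fun f g hf hg => ?_⟩
  have hfg : BM (fun z : Y × Y => f z.1 * g z.2) :=
    (hf.comp measurable_fst).mul (hg.comp measurable_snd)
  rw [integral_map measurable_snd.aemeasurable hfg.1.aestronglyMeasurable,
    Measure.integral_compProd ((hfg.comp measurable_snd).integrable)]
  refine integral_congr_ae (Filter.Eventually.of_forall fun x => ?_)
  have h3 : K x = (κ x.1).prod (κ x.2) := by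
    show (K1 ×ₖ K2) x = _
    rw [Kernel.prod_apply]
    rfl
  show ∫ z, f z.1 * g z.2 ∂(K x) = _
  rw [h3, integral_prod_mul]

/-- Proof. `x ↦ ∫ f dκ x` is measurable (`StronglyMeasurable.integral_kernel` or
`Measurable.integral_kernel`-type lemma; used in `H22M/SQ.lean`) and bounded by the bound of `f`. -/
theorem bm_integral_kernel {Y Y₁ : Type*} [MeasurableSpace Y] [MeasurableSpace Y₁]
    (κ : Kernel Y₁ Y) [IsMarkovKernel κ] (f : Y → ℂ) (hf : BM f) :
    BM fun x => ∫ y, f y ∂(κ x) := by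
  obtain ⟨hfm, C, hC⟩ := hf
  refine ⟨(hfm.stronglyMeasurable.integral_kernel (κ := κ)).measurable, C, fun x => ?_⟩
  have h1 := norm_integral_le_of_norm_le_const (μ := κ x) (C := C)
    (Filter.Eventually.of_forall hC)
  simpa using h1

end Pool.Agent.Lib.H82OF
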