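import Pool.Agent.Lib.H82OF.JL1
import Pool.Agent.Lib.H82OT.KP5

/-!
# Project H82OF, chunk JL2: lifting of joinings
-/

open MeasureTheory Filter Topology Finset ProbabilityTheory
open scoped ENNReal ComplexConjugate Matrix

namespace Pool.Agent.Lib.H82OF

open Pool.Agent.Lib.H22M Pool.Agent.Lib.H82T Pool.Agent.Lib.H82OT

/-- `ae_eq_of_pair` without the standard Borel assumption. -/
private theorem jl2_aeq {Y : Type*} [MeasurableSpace Y] (m : Measure Y) [IsProbabilityMeasure m]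
    (f f' : Y → ℂ) (hf : BM f) (hf' : BM f')
    (h : ∀ g : Y → ℂ, BM g → ∫ y, g y * f y ∂m = ∫ y, g y * f' y ∂m) :
    ∀ᵐ y ∂m, f y = f' y := by
  have h1 := h (fun y => conj (f y - f' y)) (hf.sub hf').conj
  have h2 : ∫ y, ‖f y - f' y‖ ^ 2 ∂m = 0 := by
    have h3 : ∫ y, (conj (f y - f' y) * f y - conj (f y - f' y) * f' y) ∂m = 0 := by
      rw [integral_sub, h1, sub_self]
      · exact ((hf.sub hf').conj.mul hf).integrable
      · exact ((hf.sub hf').conj.mul hf').integrable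
    have h4 : ∫ y, ((‖f y - f' y‖ ^ 2 : ℝ) : ℂ) ∂m = 0 := by
      rw [← h3]
      refine integral_congr_ae (Eventually.of_forall fun y => ?_)
      dsimp only
      rw [← mul_sub, ← Complex.normSq_eq_norm_sq, ← Complex.normSq_eq_conj_mul_self]
    have h5 : ((∫ y, ‖f y - f' y‖ ^ 2 ∂m : ℝ) : ℂ) = ∫ y, ((‖f y - f' y‖ ^ 2 : ℝ) : ℂ) ∂m :=
      integral_ofReal.symm
    rw [h4] at h5
    exact_mod_cast h5
  have hint : Integrable (fun y => ‖f y - f' y‖ ^ 2) m := by
    obtain ⟨h3, D, hD⟩ := hf.sub hf'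
    refine Integrable.of_bound (h3.norm.pow_const 2).aestronglyMeasurable (D ^ 2)
      (Eventually.of_forall fun z => ?_)
    rw [Real.norm_of_nonneg (by positivity)]
    exact pow_le_pow_left₀ (norm_nonneg _) (hD z) 2
  rw [integral_eq_zero_iff_of_nonneg (fun y => by positivity) hint] at h2
  filter_upwards [h2] with y hy
  have h5 : ‖f y - f' y‖ ^ 2 = 0 := hy
  exact sub_eq_zero.1 (norm_eq_zero.1 (pow_eq_zero_iff (two_ne_zero)|>.1 h5))

/-- Two probability measures with the same integrals of bounded measurable functions are equal. -/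
private theorem jl2_ext {Y : Type*} [MeasurableSpace Y] (μ ν : Measure Y) [IsProbabilityMeasure μ]
    [IsProbabilityMeasure ν] (h : ∀ f : Y → ℂ, BM f → ∫ y, f y ∂μ = ∫ y, f y ∂ν) : μ = ν := by
  refine Measure.ext fun A hA => ?_
  have key : ∀ τ : Measure Y, IsProbabilityMeasure τ →
      ∫ z, A.indicator (fun _ => (1 : ℂ)) z ∂τ = ((τ A).toReal : ℂ) := by
    intro τ hτ
    rw [integral_indicator hA]
    simp [Measure.real]
  have h1 := h _ (sq_bm_indicator hA)
  rw [key μ inferInstance, key ν inferInstance] at h1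
  have h2 : (μ A).toReal = (ν A).toReal := by exact_mod_cast h1
  exact (ENNReal.toReal_eq_toReal_iff' (measure_ne_top _ _) (measure_ne_top _ _)).1 h2

/-- Change of variables for bounded measurable functions. -/
private theorem jl2_comp {A B : Type*} [MeasurableSpace A] [MeasurableSpace B] {μ : Measure A}
    {ν : Measure B} {T : A → B} (hT : MeasurePreserving T μ ν) (F : B → ℂ) (hF : BM F) :
    ∫ x, F (T x) ∂μ = ∫ y, F y ∂ν := by
  rw [← hT.map_eq, integral_map hT.measurable.aemeasurable hF.1.aestronglyMeasurable]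

/-- Joinings of powers of a factor lift. Proof. `κ` from `exists_cond_op`, `ρ` from
`exists_lift_measure`; write `E f x = ∫ f dκ x`, bounded and measurable (`bm_integral_kernel`). Two bounded
measurable functions on `Y₁` with the same integrals against all `h` in `BM` agree `m₁`-almost everywhere
(take `h = conj (a - b)`). So
(1) `E 1 = 1` (Markov kernel) and `E (F ∘ τ) = F` a.e. for `F` in `BM`;
(2) `E (f ∘ R) = (E f) ∘ R₁` a.e.: `∫ h E(f ∘ R) dm₁ = ∫ h(τ y) f(R y) dm = ∫ h(τ(R⁻¹ y)) f(y) dm =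
∫ (h ∘ R₁⁻¹)(τ y) f y dm = ∫ (h ∘ R₁⁻¹) E f dm₁ = ∫ h (E f) ∘ R₁ dm₁` (`R₁` preserves `m₁`, as a factor of
`R`); by induction `E (f ∘ R^[n]) = (E f) ∘ R₁^[n]` a.e.
Functions of one coordinate of `ρ₁` may be changed on `m₁`-null sets (marginals `m₁`). Hence
`∫ f(z.1) dρ = ∫ E f(x.1) dρ₁ = ∫ E f dm₁ = ∫ f dm`: the marginals are `m`;
`∫ f(R^[p] z.1) g(R^[q] z.2) dρ = ∫ E f(R₁^[p] x.1) E g(R₁^[q] x.2) dρ₁ = ∫ E f(x.1) E g(x.2) dρ₁ =
∫ f(z.1) g(z.2) dρ`: invariance; `∫ F(τ z.1) G(τ z.2) dρ = ∫ F(x.1) G(x.2) dρ₁`: the image of `ρ` is `ρ₁`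
(`prod_ext_of_BM` in `H22M/SQ.lean` in all three cases). -/
theorem exists_joining_lift {Y Y₁ : Type*} [MeasurableSpace Y] [StandardBorelSpace Y]
    [MeasurableSpace Y₁] {m : Measure Y} [IsProbabilityMeasure m] {m₁ : Measure Y₁}
    [IsProbabilityMeasure m₁] (R : Y ≃ᵐ Y) (hR : MeasurePreserving R m m) (R₁ : Y₁ ≃ᵐ Y₁)
    (τ : Y → Y₁) (hτ : MeasurePreserving τ m m₁) (hτR : ∀ᵐ y ∂m, τ (R y) = R₁ (τ y))
    {p q : ℕ} {ρ₁ : Measure (Y₁ × Y₁)} (hρ₁ : IsJoin m₁ R₁ p q ρ₁) :
    ∃ ρ : Measure (Y × Y), IsJoin m R p q ρ ∧ ρ.map (Prod.map τ τ) = ρ₁ := by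
  obtain ⟨κ, hκ, hE⟩ := exists_cond_op m m₁ τ hτ
  have hρp : IsProbabilityMeasure ρ₁ := hρ₁.prob
  obtain ⟨ρ, hρ, hint⟩ := exists_lift_measure κ ρ₁
  have hEB : ∀ f : Y → ℂ, BM f → BM fun x => ∫ y, f y ∂(κ x) := bm_integral_kernel κ
  -- `R₁` preserves `m₁`
  have hR₁ : MeasurePreserving R₁ m₁ m₁ := by
    refine ⟨R₁.measurable, ?_⟩
    calc m₁.map R₁ = (m.map τ).map R₁ := by rw [hτ.map_eq]
      _ = m.map (R₁ ∘ τ) := Measure.map_map R₁.measurable hτ.measurable
      _ = m.map (τ ∘ R) := (Measure.map_congr (by filter_upwards [hτR] with y hy; exact hy)).symm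
      _ = (m.map R).map τ := (Measure.map_map hτ.measurable R.measurable).symm
      _ = m₁ := by rw [hR.map_eq, hτ.map_eq]
  have hE1 : ∀ x, ∫ _, (1 : ℂ) ∂(κ x) = 1 := fun x => by simp
  have hEint : ∀ f : Y → ℂ, BM f → ∫ x, ∫ y, f y ∂(κ x) ∂m₁ = ∫ y, f y ∂m := by
    intro f hf
    have := hE f (fun _ => 1) hf (BM.const 1)
    simpa using this.symm
  -- `E (F ∘ τ) = F`
  have hEτ : ∀ F : Y₁ → ℂ, BM F → ∀ᵐ x ∂m₁, ∫ y, F (τ y) ∂(κ x) = F x := by
    intro F hF
    refine jl2_aeq m₁ _ _ (hEB _ (hF.comp hτ.measurable)) hF fun g hg => ?_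
    rw [← hE (fun y => F (τ y)) g (hF.comp hτ.measurable) hg]
    exact jl2_comp hτ (fun x => g x * F x) (hg.mul hF)
  -- `E (f ∘ R) = (E f) ∘ R₁`
  have hER : ∀ f : Y → ℂ, BM f → ∀ᵐ x ∂m₁, ∫ y, f (R y) ∂(κ x) = ∫ y, f y ∂(κ (R₁ x)) := by
    intro f hf
    have hfR : BM fun y => f (R y) := hf.comp R.measurable
    refine jl2_aeq m₁ _ _ (hEB _ hfR) ((hEB f hf).comp R₁.measurable) fun g hg => ?_
    have hg' : BM fun x => g (R₁.symm x) := hg.comp R₁.symm.measurable
    rw [← hE (fun y => f (R y)) g hfR hg]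
    calc ∫ y, g (τ y) * f (R y) ∂m
        = ∫ y, g (R₁.symm (τ (R y))) * f (R y) ∂m := by
          refine integral_congr_ae ?_
          filter_upwards [hτR] with y hy
          rw [hy, MeasurableEquiv.symm_apply_apply]
      _ = ∫ y, g (R₁.symm (τ y)) * f y ∂m :=
          jl2_comp hR (fun y => g (R₁.symm (τ y)) * f y) ((hg'.comp hτ.measurable).mul hf)
      _ = ∫ x, g (R₁.symm x) * ∫ y, f y ∂(κ x) ∂m₁ := hE f (fun x => g (R₁.symm x)) hf hg'
      _ = ∫ x, g (R₁.symm (R₁ x)) * ∫ y, f y ∂(κ (R₁ x)) ∂m₁ :=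
          (jl2_comp hR₁ (fun x => g (R₁.symm x) * ∫ y, f y ∂(κ x)) (hg'.mul (hEB f hf))).symm
      _ = ∫ x, g x * ∫ y, f y ∂(κ (R₁ x)) ∂m₁ := by
          simp_rw [MeasurableEquiv.symm_apply_apply]
  have hERn : ∀ (n : ℕ) (f : Y → ℂ), BM f →
      ∀ᵐ x ∂m₁, ∫ y, f (R^[n] y) ∂(κ x) = ∫ y, f y ∂(κ (R₁^[n] x)) := by
    intro n
    induction n with
    | zero => exact fun f _ => Eventually.of_forall fun x => rfl
    | succ n ih =>
      intro f hf
      have h1 := hER (fun y => f (R^[n] y)) (hf.comp (R.measurable.iterate n))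
      have h2 := hR₁.quasiMeasurePreserving.ae (ih f hf)
      filter_upwards [h1, h2] with x hx1 hx2
      rw [Function.iterate_succ] at *
      exact hx1.trans hx2
  -- facts about one coordinate
  have hfst : MeasurePreserving Prod.fst ρ₁ m₁ := ⟨measurable_fst, hρ₁.fst⟩
  have hsnd : MeasurePreserving Prod.snd ρ₁ m₁ := ⟨measurable_snd, hρ₁.snd⟩
  refine ⟨ρ, ⟨hρ, ?_, ?_, ?_⟩, ?_⟩
  · have : IsProbabilityMeasure (ρ.map Prod.fst) :=
      Measure.isProbabilityMeasure_map measurable_fst.aemeasurable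
    refine jl2_ext _ _ fun f hf => ?_
    rw [integral_map measurable_fst.aemeasurable hf.1.aestronglyMeasurable]
    have h1 := hint f (fun _ => 1) hf (BM.const 1)
    simp only [hE1, mul_one] at h1
    rw [h1, ← hEint f hf]
    exact jl2_comp hfst (fun x => ∫ y, f y ∂(κ x)) (hEB f hf)
  · have : IsProbabilityMeasure (ρ.map Prod.snd) :=
      Measure.isProbabilityMeasure_map measurable_snd.aemeasurable
    refine jl2_ext _ _ fun f hf => ?_
    rw [integral_map measurable_snd.aemeasurable hf.1.aestronglyMeasurable]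
    have h1 := hint (fun _ => 1) f (BM.const 1) hf
    simp only [hE1, one_mul] at h1
    rw [h1, ← hEint f hf]
    exact jl2_comp hsnd (fun x => ∫ y, f y ∂(κ x)) (hEB f hf)
  · have hmeas : Measurable (Prod.map (R^[p]) (R^[q])) :=
      (R.measurable.iterate p).prodMap (R.measurable.iterate q)
    refine ⟨hmeas, ?_⟩
    have : IsProbabilityMeasure (ρ.map (Prod.map (R^[p]) (R^[q]))) :=
      Measure.isProbabilityMeasure_map hmeas.aemeasurable
    refine prod_ext_of_BM _ _ fun f g hf hg => ?_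
    have hfg : BM (fun z : Y × Y => f z.1 * g z.2) :=
      (hf.comp measurable_fst).mul (hg.comp measurable_snd)
    rw [integral_map hmeas.aemeasurable hfg.1.aestronglyMeasurable, hint f g hf hg]
    have h1 := hint (fun y => f (R^[p] y)) (fun y => g (R^[q] y))
      (hf.comp (R.measurable.iterate p)) (hg.comp (R.measurable.iterate q))
    refine h1.trans ?_
    have h2 := hfst.quasiMeasurePreserving.ae (hERn p f hf)
    have h3 := hsnd.quasiMeasurePreserving.ae (hERn q g hg)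
    have hEfg : BM (fun x : Y₁ × Y₁ => (∫ y, f y ∂(κ x.1)) * ∫ y, g y ∂(κ x.2)) :=
      ((hEB f hf).comp measurable_fst).mul ((hEB g hg).comp measurable_snd)
    rw [← jl2_comp hρ₁.inv _ hEfg]
    refine integral_congr_ae ?_
    filter_upwards [h2, h3] with x hx2 hx3
    rw [hx2, hx3]
    rfl
  · have hmeas : Measurable (Prod.map τ τ) := hτ.measurable.prodMap hτ.measurable
    have : IsProbabilityMeasure (ρ.map (Prod.map τ τ)) :=
      Measure.isProbabilityMeasure_map hmeas.aemeasurable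
    refine prod_ext_of_BM _ _ fun F G hF hG => ?_
    have hFG : BM (fun z : Y₁ × Y₁ => F z.1 * G z.2) :=
      (hF.comp measurable_fst).mul (hG.comp measurable_snd)
    rw [integral_map hmeas.aemeasurable hFG.1.aestronglyMeasurable]
    have h1 := hint (fun y => F (τ y)) (fun y => G (τ y))
      (hF.comp hτ.measurable) (hG.comp hτ.measurable)
    refine h1.trans ?_
    have h2 := hfst.quasiMeasurePreserving.ae (hEτ F hF)
    have h3 := hsnd.quasiMeasurePreserving.ae (hEτ G hG)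
    refine integral_congr_ae ?_
    filter_upwards [h2, h3] with x hx2 hx3
    rw [hx2, hx3]

end Pool.Agent.Lib.H82OF
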