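import Pool.Agent.Lib.H82OF.Defs
import Pool.Agent.Lib.H22M.LQ

/-!
# Project H82OF, chunk LJ1: the functional with an invariant weight
-/

open MeasureTheory Filter Topology Finset ProbabilityTheory
open scoped ENNReal ComplexConjugate Matrix

namespace Pool.Agent.Lib.H82OF

open Pool.Agent.Lib.H22M Pool.Agent.Lib.H82T Pool.Agent.Lib.H82OT

/-- The unitary matrices of the twisted translation on `Z × Z` for two representations. -/
def W2 {Z K : Type*} {d e : ℕ} (φ : Z → K) (π : K → Matrix (Fin d) (Fin d) ℂ)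
    (π' : K → Matrix (Fin e) (Fin e) ℂ) (w : Z × Z) (k l : Fin d × Fin e) : ℂ :=
  π (φ w.1) k.1 l.1 * conj (π' (φ w.2) k.2 l.2)

/-- The integrand of the functional. -/
private noncomputable def lj1Phi {Z K : Type*} {d e : ℕ} (G : K → Fin d → ℂ) (G' : K → Fin e → ℂ)
    (c : Z × Z → EuclideanSpace ℂ (Fin d × Fin e)) (z : (Z × K) × (Z × K)) : ℂ :=
  ∑ k, c (z.1.1, z.2.1) k * (G z.1.2 k.1 * conj (G' z.2.2 k.2))

private theorem lj1_sum_sq {d e : ℕ} (u : Fin d → ℂ) (v : Fin e → ℂ) :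
    ∑ k : Fin d × Fin e, ‖u k.1 * conj (v k.2)‖ ^ 2 =
      (∑ i, ‖u i‖ ^ 2) * ∑ i, ‖v i‖ ^ 2 := by
  rw [Fintype.sum_prod_type, Finset.sum_mul_sum]
  refine Finset.sum_congr rfl fun i _ => Finset.sum_congr rfl fun j _ => ?_
  rw [norm_mul, RCLike.norm_conj, mul_pow]

private theorem lj1_unit {d : ℕ} {U : Matrix (Fin d) (Fin d) ℂ} (h : Uᴴ * U = 1) (w : Fin d → ℂ) :
    ∑ i, ‖(U *ᵥ w) i‖ ^ 2 = ∑ i, ‖w i‖ ^ 2 := by
  have key : ∀ v : Fin d → ℂ, ((∑ i, ‖v i‖ ^ 2 : ℝ) : ℂ) = star v ⬝ᵥ v := by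
    intro v
    rw [Complex.ofReal_sum, dotProduct]
    refine Finset.sum_congr rfl fun i _ => ?_
    rw [Pi.star_apply, Complex.star_def, mul_comm, Complex.mul_conj, Complex.normSq_eq_norm_sq]
  have h1 : star (U *ᵥ w) ⬝ᵥ (U *ᵥ w) = star w ⬝ᵥ w := by
    rw [Matrix.star_mulVec, ← Matrix.dotProduct_mulVec, Matrix.mulVec_mulVec, h,
      Matrix.one_mulVec]
  have h2 : ((∑ i, ‖(U *ᵥ w) i‖ ^ 2 : ℝ) : ℂ) = ((∑ i, ‖w i‖ ^ 2 : ℝ) : ℂ) := by
    rw [key, key, h1]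
  exact_mod_cast h2

private theorem lj1_bound {Z K : Type*} {d e : ℕ} (G : K → Fin d → ℂ) (G' : K → Fin e → ℂ)
    (c : Z × Z → EuclideanSpace ℂ (Fin d × Fin e)) (C : ℝ) (hC0 : 0 ≤ C)
    (hC : ∀ u v : K, (∑ i, ‖G u i‖ ^ 2) * (∑ i, ‖G' v i‖ ^ 2) ≤ C ^ 2)
    (z : (Z × K) × (Z × K)) : ‖lj1Phi G G' c z‖ ≤ C * ‖c (z.1.1, z.2.1)‖ := by
  unfold lj1Phi
  have h1 : ‖∑ k, c (z.1.1, z.2.1) k * (G z.1.2 k.1 * conj (G' z.2.2 k.2))‖ ≤
      ∑ k, ‖c (z.1.1, z.2.1) k‖ * ‖G z.1.2 k.1 * conj (G' z.2.2 k.2)‖ := by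
    refine (norm_sum_le _ _).trans (Finset.sum_le_sum fun k _ => ?_)
    rw [norm_mul]
  refine h1.trans ?_
  have h2 : ∑ k, ‖c (z.1.1, z.2.1) k‖ * ‖G z.1.2 k.1 * conj (G' z.2.2 k.2)‖ ≤
      Real.sqrt (∑ k, ‖c (z.1.1, z.2.1) k‖ ^ 2) *
        Real.sqrt (∑ k : Fin d × Fin e, ‖G z.1.2 k.1 * conj (G' z.2.2 k.2)‖ ^ 2) :=
    Real.sum_mul_le_sqrt_mul_sqrt _ _ _
  refine h2.trans ?_
  rw [← EuclideanSpace.norm_eq, lj1_sum_sq (G z.1.2) (G' z.2.2), mul_comm]
  refine mul_le_mul_of_nonneg_right ?_ (norm_nonneg _)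
  rw [Real.sqrt_le_left hC0]
  exact hC _ _

private theorem lj1_meas {Z K : Type*} [MeasurableSpace Z] [MeasurableSpace K] {d e : ℕ}
    (G : K → Fin d → ℂ) (G' : K → Fin e → ℂ) (hG : ∀ i, Measurable fun k => G k i)
    (hG' : ∀ i, Measurable fun k => G' k i)
    (c : Z × Z → EuclideanSpace ℂ (Fin d × Fin e)) (hc : Measurable c) :
    Measurable (lj1Phi G G' c) := by
  unfold lj1Phi
  refine Finset.measurable_sum _ fun k _ => ?_
  have h1 : Measurable fun z : (Z × K) × (Z × K) => (z.1.1, z.2.1) :=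
    (measurable_fst.comp measurable_fst).prodMk (measurable_fst.comp measurable_snd)
  have h2 : Measurable fun z : (Z × K) × (Z × K) => c (z.1.1, z.2.1) k := by
    have h3 : Measurable fun v : EuclideanSpace ℂ (Fin d × Fin e) => v k := by
      have h4 : Continuous fun v : EuclideanSpace ℂ (Fin d × Fin e) => v k := by fun_prop
      exact h4.measurable
    exact h3.comp (hc.comp h1)
  have h5 : Measurable fun z : (Z × K) × (Z × K) => G z.1.2 k.1 :=
    (hG k.1).comp (measurable_snd.comp measurable_fst)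
  have h6 : Measurable fun z : (Z × K) × (Z × K) => conj (G' z.2.2 k.2) :=
    Complex.continuous_conj.measurable.comp
      ((hG' k.2).comp (measurable_snd.comp measurable_snd))
  exact h2.mul (h5.mul h6)

private theorem lj1_step {Z K : Type*} [Mul Z] [Group K] (α : Z) (φ : Z → K) {d e : ℕ}
    {π : K → Matrix (Fin d) (Fin d) ℂ} {π' : K → Matrix (Fin e) (Fin e) ℂ}
    (hπ : ∀ g h, π (g * h) = π g * π h) (hπ' : ∀ g h, π' (g * h) = π' g * π' h)
    (w₀ : Fin d → ℂ) (w₀' : Fin e → ℂ)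
    (c c' : Z × Z → EuclideanSpace ℂ (Fin d × Fin e)) (z : (Z × K) × (Z × K))
    (h : ∀ l, c' (z.1.1, z.2.1) l =
      ∑ k, W2 φ π π' (z.1.1, z.2.1) k l * c (α * z.1.1, α * z.2.1) k) :
    lj1Phi (fun k => π k *ᵥ w₀) (fun k => π' k *ᵥ w₀') c' z =
      lj1Phi (fun k => π k *ᵥ w₀) (fun k => π' k *ᵥ w₀') c
        (Prod.map (skew (M := K) α φ) (skew (M := K) α φ) z) := by
  unfold lj1Phi
  simp only [h, Finset.sum_mul]
  rw [Finset.sum_comm]
  refine Finset.sum_congr rfl fun k _ => ?_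
  simp only [Prod.map_fst, Prod.map_snd, skew, W2, smul_eq_mul, hπ, hπ', ← Matrix.mulVec_mulVec]
  have e1 : (π (φ z.1.1) *ᵥ (π z.1.2 *ᵥ w₀)) k.1 =
      ∑ i, π (φ z.1.1) k.1 i * (π z.1.2 *ᵥ w₀) i := rfl
  have e2 : (π' (φ z.2.1) *ᵥ (π' z.2.2 *ᵥ w₀')) k.2 =
      ∑ i, π' (φ z.2.1) k.2 i * (π' z.2.2 *ᵥ w₀') i := rfl
  rw [e1, e2, map_sum]
  simp only [map_mul]
  rw [Fintype.sum_prod_type, Finset.sum_mul_sum, Finset.mul_sum]
  refine Finset.sum_congr rfl fun i _ => ?_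
  rw [Finset.mul_sum]
  refine Finset.sum_congr rfl fun j _ => ?_
  ring

section

variable {Z K : Type*} [CommGroup Z] [TopologicalSpace Z] [IsTopologicalGroup Z]
  [CompactSpace Z] [T2Space Z] [SecondCountableTopology Z] [MeasurableSpace Z] [BorelSpace Z]
  [Group K] [TopologicalSpace K] [IsTopologicalGroup K] [CompactSpace K] [T2Space K]
  [SecondCountableTopology K] [MeasurableSpace K] [BorelSpace K]

/-- Port of `exists_functional` (`H22M/LQ.lean`) with the weight `J` and with two representations: the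
functional `l c = ∫ J(z) ∑_k c(π z)_k (π(k₁) w₀)_k.1 conj ((π'(k₂) w₀')_k.2) dσ`. Bound:
`|∑_k c_k u_k.1 conj v_k.2| ≤ ‖c‖ |u| |v|`, `|π(k) w₀| = |w₀|`. Invariance: the integrand of `U c` is the
integrand of `c` composed with `R × R` except for `J`; after `q` steps use `J ∘ (R^[q] × R^[q]) = J` a.e.
and the invariance of `σ` under `R^[q] × R^[q]`. -/
theorem exists_functional_J (α : Z) (φ : Z → K) (hφ : Measurable φ) {d e : ℕ}
    {π : K → Matrix (Fin d) (Fin d) ℂ} {π' : K → Matrix (Fin e) (Fin e) ℂ} (hπ : Rep π)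
    (hπ' : Rep π') (w₀ : Fin d → ℂ) (w₀' : Fin e → ℂ)
    (σ : Measure ((Z × K) × (Z × K))) [IsProbabilityMeasure σ] (q : ℕ)
    (hinv : MeasurePreserving (Prod.map ((skew (M := K) α φ)^[q]) ((skew (M := K) α φ)^[q])) σ σ)
    (J : (Z × K) × (Z × K) → ℂ) (hJ : BM J) (hJ1 : ∀ z, ‖J z‖ ≤ 1)
    (hJS : ∀ᵐ z ∂σ, J (Prod.map ((skew (M := K) α φ)^[q]) ((skew (M := K) α φ)^[q]) z) = J z)
    (μ : Measure (Z × Z)) (hμ : prZ σ = μ)
    (hτ : MeasurePreserving (fun w : Z × Z => (α * w.1, α * w.2)) μ μ)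
    (U : Lp (EuclideanSpace ℂ (Fin d × Fin e)) 2 μ →ₗᵢ[ℂ]
      Lp (EuclideanSpace ℂ (Fin d × Fin e)) 2 μ)
    (hU : IsTwist μ (fun w : Z × Z => (α * w.1, α * w.2)) (W2 φ π π') U) (C : ℝ) (hC0 : 0 ≤ C)
    (hC : (∑ i, ‖w₀ i‖ ^ 2) * (∑ i, ‖w₀' i‖ ^ 2) ≤ C ^ 2) :
    ∃ l : Lp (EuclideanSpace ℂ (Fin d × Fin e)) 2 μ →L[ℂ] ℂ, ‖l‖ ≤ C ∧
      (∀ c, l ((⇑U)^[q] c) = l c) ∧
      ∀ c, l c = ∫ z, J z * ∑ k, c (z.1.1, z.2.1) k *
        ((π z.1.2 *ᵥ w₀) k.1 * conj ((π' z.2.2 *ᵥ w₀') k.2)) ∂σ := by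
  classical
  obtain ⟨G, hGd⟩ : ∃ G : K → Fin d → ℂ, G = fun k => π k *ᵥ w₀ := ⟨_, rfl⟩
  obtain ⟨G', hGd'⟩ : ∃ G' : K → Fin e → ℂ, G' = fun k => π' k *ᵥ w₀' := ⟨_, rfl⟩
  have hGm : ∀ i, Measurable fun k => G k i := by
    intro i
    rw [hGd]
    simp only [Matrix.mulVec, dotProduct]
    exact Finset.measurable_sum _ fun j _ => (hπ.cont i j).measurable.mul_const _
  have hGm' : ∀ i, Measurable fun k => G' k i := by
    intro i
    rw [hGd']
    simp only [Matrix.mulVec, dotProduct]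
    exact Finset.measurable_sum _ fun j _ => (hπ'.cont i j).measurable.mul_const _
  have hCC : ∀ u v : K, (∑ i, ‖G u i‖ ^ 2) * (∑ i, ‖G' v i‖ ^ 2) ≤ C ^ 2 := by
    intro u v
    rw [hGd, hGd']
    simp only
    rw [lj1_unit (hπ.unit' u), lj1_unit (hπ'.unit' v)]
    exact hC
  set πm : (Z × K) × (Z × K) → Z × Z := Prod.map (Prod.fst : Z × K → Z) (Prod.fst : Z × K → Z)
    with hπmdef
  have hπm : Measurable πm := measurable_fst.prodMap measurable_fst
  have hs : σ.map πm = μ := hμ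
  have hprob : IsProbabilityMeasure μ := by
    rw [← hs]
    exact Measure.isProbabilityMeasure_map hπm.aemeasurable
  have hpull : ∀ {P : Z × Z → Prop}, (∀ᵐ w ∂μ, P w) → ∀ᵐ z ∂σ, P (z.1.1, z.2.1) := by
    intro P hP
    rw [← hs] at hP
    exact ae_of_ae_map hπm.aemeasurable hP
  have hmeas : ∀ c : Lp (EuclideanSpace ℂ (Fin d × Fin e)) 2 μ,
      Measurable (lj1Phi G G' (⇑c)) :=
    fun c => lj1_meas G G' hGm hGm' _ (Lp.stronglyMeasurable c).measurable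
  have hint0 : ∀ c : Lp (EuclideanSpace ℂ (Fin d × Fin e)) 2 μ, Integrable (⇑c) μ :=
    fun c => (Lp.memLp c).integrable (by norm_num)
  have hint1 : ∀ c : Lp (EuclideanSpace ℂ (Fin d × Fin e)) 2 μ,
      Integrable (fun z : (Z × K) × (Z × K) => ‖c (z.1.1, z.2.1)‖) σ := by
    intro c
    have h1 : Integrable (fun w => ‖c w‖) (σ.map πm) := by
      rw [hs]
      exact (hint0 c).norm
    exact h1.comp_measurable hπm
  have hbd : ∀ (c : Z × Z → EuclideanSpace ℂ (Fin d × Fin e)) (z : (Z × K) × (Z × K)),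
      ‖J z * lj1Phi G G' c z‖ ≤ C * ‖c (z.1.1, z.2.1)‖ := by
    intro c z
    have h1 := lj1_bound G G' c C hC0 hCC z
    rw [norm_mul]
    calc ‖J z‖ * ‖lj1Phi G G' c z‖ ≤ 1 * ‖lj1Phi G G' c z‖ :=
          mul_le_mul_of_nonneg_right (hJ1 z) (norm_nonneg _)
      _ = ‖lj1Phi G G' c z‖ := one_mul _
      _ ≤ _ := h1
  have hint : ∀ c : Lp (EuclideanSpace ℂ (Fin d × Fin e)) 2 μ,
      Integrable (fun z => J z * lj1Phi G G' (⇑c) z) σ := by
    intro c
    exact ((hint1 c).const_mul C).mono' (hJ.1.mul (hmeas c)).aestronglyMeasurable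
      (Eventually.of_forall fun z => hbd (⇑c) z)
  have hnorm : ∀ c : Lp (EuclideanSpace ℂ (Fin d × Fin e)) 2 μ,
      ‖∫ z, J z * lj1Phi G G' (⇑c) z ∂σ‖ ≤ C * ‖c‖ := by
    intro c
    have h1 : ‖∫ z, J z * lj1Phi G G' (⇑c) z ∂σ‖ ≤
        ∫ z : (Z × K) × (Z × K), C * ‖c (z.1.1, z.2.1)‖ ∂σ := by
      exact norm_integral_le_of_norm_le ((hint1 c).const_mul C)
        (Eventually.of_forall fun z => hbd (⇑c) z)
    refine h1.trans ?_
    rw [integral_const_mul]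
    refine mul_le_mul_of_nonneg_left ?_ hC0
    have h2' : ∀ f : Z × Z → ℝ, AEStronglyMeasurable f μ →
        ∫ z : (Z × K) × (Z × K), f (z.1.1, z.2.1) ∂σ = ∫ w, f w ∂μ := by
      intro f hf
      rw [← hs] at hf ⊢
      exact (integral_map hπm.aemeasurable hf).symm
    have h2 : ∫ z : (Z × K) × (Z × K), ‖c (z.1.1, z.2.1)‖ ∂σ = ∫ w, ‖c w‖ ∂μ :=
      h2' (fun w => ‖c w‖) (Lp.stronglyMeasurable c).norm.aestronglyMeasurable
    rw [h2, Lp.norm_def, integral_norm_eq_lintegral_enorm (Lp.aestronglyMeasurable c),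
      ← eLpNorm_one_eq_lintegral_enorm]
    refine ENNReal.toReal_mono (Lp.eLpNorm_ne_top c) ?_
    exact eLpNorm_le_eLpNorm_of_exponent_le (by norm_num) (Lp.aestronglyMeasurable c)
  let l0 : Lp (EuclideanSpace ℂ (Fin d × Fin e)) 2 μ →ₗ[ℂ] ℂ :=
    { toFun := fun c => ∫ z, J z * lj1Phi G G' (⇑c) z ∂σ
      map_add' := by
        intro c c'
        rw [← integral_add (hint c) (hint c')]
        refine integral_congr_ae ?_
        filter_upwards [hpull (Lp.coeFn_add c c')] with z hz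
        rw [← mul_add]
        congr 1
        unfold lj1Phi
        rw [← Finset.sum_add_distrib]
        refine Finset.sum_congr rfl fun k _ => ?_
        rw [hz, Pi.add_apply, PiLp.add_apply]
        ring
      map_smul' := by
        intro a c
        rw [RingHom.id_apply, smul_eq_mul, ← integral_const_mul]
        refine integral_congr_ae ?_
        filter_upwards [hpull (Lp.coeFn_smul a c)] with z hz
        unfold lj1Phi
        rw [Finset.mul_sum, Finset.mul_sum, Finset.mul_sum]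
        refine Finset.sum_congr rfl fun k _ => ?_
        rw [hz, Pi.smul_apply, PiLp.smul_apply, smul_eq_mul]
        ring }
  have key : ∀ (j : ℕ) (c : Lp (EuclideanSpace ℂ (Fin d × Fin e)) 2 μ), ∀ᵐ w ∂μ,
      ∀ z : (Z × K) × (Z × K), πm z = w → lj1Phi G G' (⇑((⇑U)^[j] c)) z =
        lj1Phi G G' (⇑c) ((Prod.map (skew (M := K) α φ) (skew (M := K) α φ))^[j] z) := by
    intro j
    induction j with
    | zero => exact fun c => Eventually.of_forall fun w z _ => rfl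
    | succ j ih =>
      intro c
      have h1 := hU ((⇑U)^[j] c)
      have h2 := hτ.quasiMeasurePreserving.ae (ih c)
      filter_upwards [h1, h2] with w h3 h4 z hz
      rw [Function.iterate_succ_apply', Function.iterate_succ_apply]
      have h5 : πm (Prod.map (skew (M := K) α φ) (skew (M := K) α φ) z) =
          (α * w.1, α * w.2) := by
        rw [← hz]
        rfl
      rw [← h4 _ h5, hGd, hGd']
      apply lj1_step α φ hπ.mul hπ'.mul
      intro l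
      have h6 := h3 l
      rw [← hz] at h6
      exact h6
  have hl : ∀ c, l0.mkContinuous C hnorm c = ∫ z, J z * lj1Phi G G' (⇑c) z ∂σ := fun c => rfl
  refine ⟨l0.mkContinuous C hnorm, l0.mkContinuous_norm_le hC0 hnorm, fun c => ?_, fun c => ?_⟩
  · rw [hl, hl]
    have h1 : ∫ z, J z * lj1Phi G G' (⇑((⇑U)^[q] c)) z ∂σ =
        ∫ z, (fun z => J z * lj1Phi G G' (⇑c) z)
          (Prod.map ((skew (M := K) α φ)^[q]) ((skew (M := K) α φ)^[q]) z) ∂σ := by
      refine integral_congr_ae ?_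
      filter_upwards [hpull (key q c), hJS] with z hz hz'
      rw [hz z rfl, Prod.map_iterate, hz']
    rw [h1]
    have h2 : ∀ F : (Z × K) × (Z × K) → ℂ, Measurable F →
        ∫ z, F (Prod.map ((skew (M := K) α φ)^[q]) ((skew (M := K) α φ)^[q]) z) ∂σ =
          ∫ z, F z ∂σ := by
      intro F hF
      conv_rhs => rw [← hinv.map_eq]
      rw [integral_map hinv.measurable.aemeasurable hF.aestronglyMeasurable]
    exact h2 _ (hJ.1.mul (hmeas c))
  · rw [hl]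
    simp only [lj1Phi, hGd, hGd']

end

end Pool.Agent.Lib.H82OF
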