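import Pool.Agent.Lib.H82OF.LJ1
import Pool.Agent.Lib.H22M.VN
import Pool.Agent.Lib.H82OT.EV3

/-!
# Project H82OF, chunk LJ2: the vector and its averages
-/

open MeasureTheory Filter Topology Finset ProbabilityTheory
open scoped ENNReal ComplexConjugate Matrix

namespace Pool.Agent.Lib.H82OF

open Pool.Agent.Lib.H22M Pool.Agent.Lib.H82T Pool.Agent.Lib.H82OT

/-- the initial vector -/
noncomputable def lj2V {Z : Type*} {d e : ℕ} (A : Z → Fin d → ℂ) (A' : Z → Fin e → ℂ) (w : Z × Z) :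
    EuclideanSpace ℂ (Fin d × Fin e) :=
  WithLp.toLp 2 fun k => A w.1 k.1 * conj (A' w.2 k.2)

private theorem lj2V_apply {Z : Type*} {d e : ℕ} (A : Z → Fin d → ℂ) (A' : Z → Fin e → ℂ) (w : Z × Z)
    (k : Fin d × Fin e) : lj2V A A' w k = A w.1 k.1 * conj (A' w.2 k.2) := rfl

private theorem lj2V_norm {Z : Type*} {d e : ℕ} (A : Z → Fin d → ℂ) (A' : Z → Fin e → ℂ) (C : ℝ)
    (hC0 : 0 ≤ C) (hC : ∀ z z', (∑ i, ‖A z i‖ ^ 2) * (∑ i, ‖A' z' i‖ ^ 2) ≤ C ^ 2) (w : Z × Z) :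
    ‖lj2V A A' w‖ ≤ C := by
  rw [EuclideanSpace.norm_eq]
  have h1 : ∑ k, ‖lj2V A A' w k‖ ^ 2 ≤ C ^ 2 := by
    have h2 : ∀ k : Fin d × Fin e, ‖lj2V A A' w k‖ ^ 2 = ‖A w.1 k.1‖ ^ 2 * ‖A' w.2 k.2‖ ^ 2 := by
      intro k
      rw [lj2V_apply, norm_mul, RCLike.norm_conj, mul_pow]
    rw [Finset.sum_congr rfl fun k _ => h2 k, Fintype.sum_prod_type]
    refine le_trans (le_of_eq ?_) (hC w.1 w.2)
    rw [Finset.sum_mul_sum]
  calc Real.sqrt (∑ k, ‖lj2V A A' w k‖ ^ 2) ≤ Real.sqrt (C ^ 2) := Real.sqrt_le_sqrt h1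
    _ = C := Real.sqrt_sq hC0

private theorem lj2V_meas {Z : Type*} [MeasurableSpace Z] {d e : ℕ} (A : Z → Fin d → ℂ)
    (A' : Z → Fin e → ℂ) (hA : BMR A) (hA' : BMR A') (μ : Measure (Z × Z)) :
    AEStronglyMeasurable (lj2V A A') μ := by
  have h3 : ∀ l : Fin d × Fin e, Measurable fun w : Z × Z => A w.1 l.1 * conj (A' w.2 l.2) :=
    fun l => ((hA l.1).1.comp measurable_fst).mul
      (Complex.continuous_conj.measurable.comp ((hA' l.2).1.comp measurable_snd))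
  have h4 : lj2V A A' = fun w => ∑ l : Fin d × Fin e, (A w.1 l.1 * conj (A' w.2 l.2)) •
      EuclideanSpace.single l (1 : ℂ) := by
    funext w
    ext l
    rw [lj2V_apply]
    simp [WithLp.ofLp_sum, Finset.sum_apply, Pi.single_apply]
  rw [h4]
  exact Finset.aestronglyMeasurable_fun_sum _ fun l _ => (h3 l).aestronglyMeasurable.smul_const _

private theorem lj2_iter {Z K : Type*} [CommGroup Z] [MeasurableSpace Z] (α : Z) (φ : Z → K)
    {d e : ℕ} {π : K → Matrix (Fin d) (Fin d) ℂ} {π' : K → Matrix (Fin e) (Fin e) ℂ}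
    (μ : Measure (Z × Z)) [IsProbabilityMeasure μ]
    (hτ : MeasurePreserving (fun w : Z × Z => (α * w.1, α * w.2)) μ μ)
    (U : Lp (EuclideanSpace ℂ (Fin d × Fin e)) 2 μ →ₗᵢ[ℂ]
      Lp (EuclideanSpace ℂ (Fin d × Fin e)) 2 μ)
    (hU : IsTwist μ (fun w : Z × Z => (α * w.1, α * w.2)) (W2 φ π π') U)
    (A : Z → Fin d → ℂ) (A' : Z → Fin e → ℂ)
    (v : Lp (EuclideanSpace ℂ (Fin d × Fin e)) 2 μ)
    (hv : ∀ᵐ w ∂μ, ∀ k, v w k = A w.1 k.1 * conj (A' w.2 k.2)) (n : ℕ) :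
    ∀ᵐ w ∂μ, ∀ k, ((⇑U)^[n] v) w k =
      ((evr (fun z => α * z) (fun z => π (φ z)))^[n] A) w.1 k.1 *
        conj (((evr (fun z => α * z) (fun z => π' (φ z)))^[n] A') w.2 k.2) := by
  induction n with
  | zero => exact hv
  | succ n ih =>
    have h1 := hτ.quasiMeasurePreserving.ae ih
    filter_upwards [hU ((⇑U)^[n] v), h1] with w h2 h3
    intro l
    rw [Function.iterate_succ_apply', Function.iterate_succ_apply', Function.iterate_succ_apply',
      h2 l]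
    generalize (evr (fun z => α * z) (fun z => π (φ z)))^[n] A = c at h3
    generalize (evr (fun z => α * z) (fun z => π' (φ z)))^[n] A' = c' at h3
    have h4 : ∀ k : Fin d × Fin e, W2 φ π π' w k l * ((⇑U)^[n] v) (α * w.1, α * w.2) k =
        (c (α * w.1) k.1 * π (φ w.1) k.1 l.1) *
          conj (c' (α * w.2) k.2 * π' (φ w.2) k.2 l.2) := by
      intro k
      rw [h3 k]
      unfold W2
      rw [map_mul]
      ring
    rw [Finset.sum_congr rfl fun k _ => h4 k, Fintype.sum_prod_type]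
    have h5 : evr (fun z => α * z) (fun z => π (φ z)) c w.1 l.1 =
        ∑ k, c (α * w.1) k * π (φ w.1) k l.1 := rfl
    have h6 : evr (fun z => α * z) (fun z => π' (φ z)) c' w.2 l.2 =
        ∑ k, c' (α * w.2) k * π' (φ w.2) k l.2 := rfl
    rw [h5, h6, map_sum, Finset.sum_mul_sum]

section

variable {Z K : Type*} [CommGroup Z] [TopologicalSpace Z] [IsTopologicalGroup Z]
  [CompactSpace Z] [T2Space Z] [SecondCountableTopology Z] [MeasurableSpace Z] [BorelSpace Z]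
  [Group K] [TopologicalSpace K] [IsTopologicalGroup K] [CompactSpace K] [T2Space K]
  [SecondCountableTopology K] [MeasurableSpace K] [BorelSpace K]

/-- Port of `exists_vector` (`H22M/VN.lean`) with two representations; `aa` and `evr` are from
`H82OT/Defs.lean`: `evr (α * ·) (π ∘ φ) A z = A(α z) ᵥ* π(φ z)` and
`aa … A n j z = (evr^[n] A) z ⬝ᵥ star ((evr^[j] A) z)`. `U^[n] v` is the class of
`w ↦ ((evr^[n] A)(w.1)_k.1 conj ((evr^[n] A')(w.2)_k.2))_k`. -/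
theorem exists_vector2 (α : Z) (φ : Z → K) (hφ : Measurable φ) {d e : ℕ}
    {π : K → Matrix (Fin d) (Fin d) ℂ} {π' : K → Matrix (Fin e) (Fin e) ℂ} (hπ : Rep π)
    (hπ' : Rep π') (μ : Measure (Z × Z)) [IsProbabilityMeasure μ]
    (hτ : MeasurePreserving (fun w : Z × Z => (α * w.1, α * w.2)) μ μ)
    (U : Lp (EuclideanSpace ℂ (Fin d × Fin e)) 2 μ →ₗᵢ[ℂ]
      Lp (EuclideanSpace ℂ (Fin d × Fin e)) 2 μ)
    (hU : IsTwist μ (fun w : Z × Z => (α * w.1, α * w.2)) (W2 φ π π') U)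
    (A : Z → Fin d → ℂ) (A' : Z → Fin e → ℂ) (hA : BMR A) (hA' : BMR A') (C : ℝ)
    (hC0 : 0 ≤ C) (hC : ∀ z z', (∑ i, ‖A z i‖ ^ 2) * (∑ i, ‖A' z' i‖ ^ 2) ≤ C ^ 2) :
    ∃ v : Lp (EuclideanSpace ℂ (Fin d × Fin e)) 2 μ,
      (∀ᵐ w ∂μ, ∀ k, v w k = A w.1 k.1 * conj (A' w.2 k.2)) ∧ ‖v‖ ≤ C ∧
      ∀ N : ℕ, ‖∑ n ∈ range N, (⇑U)^[n] v‖ ^ 2 ≤ ∑ n ∈ range N, ∑ j ∈ range N,
        ‖∫ w, aa (fun z => α * z) (fun z => π (φ z)) A n j w.1 *
          conj (aa (fun z => α * z) (fun z => π' (φ z)) A' n j w.2) ∂μ‖ := by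
  have hmem : MemLp (lj2V A A') 2 μ :=
    MemLp.of_bound (lj2V_meas A A' hA hA' μ) C (Eventually.of_forall (lj2V_norm A A' C hC0 hC))
  set v : Lp (EuclideanSpace ℂ (Fin d × Fin e)) 2 μ := hmem.toLp _ with hv
  have hve : ∀ᵐ w ∂μ, v w = lj2V A A' w := hmem.coeFn_toLp
  have hvk : ∀ᵐ w ∂μ, ∀ k, v w k = A w.1 k.1 * conj (A' w.2 k.2) := by
    filter_upwards [hve] with w hw
    intro k
    rw [hw]
    rfl
  refine ⟨v, hvk, ?_, ?_⟩
  · have h1 := Lp.norm_le_of_ae_bound (f := v) (C := C) hC0 (by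
      filter_upwards [hve] with w hw
      rw [hw]
      exact lj2V_norm A A' C hC0 hC w)
    simpa [measureUnivNNReal] using h1
  · intro N
    have hin : ∀ n j : ℕ, inner ℂ ((⇑U)^[j] v) ((⇑U)^[n] v) =
        ∫ w, aa (fun z => α * z) (fun z => π (φ z)) A n j w.1 *
          conj (aa (fun z => α * z) (fun z => π' (φ z)) A' n j w.2) ∂μ := by
      intro n j
      rw [L2.inner_def]
      apply integral_congr_ae
      filter_upwards [lj2_iter α φ μ hτ U hU A A' v hvk n, lj2_iter α φ μ hτ U hU A A' v hvk j]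
        with w h1 h2
      rw [PiLp.inner_apply]
      simp only [RCLike.inner_apply, h1, h2]
      unfold aa dotProduct
      generalize (evr (fun z => α * z) (fun z => π (φ z)))^[n] A = c
      generalize (evr (fun z => α * z) (fun z => π (φ z)))^[j] A = c2
      generalize (evr (fun z => α * z) (fun z => π' (φ z)))^[n] A' = c'
      generalize (evr (fun z => α * z) (fun z => π' (φ z)))^[j] A' = c2'
      rw [Fintype.sum_prod_type, map_sum, Finset.sum_mul_sum]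
      refine Finset.sum_congr rfl fun k1 _ => Finset.sum_congr rfl fun k2 _ => ?_
      simp only [map_mul, Complex.conj_conj, Pi.star_apply]
      have e1 : star (c2 w.1 k1) = conj (c2 w.1 k1) := rfl
      have e2 : conj (star (c2' w.2 k2)) = c2' w.2 k2 := star_star _
      rw [e1, e2]
      ring
    have h1 : ‖∑ n ∈ range N, (⇑U)^[n] v‖ ^ 2 =
        ‖(inner ℂ (∑ j ∈ range N, (⇑U)^[j] v) (∑ n ∈ range N, (⇑U)^[n] v) : ℂ)‖ := by
      rw [inner_self_eq_norm_sq_to_K, norm_pow]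
      simp
    rw [h1, sum_inner]
    simp_rw [inner_sum, hin]
    rw [Finset.sum_comm]
    exact (norm_sum_le _ _).trans (Finset.sum_le_sum fun i _ => norm_sum_le _ _)

/-- The unitarity of `W2`, for `exists_twist` (`H22M/TW.lean`). -/
theorem W2_unit {d e : ℕ} (φ : Z → K) {π : K → Matrix (Fin d) (Fin d) ℂ}
    {π' : K → Matrix (Fin e) (Fin e) ℂ} (hπ : Rep π) (hπ' : Rep π') (w : Z × Z)
    (k k' : Fin d × Fin e) :
    ∑ l, W2 φ π π' w k l * conj (W2 φ π π' w k' l) = if k = k' then 1 else 0 := by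
  have h1 : ∀ l : Fin d × Fin e, W2 φ π π' w k l * conj (W2 φ π π' w k' l) =
      (π (φ w.1) k.1 l.1 * conj (π (φ w.1) k'.1 l.1)) *
        conj (π' (φ w.2) k.2 l.2 * conj (π' (φ w.2) k'.2 l.2)) := by
    intro l
    unfold W2
    simp only [map_mul, Complex.conj_conj]
    ring
  have h2 : ∀ (m : ℕ) (M : Matrix (Fin m) (Fin m) ℂ), M * Mᴴ = 1 → ∀ i j : Fin m,
      ∑ l, M i l * conj (M j l) = if i = j then 1 else 0 := by
    intro m M hM i j
    have h3 : (M * Mᴴ) i j = (1 : Matrix (Fin m) (Fin m) ℂ) i j := by rw [hM]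
    rw [Matrix.mul_apply, Matrix.one_apply] at h3
    exact h3
  have h6 : ∀ (f : Fin d → ℂ) (g : Fin e → ℂ),
      ∑ l : Fin d × Fin e, f l.1 * g l.2 = (∑ i, f i) * ∑ j, g j := by
    intro f g
    rw [Fintype.sum_prod_type, Finset.sum_mul_sum]
  have h7 : ∑ l, W2 φ π π' w k l * conj (W2 φ π π' w k' l) =
      (∑ i, π (φ w.1) k.1 i * conj (π (φ w.1) k'.1 i)) *
        ∑ j, conj (π' (φ w.2) k.2 j * conj (π' (φ w.2) k'.2 j)) := by
    rw [Finset.sum_congr rfl fun l _ => h1 l]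
    exact h6 (fun i => π (φ w.1) k.1 i * conj (π (φ w.1) k'.1 i))
      (fun j => conj (π' (φ w.2) k.2 j * conj (π' (φ w.2) k'.2 j)))
  have h8 : ∑ j, conj (π' (φ w.2) k.2 j * conj (π' (φ w.2) k'.2 j)) =
      conj (∑ j, π' (φ w.2) k.2 j * conj (π' (φ w.2) k'.2 j)) := (map_sum _ _ _).symm
  rw [h7, h8, h2 d _ (hπ.unit (φ w.1)) k.1 k'.1, h2 e _ (hπ'.unit (φ w.2)) k.2 k'.2]
  by_cases h3 : k.1 = k'.1
  · by_cases h4 : k.2 = k'.2
    · have h5 : k = k' := Prod.ext h3 h4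
      rw [if_pos h3, if_pos h4, if_pos h5, map_one, one_mul]
    · have h5 : k ≠ k' := fun h => h4 (congrArg Prod.snd h)
      rw [if_neg h4, if_neg h5, map_zero, mul_zero]
  · have h5 : k ≠ k' := fun h => h3 (congrArg Prod.fst h)
    rw [if_neg h3, if_neg h5, zero_mul]

end

end Pool.Agent.Lib.H82OF
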