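import Pool.Agent.Lib.H82OF.LJ3A
import Pool.Agent.Lib.H82OT.WN1

/-!
# Project H82OF, chunk LJ3: small correlations
-/

open MeasureTheory Filter Topology Finset ProbabilityTheory
open scoped ENNReal ComplexConjugate Matrix

namespace Pool.Agent.Lib.H82OF

open Pool.Agent.Lib.H22M Pool.Agent.Lib.H82T Pool.Agent.Lib.H82OT

private theorem LJ3_row {Y : Type*} [MeasurableSpace Y] {d : ℕ} {F : Y → Fin d → ℂ}
    (hF : BMR F) : RowB (inferInstance : MeasurableSpace Y) F := by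
  classical
  choose hm C hC using hF
  refine ⟨hm, ∑ i, |C i|, fun y i => (hC i y).trans ((le_abs_self _).trans ?_)⟩
  exact Finset.single_le_sum (f := fun i => |C i|) (fun _ _ => abs_nonneg _) (Finset.mem_univ i)

private theorem LJ3_sq {Y : Type*} [MeasurableSpace Y] {d : ℕ} {F : Y → Fin d → ℂ}
    (hF : BMR F) : ∃ T : ℝ, 0 ≤ T ∧ ∀ y, ∑ i, ‖F y i‖ ^ 2 ≤ T ^ 2 := by
  obtain ⟨-, C', hC'⟩ := LJ3_row hF
  refine ⟨Real.sqrt (d * C' ^ 2), Real.sqrt_nonneg _, fun y => ?_⟩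
  rw [Real.sq_sqrt (by positivity)]
  calc ∑ i, ‖F y i‖ ^ 2 ≤ ∑ _i : Fin d, C' ^ 2 :=
        Finset.sum_le_sum fun i _ => pow_le_pow_left₀ (norm_nonneg _) (hC' y i) 2
    _ = d * C' ^ 2 := by
        rw [Finset.sum_const, Finset.card_univ, Fintype.card_fin, nsmul_eq_mul]

section

variable {Z K : Type*} [CommGroup Z] [TopologicalSpace Z] [IsTopologicalGroup Z]
  [CompactSpace Z] [T2Space Z] [SecondCountableTopology Z] [MeasurableSpace Z] [BorelSpace Z]
  [Group K] [TopologicalSpace K] [IsTopologicalGroup K] [CompactSpace K] [T2Space K]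
  [SecondCountableTopology K] [MeasurableSpace K] [BorelSpace K]

private theorem LJ3_comap (α : Z) :
    MeasurableSpace.comap (fun z : Z => α * z) (inferInstance : MeasurableSpace Z) =
      (inferInstance : MeasurableSpace Z) :=
  (MeasurableEquiv.mulLeft α).measurableEmbedding.comap_eq

private theorem LJ3_aa {φ : Z → K} (hφ : Measurable φ) (α : Z) {d : ℕ}
    {π : K → Matrix (Fin d) (Fin d) ℂ} (hπ : Rep π) {A : Z → Fin d → ℂ} (hA : BMR A) {T : ℝ}
    (hT0 : 0 ≤ T) (hT : ∀ z, ∑ i, ‖A z i‖ ^ 2 ≤ T ^ 2) (n j : ℕ) :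
    Measurable (aa (fun z => α * z) (fun z => π (φ z)) A n j) ∧
      ∀ z, ‖aa (fun z => α * z) (fun z => π (φ z)) A n j z‖ ≤ T ^ 2 := by
  refine ⟨?_, fun z => ?_⟩
  · exact aa_meas (inferInstance : MeasurableSpace Z) _ (LJ3_comap α) _
      (fun i k => (hπ.cont i k).measurable.comp hφ) (fun z => hπ.unit _) A (LJ3_row hA) n j
  · exact aa_bound _ _ (fun z => hπ.unit _) A T hT0 hT n j z

private theorem LJ3_kills {Y : Type*} [MeasurableSpace Y] {m : Measure Y} {R : Y → Y}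
    {F F' : Finset ℂ} (h : F ⊆ F') {ν : Measure (Y × Y)} (hν : Kills m R F' ν) : Kills m R F ν :=
  fun c hc => hν c (h hc)

/-- Proof. Let `a n j = aa … A n j`, `a' n j = conj ∘ aa … A' n j`: bounded measurable functions on `Z`
(`aa_bound`, `aa_meas` in `H82OT/EV3.lean` or directly), `‖a' n j‖ ≤ T`. Take `N` from `exists_small_corr`
(`H82OT/WN1.lean`) for `f`; by `aa_integral` (`w₀ ≠ 0`, so the factor is positive; `d ≥ 1`) the sum of the
`‖∫ a n j dlam‖` is at most `η N² / (2 (T + 1))` for a suitable choice. The function `y ↦ a n j y.1` is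
`Small` (`small_kron`, `base_kronAlg`): finite sets `F_nj` for `g y = a' n j y.1` and `η / 2`;
`F0` = the union. For a self-coupling `σ` killing `F0`:
`∫ a n j w.1 * a' n j w.2 d(prZ σ) = ∫ a n j z.1.1 * a' n j z.2.1 dσ` is within `η / 2` of
`∫ a n j dlam ∫ a' n j dlam`. -/
theorem exists_small_aa (lam : Measure Z) [lam.IsHaarMeasure] [IsProbabilityMeasure lam]
    (muK : Measure K) [muK.IsHaarMeasure] [IsProbabilityMeasure muK] {α : Z} {φ : Z → K}
    (hB : Base lam muK α φ) {d e : ℕ} {π : K → Matrix (Fin d) (Fin d) ℂ} (hπ : Irr π)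
    {π' : K → Matrix (Fin e) (Fin e) ℂ} (hπ' : Rep π')
    (w₀ : Fin d → ℂ) (hw₀ : w₀ ≠ 0) (A : Z → Fin d → ℂ) (hA : BMR A) (A' : Z → Fin e → ℂ)
    (hA' : BMR A') (f : Z × K → ℂ)
    (hf : ∀ y, f y = A y.1 ⬝ᵥ (π y.2 *ᵥ w₀))
    (ho : ∀ (e : Z × K → ℂ) (l : ℂ), BM e →
      (∀ᵐ y ∂(lam.prod muK), e (skew α φ y) = l * e y) →
      ∫ y, f y * conj (e y) ∂(lam.prod muK) = 0) (η : ℝ) (hη : 0 < η) :
    ∃ F0 : Finset ℂ, (1 : ℂ) ∉ F0 ∧ ∃ N : ℕ, 1 ≤ N ∧ ∀ σ : Measure ((Z × K) × (Z × K)),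
      IsSelf (lam.prod muK) (skew α φ) σ → Kills (lam.prod muK) (skew α φ) F0 σ →
        ∑ n ∈ range N, ∑ j ∈ range N,
          ‖∫ w, aa (fun z => α * z) (fun z => π (φ z)) A n j w.1 *
            conj (aa (fun z => α * z) (fun z => π' (φ z)) A' n j w.2) ∂(prZ σ)‖ ≤
          η * (N : ℝ) ^ 2 := by
  classical
  obtain ⟨T, hT0, hT⟩ := LJ3_sq hA
  obtain ⟨T', hT'0, hT'⟩ := LJ3_sq hA'
  set a : ℕ → ℕ → Z → ℂ := fun n j => aa (fun z => α * z) (fun z => π (φ z)) A n j with ha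
  set a' : ℕ → ℕ → Z → ℂ := fun n j => aa (fun z => α * z) (fun z => π' (φ z)) A' n j with ha'
  have haM : ∀ n j, Measurable (a n j) := fun n j =>
    (LJ3_aa hB.meas α hπ.toRep hA hT0 hT n j).1
  have haB : ∀ n j z, ‖a n j z‖ ≤ T ^ 2 := fun n j =>
    (LJ3_aa hB.meas α hπ.toRep hA hT0 hT n j).2
  have ha'M : ∀ n j, Measurable (a' n j) := fun n j =>
    (LJ3_aa hB.meas α hπ' hA' hT'0 hT' n j).1
  have ha'B : ∀ n j z, ‖a' n j z‖ ≤ T' ^ 2 := fun n j =>
    (LJ3_aa hB.meas α hπ' hA' hT'0 hT' n j).2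
  have haBM : ∀ n j, BM (a n j) := fun n j => ⟨haM n j, _, haB n j⟩
  have ha'BM : ∀ n j, BM (a' n j) := fun n j => ⟨ha'M n j, _, ha'B n j⟩
  -- `f` is bounded and measurable
  have hfBM : BM f := by
    have h1 : f = fun y => ∑ i, A y.1 i * ∑ k, π y.2 i k * w₀ k := by
      funext y
      rw [hf y]
      rfl
    rw [h1]
    refine BM.sum _ fun i _ => ((hA i).comp measurable_fst).mul ?_
    refine BM.sum _ fun k _ => ?_
    exact ((hπ.toRep.bmm i k).comp measurable_snd).mul (BM.const (w₀ k))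
  -- the factor
  have hd : 0 < d := by
    rcases Nat.eq_zero_or_pos d with h | h
    · subst h
      exact absurd (funext fun i => i.elim0) hw₀
    · exact h
  set S : ℝ := ∑ i, ‖w₀ i‖ ^ 2 with hS
  have hS0 : 0 < S := by
    obtain ⟨i, hi⟩ := Function.ne_iff.1 hw₀
    refine Finset.sum_pos' (fun _ _ => by positivity) ⟨i, Finset.mem_univ i, ?_⟩
    have : 0 < ‖w₀ i‖ := norm_pos_iff.2 hi
    positivity
  have hdR : (0 : ℝ) < d := by exact_mod_cast hd
  have hT1 : (0 : ℝ) < T' ^ 2 + 1 := by positivity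
  obtain ⟨N, hN1, hN⟩ := exists_small_corr hB.erg f hfBM ho (S / d * (η / (2 * (T' ^ 2 + 1))))
    (by positivity)
  have hint : ∀ n j, ‖∫ y, f ((skew α φ)^[n] y) * conj (f ((skew α φ)^[j] y)) ∂(lam.prod muK)‖ =
      S / d * ‖∫ z, a n j z ∂lam‖ := by
    intro n j
    rw [aa_integral lam muK hB hπ w₀ A hA f hf n j, norm_mul, norm_div, ← hS, Complex.norm_real,
      Complex.norm_natCast, Real.norm_of_nonneg hS0.le]
  have hsum : ∑ n ∈ range N, ∑ j ∈ range N, ‖∫ z, a n j z ∂lam‖ ≤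
      η / (2 * (T' ^ 2 + 1)) * (N : ℝ) ^ 2 := by
    have h1 : S / d * ∑ n ∈ range N, ∑ j ∈ range N, ‖∫ z, a n j z ∂lam‖ ≤
        S / d * (η / (2 * (T' ^ 2 + 1)) * (N : ℝ) ^ 2) := by
      rw [Finset.mul_sum]
      simp_rw [Finset.mul_sum, ← hint]
      refine hN.trans (le_of_eq ?_)
      ring
    exact le_of_mul_le_mul_left h1 (by positivity)
  -- smallness
  have hsmall : ∀ n j, Small (lam.prod muK) (skew (M := K) α φ) fun y => a n j y.1 := by
    intro n j
    refine small_kron hB.erg (base_kronAlg lam muK hB) _ ?_ ⟨_, fun y => haB n j y.1⟩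
    exact (haM n j).comp (comap_measurable (Prod.fst : Z × K → Z))
  have hg : ∀ n j, BM fun y : Z × K => conj (a' n j y.1) := fun n j =>
    ((ha'BM n j).comp measurable_fst).conj
  choose F hF1 hF using fun n j => hsmall n j _ (hg n j) (η / 2) (by positivity)
  refine ⟨(range N).biUnion fun n => (range N).biUnion fun j => F n j, ?_, N, hN1, ?_⟩
  · intro h
    simp only [Finset.mem_biUnion] at h
    obtain ⟨n, -, j, -, h⟩ := h
    exact hF1 n j h
  intro σ hσ hk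
  have hσp := hσ.prob
  have hterm : ∀ n ∈ range N, ∀ j ∈ range N,
      ‖∫ w, a n j w.1 * conj (a' n j w.2) ∂(prZ σ)‖ ≤
        η / 2 + T' ^ 2 * ‖∫ z, a n j z ∂lam‖ := by
    intro n hn j hj
    have hsub : F n j ⊆ (range N).biUnion fun n => (range N).biUnion fun j => F n j := by
      intro c hc
      simp only [Finset.mem_biUnion]
      exact ⟨n, hn, j, hj, hc⟩
    have h1 := hF n j σ hσ (LJ3_kills hsub hk)
    have h2 : ∫ w, a n j w.1 * conj (a' n j w.2) ∂(prZ σ) =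
        ∫ z, a n j z.1.1 * conj (a' n j z.2.1) ∂σ := by
      unfold prZ
      rw [integral_map]
      · rfl
      · exact (measurable_fst.prodMap measurable_fst).aemeasurable
      · exact (((haBM n j).comp measurable_fst).mul
          ((ha'BM n j).comp measurable_snd).conj).1.aestronglyMeasurable
    have h3 : ∫ y : Z × K, a n j y.1 ∂(lam.prod muK) = ∫ z, a n j z ∂lam := by
      rw [integral_prod _ ((haBM n j).comp measurable_fst).integrable]
      simp
    have h4 : ‖∫ y : Z × K, conj (a' n j y.1) ∂(lam.prod muK)‖ ≤ T' ^ 2 := by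
      refine (norm_integral_le_of_norm_le_const (C := T' ^ 2)
        (Eventually.of_forall fun y => ?_)).trans ?_
      · rw [RCLike.norm_conj]
        exact ha'B n j y.1
      · simp
    rw [h2]
    rw [h3] at h1
    have h5 : ∫ z, a n j z.1.1 * conj (a' n j z.2.1) ∂σ =
        (∫ z, a n j z.1.1 * conj (a' n j z.2.1) ∂σ - (∫ z, a n j z ∂lam) *
          ∫ y : Z × K, conj (a' n j y.1) ∂(lam.prod muK)) + (∫ z, a n j z ∂lam) *
          ∫ y : Z × K, conj (a' n j y.1) ∂(lam.prod muK) := by ring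
    rw [h5]
    refine (norm_add_le _ _).trans (add_le_add h1 ?_)
    rw [norm_mul, mul_comm]
    exact mul_le_mul_of_nonneg_right h4 (norm_nonneg _)
  calc ∑ n ∈ range N, ∑ j ∈ range N, ‖∫ w, a n j w.1 * conj (a' n j w.2) ∂(prZ σ)‖
      ≤ ∑ n ∈ range N, ∑ j ∈ range N, (η / 2 + T' ^ 2 * ‖∫ z, a n j z ∂lam‖) :=
        Finset.sum_le_sum fun n hn => Finset.sum_le_sum fun j hj => hterm n hn j hj
    _ = N ^ 2 * (η / 2) + T' ^ 2 * ∑ n ∈ range N, ∑ j ∈ range N, ‖∫ z, a n j z ∂lam‖ := by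
        simp only [Finset.sum_add_distrib, Finset.sum_const, Finset.card_range, nsmul_eq_mul,
          ← Finset.mul_sum]
        ring
    _ ≤ N ^ 2 * (η / 2) + T' ^ 2 * (η / (2 * (T' ^ 2 + 1)) * (N : ℝ) ^ 2) := by
        gcongr
    _ ≤ η * (N : ℝ) ^ 2 := by
        have h6 : T' ^ 2 * (η / (2 * (T' ^ 2 + 1))) ≤ η / 2 := by
          have h7 : η / (2 * (T' ^ 2 + 1)) = η / 2 / (T' ^ 2 + 1) := by
            rw [div_div]
          rw [h7, mul_div_assoc', div_le_iff₀ hT1]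
          nlinarith
        have h8 : (0 : ℝ) ≤ (N : ℝ) ^ 2 := by positivity
        nlinarith

end

end Pool.Agent.Lib.H82OF
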