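import Pool.Agent.Lib.H82OF.EE
import Pool.Agent.Lib.H82OF.IQ6
import Pool.Agent.Lib.H82OF.IA
import Pool.Agent.Lib.H82OF.SA

/-!
# Project H82OF, chunk SI: THE RELATIVE SQUARE IS INVARIANT UNDER R × R
-/

open MeasureTheory Filter Topology Finset ProbabilityTheory
open scoped ENNReal ComplexConjugate Matrix

namespace Pool.Agent.Lib.H82OF

open Pool.Agent.Lib.H22M Pool.Agent.Lib.H82T Pool.Agent.Lib.H82OT

private theorem SI_bound {Ω Y : Type*} [MeasurableSpace Ω] [MeasurableSpace Y] (m : Measure Y)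
    (σ : Measure Ω) [IsProbabilityMeasure σ] {a b : Ω → Y} (ha : Measurable a)
    (hb : Measurable b) (ham : σ.map a = m) (hbm : σ.map b = m) {u v : Y → ℂ} (hu : BM u)
    (hv : BM v) : ‖∫ z, u (a z) * conj (v (b z)) ∂σ‖ ≤ l2 m u * l2 m v := by
  have h1 := norm_integral_mul_conj_le (m := σ) (hu.comp ha) (hv.comp hb)
  have h2 : l2 σ (fun z => u (a z)) = l2 m u := by
    rw [← ham]
    exact (l2_map ha hu.1).symm
  have h3 : l2 σ (fun z => v (b z)) = l2 m v := by
    rw [← hbm]
    exact (l2_map hb hv.1).symm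
  rw [h2, h3] at h1
  exact h1

private theorem SI_approx {Ω Y : Type*} [MeasurableSpace Ω] [MeasurableSpace Y] (m : Measure Y)
    (σ : Measure Ω) [IsProbabilityMeasure σ] {a b : Ω → Y} (ha : Measurable a)
    (hb : Measurable b) (ham : σ.map a = m) (hbm : σ.map b = m) {f F g G : Y → ℂ}
    (hf : BM f) (hF : BM F) (hg : BM g) (hG : BM G) :
    ‖(∫ z, f (a z) * conj (g (b z)) ∂σ) - ∫ z, F (a z) * conj (G (b z)) ∂σ‖ ≤
      l2 m (fun y => f y - F y) * l2 m g + l2 m F * l2 m (fun y => g y - G y) := by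
  have i1 : Integrable (fun z => f (a z) * conj (g (b z))) σ :=
    ((hf.comp ha).mul (hg.comp hb).conj).integrable
  have i2 : Integrable (fun z => F (a z) * conj (G (b z))) σ :=
    ((hF.comp ha).mul (hG.comp hb).conj).integrable
  have i3 : Integrable (fun z => (f (a z) - F (a z)) * conj (g (b z))) σ :=
    (((hf.comp ha).sub (hF.comp ha)).mul (hg.comp hb).conj).integrable
  have i4 : Integrable (fun z => F (a z) * conj (g (b z) - G (b z))) σ :=
    ((hF.comp ha).mul ((hg.comp hb).sub (hG.comp hb)).conj).integrable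
  have h1 : (∫ z, f (a z) * conj (g (b z)) ∂σ) - ∫ z, F (a z) * conj (G (b z)) ∂σ =
      (∫ z, (f (a z) - F (a z)) * conj (g (b z)) ∂σ) +
        ∫ z, F (a z) * conj (g (b z) - G (b z)) ∂σ := by
    rw [← integral_sub i1 i2, ← integral_add i3 i4]
    refine integral_congr_ae (Eventually.of_forall fun z => ?_)
    simp only [map_sub]
    ring
  rw [h1]
  refine (norm_add_le _ _).trans (add_le_add ?_ ?_)
  · exact SI_bound m σ ha hb ham hbm (hf.sub hF) hg
  · exact SI_bound m σ ha hb ham hbm hF (hg.sub hG)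

private theorem SI_l2_le {Y : Type*} [MeasurableSpace Y] (m : Measure Y) [IsFiniteMeasure m]
    {f F : Y → ℂ} (hf : BM f) (hF : BM F) :
    l2 m F ≤ l2 m f + l2 m (fun y => f y - F y) := by
  have h1 := Pool.Agent.Lib.H22M.l2_add_le (m := m) hf ((BM.const (-1)).mul (hf.sub hF))
  have h2 : (fun y => f y + -1 * (f y - F y)) = F := by
    funext y
    ring
  have h3 : l2 m (fun y => -1 * (f y - F y)) = l2 m (fun y => f y - F y) := by
    rw [l2_smul]
    simp
  rw [h2, h3] at h1
  exact h1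

section

variable {Z K : Type*} [CommGroup Z] [TopologicalSpace Z] [IsTopologicalGroup Z]
  [CompactSpace Z] [T2Space Z] [SecondCountableTopology Z] [MeasurableSpace Z] [BorelSpace Z]
  [Group K] [TopologicalSpace K] [IsTopologicalGroup K] [CompactSpace K] [T2Space K]
  [SecondCountableTopology K] [MeasurableSpace K] [BorelSpace K]

/-- Proof. `schur_diff`. Inequivalent case: both sides vanish by `ineq_zero` (`f (R y) =
(evr (α * ·) (π ∘ φ) A)(y.1) · π(y.2) w₀`). Equivalent case: `π g U = U π' g`, so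
`A'(z) · π'(k) w₀' = A'(z) · Uᴴ U π'(k) w₀' = (A'(z) ᵥ* Uᴴ) · π(k) (U w₀')`: `same_invariant`. -/
theorem irrF_invariant (lam : Measure Z) [lam.IsHaarMeasure] [IsProbabilityMeasure lam]
    (muK : Measure K) [muK.IsHaarMeasure] [IsProbabilityMeasure muK] {α : Z} {φ : Z → K}
    (hB : Base lam muK α φ) (p q : ℕ) (hp : p.Prime) (hq : q.Prime) (hpq : q ≠ p)
    (ρ σ : Measure ((Z × K) × (Z × K))) (hρ : IsJoin (lam.prod muK) (skew α φ) p q ρ)
    (hσ : IsRel (skew α φ) p q ρ σ) (hσ' : RelSq (lam.prod muK) (skew α φ) p q ρ σ)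
    (f f' : Z × K → ℂ) (hf : IrrF f) (hf' : IrrF f') :
    ∫ z, f (skew α φ z.1) * conj (f' (skew α φ z.2)) ∂σ = ∫ z, f z.1 * conj (f' z.2) ∂σ := by
  obtain ⟨d, π, w, A, hπ, hA, hfe⟩ := hf
  obtain ⟨d', π', w', A', hπ', hA', hfe'⟩ := hf'
  rcases schur_diff muK hπ hπ' with hI | ⟨U, hU1, hU2, hU⟩
  · have hev : ∀ {e : ℕ} (ϖ : K → Matrix (Fin e) (Fin e) ℂ) (_ : Irr ϖ) (v : Fin e → ℂ)
        (B : Z → Fin e → ℂ) (_ : BMR B), BMR (evr (α * ·) (fun z => ϖ (φ z)) B) := by
      intro e ϖ hϖ v B hB' i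
      show BM fun z => ∑ j, B (α * z) j * ϖ (φ z) j i
      exact BM.sum _ fun j _ => ((hB' j).comp (measurable_const_mul α)).mul
        ((hϖ.toRep.bmm j i).comp hB.meas)
    have hsk : ∀ {e : ℕ} (ϖ : K → Matrix (Fin e) (Fin e) ℂ) (_ : Irr ϖ) (v : Fin e → ℂ)
        (B : Z → Fin e → ℂ) (y : Z × K),
        B (skew (M := K) α φ y).1 ⬝ᵥ (ϖ (skew (M := K) α φ y).2 *ᵥ v) =
          evr (α * ·) (fun z => ϖ (φ z)) B y.1 ⬝ᵥ (ϖ y.2 *ᵥ v) := by
      intro e ϖ hϖ v B y
      show B (α * y.1) ⬝ᵥ (ϖ (φ y.1 * y.2) *ᵥ v) =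
        (B (α * y.1) ᵥ* ϖ (φ y.1)) ⬝ᵥ (ϖ y.2 *ᵥ v)
      rw [hϖ.toRep.mul, ← Matrix.mulVec_mulVec, Matrix.dotProduct_mulVec]
    have h1 : ∫ z, f z.1 * conj (f' z.2) ∂σ = 0 := by
      rw [← ineq_zero lam muK hB p q hp.one_le hq.one_le ρ σ hρ hσ hπ.toRep hπ'.toRep hI w w' A hA
        A' hA']
      refine integral_congr_ae (Eventually.of_forall fun z => ?_)
      simp only [hfe, hfe']
    have h2 : ∫ z, f (skew α φ z.1) * conj (f' (skew α φ z.2)) ∂σ = 0 := by
      rw [← ineq_zero lam muK hB p q hp.one_le hq.one_le ρ σ hρ hσ hπ.toRep hπ'.toRep hI w w'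
        (evr (α * ·) (fun z => π (φ z)) A) (hev π hπ w A hA)
        (evr (α * ·) (fun z => π' (φ z)) A') (hev π' hπ' w' A' hA')]
      refine integral_congr_ae (Eventually.of_forall fun z => ?_)
      simp only [hfe, hfe']
      rw [hsk π hπ w A z.1, hsk π' hπ' w' A' z.2]
    rw [h1, h2]
  · refine same_invariant lam muK hB p q hp hq hpq ρ σ hσ' hπ w (U *ᵥ w') A
      (fun z => A' z ᵥ* Uᴴ) hA ?_ f f' hfe ?_
    · intro i
      show BM fun z => ∑ j, A' z j * Uᴴ j i
      exact BM.sum _ fun j _ => (hA' j).mul (BM.const _)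
    · intro y
      rw [hfe', Matrix.mulVec_mulVec, hU, ← Matrix.mulVec_mulVec, ← Matrix.dotProduct_mulVec,
        Matrix.mulVec_mulVec, hU2, Matrix.one_mulVec]

/-- Proof. `RelSq` by `IsRel.relSq` (`R = skewE α φ hB.meas`, `ergodic_iterate`, `Base.root`). By
`prod_ext_of_BM` (`H22M/SQ.lean`) it suffices that `∫ f(R z.1) g(R z.2) dσ = ∫ f(z.1) g(z.2) dσ` for bounded
measurable `f, g`; `g = conj g'`. Approximate `f, g'` in `L²` by finite sums of functions `IrrF`
(`exists_irr_approx`), use `irrF_invariant` for the sums; the errors are controlled by Cauchy-Schwarz and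
the marginals of `σ` (`R` preserves `lam.prod muK`; `norm_integral_mul_le` in `H82OT/LT1.lean`,
`l2_map`). -/
theorem relSq_invariant_RR (lam : Measure Z) [lam.IsHaarMeasure] [IsProbabilityMeasure lam]
    (muK : Measure K) [muK.IsHaarMeasure] [IsProbabilityMeasure muK] {α : Z} {φ : Z → K}
    (hB : Base lam muK α φ) (p q : ℕ) (hp : p.Prime) (hq : q.Prime) (hpq : q ≠ p)
    (ρ σ : Measure ((Z × K) × (Z × K))) (hρ : IsJoin (lam.prod muK) (skew α φ) p q ρ)
    (hσ : IsRel (skew α φ) p q ρ σ) :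
    RelSq (lam.prod muK) (skew α φ) p q ρ σ ∧
      MeasurePreserving (Prod.map (skew (M := K) α φ) (skew (M := K) α φ)) σ σ := by
  have hσp := hσ.prob
  have hrs : RelSq (lam.prod muK) (skew α φ) p q ρ σ :=
    IsRel.relSq (skewE (M := K) α φ hB.meas) hB.erg
      (ergodic_iterate hB.erg hB.root p hp.one_le)
      ((Nat.coprime_primes hp hq).2 hpq.symm) hρ hσ
  refine ⟨hrs, ?_⟩
  have hRm : Measurable (skew (M := K) α φ) := hB.erg.measurable
  have hmm : Measurable (Prod.map (skew (M := K) α φ) (skew (M := K) α φ)) :=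
    (hRm.comp measurable_fst).prodMk (hRm.comp measurable_snd)
  refine ⟨hmm, ?_⟩
  have hpm : IsProbabilityMeasure
      (σ.map (Prod.map (skew (M := K) α φ) (skew (M := K) α φ))) :=
    Measure.isProbabilityMeasure_map hmm.aemeasurable
  -- the marginals
  have m1 : σ.map (Prod.fst : (Z × K) × (Z × K) → Z × K) = lam.prod muK := hrs.fst
  have m2 : σ.map (Prod.snd : (Z × K) × (Z × K) → Z × K) = lam.prod muK := hrs.snd
  have m3 : σ.map (fun z : (Z × K) × (Z × K) => skew (M := K) α φ z.1) = lam.prod muK := by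
    have h1 := Measure.map_map (μ := σ) hRm
      (measurable_fst : Measurable (Prod.fst : (Z × K) × (Z × K) → Z × K))
    rw [m1, hB.erg.toMeasurePreserving.map_eq] at h1
    exact h1.symm
  have m4 : σ.map (fun z : (Z × K) × (Z × K) => skew (M := K) α φ z.2) = lam.prod muK := by
    have h1 := Measure.map_map (μ := σ) hRm
      (measurable_snd : Measurable (Prod.snd : (Z × K) × (Z × K) → Z × K))
    rw [m2, hB.erg.toMeasurePreserving.map_eq] at h1
    exact h1.symm
  have key : ∀ f g : Z × K → ℂ, BM f → BM g →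
      ∫ z, f (skew (M := K) α φ z.1) * conj (g (skew (M := K) α φ z.2)) ∂σ =
        ∫ z, f z.1 * conj (g z.2) ∂σ := by
    intro f g hf hg
    have hest : ∀ δ : ℝ, 0 < δ → δ ≤ 1 →
        ‖(∫ z, f (skew (M := K) α φ z.1) * conj (g (skew (M := K) α φ z.2)) ∂σ) -
          ∫ z, f z.1 * conj (g z.2) ∂σ‖ ≤
        δ * (2 * (l2 (lam.prod muK) g + l2 (lam.prod muK) f + 1)) := by
      intro δ hδ hδ1
      obtain ⟨ι, _, F, hF, hFl⟩ := exists_irr_approx lam muK f hf δ hδ
      obtain ⟨ι', _, G, hG, hGl⟩ := exists_irr_approx lam muK g hg δ hδ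
      have hFB : BM fun y => ∑ i, F i y := BM.sum _ fun i _ => (hF i).bm
      have hGB : BM fun y => ∑ i, G i y := BM.sum _ fun i _ => (hG i).bm
      have e1 := SI_approx (lam.prod muK) σ (hRm.comp measurable_fst) (hRm.comp measurable_snd)
        m3 m4 hf hFB hg hGB
      have e2 := SI_approx (lam.prod muK) σ measurable_fst measurable_snd m1 m2 hf hFB hg hGB
      have e3 : ∫ z, (∑ i, F i (skew (M := K) α φ z.1)) *
          conj (∑ i, G i (skew (M := K) α φ z.2)) ∂σ =
          ∫ z, (∑ i, F i z.1) * conj (∑ i, G i z.2) ∂σ := by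
        have s1 : ∀ z : (Z × K) × (Z × K), (∑ i, F i (skew (M := K) α φ z.1)) *
            conj (∑ i, G i (skew (M := K) α φ z.2)) =
            ∑ i, ∑ j, F i (skew (M := K) α φ z.1) * conj (G j (skew (M := K) α φ z.2)) := by
          intro z
          rw [map_sum, Finset.sum_mul_sum]
        have s2 : ∀ z : (Z × K) × (Z × K), (∑ i, F i z.1) * conj (∑ i, G i z.2) =
            ∑ i, ∑ j, F i z.1 * conj (G j z.2) := by
          intro z
          rw [map_sum, Finset.sum_mul_sum]
        have i1 : ∀ i j, Integrable (fun z : (Z × K) × (Z × K) =>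
            F i (skew (M := K) α φ z.1) * conj (G j (skew (M := K) α φ z.2))) σ := fun i j =>
          (((hF i).bm.comp (hRm.comp measurable_fst)).mul
            ((hG j).bm.comp (hRm.comp measurable_snd)).conj).integrable
        have i2 : ∀ i j, Integrable (fun z : (Z × K) × (Z × K) =>
            F i z.1 * conj (G j z.2)) σ := fun i j =>
          (((hF i).bm.comp measurable_fst).mul ((hG j).bm.comp measurable_snd).conj).integrable
        rw [integral_congr_ae (Eventually.of_forall s1),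
          integral_congr_ae (Eventually.of_forall s2),
          integral_finsetSum _ fun i _ => integrable_finsetSum _ fun j _ => i1 i j,
          integral_finsetSum _ fun i _ => integrable_finsetSum _ fun j _ => i2 i j]
        refine Finset.sum_congr rfl fun i _ => ?_
        rw [integral_finsetSum _ fun j _ => i1 i j, integral_finsetSum _ fun j _ => i2 i j]
        exact Finset.sum_congr rfl fun j _ =>
          irrF_invariant lam muK hB p q hp hq hpq ρ σ hρ hσ hrs (F i) (G j) (hF i) (hG j)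
      have e4 := SI_l2_le (lam.prod muK) hf hFB
      have n1 := l2_nonneg (lam.prod muK) f
      have n2 := l2_nonneg (lam.prod muK) g
      have n3 := l2_nonneg (lam.prod muK) fun y => ∑ i, F i y
      have n4 := l2_nonneg (lam.prod muK) fun y => f y - ∑ i, F i y
      have n5 := l2_nonneg (lam.prod muK) fun y => g y - ∑ i, G i y
      have b1 : l2 (lam.prod muK) (fun y => f y - ∑ i, F i y) * l2 (lam.prod muK) g +
          l2 (lam.prod muK) (fun y => ∑ i, F i y) *
            l2 (lam.prod muK) (fun y => g y - ∑ i, G i y) ≤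
          δ * (l2 (lam.prod muK) g + l2 (lam.prod muK) f + 1) := by
        have c1 := mul_le_mul_of_nonneg_right hFl n2
        have c2 : l2 (lam.prod muK) (fun y => ∑ i, F i y) *
            l2 (lam.prod muK) (fun y => g y - ∑ i, G i y) ≤
            (l2 (lam.prod muK) f + 1) * δ :=
          mul_le_mul (by linarith) hGl n5 (by linarith)
        nlinarith
      have t1 := norm_sub_le_norm_sub_add_norm_sub
        (∫ z, f (skew (M := K) α φ z.1) * conj (g (skew (M := K) α φ z.2)) ∂σ)
        (∫ z, (∑ i, F i (skew (M := K) α φ z.1)) *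
          conj (∑ i, G i (skew (M := K) α φ z.2)) ∂σ) (∫ z, f z.1 * conj (g z.2) ∂σ)
      have t2 : ‖(∫ z, (∑ i, F i (skew (M := K) α φ z.1)) *
          conj (∑ i, G i (skew (M := K) α φ z.2)) ∂σ) - ∫ z, f z.1 * conj (g z.2) ∂σ‖ ≤
          δ * (l2 (lam.prod muK) g + l2 (lam.prod muK) f + 1) := by
        rw [e3, norm_sub_rev]
        exact e2.trans b1
      calc _ ≤ _ := t1
        _ ≤ δ * (l2 (lam.prod muK) g + l2 (lam.prod muK) f + 1) +
            δ * (l2 (lam.prod muK) g + l2 (lam.prod muK) f + 1) := add_le_add (e1.trans b1) t2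
        _ = _ := by ring
    have h0 : ‖(∫ z, f (skew (M := K) α φ z.1) * conj (g (skew (M := K) α φ z.2)) ∂σ) -
        ∫ z, f z.1 * conj (g z.2) ∂σ‖ ≤ 0 := by
      refine le_of_forall_pos_le_add fun ε hε => ?_
      have n1 := l2_nonneg (lam.prod muK) f
      have n2 := l2_nonneg (lam.prod muK) g
      obtain ⟨C, hC⟩ : ∃ C : ℝ, C = 2 * (l2 (lam.prod muK) g + l2 (lam.prod muK) f + 1) :=
        ⟨_, rfl⟩
      have hC0 : 0 < C := by rw [hC]; linarith
      have h1 := hest (min 1 (ε / C)) (lt_min one_pos (div_pos hε hC0)) (min_le_left _ _)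
      rw [← hC] at h1
      have h2 : min 1 (ε / C) * C ≤ ε := by
        calc min 1 (ε / C) * C ≤ ε / C * C := mul_le_mul_of_nonneg_right (min_le_right _ _) hC0.le
          _ = ε := div_mul_cancel₀ ε hC0.ne'
      linarith
    exact sub_eq_zero.1 (norm_le_zero_iff.1 h0)
  refine prod_ext_of_BM _ _ fun f g hf hg => ?_
  rw [integral_map hmm.aemeasurable
    ((hf.comp measurable_fst).mul (hg.comp measurable_snd)).1.aestronglyMeasurable]
  have h1 := key f (fun y => conj (g y)) hf hg.conj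
  simp only [Complex.conj_conj] at h1
  exact h1

end

end Pool.Agent.Lib.H82OF
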