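import Pool.Agent.Lib.H82OF.LJ2
import Pool.Agent.Lib.H82OF.LJ3
import Pool.Agent.Lib.H82OF.SI
import Pool.Agent.Lib.H22M.HL
import Pool.Agent.Lib.H22M.TW

/-!
# Project H82OF, chunk LJ4: Lemma J for irreducible representations
-/

open MeasureTheory Filter Topology Finset ProbabilityTheory
open scoped ENNReal ComplexConjugate Matrix

namespace Pool.Agent.Lib.H82OF

open Pool.Agent.Lib.H22M Pool.Agent.Lib.H82T Pool.Agent.Lib.H82OT

private theorem LJ4_sq {Y : Type*} [MeasurableSpace Y] {d : ℕ} {F : Y → Fin d → ℂ}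
    (hF : BMR F) : ∃ T : ℝ, 0 ≤ T ∧ ∀ y, ∑ i, ‖F y i‖ ^ 2 ≤ T ^ 2 := by
  classical
  choose hm C hC using hF
  have hC' : ∀ y i, ‖F y i‖ ≤ ∑ j, |C j| := fun y i => (hC i y).trans
    ((le_abs_self _).trans (Finset.single_le_sum (f := fun j => |C j|)
      (fun _ _ => abs_nonneg _) (Finset.mem_univ i)))
  refine ⟨Real.sqrt (d * (∑ j, |C j|) ^ 2), Real.sqrt_nonneg _, fun y => ?_⟩
  rw [Real.sq_sqrt (by positivity)]
  calc ∑ i, ‖F y i‖ ^ 2 ≤ ∑ _i : Fin d, (∑ j, |C j|) ^ 2 :=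
        Finset.sum_le_sum fun i _ => pow_le_pow_left₀ (norm_nonneg _) (hC' y i) 2
    _ = d * (∑ j, |C j|) ^ 2 := by
        rw [Finset.sum_const, Finset.card_univ, Fintype.card_fin, nsmul_eq_mul]

section

variable {Z K : Type*} [CommGroup Z] [TopologicalSpace Z] [IsTopologicalGroup Z]
  [CompactSpace Z] [T2Space Z] [SecondCountableTopology Z] [MeasurableSpace Z] [BorelSpace Z]
  [Group K] [TopologicalSpace K] [IsTopologicalGroup K] [CompactSpace K] [T2Space K]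
  [SecondCountableTopology K] [MeasurableSpace K] [BorelSpace K]

/-- Proof. `prob, fst, snd` from `RelSq`, `inv` is the hypothesis. Killing: `RelSq.eig_zero`. -/
theorem relSq_self_kills {Y : Type*} [MeasurableSpace Y] {m : Measure Y} {R : Y → Y} {p q : ℕ}
    {ρ σ : Measure (Y × Y)} (hσ : RelSq m R p q ρ σ)
    (hinv : MeasurePreserving (Prod.map R R) σ σ) (F0 : Finset ℂ)
    (hp : p ∈ goodPrimes m R F0) : IsSelf m R σ ∧ Kills m R F0 σ := by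
  refine ⟨⟨hσ.prob, hσ.fst, hσ.snd, hinv⟩, ?_⟩
  intro c hc hc1 e he hec g hg
  exact (hσ.eig_zero e c he hc1 hec fun l hl hlp => hp.2 c hc l hl hlp).2 g hg

/-- Proof. Compare `QS_Kop_orth` in `H82OT/HT7.lean` (same structure). `f = A · π w₀`,
`f' = A' · π' w₀'`. If `w₀ = 0`, `f = 0` and nothing is bad (`F0 = ∅`, `m0 = 0`). Let `C > 0` with
`|w₀|² |w₀'|² ≤ C²` and `C' > 0` with `|A|² |A'|² ≤ C'²`; given `ε`: `F0, N` from `exists_small_aa` with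
`η' = (ε / (2 C))² / 2`; `m0 ≥ 4 C² C'² / ε²`. Let `p` be good and `Q` a set of bad primes with more than
`m0` elements; for `q ∈ Q`: `ρ_q, σ_q, J_q`. By `relSq_invariant_RR` `σ_q` is a `RelSq` and invariant under
`R × R`, so a self-coupling killing `F0` (`relSq_self_kills`). Fix `q₀ ∈ Q`, `μ = prZ σ_{q₀}`
(`= prZ σ_q` by `sigmaZ_unique`, invariant by `sigmaZ_invariant`). `U` from `exists_twist`
(`H22M/TW.lean`, `W2_unit`), `v` from `exists_vector2`, `l_q` from `exists_functional_J`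
(`hinv = RelSq.inv`): `l_q v = ∫ J_q (f(z.1) conj f'(z.2)) dσ_q` has modulus larger than `ε`. Put
`l_q = 0` for `q ∉ Q`. `hilbert_bad` (`H22M/HL.lean`) with the constant `C`, `η = ε`, gives
`ε N / (2 C) ≤ ‖∑ U^n v‖`, while `‖∑ U^n v‖² ≤ η' N² < (ε N / (2 C))²`. -/
theorem smJ_irr (lam : Measure Z) [lam.IsHaarMeasure] [IsProbabilityMeasure lam]
    (muK : Measure K) [muK.IsHaarMeasure] [IsProbabilityMeasure muK] {α : Z} {φ : Z → K}
    (hB : Base lam muK α φ) (f f' : Z × K → ℂ) (hf : IrrF f) (hf' : IrrF f')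
    (ho : ∀ h : Z → ℂ, BM h → ∫ y, f y * conj (h y.1) ∂(lam.prod muK) = 0) :
    SmJ (lam.prod muK) (skew (M := K) α φ) f f' := by
  classical
  intro ε hε
  obtain ⟨d, π, w₀, A, hπ, hA, hfe⟩ := hf
  obtain ⟨e, π', w₀', A', hπ', hA', hfe'⟩ := hf'
  by_cases hw : w₀ = 0
  · refine ⟨∅, by simp, 0, fun p hp Q hQ => ?_⟩
    rw [Nat.le_zero, Finset.card_eq_zero, Finset.eq_empty_iff_forall_notMem]
    intro q hq
    obtain ⟨-, -, ρ, σ, J, -, -, -, -, -, hlt⟩ := hQ q hq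
    have h0 : ∀ y, f y = 0 := fun y => by
      rw [hfe y, hw, Matrix.mulVec_zero, dotProduct_zero]
    have h1 : ∫ z, J z * (f z.1 * conj (f' z.2)) ∂σ = 0 := by
      simp [h0]
    rw [h1, norm_zero] at hlt
    exact absurd hlt (not_lt.2 hε.le)
  have ho' : ∀ (e : Z × K → ℂ) (l : ℂ), BM e →
      (∀ᵐ y ∂(lam.prod muK), e (skew α φ y) = l * e y) →
      ∫ y, f y * conj (e y) ∂(lam.prod muK) = 0 := by
    intro g l hg hgl
    obtain ⟨h, hh, hgh⟩ := hB.kron g l hg hgl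
    rw [← ho h hh]
    refine integral_congr_ae ?_
    filter_upwards [hgh] with y hy
    rw [hy]
  obtain ⟨T, hT0, hT⟩ := LJ4_sq hA
  obtain ⟨T', hT'0, hT'⟩ := LJ4_sq hA'
  obtain ⟨C', hC'pos, hC'⟩ : ∃ C' : ℝ, 0 < C' ∧
      ∀ z z', (∑ i, ‖A z i‖ ^ 2) * (∑ i, ‖A' z' i‖ ^ 2) ≤ C' ^ 2 := by
    refine ⟨T * T' + 1, by positivity, fun z z' => ?_⟩
    have h1 : (∑ i, ‖A z i‖ ^ 2) * (∑ i, ‖A' z' i‖ ^ 2) ≤ T ^ 2 * T' ^ 2 :=
      mul_le_mul (hT z) (hT' z') (Finset.sum_nonneg fun _ _ => by positivity) (by positivity)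
    have h2 : 0 ≤ T * T' := by positivity
    nlinarith
  obtain ⟨C, hCpos, hC⟩ : ∃ C : ℝ, 0 < C ∧
      (∑ i, ‖w₀ i‖ ^ 2) * (∑ i, ‖w₀' i‖ ^ 2) ≤ C ^ 2 := by
    have h2 : 0 ≤ (∑ i, ‖w₀ i‖ ^ 2) * (∑ i, ‖w₀' i‖ ^ 2) :=
      mul_nonneg (Finset.sum_nonneg fun _ _ => by positivity)
        (Finset.sum_nonneg fun _ _ => by positivity)
    refine ⟨(∑ i, ‖w₀ i‖ ^ 2) * (∑ i, ‖w₀' i‖ ^ 2) + 1, by positivity, ?_⟩
    nlinarith
  obtain ⟨F0, hF0, N, hN, hsmall⟩ := exists_small_aa lam muK hB hπ hπ'.toRep w₀ hw A hA A' hA' f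
    hfe ho' ((ε / (2 * C)) ^ 2 / 2) (by positivity)
  refine ⟨F0, hF0, ⌈4 * C ^ 2 * C' ^ 2 / ε ^ 2⌉₊, fun p hp Q hQ => ?_⟩
  by_contra hcon
  push Not at hcon
  have hne : Q.Nonempty := Finset.card_pos.1 (by omega)
  obtain ⟨q₀, hq₀⟩ := hne
  obtain ⟨hq₀p, hq₀ne, ρ₀, σ₀, J₀, hρ₀, hσ₀, -, -, -, -⟩ := hQ q₀ hq₀
  obtain ⟨hrel₀, hRR₀⟩ := relSq_invariant_RR lam muK hB p q₀ hp.1 hq₀p hq₀ne ρ₀ σ₀ hρ₀ hσ₀
  obtain ⟨hself₀, hkill₀⟩ := relSq_self_kills hrel₀ hRR₀ F0 hp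
  have hsm := hsmall σ₀ hself₀ hkill₀
  have hfs : Measurable (Prod.map (Prod.fst : Z × K → Z) (Prod.fst : Z × K → Z)) :=
    measurable_fst.prodMap measurable_fst
  obtain ⟨μ, hμ⟩ : ∃ μ : Measure (Z × Z), μ = prZ σ₀ := ⟨_, rfl⟩
  have hprob : IsProbabilityMeasure μ := by
    have := hrel₀.prob
    rw [hμ]
    exact Measure.isProbabilityMeasure_map hfs.aemeasurable
  have hτ : MeasurePreserving (fun w : Z × Z => (α * w.1, α * w.2)) μ μ := by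
    rw [hμ]
    exact sigmaZ_invariant lam muK α φ p q₀ ρ₀ σ₀ hrel₀
  rw [← hμ] at hsm
  have hWm : ∀ k l, Measurable fun w : Z × Z => W2 φ π π' w k l := by
    intro k l
    unfold W2
    refine Measurable.mul ?_ ?_
    · exact (hπ.cont k.1 l.1).measurable.comp (hB.meas.comp measurable_fst)
    · exact Complex.continuous_conj.measurable.comp
        ((hπ'.cont k.2 l.2).measurable.comp (hB.meas.comp measurable_snd))
  obtain ⟨U, hU⟩ := exists_twist μ (fun w : Z × Z => (α * w.1, α * w.2)) hτ (W2 φ π π') hWm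
    (fun w k k' => W2_unit φ hπ.toRep hπ'.toRep w k k')
  obtain ⟨v, hv1, hv2, hv3⟩ := exists_vector2 α φ hB.meas hπ.toRep hπ'.toRep μ hτ U hU A A' hA hA'
    C' hC'pos.le hC'
  have hex : ∀ q : ℕ, ∃ l : Lp (EuclideanSpace ℂ (Fin d × Fin e)) 2 μ →L[ℂ] ℂ, q ∈ Q →
      ‖l‖ ≤ C ∧ (∀ c, l ((⇑U)^[q] c) = l c) ∧ ε ≤ ‖l v‖ := by
    intro q
    by_cases hq : q ∈ Q
    · obtain ⟨hqp, hqne, ρ, σ, J, hρ, hσ, hJ, hJ1, hJS, hlt⟩ := hQ q hq
      obtain ⟨hrel, -⟩ := relSq_invariant_RR lam muK hB p q hp.1 hqp hqne ρ σ hρ hσ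
      have hpσ : IsProbabilityMeasure σ := hrel.prob
      have hμσ : prZ σ = μ := by
        rw [hμ]
        exact sigmaZ_unique lam muK α φ p q q₀ ρ σ ρ₀ σ₀ hrel hrel₀
      obtain ⟨l, hl1, hl2, hl3⟩ := exists_functional_J α φ hB.meas hπ.toRep hπ'.toRep w₀ w₀' σ q
        hrel.inv J hJ hJ1 hJS μ hμσ hτ U hU C hCpos.le hC
      refine ⟨l, fun _ => ⟨hl1, hl2, ?_⟩⟩
      have hae : ∀ᵐ z ∂σ, ∀ k, v (z.1.1, z.2.1) k = A z.1.1 k.1 * conj (A' z.2.1 k.2) := by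
        have h0 : MeasurePreserving (fun z : (Z × K) × (Z × K) => (z.1.1, z.2.1)) σ μ :=
          ⟨hfs, hμσ⟩
        exact h0.quasiMeasurePreserving.ae hv1
      have h2 : l v = ∫ z, J z * (f z.1 * conj (f' z.2)) ∂σ := by
        rw [hl3 v]
        refine integral_congr_ae ?_
        filter_upwards [hae] with z hz
        rw [hfe z.1, hfe' z.2]
        unfold dotProduct
        rw [map_sum, Finset.sum_mul_sum, Fintype.sum_prod_type]
        refine congrArg (fun t => J z * t) ?_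
        refine Finset.sum_congr rfl fun i _ => Finset.sum_congr rfl fun j _ => ?_
        rw [hz (i, j), map_mul]
        ring
      rw [h2]
      exact hlt.le
    · exact ⟨0, fun h => absurd h hq⟩
  choose l hl using hex
  have hcard : 4 * C ^ 2 * ‖v‖ ^ 2 / ε ^ 2 < (Q.card : ℝ) := by
    have h1 : 4 * C ^ 2 * ‖v‖ ^ 2 / ε ^ 2 ≤ 4 * C ^ 2 * C' ^ 2 / ε ^ 2 := by
      gcongr
    have h2 := Nat.le_ceil (4 * C ^ 2 * C' ^ 2 / ε ^ 2)
    have h3 : ((⌈4 * C ^ 2 * C' ^ 2 / ε ^ 2⌉₊ : ℕ) : ℝ) < (Q.card : ℝ) := by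
      exact_mod_cast hcon
    linarith
  have hbad := hilbert_bad U v C ε hCpos hε Q (fun q hq => (hQ q hq).1) l
    (fun q hq => (hl q hq).1) (fun q hq => (hl q hq).2.1) (fun q hq => (hl q hq).2.2) hcard N
  have hns := (hv3 N).trans hsm
  have hN' : (1 : ℝ) ≤ (N : ℝ) := by exact_mod_cast hN
  have h1 : (ε * N / (2 * C)) ^ 2 ≤ ‖∑ n ∈ range N, (⇑U)^[n] v‖ ^ 2 :=
    pow_le_pow_left₀ (by positivity) hbad 2
  have h2 : (ε * N / (2 * C)) ^ 2 = (ε / (2 * C)) ^ 2 * (N : ℝ) ^ 2 := by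
    rw [← mul_pow]
    ring
  have h3 : 0 < (ε / (2 * C)) ^ 2 * (N : ℝ) ^ 2 := by positivity
  rw [h2] at h1
  linarith

end

end Pool.Agent.Lib.H82OF
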