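import Pool.Agent.Lib.H82OF.Defs
import Pool.Agent.Lib.H22M.JA

/-!
# Project H82OF, chunk LJ5: closure properties
-/

open MeasureTheory Filter Topology Finset ProbabilityTheory
open scoped ENNReal ComplexConjugate Matrix

namespace Pool.Agent.Lib.H82OF

open Pool.Agent.Lib.H22M Pool.Agent.Lib.H82T Pool.Agent.Lib.H82OT

private theorem lj5_l2_mul_le {Ω : Type*} [MeasurableSpace Ω] (σ : Measure Ω) [IsFiniteMeasure σ]
    (J f : Ω → ℂ) (hJ : BM J) (hJ1 : ∀ z, ‖J z‖ ≤ 1) (hf : BM f) :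
    l2 σ (fun z => J z * f z) ≤ l2 σ f := by
  unfold l2
  refine Real.sqrt_le_sqrt (integral_mono ?_ ?_ ?_)
  · exact ((hJ.mul hf).memLp 2).integrable_norm_pow (by norm_num)
  · exact (hf.memLp 2).integrable_norm_pow (by norm_num)
  · intro z
    simp only
    rw [norm_mul]
    have h1 : ‖J z‖ * ‖f z‖ ≤ ‖f z‖ := mul_le_of_le_one_left (norm_nonneg _) (hJ1 z)
    exact pow_le_pow_left₀ (by positivity) h1 2

private theorem lj5_key {B : Type*} [MeasurableSpace B] {m : Measure B}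
    {σ : Measure (B × B)} [IsProbabilityMeasure σ] (h1 : σ.map Prod.fst = m)
    (h2 : σ.map Prod.snd = m) (J : B × B → ℂ) (hJ : BM J) (hJ1 : ∀ z, ‖J z‖ ≤ 1)
    (u v : B → ℂ) (hu : BM u) (hv : BM v) :
    ‖∫ z, J z * (u z.1 * conj (v z.2)) ∂σ‖ ≤ l2 m u * l2 m v := by
  have e1 : l2 σ (fun z => J z * u z.1) ≤ l2 m u := by
    refine (lj5_l2_mul_le σ J (fun z => u z.1) hJ hJ1 (hu.comp measurable_fst)).trans ?_
    rw [← h1, l2_map measurable_fst hu.1]
  have e2 : l2 σ (fun z => v z.2) = l2 m v := by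
    rw [← h2, l2_map measurable_snd hv.1]
  have e3 := Pool.Agent.Lib.H22M.norm_integral_mul_conj_le (m := σ)
    (hJ.mul (hu.comp measurable_fst)) (hv.comp measurable_snd)
  have e4 : (fun z : B × B => J z * (u z.1 * conj (v z.2)))
      = fun z => J z * u z.1 * conj (v z.2) := by
    funext z; ring
  rw [e4]
  refine e3.trans ?_
  rw [e2]
  exact mul_le_mul_of_nonneg_right e1 (l2_nonneg _ _)

private theorem lj5_anti {Y : Type*} [MeasurableSpace Y] {m : Measure Y} {R : Y → Y}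
    {F F' : Finset ℂ} (h : F ⊆ F') : goodPrimes m R F' ⊆ goodPrimes m R F :=
  fun _ hp => ⟨hp.1, fun c hc e he => hp.2 c (h hc) e he⟩

/-- Proof. For `ε` use the hypotheses for all pairs with `ε / (card ι * card κ + 1)`; unions of the finite
sets, sum of the `m0`. A bad `q` for the sums is bad for one pair (with the same `ρ, σ, J`): a subset of
the union of the sets of bad primes in `Q` for the pairs (`Finset.card_le_card`,
`Finset.card_biUnion_le`). `goodPrimes` is antitone. -/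
theorem SmJ.sum {B : Type*} [MeasurableSpace B] {m : Measure B} [IsProbabilityMeasure m]
    {R : B → B} {ι κ : Type*} [Fintype ι] [Fintype κ] (a : ι → B → ℂ) (b : κ → B → ℂ)
    (ha : ∀ i, BM (a i)) (hb : ∀ j, BM (b j)) (h : ∀ i j, SmJ m R (a i) (b j)) :
    SmJ m R (fun y => ∑ i, a i y) (fun y => ∑ j, b j y) := by
  classical
  intro ε hε
  set N : ℝ := (Fintype.card ι : ℝ) * (Fintype.card κ : ℝ) + 1 with hN
  have hN0 : 0 < N := by positivity
  have hε' : 0 < ε / N := div_pos hε hN0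
  choose F0 hF0 m0 hm0 using fun i j => h i j (ε / N) hε'
  refine ⟨Finset.univ.biUnion fun x : ι × κ => F0 x.1 x.2, ?_,
    ∑ x : ι × κ, m0 x.1 x.2, ?_⟩
  · intro h1
    obtain ⟨x, _, hx⟩ := Finset.mem_biUnion.1 h1
    exact hF0 x.1 x.2 hx
  · intro p hp Q hQ
    have hcov : Q ⊆ Finset.univ.biUnion fun x : ι × κ =>
        Q.filter fun q => BadJ m R (a x.1) (b x.2) (ε / N) p q := by
      intro q hq
      obtain ⟨_, _, ρ, σ, J, hρ, hσ, hJ, hJ1, hJinv, hlt⟩ := hQ q hq
      haveI := hσ.prob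
      by_contra hcon
      have hall : ∀ x : ι × κ, ‖∫ z, J z * (a x.1 z.1 * conj (b x.2 z.2)) ∂σ‖ ≤ ε / N := by
        intro x
        by_contra hx
        apply hcon
        rw [Finset.mem_biUnion]
        exact ⟨x, Finset.mem_univ _, Finset.mem_filter.2
          ⟨hq, ρ, σ, J, hρ, hσ, hJ, hJ1, hJinv, lt_of_not_ge hx⟩⟩
      have hint : ∫ z, J z * ((∑ i, a i z.1) * conj (∑ j, b j z.2)) ∂σ
          = ∑ x : ι × κ, ∫ z, J z * (a x.1 z.1 * conj (b x.2 z.2)) ∂σ := by
        rw [← integral_finsetSum]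
        · refine integral_congr_ae (Eventually.of_forall fun z => ?_)
          simp only
          rw [map_sum, Finset.sum_mul_sum, Finset.mul_sum, Fintype.sum_prod_type]
          refine Finset.sum_congr rfl fun i _ => ?_
          rw [Finset.mul_sum]
        · intro x _
          exact (hJ.mul (((ha x.1).comp measurable_fst).mul
            (((hb x.2).comp measurable_snd).conj))).integrable
      rw [hint] at hlt
      have hle : ‖∑ x : ι × κ, ∫ z, J z * (a x.1 z.1 * conj (b x.2 z.2)) ∂σ‖ ≤ ε := by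
        refine (norm_sum_le _ _).trans ((Finset.sum_le_sum fun x _ => hall x).trans ?_)
        rw [Finset.sum_const, Finset.card_univ, Fintype.card_prod, nsmul_eq_mul]
        push_cast
        rw [mul_div_assoc', div_le_iff₀ hN0, hN]
        nlinarith
      exact absurd hlt (not_lt.2 hle)
    calc Q.card ≤ (Finset.univ.biUnion fun x : ι × κ =>
          Q.filter fun q => BadJ m R (a x.1) (b x.2) (ε / N) p q).card := Finset.card_le_card hcov
      _ ≤ ∑ x : ι × κ, (Q.filter fun q => BadJ m R (a x.1) (b x.2) (ε / N) p q).card :=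
          Finset.card_biUnion_le
      _ ≤ ∑ x : ι × κ, m0 x.1 x.2 := by
          refine Finset.sum_le_sum fun x _ => ?_
          refine hm0 x.1 x.2 p (lj5_anti ?_ hp) _ ?_
          · exact Finset.subset_biUnion_of_mem (fun x : ι × κ => F0 x.1 x.2)
              (Finset.mem_univ x)
          · intro q hq
            obtain ⟨hq1, hq2⟩ := Finset.mem_filter.1 hq
            exact ⟨(hQ q hq1).1, (hQ q hq1).2.1, hq2⟩

/-- Proof. `σ` has marginals `m` (`relSq_marginals` in `H22M/JA.lean`), so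
`‖∫ J (a ⊗ conj b) dσ - ∫ J (a' ⊗ conj b') dσ‖ ≤ l2 m (a - a') l2 m b + l2 m a' l2 m (b - b')`
(Cauchy-Schwarz, `norm_integral_mul_le` in `H82OT/LT1.lean`, `l2_map`). Given `ε` choose first `a'` with
`l2 m (a - a') (l2 m b + 1) ≤ ε / 4`, then `b'` with `(l2 m a' + 1) l2 m (b - b') ≤ ε / 4`, and use
`h` with `ε / 2`. -/
theorem SmJ.approx {B : Type*} [MeasurableSpace B] {m : Measure B} [IsProbabilityMeasure m]
    {R : B → B} (a b : B → ℂ) (ha : BM a) (hb : BM b)
    (Pa Pb : (B → ℂ) → Prop) (hPa : ∀ f, Pa f → BM f) (hPb : ∀ f, Pb f → BM f)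
    (h1 : ∀ δ : ℝ, 0 < δ → ∃ a', Pa a' ∧ l2 m (fun y => a y - a' y) ≤ δ)
    (h2 : ∀ δ : ℝ, 0 < δ → ∃ b', Pb b' ∧ l2 m (fun y => b y - b' y) ≤ δ)
    (h : ∀ a' b', Pa a' → Pb b' → SmJ m R a' b') : SmJ m R a b := by
  intro ε hε
  have hb0 := l2_nonneg m b
  obtain ⟨a', hPa', ha'⟩ := h1 (ε / (4 * (l2 m b + 1))) (by positivity)
  have ha0 := l2_nonneg m a'
  obtain ⟨b', hPb', hb'⟩ := h2 (ε / (4 * (l2 m a' + 1))) (by positivity)
  have hBa' := hPa a' hPa'
  have hBb' := hPb b' hPb'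
  obtain ⟨F0, hF0, m0, hm0⟩ := h a' b' hPa' hPb' (ε / 2) (by positivity)
  refine ⟨F0, hF0, m0, fun p hp Q hQ => hm0 p hp Q fun q hq => ?_⟩
  obtain ⟨hq1, hq2, ρ, σ, J, hρ, hσ, hJ, hJ1, hJinv, hlt⟩ := hQ q hq
  refine ⟨hq1, hq2, ρ, σ, J, hρ, hσ, hJ, hJ1, hJinv, ?_⟩
  haveI := hσ.prob
  obtain ⟨hm1, hm2⟩ := relSq_marginals R hρ hσ.int
  have k1 := lj5_key hm1 hm2 J hJ hJ1 (fun y => a y - a' y) b (ha.sub hBa') hb
  have k2 := lj5_key hm1 hm2 J hJ hJ1 a' (fun y => b y - b' y) hBa' (hb.sub hBb')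
  have k3 : l2 m (fun y => a y - a' y) * l2 m b ≤ ε / 4 := by
    calc l2 m (fun y => a y - a' y) * l2 m b
        ≤ (ε / (4 * (l2 m b + 1))) * (l2 m b + 1) :=
          mul_le_mul ha' (by linarith) hb0 (by positivity)
      _ = ε / 4 := by field_simp
  have k4 : l2 m a' * l2 m (fun y => b y - b' y) ≤ ε / 4 := by
    calc l2 m a' * l2 m (fun y => b y - b' y)
        ≤ (l2 m a' + 1) * (ε / (4 * (l2 m a' + 1))) :=
          mul_le_mul (by linarith) hb' (l2_nonneg _ _) (by positivity)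
      _ = ε / 4 := by field_simp
  have i1 : Integrable (fun z : B × B => J z * (a z.1 * conj (b z.2))) σ :=
    (hJ.mul ((ha.comp measurable_fst).mul ((hb.comp measurable_snd).conj))).integrable
  have i2 : Integrable (fun z : B × B => J z * ((a z.1 - a' z.1) * conj (b z.2))) σ :=
    (hJ.mul (((ha.sub hBa').comp measurable_fst).mul
      ((hb.comp measurable_snd).conj))).integrable
  have i3 : Integrable (fun z : B × B => J z * (a' z.1 * conj (b z.2 - b' z.2))) σ :=
    (hJ.mul ((hBa'.comp measurable_fst).mul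
      (((hb.sub hBb').comp measurable_snd).conj))).integrable
  have i4 : Integrable (fun z : B × B => J z * (a' z.1 * conj (b' z.2))) σ :=
    (hJ.mul ((hBa'.comp measurable_fst).mul ((hBb'.comp measurable_snd).conj))).integrable
  have e1 : ∫ z, J z * (a z.1 * conj (b z.2)) ∂σ
      = (∫ z, J z * ((a z.1 - a' z.1) * conj (b z.2)) ∂σ)
        + (∫ z, J z * (a' z.1 * conj (b z.2 - b' z.2)) ∂σ)
        + ∫ z, J z * (a' z.1 * conj (b' z.2)) ∂σ := by
    have i23 : Integrable (fun z : B × B => J z * ((a z.1 - a' z.1) * conj (b z.2))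
        + J z * (a' z.1 * conj (b z.2 - b' z.2))) σ := i2.add i3
    rw [← integral_add i2 i3, ← integral_add i23 i4]
    refine integral_congr_ae (Eventually.of_forall fun z => ?_)
    simp only [map_sub]
    ring
  rw [e1] at hlt
  have t1 := norm_add_le ((∫ z, J z * ((a z.1 - a' z.1) * conj (b z.2)) ∂σ)
        + (∫ z, J z * (a' z.1 * conj (b z.2 - b' z.2)) ∂σ))
        (∫ z, J z * (a' z.1 * conj (b' z.2)) ∂σ)
  have t2 := norm_add_le (∫ z, J z * ((a z.1 - a' z.1) * conj (b z.2)) ∂σ)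
        (∫ z, J z * (a' z.1 * conj (b z.2 - b' z.2)) ∂σ)
  linarith

end Pool.Agent.Lib.H82OF
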