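import Pool.Agent.Lib.H82OF.LJ4
import Pool.Agent.Lib.H82OF.LJ5
import Pool.Agent.Lib.H82OF.IA

/-!
# Project H82OF, chunk LJ6: LEMMA J
-/

open MeasureTheory Filter Topology Finset ProbabilityTheory
open scoped ENNReal ComplexConjugate Matrix

namespace Pool.Agent.Lib.H82OF

open Pool.Agent.Lib.H22M Pool.Agent.Lib.H82T Pool.Agent.Lib.H82OT

section

variable {Z K : Type*} [CommGroup Z] [TopologicalSpace Z] [IsTopologicalGroup Z]
  [CompactSpace Z] [T2Space Z] [SecondCountableTopology Z] [MeasurableSpace Z] [BorelSpace Z]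
  [Group K] [TopologicalSpace K] [IsTopologicalGroup K] [CompactSpace K] [T2Space K]
  [SecondCountableTopology K] [MeasurableSpace K] [BorelSpace K]

/-- Proof. `SmJ.approx` with `Pa` = finite sums of `IrrF` functions orthogonal to the functions of `z`
(`exists_irr_approx_orth`), `Pb` = finite sums of `IrrF` functions (`exists_irr_approx`); `SmJ.sum`,
`smJ_irr`. -/
theorem lemma_J (lam : Measure Z) [lam.IsHaarMeasure] [IsProbabilityMeasure lam]
    (muK : Measure K) [muK.IsHaarMeasure] [IsProbabilityMeasure muK] {α : Z} {φ : Z → K}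
    (hB : Base lam muK α φ) (a b : Z × K → ℂ) (ha : BM a) (hb : BM b)
    (ho : ∀ h : Z → ℂ, BM h → ∫ y, a y * conj (h y.1) ∂(lam.prod muK) = 0) :
    SmJ (lam.prod muK) (skew (M := K) α φ) a b := by
  classical
  refine SmJ.approx a b ha hb
    (fun f => ∃ (ι : Type) (_ : Fintype ι) (g : ι → Z × K → ℂ), (∀ i, IrrF (g i)) ∧
      (∀ i, ∀ h : Z → ℂ, BM h → ∫ y, g i y * conj (h y.1) ∂(lam.prod muK) = 0) ∧
      f = fun y => ∑ i, g i y)
    (fun f => ∃ (ι : Type) (_ : Fintype ι) (g : ι → Z × K → ℂ), (∀ i, IrrF (g i)) ∧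
      f = fun y => ∑ i, g i y) ?_ ?_ ?_ ?_ ?_
  · rintro f ⟨ι, _, g, hg, -, rfl⟩
    exact BM.sum _ fun i _ => (hg i).bm
  · rintro f ⟨ι, _, g, hg, rfl⟩
    exact BM.sum _ fun i _ => (hg i).bm
  · intro δ hδ
    obtain ⟨ι, hι, f, hf, hfo, hl⟩ := exists_irr_approx_orth lam muK a ha ho δ hδ
    exact ⟨fun y => ∑ i, f i y, ⟨ι, hι, f, hf, hfo, rfl⟩, hl⟩
  · intro δ hδ
    obtain ⟨ι, hι, f, hf, hl⟩ := exists_irr_approx lam muK b hb δ hδ
    exact ⟨fun y => ∑ i, f i y, ⟨ι, hι, f, hf, rfl⟩, hl⟩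
  · rintro a' b' ⟨ι, _, g, hg, hgo, rfl⟩ ⟨κ, _, g', hg', rfl⟩
    exact SmJ.sum g g' (fun i => (hg i).bm) (fun j => (hg' j).bm)
      fun i j => smJ_irr lam muK hB (g i) (g' j) (hg i) (hg' j) (hgo i)

end

end Pool.Agent.Lib.H82OF
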