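import Pool.Agent.Lib.H82OF.LVD
import Pool.Agent.Lib.H82OT.KR3

/-!
# Project H82OF, chunk LV2: the sigma-algebras of a level
-/

open MeasureTheory Filter Topology Finset ProbabilityTheory
open scoped ENNReal ComplexConjugate Matrix

namespace Pool.Agent.Lib.H82OF

open Pool.Agent.Lib.H22M Pool.Agent.Lib.H82T Pool.Agent.Lib.H82OT

section

variable {Z K : Type*} [CommGroup Z] [TopologicalSpace Z] [IsTopologicalGroup Z]
  [CompactSpace Z] [T2Space Z] [SecondCountableTopology Z] [MeasurableSpace Z] [BorelSpace Z]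
  [Group K] [TopologicalSpace K] [IsTopologicalGroup K] [CompactSpace K] [T2Space K]
  [SecondCountableTopology K] [MeasurableSpace K] [BorelSpace K]

/-- Proof. `Kron` for `fun y => (P y).1` and `c = α` (`equi`; `(comap π).comap R = comap (π ∘ R) =
comap ((α * ·) ∘ π) = comap π`, `MeasurableEquiv.mulLeft α`; `kron`), `Kron.kronAlg` (`H82OT/KR3.lean`). -/
theorem Lev.kronAlg {Y : Type*} [MeasurableSpace Y] {m : Measure Y}
    [IsProbabilityMeasure m] {R : Y → Y} {lam : Measure Z} {muK : Measure K} {α : Z} {φ : Z → K}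
    {P : Y → Z × K} (h : Lev m R lam muK α φ P) : KronAlg (ZZ P) m R := by
  have hk : Kron m R (fun y => (P y).1) α := by
    refine ⟨measurable_fst.comp h.pres.measurable, ae_of_all _ fun y => ?_, ?_, h.kron⟩
    · rw [h.equi y]
      rfl
    · have h1 : (fun y => (P y).1) ∘ R = (fun z => α * z) ∘ fun y => (P y).1 := by
        funext y
        show (P (R y)).1 = α * (P y).1
        rw [h.equi y]
        rfl
      rw [MeasurableSpace.comap_comp, h1, ← MeasurableSpace.comap_comp]
      congr 1
      exact (MeasurableEquiv.mulLeft α).measurableEmbedding.comap_eq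
  exact hk.kronAlg

/-- Proof. `comap (P ∘ R) = comap (skew α φ ∘ P) = comap P`, since `skew α φ` is a measurable equivalence
(`skewE α φ h.base.meas` in `H22M/Defs.lean`; `MeasurableSpace.comap_comp`). -/
theorem Lev.inv {Y : Type*} [MeasurableSpace Y] {m : Measure Y}
    {R : Y → Y} {lam : Measure Z} {muK : Measure K} {α : Z} {φ : Z → K}
    {P : Y → Z × K} (h : Lev m R lam muK α φ P) : (BB P).comap R = BB P := by
  have h1 : P ∘ R = skew (M := K) α φ ∘ P := funext h.equi
  have h2 : MeasurableSpace.comap (skew (M := K) α φ) (inferInstance : MeasurableSpace (Z × K)) =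
      (inferInstance : MeasurableSpace (Z × K)) :=
    (skewE (M := K) α φ h.base.meas).measurableEmbedding.comap_eq
  show (MeasurableSpace.comap P inferInstance).comap R = MeasurableSpace.comap P inferInstance
  rw [MeasurableSpace.comap_comp, h1, ← MeasurableSpace.comap_comp, h2]

theorem ZZ_le_BB {Y : Type*} (P : Y → Z × K) : ZZ P ≤ BB P := by
  have h1 : ZZ P = MeasurableSpace.comap P (MeasurableSpace.comap Prod.fst inferInstance) := by
    rw [MeasurableSpace.comap_comp]
    rfl
  rw [h1]
  exact MeasurableSpace.comap_mono measurable_fst.comap_le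

/-- Rows measurable for `BB P` are functions of `P`. Proof. `Measurable.exists_eq_measurable_comp`-type
lemma for every entry (as in `H82OT/KR3.lean` or `H82T/S4.lean`), cut off by the bound. -/
theorem rowB_factor {Y : Type*} {d : ℕ} (P : Y → Z × K) (F : Y → Fin d → ℂ)
    (hF : RowB (BB P) F) : ∃ F' : Z × K → Fin d → ℂ, BMR F' ∧ ∀ y, F y = F' (P y) := by
  obtain ⟨hF1, C, hC⟩ := hF
  have hex : ∀ i, ∃ F₀ : Z × K → ℂ, Measurable F₀ ∧ ∀ y, F y i = F₀ (P y) := by
    intro i
    obtain ⟨F₀, hF₀, hfF⟩ := (hF1 i).exists_eq_measurable_comp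
    exact ⟨F₀, hF₀, fun y => congrFun hfF y⟩
  choose F₀ hF₀ hF₀e using hex
  classical
  refine ⟨fun w i => if ‖F₀ i w‖ ≤ C then F₀ i w else 0, fun i => ⟨?_, |C|, fun w => ?_⟩, ?_⟩
  · exact Measurable.ite (measurableSet_le (hF₀ i).norm measurable_const) (hF₀ i) measurable_const
  · dsimp only
    split_ifs with h
    · exact h.trans (le_abs_self C)
    · simp
  · intro y
    funext i
    have h2 : ‖F₀ i (P y)‖ ≤ C := hF₀e i y ▸ hC y i
    show F y i = if ‖F₀ i (P y)‖ ≤ C then F₀ i (P y) else 0
    rw [if_pos h2, hF₀e i y]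

end

end Pool.Agent.Lib.H82OF
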