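import Pool.Agent.Lib.H82OF.Defs

/-!
# Project H82OF: levels (definitions)
-/

open MeasureTheory Filter Topology Finset ProbabilityTheory
open scoped ENNReal ComplexConjugate Matrix

namespace Pool.Agent.Lib.H82OF

open Pool.Agent.Lib.H22M Pool.Agent.Lib.H82T Pool.Agent.Lib.H82OT

/-- A level: `P` is a factor map of `(Y, m, R)` onto the group extension `skew α φ` of the rotation by
`α`, and all eigenfunctions of `R` are functions of the first coordinate of `P`. -/
structure Lev {Y Z K : Type*} [MeasurableSpace Y] [CommGroup Z] [MeasurableSpace Z] [Group K]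
    [MeasurableSpace K] (m : Measure Y) (R : Y → Y) (lam : Measure Z) (muK : Measure K) (α : Z)
    (φ : Z → K) (P : Y → Z × K) : Prop where
  pres : MeasurePreserving P m (lam.prod muK)
  equi : ∀ y, P (R y) = skew (M := K) α φ (P y)
  base : Base lam muK α φ
  kron : ∀ (e : Y → ℂ) (l : ℂ), BM e → (∀ᵐ y ∂m, e (R y) = l * e y) →
    ∃ g : Z → ℂ, BM g ∧ ∀ᵐ y ∂m, e y = g (P y).1

/-- The σ-algebra of the first coordinate of `P`. -/
@[reducible] def ZZ {Y Z K : Type*} [MeasurableSpace Z] (P : Y → Z × K) : MeasurableSpace Y :=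
  MeasurableSpace.comap (fun y => (P y).1) inferInstance

/-- The σ-algebra of `P`. -/
@[reducible] def BB {Y Z K : Type*} [MeasurableSpace Z] [MeasurableSpace K] (P : Y → Z × K) :
    MeasurableSpace Y :=
  MeasurableSpace.comap P inferInstance

end Pool.Agent.Lib.H82OF
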