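import Pool.Agent.Lib.H82OF.ME1

/-!
# Project H82OF, chunk ME: vanishing of integrals by averaging
-/

open MeasureTheory Filter Topology Finset ProbabilityTheory
open scoped ENNReal ComplexConjugate Matrix

namespace Pool.Agent.Lib.H82OF

open Pool.Agent.Lib.H22M Pool.Agent.Lib.H82T Pool.Agent.Lib.H82OT

private theorem me_bound {B : Type*} [MeasurableSpace B] {R : B → B} (hR : Measurable R)
    (n : ℕ) (c : ℂ) {g : B → ℂ} (hg : BM g) (N : ℕ) :
    BM fun y => (∑ j ∈ range N, c ^ j * g (R^[n * j] y)) / N := by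
  have h1 : BM fun y => ∑ j ∈ range N, c ^ j * g (R^[n * j] y) :=
    BM.sum _ fun j _ => (BM.const (c ^ j)).mul (hg.comp (hR.iterate (n * j)))
  have h2 := h1.mul (BM.const ((N : ℂ)⁻¹))
  simp only [div_eq_mul_inv]
  exact h2

/-- Proof. For every `j`: `∫ g(ζ) h dρ = ∫ g(ζ(S^j ω)) h(S^j ω) dρ = ∫ c^j g(R^[n j] (ζ ω)) h ω dρ`
(`h (S^j ω) = c^j h ω` and `ζ (S^j ω) = R^[n j] (ζ ω)` a.e. by induction). Average over `j < N`:
`|∫ g(ζ) h dρ| ≤ ‖h‖_∞ ∫ |(1/N) ∑ c^j g(R^[n j] y)| dm ≤ ‖h‖_∞ l2 m (…) → 0` by `tendsto_orth`. -/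
theorem me_orth {Ω B : Type*} [MeasurableSpace Ω] [MeasurableSpace B] {ρ : Measure Ω}
    [IsProbabilityMeasure ρ] {m : Measure B} [IsProbabilityMeasure m] {R : B → B}
    (hR : MeasurePreserving R m m) (n : ℕ) (herg : Ergodic (R^[n]) m) {S : Ω → Ω}
    (hS : MeasurePreserving S ρ ρ) {ζ : Ω → B} (hζ : MeasurePreserving ζ ρ m)
    (hζS : ∀ᵐ ω ∂ρ, ζ (S ω) = R^[n] (ζ ω)) (h : Ω → ℂ) (hh : BM h) (c : ℂ) (hc : ‖c‖ = 1)
    (hhS : ∀ᵐ ω ∂ρ, h (S ω) = c * h ω) (g : B → ℂ) (hg : BM g)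
    (ho : ∀ (e : B → ℂ) (l : ℂ), BM e → (∀ᵐ y ∂m, e (R y) = l * e y) →
      ∫ y, g y * conj (e y) ∂m = 0) : ∫ ω, g (ζ ω) * h ω ∂ρ = 0 := by
  have hSn : ∀ j : ℕ, MeasurePreserving (S^[j]) ρ ρ := fun j => hS.iterate j
  have h1 : ∀ j : ℕ, ∀ᵐ ω ∂ρ, h (S^[j] ω) = c ^ j * h ω := by
    intro j
    induction j with
    | zero => exact Eventually.of_forall fun ω => by simp
    | succ j ih =>
      have h2 : ∀ᵐ ω ∂ρ, h (S (S^[j] ω)) = c * h (S^[j] ω) :=
        (hSn j).quasiMeasurePreserving.ae hhS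
      filter_upwards [ih, h2] with ω h3 h4
      rw [Function.iterate_succ_apply', h4, h3, pow_succ']
      ring
  have h2 : ∀ j : ℕ, ∀ᵐ ω ∂ρ, ζ (S^[j] ω) = R^[n * j] (ζ ω) := by
    intro j
    induction j with
    | zero => exact Eventually.of_forall fun ω => by simp
    | succ j ih =>
      have h3 : ∀ᵐ ω ∂ρ, ζ (S (S^[j] ω)) = R^[n] (ζ (S^[j] ω)) :=
        (hSn j).quasiMeasurePreserving.ae hζS
      filter_upwards [ih, h3] with ω h4 h5
      rw [Function.iterate_succ_apply', h5, h4, ← Function.iterate_add_apply, Nat.mul_succ,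
        add_comm]
  have hBM : BM fun ω => g (ζ ω) * h ω := (hg.comp hζ.measurable).mul hh
  have h3 : ∀ j : ℕ, ∫ ω, c ^ j * g (R^[n * j] (ζ ω)) * h ω ∂ρ = ∫ ω, g (ζ ω) * h ω ∂ρ := by
    intro j
    have h4 : ∫ ω, (fun ω => g (ζ ω) * h ω) (S^[j] ω) ∂ρ = ∫ ω, g (ζ ω) * h ω ∂ρ := by
      have h5 : ∫ ω, (fun ω => g (ζ ω) * h ω) ω ∂(ρ.map (S^[j])) =
          ∫ ω, (fun ω => g (ζ ω) * h ω) (S^[j] ω) ∂ρ :=
        integral_map (hSn j).measurable.aemeasurable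
          (by rw [(hSn j).map_eq]; exact hBM.1.aestronglyMeasurable)
      rw [← h5, (hSn j).map_eq]
    rw [← h4]
    refine integral_congr_ae ?_
    filter_upwards [h1 j, h2 j] with ω h5 h6
    simp only [h5, h6]
    ring
  obtain ⟨hhm, C, hC⟩ := hh
  have hC0 : 0 ≤ C := by
    obtain ⟨ω⟩ : Nonempty Ω := by
      by_contra hΩ
      rw [not_nonempty_iff] at hΩ
      have : ρ = 0 := Measure.eq_zero_of_isEmpty ρ
      exact IsProbabilityMeasure.ne_zero ρ this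
    exact (norm_nonneg _).trans (hC ω)
  have h4 : ∀ N : ℕ, 0 < N → ‖∫ ω, g (ζ ω) * h ω ∂ρ‖ ≤
      C * l2 m fun y => (∑ j ∈ range N, c ^ j * g (R^[n * j] y)) / N := by
    intro N hN
    have hN0 : (N : ℂ) ≠ 0 := by exact_mod_cast hN.ne'
    have hA := me_bound hR.measurable n c hg N
    set A : B → ℂ := fun y => (∑ j ∈ range N, c ^ j * g (R^[n * j] y)) / N with hAd
    have h5 : ∫ ω, A (ζ ω) * h ω ∂ρ = ∫ ω, g (ζ ω) * h ω ∂ρ := by
      have h6 : ∀ ω, A (ζ ω) * h ω =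
          (∑ j ∈ range N, c ^ j * g (R^[n * j] (ζ ω)) * h ω) * (N : ℂ)⁻¹ := by
        intro ω
        simp only [hAd, div_eq_mul_inv]
        rw [← sum_mul]
        ring
      simp only [h6]
      rw [integral_mul_const, integral_finsetSum]
      · rw [sum_congr rfl fun j _ => h3 j, sum_const, card_range, nsmul_eq_mul]
        field_simp
      · intro j _
        have : BM fun ω => c ^ j * g (R^[n * j] (ζ ω)) * h ω :=
          ((BM.const (c ^ j)).mul ((hg.comp (hR.measurable.iterate (n * j))).comp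
            hζ.measurable)).mul ⟨hhm, C, hC⟩
        exact this.integrable
    rw [← h5]
    have hAζ : BM fun ω => A (ζ ω) := hA.comp hζ.measurable
    calc ‖∫ ω, A (ζ ω) * h ω ∂ρ‖ ≤ ∫ ω, ‖A (ζ ω) * h ω‖ ∂ρ := norm_integral_le_integral_norm _
      _ ≤ ∫ ω, C * ‖A (ζ ω)‖ ∂ρ := by
          refine integral_mono ((hAζ.mul ⟨hhm, C, hC⟩).integrable.norm)
            (hAζ.integrable.norm.const_mul C) fun ω => ?_
          simp only [norm_mul]
          rw [mul_comm]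
          exact mul_le_mul_of_nonneg_right (hC ω) (norm_nonneg _)
      _ = C * ∫ y, ‖A y‖ ∂m := by
          rw [integral_const_mul]
          congr 1
          have h5 : ∫ y, ‖A y‖ ∂(ρ.map ζ) = ∫ ω, ‖A (ζ ω)‖ ∂ρ :=
            integral_map hζ.measurable.aemeasurable
              (by rw [hζ.map_eq]; exact hA.1.norm.aestronglyMeasurable)
          rw [← h5, hζ.map_eq]
      _ ≤ C * l2 m A := mul_le_mul_of_nonneg_left (e0_l1_l2 A hA) hC0
  have hlim := (tendsto_orth hR n herg c hc g hg ho).const_mul C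
  rw [mul_zero] at hlim
  have h5 : ‖∫ ω, g (ζ ω) * h ω ∂ρ‖ ≤ 0 :=
    ge_of_tendsto hlim (eventually_atTop.2 ⟨1, fun N hN => h4 N hN⟩)
  exact norm_le_zero_iff.1 h5

end Pool.Agent.Lib.H82OF
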