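import Pool.Agent.Lib.H82OF.Defs
import Pool.Agent.Lib.H22M.E0
import Pool.Agent.Lib.H22M.EG

/-!
# Project H82OF, chunk ME1: mean ergodic theorem for functions orthogonal to the eigenfunctions
-/

open MeasureTheory Filter Topology Finset ProbabilityTheory
open scoped ENNReal ComplexConjugate Matrix

namespace Pool.Agent.Lib.H82OF

open Pool.Agent.Lib.H22M Pool.Agent.Lib.H82T Pool.Agent.Lib.H82OT

/-- An eigenfunction of `R^[n]` (with an ergodic power) is an eigenfunction of `R`. -/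
private theorem ME1_eigen {B : Type*} [MeasurableSpace B] {m : Measure B} [IsProbabilityMeasure m]
    {R : B → B} (hR : MeasurePreserving R m m) (n : ℕ) (herg : Ergodic (R^[n]) m) (b : B → ℂ)
    (hb : Measurable b) (γ : ℂ) (hγ : ‖γ‖ = 1) (h : ∀ᵐ y ∂m, b (R^[n] y) = γ * b y) :
    ∃ (e : B → ℂ) (l : ℂ), BM e ∧ (∀ᵐ y ∂m, e (R y) = l * e y) ∧ ∀ᵐ y ∂m, b y = e y := by
  obtain ⟨β, hβ0, hβ⟩ := norm_const_of_eigen herg b hb γ hγ h
  have hγγ : γ * conj γ = 1 := by
    rw [Complex.mul_conj, Complex.normSq_eq_norm_sq, hγ]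
    simp
  have hse : MeasurableSet {y | ‖b y‖ ≤ β} := measurableSet_le hb.norm measurable_const
  set e : B → ℂ := {y | ‖b y‖ ≤ β}.indicator b with he
  have heb : ∀ᵐ y ∂m, b y = e y := by
    filter_upwards [hβ] with y hy
    rw [he, Set.indicator_of_mem]
    exact hy.le
  have hem : Measurable e := hb.indicator hse
  have heB : BM e := by
    refine ⟨hem, β, fun y => ?_⟩
    by_cases hy : y ∈ {y | ‖b y‖ ≤ β}
    · rw [he, Set.indicator_of_mem hy]
      exact hy
    · rw [he, Set.indicator_of_notMem hy, norm_zero]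
      exact hβ0
  have heR : ∀ᵐ y ∂m, b (R y) = e (R y) := hR.quasiMeasurePreserving.ae heb
  have hh2 : ∀ᵐ y ∂m, b (R^[n] (R y)) = γ * b (R y) := hR.quasiMeasurePreserving.ae h
  obtain ⟨l, hl⟩ := const_of_invariant herg (fun y => b (R y) * conj (b y))
    ((hb.comp hR.measurable).mul (Complex.continuous_conj.measurable.comp hb)) (by
      filter_upwards [h, hh2] with y h1 h2
      have h3 : R (R^[n] y) = R^[n] (R y) := by
        rw [← Function.iterate_succ_apply' R n y, Function.iterate_succ_apply]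
      rw [h3, h1, h2, map_mul]
      linear_combination (b (R y) * conj (b y)) * hγγ)
  by_cases hβ1 : β = 0
  · refine ⟨e, 0, heB, ?_, heb⟩
    have hβR : ∀ᵐ y ∂m, ‖b (R y)‖ = β := hR.quasiMeasurePreserving.ae hβ
    filter_upwards [hβR, heR] with y h1 h2
    rw [zero_mul, ← h2]
    rw [hβ1] at h1
    exact norm_eq_zero.1 h1
  · refine ⟨e, l / (β : ℂ) ^ 2, heB, ?_, heb⟩
    have hβc : (β : ℂ) ^ 2 ≠ 0 := by
      exact_mod_cast pow_ne_zero 2 hβ1
    filter_upwards [hl, hβ, heR, heb] with y h1 h2 h3 h4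
    rw [← h3, ← h4]
    have h5 : conj (b y) * b y = (β : ℂ) ^ 2 := by
      rw [mul_comm, Complex.mul_conj, Complex.normSq_eq_norm_sq, h2]
      push_cast
      ring
    have h1' : b (R y) * conj (b y) = l := h1
    have h6 : b (R y) * (β : ℂ) ^ 2 = l * b y := by
      rw [← h5, ← h1']
      ring
    rw [div_mul_eq_mul_div, ← h6, mul_div_assoc, div_self hβc, mul_one]

/-- Proof. Port of `tendsto_l2_zero` (`H22M/E0.lean`): in `Lp ℂ 2 m` with the isometry
`V f = c • f ∘ R^[n]` the averages converge to the orthogonal projection on the fixed vectors. A fixed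
vector `b` satisfies `b ∘ R^[n] = c⁻¹ b` a.e.; if `b ≠ 0` then `‖b‖` is constant a.e.
(`norm_const_of_eigen` for `R^[n]`, ergodic), so we may take `b` bounded (in `BM`), and as in the proof of
`eigenvalue_of_iterate` (`H22M/EG.lean`) `b (R y) conj b(y)` is invariant under `R^[n]`, so constant:
`b` is an eigenfunction of `R`, hence `g ⟂ b` by `ho`. So the projection of `g` is `0`. -/
theorem tendsto_orth {B : Type*} [MeasurableSpace B] {m : Measure B} [IsProbabilityMeasure m]
    {R : B → B} (hR : MeasurePreserving R m m) (n : ℕ) (herg : Ergodic (R^[n]) m) (c : ℂ)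
    (hc : ‖c‖ = 1) (g : B → ℂ) (hg : BM g)
    (ho : ∀ (e : B → ℂ) (l : ℂ), BM e → (∀ᵐ y ∂m, e (R y) = l * e y) →
      ∫ y, g y * conj (e y) ∂m = 0) :
    Tendsto (fun N : ℕ => l2 m fun y => (∑ j ∈ range N, c ^ j * g (R^[n * j] y)) / N) atTop
      (𝓝 0) := by
  have hRp : MeasurePreserving (R^[n]) m m := hR.iterate n
  let V : Lp ℂ 2 m →L[ℂ] Lp ℂ 2 m :=
    c • (Lp.compMeasurePreservingₗᵢ ℂ (R^[n]) hRp).toContinuousLinearMap
  have hV : ∀ g : Lp ℂ 2 m, V g =ᵐ[m] fun y => c * g (R^[n] y) := by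
    intro g
    have h1 : V g = c • Lp.compMeasurePreserving (R^[n]) hRp g := rfl
    rw [h1]
    filter_upwards [Lp.coeFn_smul c (Lp.compMeasurePreserving (R^[n]) hRp g),
      Lp.coeFn_compMeasurePreserving g hRp] with y h2 h3
    rw [h2, Pi.smul_apply, h3]
    rfl
  have hVn : ‖V‖ ≤ 1 := by
    have h1 := norm_smul_le c (Lp.compMeasurePreservingₗᵢ ℂ (R^[n]) hRp :
      Lp ℂ 2 m →ₗᵢ[ℂ] Lp ℂ 2 m).toContinuousLinearMap
    rw [hc, one_mul] at h1
    exact h1.trans (LinearIsometry.norm_toContinuousLinearMap_le _)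
  let F : Lp ℂ 2 m := (hg.memLp 2).toLp g
  have hF : F =ᵐ[m] g := (hg.memLp 2).coeFn_toLp
  have hcc : conj c * c = 1 := by
    rw [mul_comm, Complex.mul_conj, Complex.normSq_eq_norm_sq, hc]
    norm_num
  have hfix : ∀ b : Lp ℂ 2 m, V b = b → inner ℂ b F = (0 : ℂ) := by
    intro b hb
    have h1 : ∀ᵐ y ∂m, c * b (R^[n] y) = b y := by
      have := hV b
      rw [hb] at this
      filter_upwards [this] with y hy
      exact hy.symm
    have h2 : ∀ᵐ y ∂m, b (R^[n] y) = conj c * b y := by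
      filter_upwards [h1] with y hy
      rw [← hy, ← mul_assoc, hcc, one_mul]
    obtain ⟨e, l, heB, hel, hbe⟩ := ME1_eigen hR n herg (fun y => b y)
      (Lp.stronglyMeasurable b).measurable (conj c) (by rw [RCLike.norm_conj, hc]) h2
    have h3 := ho e l heB hel
    rw [L2.inner_def, ← h3]
    refine integral_congr_ae ?_
    filter_upwards [hbe, hF] with y h4 h5
    rw [RCLike.inner_apply, h4, h5]
  have hiter : ∀ j : ℕ, (V^[j] F) =ᵐ[m] fun y => c ^ j * g (R^[n * j] y) := by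
    intro j
    induction j with
    | zero =>
      filter_upwards [hF] with y hy
      simp only [Function.iterate_zero, id_eq, pow_zero, one_mul, Nat.mul_zero]
      exact hy
    | succ j ih =>
      rw [Function.iterate_succ_apply']
      have h1 : ∀ᵐ y ∂m, (V^[j] F) (R^[n] y) = c ^ j * g (R^[n * j] (R^[n] y)) :=
        hRp.quasiMeasurePreserving.ae ih
      filter_upwards [hV (V^[j] F), h1] with y h2 h3
      rw [h2, h3, ← Function.iterate_add_apply, Nat.mul_succ, pow_succ']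
      ring
  have hlim := ContinuousLinearMap.tendsto_birkhoffAverage_orthogonalProjection V hVn F
  have hz : (V.eqLocus (1 : Lp ℂ 2 m →L[ℂ] Lp ℂ 2 m)).orthogonalProjectionOnto F = 0 := by
    rw [Submodule.orthogonalProjectionOnto_eq_zero_iff, Submodule.mem_orthogonal]
    intro b hb
    exact hfix b hb
  have hz2 : (((V.eqLocus (1 : Lp ℂ 2 m →L[ℂ] Lp ℂ 2 m)).orthogonalProjectionOnto F :
      V.eqLocus (1 : Lp ℂ 2 m →L[ℂ] Lp ℂ 2 m)) : Lp ℂ 2 m) = 0 := by
    rw [hz]
    rfl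
  rw [hz2] at hlim
  have hlim2 := hlim.norm
  rw [norm_zero] at hlim2
  refine hlim2.congr fun N => ?_
  symm
  refine e0_norm _ _ ?_
  have h1 : birkhoffAverage ℂ V _root_.id N F = (N : ℂ)⁻¹ • ∑ j ∈ range N, V^[j] F := rfl
  rw [h1]
  have h2 : ∀ᵐ y ∂m, ∀ j : ℕ, (V^[j] F) y = c ^ j * g (R^[n * j] y) := ae_all_iff.2 hiter
  have h3 : ∀ N : ℕ, (⇑(∑ j ∈ range N, V^[j] F) : B → ℂ) =ᵐ[m]
      fun y => ∑ j ∈ range N, (V^[j] F) y := by
    intro N
    induction N with
    | zero =>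
      simp only [range_zero, sum_empty]
      exact Lp.coeFn_zero ℂ 2 m
    | succ N ih =>
      simp only [sum_range_succ]
      filter_upwards [Lp.coeFn_add (∑ j ∈ range N, V^[j] F) (V^[N] F), ih] with y h4 h5
      rw [h4, Pi.add_apply, h5]
  filter_upwards [Lp.coeFn_smul (N : ℂ)⁻¹ (∑ j ∈ range N, V^[j] F), h2, h3 N] with y h4 h5 h6
  rw [h4, Pi.smul_apply, h6, smul_eq_mul, div_eq_inv_mul]
  congr 1
  exact sum_congr rfl fun j _ => h5 j

end Pool.Agent.Lib.H82OF
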