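import Pool.Agent.Lib.H82OF.LVD
import Pool.Agent.Lib.H82OF.CE
import Pool.Agent.Lib.H82OT.EV3

/-!
# Project H82OF, chunk PM1: evolution of rows over a level
-/

open MeasureTheory Filter Topology Finset ProbabilityTheory
open scoped ENNReal ComplexConjugate Matrix

namespace Pool.Agent.Lib.H82OF

open Pool.Agent.Lib.H22M Pool.Agent.Lib.H82T Pool.Agent.Lib.H82OT

section

variable {Z K : Type*} [CommGroup Z] [TopologicalSpace Z] [IsTopologicalGroup Z]
  [CompactSpace Z] [T2Space Z] [SecondCountableTopology Z] [MeasurableSpace Z] [BorelSpace Z]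
  [Group K] [TopologicalSpace K] [IsTopologicalGroup K] [CompactSpace K] [T2Space K]
  [SecondCountableTopology K] [MeasurableSpace K] [BorelSpace K]

private theorem pm1_evr {Y B : Type*} {d : ℕ} (R : Y → Y) (T : B → B) (P : Y → B)
    (hPR : ∀ y, P (R y) = T (P y)) (Ψ : B → Matrix (Fin d) (Fin d) ℂ) (n : ℕ) :
    ∀ G : B → Fin d → ℂ, (evr R (fun y => Ψ (P y)))^[n] (fun y => G (P y)) =
      fun y => ((evr T Ψ)^[n] G) (P y) := by
  induction n with
  | zero => intro G; rfl
  | succ n ih =>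
    intro G
    rw [Function.iterate_succ_apply]
    have h : evr R (fun y => Ψ (P y)) (fun y => G (P y)) = fun y => (evr T Ψ G) (P y) := by
      funext y
      unfold evr
      dsimp only
      rw [hPR]
    rw [h, ih (evr T Ψ G)]
    funext y
    rw [Function.iterate_succ_apply]

private theorem pm1_bmr {B : Type*} [MeasurableSpace B] {d : ℕ} (T : B → B) (hT : Measurable T)
    (Ψ : B → Matrix (Fin d) (Fin d) ℂ) (hΨ : BMM Ψ) (n : ℕ) :
    ∀ G : B → Fin d → ℂ, BMR G → BMR ((evr T Ψ)^[n] G) := by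
  induction n with
  | zero => intro G hG; exact hG
  | succ n ih =>
    intro G hG
    rw [Function.iterate_succ_apply]
    refine ih _ fun i => ?_
    exact BM.sum Finset.univ fun k _ => ((hG k).comp hT).mul (hΨ k i)

/-- Proof. By induction on `n`: `(evr R (Ψ ∘ P))^[n] (G ∘ P) = ((evr T Ψ)^[n] G) ∘ P` (`P (R y) = T (P y)`). -/
theorem aa_comp {Y B : Type*} {d : ℕ} (R : Y → Y) (T : B → B) (P : Y → B)
    (hPR : ∀ y, P (R y) = T (P y)) (Ψ : B → Matrix (Fin d) (Fin d) ℂ) (G : B → Fin d → ℂ)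
    (n j : ℕ) (y : Y) :
    aa R (fun y => Ψ (P y)) (fun y => G (P y)) n j y = aa T Ψ G n j (P y) := by
  unfold aa
  rw [pm1_evr R T P hPR Ψ n G, pm1_evr R T P hPR Ψ j G]

/-- Proof. `evr` preserves `BMR`; finite sums of products. -/
theorem aa_bm {B : Type*} [MeasurableSpace B] {d : ℕ} (T : B → B) (hT : Measurable T)
    (Ψ : B → Matrix (Fin d) (Fin d) ℂ) (hΨ : BMM Ψ) (G : B → Fin d → ℂ) (hG : BMR G)
    (n j : ℕ) : BM (aa T Ψ G n j) := by
  have hn := pm1_bmr T hT Ψ hΨ n G hG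
  have hj := pm1_bmr T hT Ψ hΨ j G hG
  exact BM.sum Finset.univ fun k _ => (hn k).mul (hj k).conj

private theorem pm1_cond {Y Z K : Type*} [MeasurableSpace Z] [MeasurableSpace K]
    [MeasurableSpace Y] {m : Measure Y} [IsProbabilityMeasure m] (lam : Measure Z)
    [IsProbabilityMeasure lam] (muK : Measure K) [IsProbabilityMeasure muK]
    (P : Y → Z × K) (hP : MeasurePreserving P m (lam.prod muK)) (u : Z × K → ℂ) (hu : BM u) :
    (fun y => ∫ k, u ((P y).1, k) ∂muK) =ᵐ[m] m[fun y => u (P y)|ZZ P] := by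
  have hfst : MeasurePreserving (Prod.fst : Z × K → Z) (lam.prod muK) lam :=
    measurePreserving_fst
  have hP1 : MeasurePreserving (fun y => (P y).1) m lam := hfst.comp hP
  have hle : ZZ P ≤ (inferInstance : MeasurableSpace Y) := hP1.measurable.comap_le
  have huP : BM fun y => u (P y) := hu.comp hP.measurable
  have ha0 : StronglyMeasurable fun z => ∫ k, u (z, k) ∂muK :=
    (hu.1.stronglyMeasurable).integral_prod_right'
  obtain ⟨C, hC⟩ := hu.2
  have ha0b : BM fun z => ∫ k, u (z, k) ∂muK := by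
    refine ⟨ha0.measurable, C, fun z => ?_⟩
    refine (norm_integral_le_of_norm_le_const (C := C) (ae_of_all _ fun k => hC (z, k))).trans ?_
    simp
  have ha0P : BM fun y => ∫ k, u ((P y).1, k) ∂muK := ha0b.comp hP1.measurable
  refine ae_eq_condExp_of_forall_setIntegral_eq hle huP.integrable
    (fun s _ _ => ha0P.integrable.integrableOn) ?_ ?_
  · rintro s ⟨A, hA, rfl⟩ _
    have h1 : ∫ y in (fun y => (P y).1) ⁻¹' A, (∫ k, u ((P y).1, k) ∂muK) ∂m =
        ∫ z in A, (∫ k, u (z, k) ∂muK) ∂lam := by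
      rw [← hP1.map_eq]
      rw [setIntegral_map hA ?_ hP1.measurable.aemeasurable]
      rw [hP1.map_eq]
      exact ha0.aestronglyMeasurable
    have hAu : MeasurableSet (A ×ˢ (Set.univ : Set K)) := hA.prod MeasurableSet.univ
    have h2 : ∫ y in (fun y => (P y).1) ⁻¹' A, u (P y) ∂m =
        ∫ x in A ×ˢ (Set.univ : Set K), u x ∂(lam.prod muK) := by
      rw [← hP.map_eq]
      rw [setIntegral_map hAu ?_ hP.measurable.aemeasurable]
      · refine congrArg (fun S => ∫ y in S, u (P y) ∂m) ?_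
        ext y
        simp
      · rw [hP.map_eq]
        exact hu.1.aestronglyMeasurable
    have h3 : ∫ x in A ×ˢ (Set.univ : Set K), u x ∂(lam.prod muK) =
        ∫ z in A, (∫ k, u (z, k) ∂muK) ∂lam := by
      rw [setIntegral_prod _ (hu.integrable.integrableOn)]
      simp
    rw [h1, h2, h3]
  · have h4 : Measurable[ZZ P] fun y => ∫ k, u ((P y).1, k) ∂muK :=
      ha0.measurable.comp (comap_measurable fun y => (P y).1)
    exact (h4.stronglyMeasurable).aestronglyMeasurable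

/-- The conditional expectation of the correlations given the first coordinate of `P`.
Proof. Let `ℬ = BB P`, `𝒵 = ZZ P`. The row `F y = G (P y)` is in `RowB ℬ` and normal. By `aa_condExp`
(`H82OT/EV3.lean`; `R` preserves `m`, `h.inv`-type invariance is the hypothesis `hinv`) and `aa_comp`
`m[g(R^n ·) conj g(R^j ·)|ℬ] = (aa T Ψ G n j) ∘ P` a.e. (`g = F ⬝ᵥ E` a.e., and `R` preserves `m`). By the
tower property (`condExp_condExp_of_le`) the conditional expectation given `𝒵` is that of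
`(aa T Ψ G n j) ∘ P` given `(P y).1`, which is `a₀ (P y).1`, `a₀ z = ∫ aa (z, k) dk` (the law of `P` is
`lam.prod muK`, Fubini: `∫ h(z) aa(z, k) = ∫ h(z) a₀(z)`; `ae_eq_condExp_of_forall_setIntegral_eq` or
`wb_ae_eq` in CE with a version from `exists_version`). Then `∫ ‖a₀ (P y).1‖ dm = ∫ ‖a₀ z‖ dlam`. -/
theorem aa_zero_part {Y : Type*} [MeasurableSpace Y] {m : Measure Y} [IsProbabilityMeasure m]
    (R : Y ≃ᵐ Y) (hR : MeasurePreserving R m m) (lam : Measure Z) [IsProbabilityMeasure lam]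
    (muK : Measure K) [IsProbabilityMeasure muK] (T : Z × K → Z × K) (hT : Measurable T)
    (P : Y → Z × K) (hP : MeasurePreserving P m (lam.prod muK)) (hPR : ∀ y, P (R y) = T (P y))
    (hinv : (BB P).comap R = BB P) {e : ℕ} (Ψ : Z × K → Matrix (Fin e) (Fin e) ℂ) (hΨ : BMM Ψ)
    (hu : ∀ x, Ψ x * (Ψ x)ᴴ = 1) {Γ : Y → Matrix (Fin e) (Fin e) ℂ} {E : Y → Fin e → ℂ}
    (hM : IsMod (BB P) m R (fun y => Ψ (P y)) Γ E) (g : Y → ℂ) (hg : BM g)
    (G : Z × K → Fin e → ℂ) (hG : BMR G) (hGΓ : ∀ y, G (P y) ᵥ* Γ y = G (P y))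
    (hgG : ∀ᵐ y ∂m, g y = G (P y) ⬝ᵥ E y) (n j : ℕ) :
    ∫ z, ‖∫ k, aa T Ψ G n j (z, k) ∂muK‖ ∂lam =
      ∫ y, ‖(m[fun x => g (R^[n] x) * conj (g (R^[j] x))|ZZ P]) y‖ ∂m := by
  have hu1 := aa_bm T hT Ψ hΨ G hG n j
  have hfst : MeasurePreserving (Prod.fst : Z × K → Z) (lam.prod muK) lam :=
    measurePreserving_fst
  have hP1 : MeasurePreserving (fun y => (P y).1) m lam := hfst.comp hP
  have hle : BB P ≤ (inferInstance : MeasurableSpace Y) := hP.measurable.comap_le
  have hZB : ZZ P ≤ BB P := by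
    have h1 : Measurable[BB P] fun y => (P y).1 := measurable_fst.comp (comap_measurable P)
    exact h1.comap_le
  choose! CG hCG using fun i => (hG i).2
  have hF : RowB (BB P) fun y => G (P y) := by
    refine ⟨fun i => (hG i).1.comp (comap_measurable P), ∑ i, |CG i|, fun y i => ?_⟩
    refine (hCG i (P y)).trans ((le_abs_self _).trans ?_)
    exact Finset.single_le_sum (f := fun i => |CG i|) (fun i _ => abs_nonneg _)
      (Finset.mem_univ i)
  have h1 := aa_condExp (BB P) hle hR hinv hM (fun y => G (P y)) hF hGΓ n j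
  have hgn := ((hR.iterate n).quasiMeasurePreserving).ae hgG
  have hgj := ((hR.iterate j).quasiMeasurePreserving).ae hgG
  have h2 : (fun x => g (R^[n] x) * conj (g (R^[j] x))) =ᵐ[m]
      fun y => (G (P (R^[n] y)) ⬝ᵥ E (R^[n] y)) * conj (G (P (R^[j] y)) ⬝ᵥ E (R^[j] y)) := by
    filter_upwards [hgn, hgj] with y h1 h2
    rw [h1, h2]
  have h3 : m[fun x => g (R^[n] x) * conj (g (R^[j] x))|BB P] =ᵐ[m]
      fun y => aa T Ψ G n j (P y) := by
    refine (condExp_congr_ae h2).trans (h1.trans ?_)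
    exact ae_of_all _ fun y => aa_comp R T P hPR Ψ G n j y
  have h4 : m[fun x => g (R^[n] x) * conj (g (R^[j] x))|ZZ P] =ᵐ[m]
      fun y => ∫ k, aa T Ψ G n j ((P y).1, k) ∂muK := by
    refine (condExp_condExp_of_le hZB hle).symm.trans ((condExp_congr_ae h3).trans ?_)
    exact (pm1_cond lam muK P hP _ hu1).symm
  have h5 : ∫ y, ‖(m[fun x => g (R^[n] x) * conj (g (R^[j] x))|ZZ P]) y‖ ∂m =
      ∫ y, ‖∫ k, aa T Ψ G n j ((P y).1, k) ∂muK‖ ∂m := by
    refine integral_congr_ae ?_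
    filter_upwards [h4] with y hy
    rw [hy]
  rw [h5]
  have ha0 : StronglyMeasurable fun z => ∫ k, aa T Ψ G n j (z, k) ∂muK :=
    (hu1.1.stronglyMeasurable).integral_prod_right'
  rw [← hP1.map_eq, integral_map hP1.measurable.aemeasurable]
  rw [hP1.map_eq]
  exact ha0.norm.aestronglyMeasurable

end

end Pool.Agent.Lib.H82OF
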