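import Pool.Agent.Lib.H82OF.XK3
import Pool.Agent.Lib.H82OF.CQ2
import Pool.Agent.Lib.H82OF.LVD

/-!
# Project H82OF, chunk PM2: the bound for one joining
-/

open MeasureTheory Filter Topology Finset ProbabilityTheory
open scoped ENNReal ComplexConjugate Matrix

namespace Pool.Agent.Lib.H82OF

open Pool.Agent.Lib.H22M Pool.Agent.Lib.H82T Pool.Agent.Lib.H82OT

/-- Proof. `X` from `pair_kernel` (XK3), `γ` from `central` (CQ2) with the bound `C = d (CE CE')` of `X`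
(`σ` is invariant under `T × T`). Write `Q(G, H) = QQ σ X G H`. By `pair_kernel` the square of the
integral is at most `CF ‖Q(G₂, G₂)‖`, `Q(G₂, G₂) = Q(G₂, G₁) + Q(G₂, G₂ - G₁)` (linearity), the second
term is at most `CE l2(g₂) l2(g₂ - g₁)`, and `‖Q(G₂, G₁)‖² N² ≤ e² ∑ ‖∫ …‖` by `central`. -/
theorem pair_bound {Y B : Type*} [MeasurableSpace Y] [MeasurableSpace B]
    [StandardBorelSpace B] {m : Measure Y}
    [IsProbabilityMeasure m] {mb : Measure B} [IsProbabilityMeasure mb] (R : Y ≃ᵐ Y)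
    (hR : MeasurePreserving R m m)
    (T : B ≃ᵐ B) (hT : MeasurePreserving T mb mb) {P : Y → B}
    (hP : MeasurePreserving P m mb) (hPR : ∀ y, P (R y) = T (P y))
    {d e : ℕ} {Ψ : B → Matrix (Fin d) (Fin d) ℂ} {Ψ' : B → Matrix (Fin e) (Fin e) ℂ}
    (hΨ : BMM Ψ) (hΨ' : BMM Ψ') (hu : ∀ x, Ψ x * (Ψ x)ᴴ = 1) (hu' : ∀ x, Ψ' x * (Ψ' x)ᴴ = 1)
    (E : Y → Fin d → ℂ) (E' : Y → Fin e → ℂ) (hE : BMR E) (hE' : BMR E')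
    (hER : ∀ᵐ y ∂m, E (R y) = Ψ (P y) *ᵥ E y) (hER' : ∀ᵐ y ∂m, E' (R y) = Ψ' (P y) *ᵥ E' y)
    (CE CE' CF : ℝ) (hCE0 : 0 ≤ CE) (hCE0' : 0 ≤ CE') (hCF0 : 0 ≤ CF)
    (hCE : ∀ y, ∑ i, ‖E y i‖ ^ 2 ≤ CE) (hCE' : ∀ y, ∑ i, ‖E' y i‖ ^ 2 ≤ CE')
    (F : B → Fin d → ℂ) (hF : BMR F) (hCF : ∀ x, ∑ i, ‖F x i‖ ^ 2 ≤ CF)
    (G₁ G₂ : B → Fin e → ℂ) (hG₁ : BMR G₁) (hG₂ : BMR G₂)
    {p q : ℕ} {ρ : Measure (Y × Y)} (hρ : IsJoin m R p q ρ) {σ : Measure (B × B)}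
    (hσ : IsRel T p q (ρ.map (Prod.map P P)) σ)
    (hσT : MeasurePreserving (Prod.map T T) σ σ) (N : ℕ) (hN : 1 ≤ N) :
    ∃ γ : ℕ → ℕ → B × B → ℂ, (∀ n j, BM (γ n j) ∧
        (∀ w, ‖γ n j w‖ ≤ (e : ℝ) ^ 2 * (d * (CE * CE')) ^ 2) ∧
        ∀ᵐ w ∂σ, γ n j (Prod.map (T^[q]) (T^[q]) w) = γ n j w) ∧
      ∃ S : ℝ, 0 ≤ S ∧ S ^ 2 * (N : ℝ) ^ 2 ≤ (e : ℝ) ^ 2 * ∑ n ∈ range N, ∑ j ∈ range N,
          ‖∫ w, γ n j w * (aa T Ψ' G₂ n j w.1 * conj (aa T Ψ' G₁ n j w.2)) ∂σ‖ ∧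
        ‖∫ z, (F (P z.1) ⬝ᵥ E z.1) * conj (G₂ (P z.2) ⬝ᵥ E' z.2) ∂ρ‖ ^ 2 ≤
          CF * (S + CE * (l2 m (fun y => G₂ (P y) ⬝ᵥ E' y) *
            l2 m (fun y => G₂ (P y) ⬝ᵥ E' y - G₁ (P y) ⬝ᵥ E' y))) := by
  have hσ1 : IsProbabilityMeasure σ := hσ.prob
  obtain ⟨X, hX, hXC, hXq, hK, hQ⟩ := pair_kernel R hR T hT hP hPR hΨ hΨ' hu hu' E E' hE hE' hER hER'
    CE CE' hCE0 hCE0' hCE hCE' hρ hσ
  obtain ⟨γ, hγ, hc⟩ := central σ T T.measurable hσT Ψ' hΨ' hu' X hX (d * (CE * CE')) (by positivity)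
    hXC q hXq
  refine ⟨γ, hγ, ‖QQ σ X G₂ G₁‖, norm_nonneg _, hc G₂ G₁ hG₂ hG₁ N, ?_⟩
  have hG : BMR fun x i => G₂ x i - G₁ x i := fun i => (hG₂ i).sub (hG₁ i)
  have hint : ∀ H : B → Fin e → ℂ, BMR H → Integrable
      (fun w : B × B => ∑ i, ∑ j, G₂ w.1 i * X w i j * conj (H w.2 j)) σ := by
    intro H hH
    refine integrable_finsetSum _ fun i _ => integrable_finsetSum _ fun j _ => ?_
    exact ((((hG₂ i).comp measurable_fst).mul (hX i j)).mul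
      ((hH j).comp measurable_snd).conj).integrable
  have hlin : QQ σ X G₂ G₂ = QQ σ X G₂ G₁ + QQ σ X G₂ (fun x i => G₂ x i - G₁ x i) := by
    unfold QQ
    rw [← integral_add (hint G₁ hG₁) (hint _ hG)]
    refine integral_congr_ae (Eventually.of_forall fun w => ?_)
    simp only
    rw [← Finset.sum_add_distrib]
    refine Finset.sum_congr rfl fun i _ => ?_
    rw [← Finset.sum_add_distrib]
    refine Finset.sum_congr rfl fun j _ => ?_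
    rw [map_sub]
    ring
  have h1 : ∫ x, ∑ i, ‖F x i‖ ^ 2 ∂mb ≤ CF := by
    have h2 : ∫ x, ∑ i, ‖F x i‖ ^ 2 ∂mb ≤ ∫ _, CF ∂mb := by
      refine integral_mono_of_nonneg (Eventually.of_forall fun x => ?_) (integrable_const _)
        (Eventually.of_forall hCF)
      exact Finset.sum_nonneg fun i _ => by positivity
    simpa using h2
  have h3 : ‖QQ σ X G₂ G₂‖ ≤ ‖QQ σ X G₂ G₁‖ + CE * (l2 m (fun y => G₂ (P y) ⬝ᵥ E' y) *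
      l2 m (fun y => G₂ (P y) ⬝ᵥ E' y - G₁ (P y) ⬝ᵥ E' y)) := by
    rw [hlin]
    refine (norm_add_le _ _).trans (add_le_add le_rfl ?_)
    have h4 := hQ G₂ (fun x i => G₂ x i - G₁ x i) hG₂ hG
    have h5 : (fun y => (fun i => G₂ (P y) i - G₁ (P y) i) ⬝ᵥ E' y) =
        fun y => G₂ (P y) ⬝ᵥ E' y - G₁ (P y) ⬝ᵥ E' y := by
      funext y
      exact sub_dotProduct (G₂ (P y)) (G₁ (P y)) (E' y)
    rw [h5] at h4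
    exact h4
  calc ‖∫ z, (F (P z.1) ⬝ᵥ E z.1) * conj (G₂ (P z.2) ⬝ᵥ E' z.2) ∂ρ‖ ^ 2
      ≤ (∫ x, ∑ i, ‖F x i‖ ^ 2 ∂mb) * ‖QQ σ X G₂ G₂‖ := hK F G₂ hF hG₂
    _ ≤ CF * ‖QQ σ X G₂ G₂‖ := mul_le_mul_of_nonneg_right h1 (norm_nonneg _)
    _ ≤ _ := mul_le_mul_of_nonneg_left h3 hCF0

end Pool.Agent.Lib.H82OF
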