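import Pool.Agent.Lib.H82OF.PM1
import Pool.Agent.Lib.H82OF.PM2
import Pool.Agent.Lib.H82OF.LV1
import Pool.Agent.Lib.H82OF.LV2
import Pool.Agent.Lib.H82OF.LJ6
import Pool.Agent.Lib.H82OF.SI
import Pool.Agent.Lib.H82OT.EV1

/-!
# Project H82OF, chunk PM3: pairs of functions of modules
-/

open MeasureTheory Filter Topology Finset ProbabilityTheory
open scoped ENNReal ComplexConjugate Matrix

namespace Pool.Agent.Lib.H82OF

open Pool.Agent.Lib.H22M Pool.Agent.Lib.H82T Pool.Agent.Lib.H82OT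

/-- Averages over the fibre are bounded and measurable. -/
private theorem pm3_bm {Z K : Type*} [MeasurableSpace Z] [MeasurableSpace K] (muK : Measure K)
    [IsProbabilityMeasure muK] (a : Z × K → ℂ) (ha : BM a) :
    BM fun z => ∫ k, a (z, k) ∂muK := by
  obtain ⟨h1, C, hC⟩ := ha
  refine ⟨?_, C, fun z => ?_⟩
  · exact (h1.stronglyMeasurable.integral_prod_right' (ν := muK)).measurable
  · refine (norm_integral_le_of_norm_le_const (C := C) (Eventually.of_forall fun k => hC _)).trans ?_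
    simp

/-- The function minus its average over the fibre is orthogonal to the functions of the first
coordinate. -/
private theorem pm3_orth {Z K : Type*} [MeasurableSpace Z] [MeasurableSpace K] (lam : Measure Z)
    [IsProbabilityMeasure lam] (muK : Measure K) [IsProbabilityMeasure muK] (a : Z × K → ℂ)
    (ha : BM a) (h : Z → ℂ) (hh : BM h) :
    ∫ y, (a y - ∫ k, a (y.1, k) ∂muK) * conj (h y.1) ∂(lam.prod muK) = 0 := by
  have h1 : BM fun y : Z × K => (a y - ∫ k, a (y.1, k) ∂muK) * conj (h y.1) :=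
    (ha.sub ((pm3_bm muK a ha).comp measurable_fst)).mul (hh.comp measurable_fst).conj
  rw [integral_prod _ h1.integrable]
  refine integral_eq_zero_of_ae (Eventually.of_forall fun z => ?_)
  show ∫ k, (a (z, k) - ∫ k', a (z, k') ∂muK) * conj (h z) ∂muK = 0
  have h2 : BM fun k => a (z, k) := ha.comp measurable_prodMk_left
  rw [integral_mul_const, integral_sub h2.integrable (integrable_const _)]
  simp

/-- One term. -/
private theorem pm3_term {Z K : Type*} [MeasurableSpace Z] [MeasurableSpace K] (lam : Measure Z)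
    [IsProbabilityMeasure lam] (muK : Measure K) [IsProbabilityMeasure muK]
    (σ : Measure ((Z × K) × (Z × K))) [IsProbabilityMeasure σ]
    (hfst : σ.map Prod.fst = lam.prod muK)
    (J : (Z × K) × (Z × K) → ℂ) (hJ : BM J) (c : ℝ) (hc0 : 0 ≤ c) (hc : ∀ z, ‖J z‖ ≤ c)
    (a b : Z × K → ℂ) (a₀ : Z → ℂ)
    (ha : BM a) (ha₀ : BM a₀) (hb : BM b) (B : ℝ) (hB : ∀ y, ‖b y‖ ≤ B) (η : ℝ)
    (h : ‖∫ w, J w * ((a w.1 - a₀ w.1.1) * conj (b w.2)) ∂σ‖ ≤ η) :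
    ‖∫ w, J w * (a w.1 * conj (b w.2)) ∂σ‖ ≤ η + c * B * ∫ z, ‖a₀ z‖ ∂lam := by
  have hbz : BM fun w : (Z × K) × (Z × K) => conj (b w.2) := (hb.comp measurable_snd).conj
  have ha₀1 : BM fun w : (Z × K) × (Z × K) => a₀ w.1.1 :=
    ha₀.comp (measurable_fst.comp measurable_fst)
  have ha1 : BM fun w : (Z × K) × (Z × K) => a w.1 := ha.comp measurable_fst
  have h1 : BM fun w : (Z × K) × (Z × K) => J w * ((a w.1 - a₀ w.1.1) * conj (b w.2)) :=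
    hJ.mul ((ha1.sub ha₀1).mul hbz)
  have h2 : BM fun w : (Z × K) × (Z × K) => J w * (a₀ w.1.1 * conj (b w.2)) :=
    hJ.mul (ha₀1.mul hbz)
  have h3 : ∫ w, J w * (a w.1 * conj (b w.2)) ∂σ =
      ∫ w, J w * ((a w.1 - a₀ w.1.1) * conj (b w.2)) ∂σ +
        ∫ w, J w * (a₀ w.1.1 * conj (b w.2)) ∂σ := by
    rw [← integral_add h1.integrable h2.integrable]
    refine integral_congr_ae (Eventually.of_forall fun w => ?_)
    show J w * (a w.1 * conj (b w.2)) = J w * ((a w.1 - a₀ w.1.1) * conj (b w.2)) +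
      J w * (a₀ w.1.1 * conj (b w.2))
    ring
  have h4 : ‖∫ w, J w * (a₀ w.1.1 * conj (b w.2)) ∂σ‖ ≤ c * B * ∫ z, ‖a₀ z‖ ∂lam := by
    have h5 : ∫ z, ‖a₀ z‖ ∂lam = ∫ w, ‖a₀ w.1.1‖ ∂σ := by
      have h6 : (lam.prod muK).map Prod.fst = lam := by simp
      have h7 : ∫ z, ‖a₀ z‖ ∂lam = ∫ y, ‖a₀ y.1‖ ∂(lam.prod muK) := by
        conv_lhs => rw [← h6]
        rw [integral_map measurable_fst.aemeasurable ha₀.1.norm.aestronglyMeasurable]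
      rw [h7, ← hfst, integral_map measurable_fst.aemeasurable]
      exact (ha₀.1.comp measurable_fst).norm.aestronglyMeasurable
    rw [h5, ← integral_const_mul]
    refine (norm_integral_le_integral_norm _).trans ?_
    refine integral_mono h2.integrable.norm ?_ fun w => ?_
    · exact (ha₀1.integrable (m := σ)).norm.const_mul _
    · show ‖J w * (a₀ w.1.1 * conj (b w.2))‖ ≤ c * B * ‖a₀ w.1.1‖
      rw [norm_mul, norm_mul, RCLike.norm_conj]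
      calc ‖J w‖ * (‖a₀ w.1.1‖ * ‖b w.2‖) ≤ c * (‖a₀ w.1.1‖ * B) :=
            mul_le_mul (hc w) (mul_le_mul_of_nonneg_left (hB _) (norm_nonneg _))
              (mul_nonneg (norm_nonneg _) (norm_nonneg _)) hc0
        _ = c * B * ‖a₀ w.1.1‖ := by ring
  rw [h3]
  exact (norm_add_le _ _).trans (add_le_add h h4)

/-- Equal norms in `L²` for functions equal almost everywhere. -/
private theorem pm3_l2 {Y : Type*} [MeasurableSpace Y] {m : Measure Y} {f g : Y → ℂ}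
    (h : ∀ᵐ y ∂m, f y = g y) : l2 m f = l2 m g := by
  unfold l2
  congr 1
  refine integral_congr_ae ?_
  filter_upwards [h] with y hy
  rw [hy]

/-- The final estimate. -/
private theorem pm3_arith (e2 C₁ T2 δ ε' S2 N2 I A : ℝ) (he : 0 ≤ e2) (hC : 0 ≤ C₁) (hT : 0 ≤ T2)
    (hN : 0 < N2) (hε : 0 < ε') (h1 : S2 * N2 ≤ e2 * I)
    (h2 : I ≤ N2 * ((C₁ + 1) * (ε' / ((e2 + 1) * (C₁ + 1)))) + C₁ * T2 * A)
    (h3 : A ≤ δ * N2) : S2 ≤ e2 * (C₁ * T2 * δ) + ε' := by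
  have h4 : (C₁ + 1) * (ε' / ((e2 + 1) * (C₁ + 1))) = ε' / (e2 + 1) := by
    field_simp
  rw [h4] at h2
  have h5 : C₁ * T2 * A ≤ C₁ * T2 * (δ * N2) :=
    mul_le_mul_of_nonneg_left h3 (mul_nonneg hC hT)
  have h6 : e2 * (ε' / (e2 + 1)) ≤ ε' := by
    rw [mul_div_assoc', div_le_iff₀ (by linarith)]
    nlinarith
  refine le_of_mul_le_mul_right ?_ hN
  calc S2 * N2 ≤ e2 * (N2 * (ε' / (e2 + 1)) + C₁ * T2 * (δ * N2)) :=
        h1.trans (mul_le_mul_of_nonneg_left (h2.trans (by linarith)) he)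
    _ = (e2 * (C₁ * T2 * δ) + e2 * (ε' / (e2 + 1))) * N2 := by ring
    _ ≤ (e2 * (C₁ * T2 * δ) + ε') * N2 :=
        mul_le_mul_of_nonneg_right (by linarith) hN.le

section

variable {Z K : Type*} [CommGroup Z] [TopologicalSpace Z] [IsTopologicalGroup Z]
  [CompactSpace Z] [T2Space Z] [SecondCountableTopology Z] [MeasurableSpace Z] [BorelSpace Z]
  [Group K] [TopologicalSpace K] [IsTopologicalGroup K] [CompactSpace K] [T2Space K]
  [SecondCountableTopology K] [MeasurableSpace K] [BorelSpace K]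

/-- Let `lam.prod muK = mb`, `T = skew α φ`. Proof. Let `G₂` be a normal row of `g₂` (`ModV.normal`,
`rowB_factor`), `a n j = aa T Ψ' G₂ n j`, `b n j = aa T Ψ' G₁ n j` (`aa_bm`; `‖b‖ ≤ T₀²` by `aa_bound`),
`a₀ z = ∫ a n j (z, k) dk`, `a' = a - a₀ ∘ fst`, bounded and orthogonal to the functions of `z` (Fubini).
Let `C₁ = e² (d CE CE')²`, `ε'' = ε' / (e² (C₁ + 1))`-like (if `e = 0` all is trivial). By `lemma_J` (LJ6)
for `a'`, `b` and `ε''`: `F_nj, m_nj`; `F0` = the union, `m0` = the sum over `n, j < N`. Let `p` be good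
(`Lev.goodPrimes_eq`) and `q` in `Q` with joining `ρ`; `σ` = the relative square of
`ρ_B = ρ.map (P × P)` (`exists_isRel`, `isJoin_map`), by `relSq_invariant_RR` (SI) a `RelSq`, invariant under
`T × T`. `γ, S` from `pair_bound`. Suppose that `q` is not bad (`BadJ`) for any `(a' n j, b n j)`. Then, with
`J = γ / (C₁ + 1)`: `‖∫ γ a' ⊗ conj b dσ‖ ≤ (C₁ + 1) ε''`, and
`‖∫ γ a₀(w.1.1) conj b dσ‖ ≤ C₁ T₀² ∫ ‖a₀‖ dlam` (first marginal of `σ`), where by `aa_zero_part` and `hcorr`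
the sum of the `∫ ‖a₀‖` is at most `δ N²`. So `S² N² ≤ e² (C₁ T₀² δ N² + (C₁ + 1) ε'' N²)`, i.e.
`S ≤ √(e² C₁ T₀² δ + ε')`: contradiction to the assumption on `q`. So every `q` in `Q` is bad for one of
the `N²` pairs, `Q.card ≤ ∑ m_nj`. -/
theorem mod_pair_P {Y : Type*} [MeasurableSpace Y] {m : Measure Y} [IsProbabilityMeasure m]
    (R : Y ≃ᵐ Y) (hR : Ergodic R m) (lam : Measure Z) [lam.IsHaarMeasure]
    [IsProbabilityMeasure lam] (muK : Measure K) [muK.IsHaarMeasure] [IsProbabilityMeasure muK]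
    {α : Z} {φ : Z → K} {P : Y → Z × K} (hL : Lev m R lam muK α φ P) {d e : ℕ}
    (Ψ : Z × K → Matrix (Fin d) (Fin d) ℂ) (Ψ' : Z × K → Matrix (Fin e) (Fin e) ℂ)
    (hΨ : BMM Ψ) (hΨ' : BMM Ψ') (hu : ∀ x, Ψ x * (Ψ x)ᴴ = 1) (hu' : ∀ x, Ψ' x * (Ψ' x)ᴴ = 1)
    (E : Y → Fin d → ℂ) (hE : BMR E) (hER : ∀ᵐ y ∂m, E (R y) = Ψ (P y) *ᵥ E y)
    {Γ' : Y → Matrix (Fin e) (Fin e) ℂ} (E' : Y → Fin e → ℂ)
    (hM : IsMod (BB P) m R (fun y => Ψ' (P y)) Γ' E')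
    (CE CE' CF : ℝ) (hCE0 : 0 ≤ CE) (hCE0' : 0 ≤ CE') (hCF0 : 0 ≤ CF)
    (hCE : ∀ y, ∑ i, ‖E y i‖ ^ 2 ≤ CE) (hCE' : ∀ y, ∑ i, ‖E' y i‖ ^ 2 ≤ CE')
    (F : Z × K → Fin d → ℂ) (hF : BMR F) (hCF : ∀ x, ∑ i, ‖F x i‖ ^ 2 ≤ CF)
    (g₂ : Y → ℂ) (hg₂ : ModV (BB P) m E' g₂) (g₁ : Y → ℂ) (G₁ : Z × K → Fin e → ℂ)
    (hG₁ : BMR G₁) (hg₁ : ∀ᵐ y ∂m, g₁ y = G₁ (P y) ⬝ᵥ E' y) (T₀ : ℝ) (hT0 : 0 ≤ T₀)
    (hT : ∀ x, ∑ i, ‖G₁ x i‖ ^ 2 ≤ T₀ ^ 2) (δ : ℝ) (hδ : 0 ≤ δ) (N : ℕ) (hN : 1 ≤ N)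
    (hcorr : ∑ n ∈ range N, ∑ j ∈ range N,
      ∫ y, ‖(m[fun x => g₂ (R^[n] x) * conj (g₂ (R^[j] x))|ZZ P]) y‖ ∂m ≤ δ * (N : ℝ) ^ 2)
    (ε' : ℝ) (hε' : 0 < ε') :
    ∃ F0 : Finset ℂ, (1 : ℂ) ∉ F0 ∧ ∃ m0 : ℕ, ∀ p ∈ goodPrimes m R F0, ∀ Q : Finset ℕ,
      (∀ q ∈ Q, q.Prime ∧ q ≠ p ∧ ∃ ρ : Measure (Y × Y), IsJoin m R p q ρ ∧
        CF * (Real.sqrt ((e : ℝ) ^ 2 * ((e : ℝ) ^ 2 * (d * (CE * CE')) ^ 2 * T₀ ^ 2 * δ) + ε') +
          CE * (l2 m g₂ * l2 m (fun y => g₂ y - g₁ y))) <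
        ‖∫ z, (F (P z.1) ⬝ᵥ E z.1) * conj (g₂ z.2) ∂ρ‖ ^ 2) → Q.card ≤ m0 := by
  classical
  have hMP : MeasurePreserving R m m := hR.toMeasurePreserving
  have hle : BB P ≤ (inferInstance : MeasurableSpace Y) := hL.pres.measurable.comap_le
  have hmE : BMR E' := fun i => hM.bmE i
  have : StandardBorelSpace Z := standardBorel_of_compact Z
  have : StandardBorelSpace K := standardBorel_of_compact K
  have hTp : MeasurePreserving (skew (M := K) α φ) (lam.prod muK) (lam.prod muK) :=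
    hL.base.erg.toMeasurePreserving
  obtain ⟨F₂, hF₂, hF₂Γ, hgF₂⟩ := ModV.normal (BB P) hle hM g₂ hg₂
  obtain ⟨G₂, hG₂, hFG₂⟩ := rowB_factor P F₂ hF₂
  have hG₂Γ : ∀ y, G₂ (P y) ᵥ* Γ' y = G₂ (P y) := fun y => by rw [← hFG₂ y]; exact hF₂Γ y
  have hgG₂ : ∀ᵐ y ∂m, g₂ y = G₂ (P y) ⬝ᵥ E' y := by
    filter_upwards [hgF₂] with y hy
    rw [hy, hFG₂ y]
  have haB : ∀ n j, BM (aa (skew (M := K) α φ) Ψ' G₂ n j) := fun n j =>
    aa_bm _ hTp.measurable Ψ' hΨ' G₂ hG₂ n j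
  have hbB : ∀ n j, BM (aa (skew (M := K) α φ) Ψ' G₁ n j) := fun n j =>
    aa_bm _ hTp.measurable Ψ' hΨ' G₁ hG₁ n j
  have hbb : ∀ n j y, ‖aa (skew (M := K) α φ) Ψ' G₁ n j y‖ ≤ T₀ ^ 2 := fun n j y =>
    aa_bound _ Ψ' hu' G₁ T₀ hT0 hT n j y
  have ha₀B : ∀ n j, BM fun z => ∫ k, aa (skew (M := K) α φ) Ψ' G₂ n j (z, k) ∂muK :=
    fun n j => pm3_bm muK _ (haB n j)
  have ha₀i : ∀ n j, ∫ z, ‖∫ k, aa (skew (M := K) α φ) Ψ' G₂ n j (z, k) ∂muK‖ ∂lam =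
      ∫ y, ‖(m[fun x => g₂ (R^[n] x) * conj (g₂ (R^[j] x))|ZZ P]) y‖ ∂m := fun n j =>
    aa_zero_part R hMP lam muK (skew (M := K) α φ) hTp.measurable P hL.pres hL.equi hL.inv Ψ' hΨ'
      hu' hM g₂ hg₂.1 G₂ hG₂ hG₂Γ hgG₂ n j
  set C₁ : ℝ := (e : ℝ) ^ 2 * (d * (CE * CE')) ^ 2 with hC₁
  have hC₁0 : 0 ≤ C₁ := by positivity
  have hη : 0 < ε' / (((e : ℝ) ^ 2 + 1) * (C₁ + 1)) := by positivity
  have hSm : ∀ n j : ℕ, SmJ (lam.prod muK) (skew (M := K) α φ)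
      (fun y => aa (skew (M := K) α φ) Ψ' G₂ n j y -
        ∫ k, aa (skew (M := K) α φ) Ψ' G₂ n j (y.1, k) ∂muK)
      (aa (skew (M := K) α φ) Ψ' G₁ n j) := fun n j =>
    lemma_J lam muK hL.base _ _ ((haB n j).sub ((ha₀B n j).comp measurable_fst)) (hbB n j)
      (fun h hh => pm3_orth lam muK _ (haB n j) h hh)
  choose FF hFF1 MM hFF using fun n j : ℕ => hSm n j _ hη
  refine ⟨(range N ×ˢ range N).biUnion fun t => FF t.1 t.2, ?_,
    ∑ t ∈ range N ×ˢ range N, MM t.1 t.2, ?_⟩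
  · rw [Finset.mem_biUnion]
    rintro ⟨t, _, ht⟩
    exact hFF1 _ _ ht
  intro p hp Q hQ
  rw [Lev.goodPrimes_eq hMP hL] at hp
  have hpp : ∀ t ∈ range N ×ˢ range N,
      p ∈ goodPrimes (lam.prod muK) (skew (M := K) α φ) (FF t.1 t.2) := fun t ht =>
    ⟨hp.1, fun c hc => hp.2 c (Finset.mem_biUnion.2 ⟨t, ht, hc⟩)⟩
  have hcov : Q ⊆ (range N ×ˢ range N).biUnion fun t => Q.filter fun q =>
      BadJ (lam.prod muK) (skew (M := K) α φ)
        (fun y => aa (skew (M := K) α φ) Ψ' G₂ t.1 t.2 y -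
          ∫ k, aa (skew (M := K) α φ) Ψ' G₂ t.1 t.2 (y.1, k) ∂muK)
        (aa (skew (M := K) α φ) Ψ' G₁ t.1 t.2) (ε' / (((e : ℝ) ^ 2 + 1) * (C₁ + 1))) p q := by
    intro q hq
    by_contra hcon
    obtain ⟨hq1, hqp, ρ, hρ, hlt⟩ := hQ q hq
    have hnb : ∀ t ∈ range N ×ˢ range N, ¬ BadJ (lam.prod muK) (skew (M := K) α φ)
        (fun y => aa (skew (M := K) α φ) Ψ' G₂ t.1 t.2 y -
          ∫ k, aa (skew (M := K) α φ) Ψ' G₂ t.1 t.2 (y.1, k) ∂muK)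
        (aa (skew (M := K) α φ) Ψ' G₁ t.1 t.2) (ε' / (((e : ℝ) ^ 2 + 1) * (C₁ + 1))) p q := by
      intro t ht hbad
      exact hcon (Finset.mem_biUnion.2 ⟨t, ht, Finset.mem_filter.2 ⟨hq, hbad⟩⟩)
    have hρp := hρ.prob
    have hρB : IsJoin (lam.prod muK) (skew (M := K) α φ) p q (ρ.map (Prod.map P P)) :=
      isJoin_map hTp.measurable hL.pres hL.equi hρ
    have hρBp := hρB.prob
    obtain ⟨σ, hσ⟩ := exists_isRel (skew (M := K) α φ) p q (ρ.map (Prod.map P P))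
    obtain ⟨hσR, hσT⟩ := relSq_invariant_RR lam muK hL.base p q hp.1 hq1 hqp _ σ hρB hσ
    have hσp := hσ.prob
    obtain ⟨γ, hγ, S, hS0, hS1, hS2⟩ := pair_bound R hMP (skewE (M := K) α φ hL.base.meas) hTp
      hL.pres hL.equi hΨ hΨ' hu hu' E E' hE hmE hER hM.rel CE CE' CF hCE0 hCE0' hCF0 hCE hCE'
      F hF hCF G₁ G₂ hG₁ hG₂ hρ hσ hσT N hN
    have hterm : ∀ n ∈ range N, ∀ j ∈ range N,
        ‖∫ w, γ n j w * (aa (skew (M := K) α φ) Ψ' G₂ n j w.1 *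
          conj (aa (skew (M := K) α φ) Ψ' G₁ n j w.2)) ∂σ‖ ≤
        (C₁ + 1) * (ε' / (((e : ℝ) ^ 2 + 1) * (C₁ + 1))) + C₁ * T₀ ^ 2 *
          ∫ y, ‖(m[fun x => g₂ (R^[n] x) * conj (g₂ (R^[j] x))|ZZ P]) y‖ ∂m := by
      intro n hn j hj
      rw [← ha₀i n j]
      obtain ⟨hγB, hγb, hγi⟩ := hγ n j
      refine pm3_term lam muK σ hσR.fst (γ n j) hγB C₁ hC₁0 hγb _ _ _ (haB n j) (ha₀B n j)
        (hbB n j) (T₀ ^ 2) (hbb n j) _ ?_
      have hnb' := hnb (n, j) (Finset.mem_product.2 ⟨hn, hj⟩)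
      by_contra hgt
      rw [not_le] at hgt
      refine hnb' ⟨ρ.map (Prod.map P P), σ, fun w => ((C₁ + 1 : ℝ) : ℂ)⁻¹ * γ n j w, hρB, hσ,
        (BM.const _).mul hγB, fun w => ?_, ?_, ?_⟩
      · rw [norm_mul, norm_inv, Complex.norm_real, Real.norm_of_nonneg (by linarith),
          inv_mul_le_iff₀ (by linarith), mul_one]
        exact (hγb w).trans (by linarith)
      · filter_upwards [hγi] with w hw
        have hw' : γ n j (Prod.map ((skew (M := K) α φ)^[q]) ((skew (M := K) α φ)^[q]) w) =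
            γ n j w := hw
        rw [hw']
      · have hfac : ∫ w, ((C₁ + 1 : ℝ) : ℂ)⁻¹ * γ n j w *
            ((aa (skew (M := K) α φ) Ψ' G₂ n j w.1 -
              ∫ k, aa (skew (M := K) α φ) Ψ' G₂ n j (w.1.1, k) ∂muK) *
              conj (aa (skew (M := K) α φ) Ψ' G₁ n j w.2)) ∂σ =
            ((C₁ + 1 : ℝ) : ℂ)⁻¹ * ∫ w, γ n j w *
            ((aa (skew (M := K) α φ) Ψ' G₂ n j w.1 -
              ∫ k, aa (skew (M := K) α φ) Ψ' G₂ n j (w.1.1, k) ∂muK) *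
              conj (aa (skew (M := K) α φ) Ψ' G₁ n j w.2)) ∂σ := by
          rw [← integral_const_mul]
          refine integral_congr_ae (Eventually.of_forall fun w => ?_)
          exact mul_assoc _ _ _
        show _ < ‖∫ w, ((C₁ + 1 : ℝ) : ℂ)⁻¹ * γ n j w *
            ((aa (skew (M := K) α φ) Ψ' G₂ n j w.1 -
              ∫ k, aa (skew (M := K) α φ) Ψ' G₂ n j (w.1.1, k) ∂muK) *
              conj (aa (skew (M := K) α φ) Ψ' G₁ n j w.2)) ∂σ‖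
        rw [hfac, norm_mul, norm_inv, Complex.norm_real, Real.norm_of_nonneg (by linarith),
          lt_inv_mul_iff₀ (by linarith)]
        exact hgt
    have hsum : ∑ n ∈ range N, ∑ j ∈ range N,
        ‖∫ w, γ n j w * (aa (skew (M := K) α φ) Ψ' G₂ n j w.1 *
          conj (aa (skew (M := K) α φ) Ψ' G₁ n j w.2)) ∂σ‖ ≤
        (N : ℝ) ^ 2 * ((C₁ + 1) * (ε' / (((e : ℝ) ^ 2 + 1) * (C₁ + 1)))) + C₁ * T₀ ^ 2 *
          ∑ n ∈ range N, ∑ j ∈ range N,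
            ∫ y, ‖(m[fun x => g₂ (R^[n] x) * conj (g₂ (R^[j] x))|ZZ P]) y‖ ∂m := by
      refine (Finset.sum_le_sum fun n hn => Finset.sum_le_sum fun j hj =>
        hterm n hn j hj).trans (le_of_eq ?_)
      simp_rw [Finset.sum_add_distrib, ← Finset.mul_sum]
      rw [Finset.sum_const, Finset.sum_const, Finset.card_range, nsmul_eq_mul, nsmul_eq_mul]
      ring
    have hN0 : (0 : ℝ) < (N : ℝ) ^ 2 := by
      have : (0 : ℝ) < N := by exact_mod_cast hN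
      positivity
    have hS3 : S ^ 2 ≤ (e : ℝ) ^ 2 * (C₁ * T₀ ^ 2 * δ) + ε' :=
      pm3_arith ((e : ℝ) ^ 2) C₁ (T₀ ^ 2) δ ε' (S ^ 2) ((N : ℝ) ^ 2) _ _ (sq_nonneg _) hC₁0
        (sq_nonneg _) hN0 hε' hS1 hsum hcorr
    have hS4 : S ≤ Real.sqrt ((e : ℝ) ^ 2 * (C₁ * T₀ ^ 2 * δ) + ε') :=
      Real.le_sqrt_of_sq_le hS3
    have hI : ∫ z, (F (P z.1) ⬝ᵥ E z.1) * conj (g₂ z.2) ∂ρ =
        ∫ z, (F (P z.1) ⬝ᵥ E z.1) * conj (G₂ (P z.2) ⬝ᵥ E' z.2) ∂ρ := by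
      have e2 : ∀ᵐ z ∂ρ, g₂ z.2 = G₂ (P z.2) ⬝ᵥ E' z.2 := by
        have h2 := hgG₂
        rw [← hρ.snd] at h2
        exact ae_of_ae_map measurable_snd.aemeasurable h2
      refine integral_congr_ae ?_
      filter_upwards [e2] with z h3
      rw [h3]
    have hl1 : l2 m (fun y => G₂ (P y) ⬝ᵥ E' y) = l2 m g₂ := by
      refine pm3_l2 ?_
      filter_upwards [hgG₂] with y hy
      rw [hy]
    have hl2 : l2 m (fun y => G₂ (P y) ⬝ᵥ E' y - G₁ (P y) ⬝ᵥ E' y) =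
        l2 m (fun y => g₂ y - g₁ y) := by
      refine pm3_l2 ?_
      filter_upwards [hgG₂, hg₁] with y hy hy'
      rw [hy, hy']
    rw [hI] at hlt
    rw [hl1, hl2] at hS2
    refine absurd hlt (not_lt.2 (hS2.trans ?_))
    exact mul_le_mul_of_nonneg_left (add_le_add hS4 le_rfl) hCF0
  refine (Finset.card_le_card hcov).trans (Finset.card_biUnion_le.trans
    (Finset.sum_le_sum fun t ht => ?_))
  refine hFF t.1 t.2 p (hpp t ht) _ fun q hq => ?_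
  obtain ⟨hq1, hq2⟩ := Finset.mem_filter.1 hq
  exact ⟨(hQ q hq1).1, (hQ q hq1).2.1, hq2⟩

end

end Pool.Agent.Lib.H82OF
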