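import Pool.Agent.Lib.H82OF.Defs
import Pool.Agent.Lib.H82OT.QS1
import Pool.Agent.Lib.H22M.JJ

/-!
# Project H82OF, chunk PS2: from QS to PS, splitting
-/

open MeasureTheory Filter Topology Finset ProbabilityTheory
open scoped ENNReal ComplexConjugate Matrix

namespace Pool.Agent.Lib.H82OF

open Pool.Agent.Lib.H22M Pool.Agent.Lib.H82T Pool.Agent.Lib.H82OT

private theorem PS2_fst {Y : Type*} [MeasurableSpace Y] {m : Measure Y} {R : Y → Y} {p q : ℕ}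
    {ρ : Measure (Y × Y)} (hρ : IsJoin m R p q ρ) (f : Y → ℂ) (hf : BM f) :
    ∫ z, f z.1 ∂ρ = ∫ y, f y ∂m := by
  have h := integral_map (μ := ρ) (φ := Prod.fst) measurable_fst.aemeasurable (f := f)
    (by rw [hρ.fst]; exact hf.1.aestronglyMeasurable)
  rw [hρ.fst] at h
  exact h.symm

/-- Proof. For a joining `ρ` take `σ` from `exists_relSq` (`H22M/JJ.lean`; the iterate `R^[p]` is ergodic by
`hroot` and `ergodic_iterate`; used in the same way in `bound_of_QS`, `H82OT/FN5.lean`, which is the model).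
`∫ f(z.1) conj g(z.2) dρ - ∫ f conj ∫ g = ∫ f(z.1) conj ((g - ∫ g)(z.2)) dρ`, of modulus at most
`l2 m f * qf σ (g - ∫ g)` (`RelSq.join`). So a bad `q` for `PS` and `ε` is bad (`BadQ`) for `g` and
`ε / (l2 m f + 1)`. -/
theorem PS_of_QS {Y : Type*} [MeasurableSpace Y] [StandardBorelSpace Y] {m : Measure Y}
    [IsProbabilityMeasure m] (R : Y ≃ᵐ Y) (hR : Ergodic R m)
    (hroot : ∀ c : ℂ, IsEigenvalue m R c → ∀ n : ℕ, 1 ≤ n → c ^ n = 1 → c = 1)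
    (f g : Y → ℂ) (hf : BM f) (hg : BM g) (h : QS m R g) : PS m R f g := by
  intro ε hε
  have hl : 0 < l2 m f + 1 := by
    have := l2_nonneg m f
    linarith
  obtain ⟨F0, hF0, P0, m0, h1⟩ := h (ε / (l2 m f + 1)) (by positivity)
  refine ⟨F0, hF0, P0, m0, fun p hp hpP Q hQ => h1 p hp hpP Q fun q hq => ?_⟩
  obtain ⟨hqp, hqne, ρ, hρ, hb⟩ := hQ q hq
  refine ⟨hqp, hqne, ?_⟩
  have hpp : p.Prime := hp.1
  have hcop : p.Coprime q := (Nat.coprime_primes hpp hqp).2 hqne.symm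
  obtain ⟨σ, hσ⟩ := exists_relSq R hR p q (ergodic_iterate hR hroot p hpp.one_le) hcop ρ hρ
  refine ⟨ρ, σ, hρ, hσ, ?_⟩
  have hρp : IsProbabilityMeasure ρ := hρ.prob
  have h2 : ∫ z, f z.1 * conj (g z.2 - ∫ y, g y ∂m) ∂ρ = ∫ z, f z.1 * conj (g z.2) ∂ρ -
      (∫ y, f y ∂m) * conj (∫ y, g y ∂m) := by
    rw [← PS2_fst hρ f hf, ← integral_mul_const, ← integral_sub]
    · refine integral_congr_ae (Eventually.of_forall fun z => ?_)
      simp only [map_sub]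
      ring
    · exact ((hf.comp measurable_fst).mul (hg.comp measurable_snd).conj).integrable
    · exact ((hf.comp measurable_fst).mul (BM.const _)).integrable
  have h3 := hσ.join f (fun y => g y - ∫ x, g x ∂m) hf (hg.sub (BM.const _))
  rw [h2] at h3
  rw [div_lt_iff₀ hl]
  have h4 := qf_nonneg σ (fun y => g y - ∫ x, g x ∂m)
  have h5 := l2_nonneg m f
  nlinarith

/-- Proof. Given `ε`, take `w` for `ε / 3`. `∫ f conj g dρ - ∫ f conj ∫ g =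
(∫ f conj w dρ - ∫ f conj ∫ w) + ∫ f conj (g - w) dρ - ∫ f conj ∫ (g - w)`. So a bad `q` (for `ε`) is bad for
`(f, w)` and `ε / 3`, or `ε / 3 < ‖∫ f(z.1) conj ((g - w)(z.2)) dρ‖`. Unions of the finite sets, sum of the
`m0` (compare `QS_of_split` in `H82OT/EV5.lean`). -/
theorem PS_of_split {Y : Type*} [MeasurableSpace Y] {m : Measure Y} [IsProbabilityMeasure m]
    {R : Y → Y} (f g : Y → ℂ) (hf : BM f) (hg : BM g)
    (h : ∀ ε : ℝ, 0 < ε → ∃ w : Y → ℂ, BM w ∧ PS m R f w ∧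
      ‖∫ y, f y ∂m‖ * ‖∫ y, (g y - w y) ∂m‖ ≤ ε ∧ ∃ F0 : Finset ℂ, (1 : ℂ) ∉ F0 ∧
      ∃ (P0 : Finset ℕ) (m0 : ℕ), ∀ p ∈ goodPrimes m R F0, p ∉ P0 → ∀ Q : Finset ℕ,
        (∀ q ∈ Q, q.Prime ∧ q ≠ p ∧ ∃ ρ : Measure (Y × Y), IsJoin m R p q ρ ∧
          ε < ‖∫ z, f z.1 * conj (g z.2 - w z.2) ∂ρ‖) → Q.card ≤ m0) : PS m R f g := by
  classical
  intro ε hε
  obtain ⟨w, hw, hPw, hint, F0, hF0, P0, m0, h0⟩ := h (ε / 3) (by linarith)
  obtain ⟨F1, hF1, P1, m1, h1⟩ := hPw (ε / 3) (by linarith)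
  refine ⟨F0 ∪ F1, by simp [hF0, hF1], P0 ∪ P1, m0 + m1, ?_⟩
  intro p hp hpP Q hQ
  have hp0 : p ∈ goodPrimes m R F0 :=
    ⟨hp.1, fun c hc => hp.2 c (Finset.mem_union_left _ hc)⟩
  have hp1 : p ∈ goodPrimes m R F1 :=
    ⟨hp.1, fun c hc => hp.2 c (Finset.mem_union_right _ hc)⟩
  have hpP0 : p ∉ P0 := fun h' => hpP (Finset.mem_union_left _ h')
  have hpP1 : p ∉ P1 := fun h' => hpP (Finset.mem_union_right _ h')
  have h2 := h1 p hp1 hpP1 (Q.filter fun q => BadP m R f w (ε / 3) p q) (by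
    intro q hq
    rw [Finset.mem_filter] at hq
    exact ⟨(hQ q hq.1).1, (hQ q hq.1).2.1, hq.2⟩)
  have h3 := h0 p hp0 hpP0 (Q.filter fun q => ¬ BadP m R f w (ε / 3) p q) (by
    intro q hq
    rw [Finset.mem_filter] at hq
    obtain ⟨hq1, hq2⟩ := hq
    obtain ⟨hqp, hqne, ρ, hρ, hb⟩ := hQ q hq1
    refine ⟨hqp, hqne, ρ, hρ, ?_⟩
    have hρp : IsProbabilityMeasure ρ := hρ.prob
    have h4 : ‖∫ z, f z.1 * conj (w z.2) ∂ρ - (∫ y, f y ∂m) * conj (∫ y, w y ∂m)‖ ≤ ε / 3 := by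
      by_contra hcon
      exact hq2 ⟨ρ, hρ, not_le.mp hcon⟩
    have h5 : ∫ z, f z.1 * conj (g z.2 - w z.2) ∂ρ =
        ∫ z, f z.1 * conj (g z.2) ∂ρ - ∫ z, f z.1 * conj (w z.2) ∂ρ := by
      rw [← integral_sub]
      · refine integral_congr_ae (Eventually.of_forall fun z => ?_)
        simp only [map_sub]
        ring
      · exact ((hf.comp measurable_fst).mul (hg.comp measurable_snd).conj).integrable
      · exact ((hf.comp measurable_fst).mul (hw.comp measurable_snd).conj).integrable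
    have h6 : ∫ y, (g y - w y) ∂m = ∫ y, g y ∂m - ∫ y, w y ∂m :=
      integral_sub hg.integrable hw.integrable
    have h7 : ∫ z, f z.1 * conj (g z.2) ∂ρ - (∫ y, f y ∂m) * conj (∫ y, g y ∂m) =
        (∫ z, f z.1 * conj (w z.2) ∂ρ - (∫ y, f y ∂m) * conj (∫ y, w y ∂m)) +
        ∫ z, f z.1 * conj (g z.2 - w z.2) ∂ρ - (∫ y, f y ∂m) * conj (∫ y, (g y - w y) ∂m) := by
      rw [h5, h6, map_sub]
      ring
    have h8 : ‖(∫ y, f y ∂m) * conj (∫ y, (g y - w y) ∂m)‖ ≤ ε / 3 := by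
      rw [norm_mul, RCLike.norm_conj]
      exact hint
    rw [h7] at hb
    have h9 := norm_sub_le ((∫ z, f z.1 * conj (w z.2) ∂ρ - (∫ y, f y ∂m) * conj (∫ y, w y ∂m)) +
        ∫ z, f z.1 * conj (g z.2 - w z.2) ∂ρ) ((∫ y, f y ∂m) * conj (∫ y, (g y - w y) ∂m))
    have h10 := norm_add_le (∫ z, f z.1 * conj (w z.2) ∂ρ -
        (∫ y, f y ∂m) * conj (∫ y, w y ∂m)) (∫ z, f z.1 * conj (g z.2 - w z.2) ∂ρ)
    linarith)
  have h4 := Finset.card_filter_add_card_filter_not (s := Q) (fun q => BadP m R f w (ε / 3) p q)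
  omega

private theorem PS2_int_norm_le {Y : Type*} (𝒵 : MeasurableSpace Y) [mY : MeasurableSpace Y]
    {m : Measure Y} [IsProbabilityMeasure m] (h𝒵 : 𝒵 ≤ mY) (u : Y → ℂ) :
    ‖∫ y, u y ∂m‖ ≤ ∫ y, ‖(m[u|𝒵]) y‖ ∂m := by
  rw [← integral_condExp h𝒵]
  exact norm_integral_le_integral_norm _

private theorem PS2_sq_int {Y : Type*} [MeasurableSpace Y] {m : Measure Y}
    [IsProbabilityMeasure m] (u : Y → ℝ) (h6 : Integrable u m)
    (h7 : Integrable (fun y => u y ^ 2) m) : (∫ y, u y ∂m) ^ 2 ≤ ∫ y, u y ^ 2 ∂m := by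
  set c : ℝ := ∫ y, u y ∂m with hc
  have h8 : 0 ≤ ∫ y, (u y - c) ^ 2 ∂m := integral_nonneg fun y => sq_nonneg _
  have h9 : ∫ y, (u y - c) ^ 2 ∂m = ∫ y, u y ^ 2 ∂m - c ^ 2 := by
    have h10 : (fun y => (u y - c) ^ 2) = fun y => u y ^ 2 + ((-(2 * c)) * u y + c ^ 2) := by
      funext y
      ring
    have h11 : Integrable (fun y => (-(2 * c)) * u y) m := h6.const_mul _
    have h12 : Integrable (fun _ : Y => c ^ 2) m := integrable_const _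
    have h13 : Integrable (fun y => (-(2 * c)) * u y + c ^ 2) m := h11.add h12
    rw [h10, integral_add h7 h13, integral_add h11 h12, integral_const_mul, integral_const,
      ← hc]
    simp
    ring
  linarith

/-- Proof. `N² ‖∫ g‖² = ‖∫ ∑_{n<N} g ∘ R^n‖² ≤ ∫ ‖∑_n g ∘ R^n‖² = re ∑_{n,j} ∫ g(R^n y) conj g(R^j y) dm`, and
`‖∫ h dm‖ = ‖∫ m[h|𝒵] dm‖ ≤ ∫ ‖m[h|𝒵]‖ dm`. -/
theorem int_sq_le {Y : Type*} (𝒵 : MeasurableSpace Y) [mY : MeasurableSpace Y] {m : Measure Y}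
    [IsProbabilityMeasure m] (h𝒵 : 𝒵 ≤ mY) {R : Y → Y} (hR : MeasurePreserving R m m)
    (g : Y → ℂ) (hg : BM g) (δ : ℝ) (N : ℕ) (hN : 1 ≤ N)
    (hcorr : ∑ n ∈ range N, ∑ j ∈ range N,
      ∫ y, ‖(m[fun x => g (R^[n] x) * conj (g (R^[j] x))|𝒵]) y‖ ∂m ≤ δ * (N : ℝ) ^ 2) :
    ‖∫ y, g y ∂m‖ ^ 2 ≤ δ := by
  have hgn : ∀ n : ℕ, BM fun y => g (R^[n] y) := fun n => hg.comp (hR.measurable.iterate n)
  have h1 : ∀ n : ℕ, ∫ y, g (R^[n] y) ∂m = ∫ y, g y ∂m := by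
    intro n
    have h := integral_map (μ := m) (φ := R^[n]) (hR.measurable.iterate n).aemeasurable (f := g)
      (by rw [(hR.iterate n).map_eq]; exact hg.1.aestronglyMeasurable)
    rw [(hR.iterate n).map_eq] at h
    exact h.symm
  have hS : BM fun y => ∑ n ∈ range N, g (R^[n] y) := BM.sum _ fun n _ => hgn n
  have h2 : ∫ y, (∑ n ∈ range N, g (R^[n] y)) ∂m = (N : ℂ) * ∫ y, g y ∂m := by
    rw [integral_finsetSum _ fun n _ => (hgn n).integrable]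
    simp [h1]
  have h3 : ‖∫ y, (∑ n ∈ range N, g (R^[n] y)) ∂m‖ ^ 2 ≤
      ∫ y, ‖∑ n ∈ range N, g (R^[n] y)‖ ^ 2 ∂m := by
    have h4 : ‖∫ y, (∑ n ∈ range N, g (R^[n] y)) ∂m‖ ≤ ∫ y, ‖∑ n ∈ range N, g (R^[n] y)‖ ∂m :=
      norm_integral_le_integral_norm _
    have h5 : (∫ y, ‖∑ n ∈ range N, g (R^[n] y)‖ ∂m) ^ 2 ≤
        ∫ y, ‖∑ n ∈ range N, g (R^[n] y)‖ ^ 2 ∂m := by
      have h6 : Integrable (fun y => ‖∑ n ∈ range N, g (R^[n] y)‖) m := hS.integrable.norm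
      have h7 : Integrable (fun y => ‖∑ n ∈ range N, g (R^[n] y)‖ ^ 2) m := by
        have := (hS.mul hS.conj).integrable (m := m)
        refine this.norm.congr (Eventually.of_forall fun y => ?_)
        simp only [norm_mul, RCLike.norm_conj, sq]
      exact PS2_sq_int _ h6 h7
    exact (pow_le_pow_left₀ (norm_nonneg _) h4 2).trans h5
  have h4 : ∫ y, ‖∑ n ∈ range N, g (R^[n] y)‖ ^ 2 ∂m =
      (∑ n ∈ range N, ∑ j ∈ range N, ∫ y, g (R^[n] y) * conj (g (R^[j] y)) ∂m).re := by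
    have h5 : ((∫ y, ‖∑ n ∈ range N, g (R^[n] y)‖ ^ 2 ∂m : ℝ) : ℂ) =
        ∑ n ∈ range N, ∑ j ∈ range N, ∫ y, g (R^[n] y) * conj (g (R^[j] y)) ∂m := by
      rw [← integral_complex_ofReal]
      have h6 : ∀ y, ((‖∑ n ∈ range N, g (R^[n] y)‖ ^ 2 : ℝ) : ℂ) =
          ∑ n ∈ range N, ∑ j ∈ range N, g (R^[n] y) * conj (g (R^[j] y)) := by
        intro y
        rw [← Complex.normSq_eq_norm_sq, ← Complex.mul_conj, map_sum, Finset.sum_mul_sum]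
      simp_rw [h6]
      rw [integral_finsetSum _ fun n _ => ?_]
      · refine Finset.sum_congr rfl fun n _ => ?_
        rw [integral_finsetSum _ fun j _ => ?_]
        exact ((hgn n).mul (hgn j).conj).integrable
      · exact (BM.sum _ fun j _ => (hgn n).mul (hgn j).conj).integrable
    rw [← h5, Complex.ofReal_re]
  have h5 : (∑ n ∈ range N, ∑ j ∈ range N, ∫ y, g (R^[n] y) * conj (g (R^[j] y)) ∂m).re ≤
      δ * (N : ℝ) ^ 2 := by
    refine le_trans ?_ hcorr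
    rw [Complex.re_sum]
    refine Finset.sum_le_sum fun n _ => ?_
    rw [Complex.re_sum]
    refine Finset.sum_le_sum fun j _ => ?_
    exact (Complex.re_le_norm _).trans (PS2_int_norm_le 𝒵 h𝒵 _)
  have h6 : (N : ℝ) ^ 2 * ‖∫ y, g y ∂m‖ ^ 2 ≤ δ * (N : ℝ) ^ 2 := by
    have h7 : ‖(N : ℂ) * ∫ y, g y ∂m‖ ^ 2 = (N : ℝ) ^ 2 * ‖∫ y, g y ∂m‖ ^ 2 := by
      rw [norm_mul, mul_pow, Complex.norm_natCast]
    rw [← h7, ← h2]
    exact (h3.trans h4.le).trans h5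
  have h7 : (0 : ℝ) < (N : ℝ) ^ 2 := by
    have : (0 : ℝ) < N := by exact_mod_cast hN
    positivity
  nlinarith

end Pool.Agent.Lib.H82OF
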