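import Pool.Agent.Lib.H82OF.PM3
import Pool.Agent.Lib.H82OF.PS2
import Pool.Agent.Lib.H82OT.DC6
import Pool.Agent.Lib.H82OT.HT8
import Pool.Agent.Lib.H82OT.EV2

/-!
# Project H82OF, chunk PM4: functions of two modules
-/

open MeasureTheory Filter Topology Finset ProbabilityTheory
open scoped ENNReal ComplexConjugate Matrix

namespace Pool.Agent.Lib.H82OF

open Pool.Agent.Lib.H22M Pool.Agent.Lib.H82T Pool.Agent.Lib.H82OT

private theorem PM4_bound {Ω : Type*} [MeasurableSpace Ω] {d : ℕ} (F : Ω → Fin d → ℂ)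
    (hF : BMR F) : ∃ C : ℝ, 0 ≤ C ∧ ∀ x, ∑ i, ‖F x i‖ ^ 2 ≤ C := by
  have h : ∀ i, ∃ C : ℝ, ∀ x, ‖F x i‖ ≤ C := fun i => (hF i).2
  choose C hC using h
  refine ⟨∑ i, C i ^ 2, Finset.sum_nonneg fun i _ => sq_nonneg _, fun x => ?_⟩
  exact Finset.sum_le_sum fun i _ => pow_le_pow_left₀ (norm_nonneg _) (hC i x) 2

private theorem PM4_num (CF CE C ε a b t : ℝ) (hCF : 0 ≤ CF) (hCE : 0 ≤ CE) (hC : 0 < C)
    (hε : 0 < ε) (ha : a ≤ C) (hb : b ≤ ε ^ 2 / (4 * (CF * CE * C + 1)))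
    (hb0 : 0 ≤ b) (ht : t ≤ ε ^ 2 / (4 * (CF + 1))) :
    CF * (t + CE * (a * b)) < ε ^ 2 := by
  have hε2 : 0 < ε ^ 2 := by positivity
  have h1 : CF * t ≤ ε ^ 2 / 4 := by
    calc CF * t ≤ CF * (ε ^ 2 / (4 * (CF + 1))) := mul_le_mul_of_nonneg_left ht hCF
      _ = ε ^ 2 / 4 * (CF / (CF + 1)) := by
          field_simp
      _ ≤ ε ^ 2 / 4 * 1 := by
          refine mul_le_mul_of_nonneg_left ?_ (by positivity)
          rw [div_le_one (by positivity)]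
          linarith
      _ = ε ^ 2 / 4 := mul_one _
  have h2 : CF * (CE * (a * b)) ≤ ε ^ 2 / 4 := by
    have h3 : a * b ≤ C * (ε ^ 2 / (4 * (CF * CE * C + 1))) :=
      mul_le_mul ha hb hb0 hC.le
    have hk : 0 ≤ CF * CE * C := by positivity
    calc CF * (CE * (a * b)) ≤ CF * (CE * (C * (ε ^ 2 / (4 * (CF * CE * C + 1))))) :=
          mul_le_mul_of_nonneg_left (mul_le_mul_of_nonneg_left h3 hCE) hCF
      _ = ε ^ 2 / 4 * ((CF * CE * C) / (CF * CE * C + 1)) := by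
          field_simp
      _ ≤ ε ^ 2 / 4 * 1 := by
          refine mul_le_mul_of_nonneg_left ?_ (by positivity)
          rw [div_le_one (by positivity)]
          linarith
      _ = ε ^ 2 / 4 := mul_one _
  calc CF * (t + CE * (a * b)) = CF * t + CF * (CE * (a * b)) := by ring
    _ ≤ ε ^ 2 / 4 + ε ^ 2 / 4 := add_le_add h1 h2
    _ < ε ^ 2 := by linarith

private theorem PM4_delta (A s r : ℝ) (hA : 0 ≤ A) (hs : 0 < s) (hr : 0 < r) :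
    ∃ δ : ℝ, 0 < δ ∧ A * δ ≤ s ^ 2 / 2 ∧ δ ≤ r ^ 2 := by
  refine ⟨min (r ^ 2) (s ^ 2 / 2 / (A + 1)), lt_min (by positivity) (by positivity), ?_,
    min_le_left _ _⟩
  calc A * min (r ^ 2) (s ^ 2 / 2 / (A + 1)) ≤ A * (s ^ 2 / 2 / (A + 1)) :=
        mul_le_mul_of_nonneg_left (min_le_right _ _) hA
    _ = s ^ 2 / 2 * (A / (A + 1)) := by ring
    _ ≤ s ^ 2 / 2 * 1 := by
        refine mul_le_mul_of_nonneg_left ?_ (by positivity)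
        rw [div_le_one (by positivity)]
        linarith
    _ = s ^ 2 / 2 := mul_one _

private theorem PM4_sub {Y : Type*} {𝒵 : MeasurableSpace Y} [mY : MeasurableSpace Y]
    {m : Measure Y} {R : Y → Y} {V : (Y → ℂ) → Prop} (hV : VClass 𝒵 m R V) (f g : Y → ℂ)
    (hf : V f) (hg : V g) : V (fun y => f y - g y) := by
  have h1 := hV.add f (fun y => (-1 : ℂ) * g y) hf (hV.smul (-1) g hg)
  have h2 : (fun y => f y - g y) = fun y => f y + (-1 : ℂ) * g y := by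
    funext y
    ring
  rw [h2]
  exact h1

section

variable {Z K : Type*} [CommGroup Z] [TopologicalSpace Z] [IsTopologicalGroup Z]
  [CompactSpace Z] [T2Space Z] [SecondCountableTopology Z] [MeasurableSpace Z] [BorelSpace Z]
  [Group K] [TopologicalSpace K] [IsTopologicalGroup K] [CompactSpace K] [T2Space K]
  [SecondCountableTopology K] [MeasurableSpace K] [BorelSpace K]

/-- Proof. `PS_of_split`. Let `f y = F (P y) ⬝ᵥ E y`, `CE, CE', CF ≥ 0` the bounds of `∑ ‖E‖²`, `∑ ‖E'‖²`,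
`∑ ‖F‖²`, `C > 0` a bound of `g`, `Cf ≥ 0` a bound of `f`. Given `ε`, apply `exists_decomp` (DC6) with
`𝒵 = ZZ P` (`Lev.kronAlg`, `ZZ_le_BB`, `Lev.inv`), `V = ModV (BB P) m E'` (`modV_class`, EV2), `f := g` and
`d₁ = ε² / (4 (CF CE C + 1))`: `w₁`; `g₁ = g - w₁` is in `ModV` (`AP.mem`, `VClass.add`, `smul`) with row
`G₁` (`rowB_factor`), choose `T₀ > 0` with `∑ ‖G₁ x i‖² ≤ T₀²`; put `s = ε² / (4 (CF + 1))` and `δ > 0` with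
`e² (e² (d CE CE')² T₀² δ) ≤ s² / 2` and `Cf √δ ≤ ε`; then `w₂`, `N`; `g₂ = g - w₂` in `ModV`,
`g₂ - g₁ = w₁ - w₂`. Take `w = w₂`: `PS m R f w₂` by `QS_AP` (HT8) and `PS_of_QS`; `‖∫ g₂‖² ≤ δ`
(`int_sq_le`); `F0, m0` from `mod_pair_P` (PM3) with `ε' = s² / 2`, `P0 = ∅`. A `q` with
`ε < ‖∫ f(z.1) conj (g₂ z.2) dρ‖` satisfies
`CF (√(…) + CE (l2 g₂ l2 (g₂ - g₁))) ≤ CF (s + CE C d₁) ≤ ε² / 4 + ε² / 4 < ε² < ‖∫ …‖²`. -/
theorem PS_ModV {Y : Type*} [MeasurableSpace Y] [StandardBorelSpace Y] {m : Measure Y}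
    [IsProbabilityMeasure m]
    (R : Y ≃ᵐ Y) (hR : Ergodic R m)
    (hroot : ∀ c : ℂ, IsEigenvalue m R c → ∀ n : ℕ, 1 ≤ n → c ^ n = 1 → c = 1)
    (lam : Measure Z) [lam.IsHaarMeasure]
    [IsProbabilityMeasure lam] (muK : Measure K) [muK.IsHaarMeasure] [IsProbabilityMeasure muK]
    {α : Z} {φ : Z → K} {P : Y → Z × K} (hL : Lev m R lam muK α φ P) {d e : ℕ}
    (Ψ : Z × K → Matrix (Fin d) (Fin d) ℂ) (Ψ' : Z × K → Matrix (Fin e) (Fin e) ℂ)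
    (hΨ : BMM Ψ) (hΨ' : BMM Ψ') (hu : ∀ x, Ψ x * (Ψ x)ᴴ = 1) (hu' : ∀ x, Ψ' x * (Ψ' x)ᴴ = 1)
    (E : Y → Fin d → ℂ) (hE : BMR E) (hER : ∀ᵐ y ∂m, E (R y) = Ψ (P y) *ᵥ E y)
    {Γ' : Y → Matrix (Fin e) (Fin e) ℂ} (E' : Y → Fin e → ℂ)
    (hM : IsMod (BB P) m R (fun y => Ψ' (P y)) Γ' E')
    (F : Z × K → Fin d → ℂ) (hF : BMR F) (g : Y → ℂ) (hg : ModV (BB P) m E' g) :
    PS m R (fun y => F (P y) ⬝ᵥ E y) g := by
  obtain ⟨CE, hCE0, hCE⟩ := PM4_bound E hE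
  obtain ⟨CE', hCE0', hCE'⟩ := PM4_bound E' hM.bmE
  obtain ⟨CF, hCF0, hCF⟩ := PM4_bound F hF
  have hPm : Measurable P := hL.pres.measurable
  have hfB : BM (fun y => F (P y) ⬝ᵥ E y) :=
    BM.sum (f := fun i y => F (P y) i * E y i) Finset.univ
      fun i _ => ((hF i).comp hPm).mul (hE i)
  obtain ⟨C, hC0, hC⟩ : ∃ C : ℝ, 0 < C ∧ ∀ y, ‖g y‖ ≤ C := by
    obtain ⟨C₀, hC₀⟩ := hg.1.2
    exact ⟨max C₀ 1, lt_max_of_lt_right one_pos, fun y => (hC₀ y).trans (le_max_left _ _)⟩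
  obtain ⟨Cf, hCf0, hCf⟩ : ∃ Cf : ℝ, 0 ≤ Cf ∧ ∀ y, ‖F (P y) ⬝ᵥ E y‖ ≤ Cf := by
    obtain ⟨C₀, hC₀⟩ := hfB.2
    exact ⟨max C₀ 0, le_max_right _ _, fun y => (hC₀ y).trans (le_max_left _ _)⟩
  have hRm : MeasurePreserving R m m := hR.toMeasurePreserving
  have hkA := hL.kronAlg
  have hV : VClass (ZZ P) m R (ModV (BB P) m E') :=
    modV_class (ZZ P) (BB P) (ZZ_le_BB P) hPm.comap_le hRm hL.inv hM
  refine PS_of_split _ g hfB hg.1 fun ε hε => ?_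
  obtain ⟨w₁, hw₁, hdec⟩ := exists_decomp m hkA.le R hRm hkA.inv hV g hg C hC0 hC
    (ε ^ 2 / (4 * (CF * CE * C + 1))) (by positivity)
  have hw₁V : ModV (BB P) m E' w₁ := AP.mem m hkA.le hV g w₁ hg hw₁
  obtain ⟨G, hG, hgG⟩ := (PM4_sub hV g w₁ hg hw₁V).2
  obtain ⟨G₁, hG₁, hGG⟩ := rowB_factor P G hG
  have hg₁ : ∀ᵐ y ∂m, (fun y => g y - w₁ y) y = G₁ (P y) ⬝ᵥ E' y := by
    filter_upwards [hgG] with y h
    rw [← hGG y]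
    exact h
  obtain ⟨CG, hCG0, hCG⟩ := PM4_bound G₁ hG₁
  have hT : ∀ x, ∑ i, ‖G₁ x i‖ ^ 2 ≤ Real.sqrt CG ^ 2 := fun x => by
    rw [Real.sq_sqrt hCG0]
    exact hCG x
  have hs : 0 < ε ^ 2 / (4 * (CF + 1)) := by positivity
  obtain ⟨δ, hδ0, hδA, hδr⟩ := PM4_delta
    ((e : ℝ) ^ 2 * ((e : ℝ) ^ 2 * (d * (CE * CE')) ^ 2 * Real.sqrt CG ^ 2))
    (ε ^ 2 / (4 * (CF + 1))) (ε / (Cf + 1)) (by positivity) hs (by positivity)
  obtain ⟨w₂, hw₂, hw12, hgw₂, N, hN, hcorr⟩ := hdec δ hδ0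
  have hw₂V : ModV (BB P) m E' w₂ := AP.mem m hkA.le hV g w₂ hg hw₂
  have hg₂V : ModV (BB P) m E' (fun y => g y - w₂ y) := PM4_sub hV g w₂ hg hw₂V
  have hint := int_sq_le (ZZ P) hkA.le hRm (fun y => g y - w₂ y) hg₂V.1 δ N hN hcorr
  obtain ⟨F0, hF0, m0, hm0⟩ := mod_pair_P R hR lam muK hL Ψ Ψ' hΨ hΨ' hu hu' E hE hER E' hM
    CE CE' CF hCE0 hCE0' hCF0 hCE hCE' F hF hCF (fun y => g y - w₂ y) hg₂V
    (fun y => g y - w₁ y) G₁ hG₁ hg₁ (Real.sqrt CG) (Real.sqrt_nonneg _) hT δ hδ0.le N hN hcorr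
    ((ε ^ 2 / (4 * (CF + 1))) ^ 2 / 2) (by positivity)
  refine ⟨w₂, hw₂.1, PS_of_QS R hR hroot _ w₂ hfB hw₂.1
    (QS_AP m hkA.le R hR hkA (ModV (BB P) m E') w₂ hw₂), ?_, F0, hF0, ∅, m0, ?_⟩
  · have h1 : ‖∫ y, F (P y) ⬝ᵥ E y ∂m‖ ≤ Cf := by
      have h2 := norm_integral_le_of_norm_le_const (μ := m) (Eventually.of_forall hCf)
      rwa [probReal_univ, mul_one] at h2
    have h2 : ‖∫ y, (g y - w₂ y) ∂m‖ ≤ ε / (Cf + 1) :=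
      le_of_abs_le (abs_le_of_sq_le_sq (hint.trans hδr) (by positivity))
    calc ‖∫ y, F (P y) ⬝ᵥ E y ∂m‖ * ‖∫ y, (g y - w₂ y) ∂m‖ ≤ Cf * (ε / (Cf + 1)) :=
          mul_le_mul h1 h2 (norm_nonneg _) hCf0
      _ = ε * (Cf / (Cf + 1)) := by ring
      _ ≤ ε * 1 := by
          refine mul_le_mul_of_nonneg_left ?_ hε.le
          rw [div_le_one (by positivity)]
          linarith
      _ = ε := mul_one ε
  · intro p hp _ Q hQ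
    refine hm0 p hp Q fun q hq => ?_
    obtain ⟨hq1, hq2, ρ, hρ, hlt⟩ := hQ q hq
    refine ⟨hq1, hq2, ρ, hρ, ?_⟩
    have hl : (fun y => (g y - w₂ y) - (g y - w₁ y)) = fun y => w₁ y - w₂ y := by
      funext y
      ring
    have ht : Real.sqrt ((e : ℝ) ^ 2 * ((e : ℝ) ^ 2 * (d * (CE * CE')) ^ 2 *
        Real.sqrt CG ^ 2 * δ) + (ε ^ 2 / (4 * (CF + 1))) ^ 2 / 2) ≤ ε ^ 2 / (4 * (CF + 1)) := by
      refine Real.sqrt_le_iff.2 ⟨hs.le, ?_⟩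
      have h3 : (e : ℝ) ^ 2 * ((e : ℝ) ^ 2 * (d * (CE * CE')) ^ 2 * Real.sqrt CG ^ 2 * δ) =
          (e : ℝ) ^ 2 * ((e : ℝ) ^ 2 * (d * (CE * CE')) ^ 2 * Real.sqrt CG ^ 2) * δ := by ring
      rw [h3]
      linarith
    have h4 := PM4_num CF CE C ε (l2 m (fun y => g y - w₂ y))
      (l2 m (fun y => (g y - w₂ y) - (g y - w₁ y))) _ hCF0 hCE0 hC0 hε hgw₂
      (by rw [hl]; exact hw12) (l2_nonneg _ _) ht
    have h5 : ε ^ 2 < ‖∫ z, (F (P z.1) ⬝ᵥ E z.1) * conj (g z.2 - w₂ z.2) ∂ρ‖ ^ 2 :=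
      pow_lt_pow_left₀ hlt hε.le two_ne_zero
    exact h4.trans h5

end

end Pool.Agent.Lib.H82OF
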