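import Pool.Agent.Lib.H82OF.PM4
import Pool.Agent.Lib.H82OT.GR3

/-!
# Project H82OF, chunk PM5: functions of two modules, general case
-/

open MeasureTheory Filter Topology Finset ProbabilityTheory
open scoped ENNReal ComplexConjugate Matrix

namespace Pool.Agent.Lib.H82OF

open Pool.Agent.Lib.H22M Pool.Agent.Lib.H82T Pool.Agent.Lib.H82OT

private theorem PM5_mul {Ω : Type*} [MeasurableSpace Ω] (f g : Ω → ℂ) (hf : Measurable f)
    (hg : Measurable g) : Measurable fun ω => f ω * g ω := hf.mul hg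

private theorem PM5_sum {Ω ι : Type*} [MeasurableSpace Ω] (s : Finset ι) (f : ι → Ω → ℂ)
    (hf : ∀ i ∈ s, Measurable (f i)) : Measurable fun ω => ∑ i ∈ s, f i ω :=
  Finset.measurable_fun_sum s hf

section

variable {Z K : Type*} [CommGroup Z] [TopologicalSpace Z] [IsTopologicalGroup Z]
  [CompactSpace Z] [T2Space Z] [SecondCountableTopology Z] [MeasurableSpace Z] [BorelSpace Z]
  [Group K] [TopologicalSpace K] [IsTopologicalGroup K] [CompactSpace K] [T2Space K]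
  [SecondCountableTopology K] [MeasurableSpace K] [BorelSpace K]

/-- Proof. `exists_normal_module` (GR3) for `ℬ = BB P`, `Φ y = Ψ' (P y)`, `E'`: `E' = A *ᵥ E''` a.e. with
`IsMod ℬ m R Φ Γ E''`, so `G (P y) ⬝ᵥ E' y = (G (P y) ᵥ* A y) ⬝ᵥ E'' y` a.e. is in `ModV ℬ m E''`
(it is bounded and measurable): `PS_ModV`. -/
theorem PS_module {Y : Type*} [MeasurableSpace Y] [StandardBorelSpace Y] {m : Measure Y}
    [IsProbabilityMeasure m]
    (R : Y ≃ᵐ Y) (hR : Ergodic R m)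
    (hroot : ∀ c : ℂ, IsEigenvalue m R c → ∀ n : ℕ, 1 ≤ n → c ^ n = 1 → c = 1)
    (lam : Measure Z) [lam.IsHaarMeasure]
    [IsProbabilityMeasure lam] (muK : Measure K) [muK.IsHaarMeasure] [IsProbabilityMeasure muK]
    {α : Z} {φ : Z → K} {P : Y → Z × K} (hL : Lev m R lam muK α φ P) {d e : ℕ}
    (Ψ : Z × K → Matrix (Fin d) (Fin d) ℂ) (Ψ' : Z × K → Matrix (Fin e) (Fin e) ℂ)
    (hΨ : BMM Ψ) (hΨ' : BMM Ψ') (hu : ∀ x, Ψ x * (Ψ x)ᴴ = 1) (hu' : ∀ x, Ψ' x * (Ψ' x)ᴴ = 1)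
    (E : Y → Fin d → ℂ) (hE : BMR E) (hER : ∀ᵐ y ∂m, E (R y) = Ψ (P y) *ᵥ E y)
    (E' : Y → Fin e → ℂ) (hE' : BMR E') (hER' : ∀ᵐ y ∂m, E' (R y) = Ψ' (P y) *ᵥ E' y)
    (F : Z × K → Fin d → ℂ) (hF : BMR F) (G : Z × K → Fin e → ℂ) (hG : BMR G) :
    PS m R (fun y => F (P y) ⬝ᵥ E y) (fun y => G (P y) ⬝ᵥ E' y) := by
  have hPm : Measurable P := hL.pres.measurable
  obtain ⟨Γ, A, E'', hM, hAm, ⟨C, hC⟩, hAE⟩ := exists_normal_module (BB P) hPm.comap_le R hR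
    hL.inv (fun y => Ψ' (P y)) (fun i j => (hΨ' i j).1.comp (comap_measurable P))
    (fun y => hu' (P y)) E' hE' hER'
  refine PS_ModV R hR hroot lam muK hL Ψ Ψ' hΨ hΨ' hu hu' E hE hER E'' hM F hF _ ?_
  refine ⟨?_, fun y => G (P y) ᵥ* A y, ⟨fun j => ?_, ?_⟩, ?_⟩
  · show BM fun y => ∑ i, G (P y) i * E' y i
    exact BM.sum _ fun i _ => ((hG i).comp hPm).mul (hE' i)
  · have h1 : (fun y => (G (P y) ᵥ* A y) j) =
        fun y => ∑ i ∈ (Finset.univ : Finset (Fin e)), G (P y) i * A y i j := rfl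
    rw [h1]
    exact @PM5_sum Y (Fin e) (BB P) Finset.univ (fun i y => G (P y) i * A y i j) fun i _ =>
      @PM5_mul Y (BB P) _ _ ((hG i).1.comp (comap_measurable P)) (hAm i j)
  · have h2 : ∀ i, ∃ D : ℝ, ∀ x, ‖G x i‖ ≤ D := fun i => (hG i).2
    choose D hD using h2
    refine ⟨∑ i, D i * C, fun y j => ?_⟩
    show ‖∑ i, G (P y) i * A y i j‖ ≤ _
    refine (norm_sum_le _ _).trans (Finset.sum_le_sum fun i _ => ?_)
    rw [norm_mul]
    exact mul_le_mul (hD i _) (hC y i j) (norm_nonneg _) ((norm_nonneg _).trans (hD i (P y)))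
  · filter_upwards [hAE] with y hy
    rw [hy, Matrix.dotProduct_mulVec]

end

end Pool.Agent.Lib.H82OF
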