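import Pool.Agent.Lib.H82OF.CE
import Pool.Agent.Lib.H82OF.CQ
import Pool.Agent.Lib.H22M.CE

/-!
# Project H82OF, chunk XK1: the matrix of a joining over the base
-/

open MeasureTheory Filter Topology Finset ProbabilityTheory
open scoped ENNReal ComplexConjugate Matrix

namespace Pool.Agent.Lib.H82OF

open Pool.Agent.Lib.H22M Pool.Agent.Lib.H82T Pool.Agent.Lib.H82OT

/-- The projected joining. Proof. Marginals and invariance: `P ∘ R = T ∘ P`, so
`(P × P) ∘ (R^[p] × R^[q]) = (T^[p] × T^[q]) ∘ (P × P)` (`Function.Semiconj.iterate_right`). -/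
theorem isJoin_map {Y B : Type*} [MeasurableSpace Y] [MeasurableSpace B] {m : Measure Y}
    {mb : Measure B} {R : Y → Y} {T : B → B} (hT : Measurable T) {P : Y → B}
    (hP : MeasurePreserving P m mb) (hPR : ∀ y, P (R y) = T (P y)) {p q : ℕ}
    {ρ : Measure (Y × Y)} (hρ : IsJoin m R p q ρ) :
    IsJoin mb T p q (ρ.map (Prod.map P P)) := by
  have hprob := hρ.prob
  have hPm := hP.measurable
  have hPPm : Measurable (Prod.map P P) := hPm.prodMap hPm
  have hsemi : Function.Semiconj P R T := hPR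
  have hcomm : (Prod.map (T^[p]) (T^[q])) ∘ (Prod.map P P) =
      (Prod.map P P) ∘ (Prod.map (R^[p]) (R^[q])) := by
    funext z
    exact Prod.ext ((hsemi.iterate_right p) z.1).symm ((hsemi.iterate_right q) z.2).symm
  refine ⟨Measure.isProbabilityMeasure_map hPPm.aemeasurable, ?_, ?_, ?_⟩
  · have h1 : (Prod.fst ∘ Prod.map P P : Y × Y → B) = P ∘ Prod.fst := rfl
    rw [Measure.map_map measurable_fst hPPm, h1, ← Measure.map_map hPm measurable_fst, hρ.fst,
      hP.map_eq]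
  · have h1 : (Prod.snd ∘ Prod.map P P : Y × Y → B) = P ∘ Prod.snd := rfl
    rw [Measure.map_map measurable_snd hPPm, h1, ← Measure.map_map hPm measurable_snd, hρ.snd,
      hP.map_eq]
  · have hTm : Measurable (Prod.map (T^[p]) (T^[q])) := (hT.iterate p).prodMap (hT.iterate q)
    refine ⟨hTm, ?_⟩
    rw [Measure.map_map hTm hPPm, hcomm, ← Measure.map_map hPPm hρ.inv.measurable,
      hρ.inv.map_eq]

private theorem xk1_ae_eq {Ω : Type*} [mΩ : MeasurableSpace Ω] (ν : Measure Ω)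
    [IsProbabilityMeasure ν] (f g : Ω → ℂ) (hf : BM f) (hg : BM g)
    (h : ∀ H : Ω → ℂ, BM H → ∫ ω, H ω * f ω ∂ν = ∫ ω, H ω * g ω ∂ν) : ∀ᵐ ω ∂ν, f ω = g ω :=
  wb_ae_eq mΩ ν le_rfl f g hf hg h

private theorem xk1_iter {Y B : Type*} [MeasurableSpace Y] {m : Measure Y} {R : Y → Y}
    (hR : MeasurePreserving R m m) {T : B → B} {P : Y → B} (hPR : ∀ y, P (R y) = T (P y))
    {d : ℕ} (Ψ : B → Matrix (Fin d) (Fin d) ℂ) (E : Y → Fin d → ℂ)
    (hER : ∀ᵐ y ∂m, E (R y) = Ψ (P y) *ᵥ E y) (n : ℕ) :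
    ∀ᵐ y ∂m, E (R^[n] y) = cm T Ψ n (P y) *ᵥ E y := by
  induction n with
  | zero =>
    refine ae_of_all _ fun y => ?_
    simp [cm]
  | succ n ih =>
    have hsemi : Function.Semiconj P R T := hPR
    filter_upwards [ih, (hR.iterate n).quasiMeasurePreserving.ae hER] with y h1 h2
    rw [Function.iterate_succ_apply', h2, h1, (hsemi.iterate_right n) y, Matrix.mulVec_mulVec]
    rfl

/-- Proof. `X_ij` = the function of `exists_cond` (CE) for `ρ`, the map `Prod.map P P` and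
`E_i(z.1) conj (E'_j(z.2))`, bound `C`. Equivariance: `E(R^[p] y) = cm T Ψ p (P y) *ᵥ E y` a.e.
(induction), so for every bounded measurable `H` on `B × B`
`∫ H(S w) X_ij(S w) dρ_B = ∫ H X_ij dρ_B = ∫ H(P z.1, P z.2) E_i conj E'_j dρ =
∫ H(S(P z.1, P z.2)) E_i(R^[p] z.1) conj E'_j(R^[q] z.2) dρ = ∫ H(S w) (cm p X cm'ᴴ)_ij dρ_B`
(`S = T^[p] × T^[q]` is invertible: every bounded measurable function is some `H ∘ S`; `ae_eq_of_pair` in
`H82OT/KP5.lean`).
The last assertion: `∑_j X_ij(w) conj (G_j(w.2))` is the conditional expectation of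
`E_i(z.1) conj g(z.2)`, `g = G(P ·) ⬝ᵥ E'` (test it against bounded `H`); a conditional expectation is a
contraction of `L²` (take `H = conj` of it and Cauchy-Schwarz), and sum over `i`:
`∑_i ∫ |E_i(z.1)|² |g(z.2)|² dρ ≤ CE ∫ |g|² dm`. -/
theorem exists_X {Y B : Type*} [MeasurableSpace Y] [MeasurableSpace B] {m : Measure Y}
    [IsProbabilityMeasure m] {mb : Measure B} (R : Y ≃ᵐ Y) (hR : MeasurePreserving R m m)
    (T : B ≃ᵐ B) {P : Y → B} (hP : MeasurePreserving P m mb) (hPR : ∀ y, P (R y) = T (P y))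
    {d e : ℕ} {Ψ : B → Matrix (Fin d) (Fin d) ℂ} {Ψ' : B → Matrix (Fin e) (Fin e) ℂ}
    (hΨ : BMM Ψ) (hΨ' : BMM Ψ') (hu : ∀ x, Ψ x * (Ψ x)ᴴ = 1) (hu' : ∀ x, Ψ' x * (Ψ' x)ᴴ = 1)
    (E : Y → Fin d → ℂ) (E' : Y → Fin e → ℂ) (hE : BMR E) (hE' : BMR E')
    (hER : ∀ᵐ y ∂m, E (R y) = Ψ (P y) *ᵥ E y) (hER' : ∀ᵐ y ∂m, E' (R y) = Ψ' (P y) *ᵥ E' y)
    (CE CE' : ℝ) (hCE : ∀ y, ∑ i, ‖E y i‖ ^ 2 ≤ CE) (hCE' : ∀ y, ∑ i, ‖E' y i‖ ^ 2 ≤ CE')
    {p q : ℕ} {ρ : Measure (Y × Y)} (hρ : IsJoin m R p q ρ) :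
    ∃ X : B × B → Matrix (Fin d) (Fin e) ℂ, BMM X ∧
      (∀ w i j, ‖X w i j‖ ≤ Real.sqrt (CE * CE')) ∧
      (∀ (H : B × B → ℂ) i j, BM H → ∫ z, H (P z.1, P z.2) * (E z.1 i * conj (E' z.2 j)) ∂ρ =
        ∫ w, H w * X w i j ∂(ρ.map (Prod.map P P))) ∧
      (∀ᵐ w ∂(ρ.map (Prod.map P P)),
        X ((⇑T)^[p] w.1, (⇑T)^[q] w.2) = cm T Ψ p w.1 * X w * (cm T Ψ' q w.2)ᴴ) ∧
      ∀ G : B → Fin e → ℂ, BMR G →
        ∑ i, ∫ w, ‖∑ j, X w i j * conj (G w.2 j)‖ ^ 2 ∂(ρ.map (Prod.map P P)) ≤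
          CE * l2 m (fun y => G (P y) ⬝ᵥ E' y) ^ 2 := by
  have hprob := hρ.prob
  have hPm := hP.measurable
  have hPPm : Measurable (Prod.map P P) := hPm.prodMap hPm
  have hρB := isJoin_map T.measurable hP hPR hρ
  have hprobB := hρB.prob
  have hEf : ∀ i j, BM fun z : Y × Y => E z.1 i * conj (E' z.2 j) := fun i j =>
    ((hE i).comp measurable_fst).mul ((hE' j).comp measurable_snd).conj
  have hEb : ∀ (i : Fin d) (j : Fin e) (z : Y × Y),
      ‖E z.1 i * conj (E' z.2 j)‖ ≤ Real.sqrt (CE * CE') := by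
    intro i j z
    have h1 : ‖E z.1 i‖ ^ 2 ≤ CE := (Finset.single_le_sum (f := fun i => ‖E z.1 i‖ ^ 2)
      (fun _ _ => by positivity) (Finset.mem_univ i)).trans (hCE z.1)
    have h2 : ‖E' z.2 j‖ ^ 2 ≤ CE' := (Finset.single_le_sum (f := fun j => ‖E' z.2 j‖ ^ 2)
      (fun _ _ => by positivity) (Finset.mem_univ j)).trans (hCE' z.2)
    refine Real.le_sqrt_of_sq_le ?_
    rw [norm_mul, RCLike.norm_conj, mul_pow]
    exact mul_le_mul h1 h2 (by positivity) ((by positivity : (0 : ℝ) ≤ ‖E z.1 i‖ ^ 2).trans h1)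
  choose V hVm hVb hVe hVi using fun (i : Fin d) (j : Fin e) =>
    exists_cond ρ (Prod.map P P) hPPm (fun z => E z.1 i * conj (E' z.2 j)) (hEf i j).1
      (Real.sqrt (CE * CE')) (Real.sqrt_nonneg _) (hEb i j)
  set X : B × B → Matrix (Fin d) (Fin e) ℂ := fun w i j => V i j w with hX
  have hXB : BMM X := fun i j => ⟨hVm i j, _, hVb i j⟩
  have hXi : ∀ (H : B × B → ℂ) i j, BM H →
      ∫ z, H (P z.1, P z.2) * (E z.1 i * conj (E' z.2 j)) ∂ρ =
        ∫ w, H w * X w i j ∂(ρ.map (Prod.map P P)) := by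
    intro H i j hH
    rw [integral_map hPPm.aemeasurable (hH.mul (hXB i j)).1.aestronglyMeasurable]
    exact hVi i j H hH
  refine ⟨X, hXB, fun w i j => hVb i j w, hXi, ?_, ?_⟩
  · -- equivariance
    have hiter : ∀ n : ℕ, ∀ᵐ y ∂m, E ((⇑R)^[n] y) = cm T Ψ n (P y) *ᵥ E y :=
      xk1_iter hR hPR Ψ E hER
    have hiter' : ∀ n : ℕ, ∀ᵐ y ∂m, E' ((⇑R)^[n] y) = cm T Ψ' n (P y) *ᵥ E' y :=
      xk1_iter hR hPR Ψ' E' hER'
    have hfst : MeasurePreserving (Prod.fst : Y × Y → Y) ρ m := ⟨measurable_fst, hρ.fst⟩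
    have hsnd : MeasurePreserving (Prod.snd : Y × Y → Y) ρ m := ⟨measurable_snd, hρ.snd⟩
    have hcm := cm_bmm T T.measurable Ψ hΨ p
    have hcm' := cm_bmm T T.measurable Ψ' hΨ' q
    have hSm : Measurable fun w : B × B => ((⇑T)^[p] w.1, (⇑T)^[q] w.2) :=
      ((T.measurable.iterate p).comp measurable_fst).prodMk
        ((T.measurable.iterate q).comp measurable_snd)
    have hRm : Measurable fun z : Y × Y => ((⇑R)^[p] z.1, (⇑R)^[q] z.2) :=
      ((R.measurable.iterate p).comp measurable_fst).prodMk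
        ((R.measurable.iterate q).comp measurable_snd)
    have hL : ∀ i j, BM fun w : B × B => X ((⇑T)^[p] w.1, (⇑T)^[q] w.2) i j := fun i j =>
      (hXB i j).comp hSm
    have hRt : BMM fun w : B × B => cm T Ψ p w.1 * X w * (cm T Ψ' q w.2)ᴴ :=
      ((hcm.comp measurable_fst).mul hXB).mul (hcm'.comp measurable_snd).conj
    have key : ∀ i j, ∀ᵐ w ∂(ρ.map (Prod.map P P)),
        X ((⇑T)^[p] w.1, (⇑T)^[q] w.2) i j =
          (cm T Ψ p w.1 * X w * (cm T Ψ' q w.2)ᴴ) i j := by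
      intro i j
      refine xk1_ae_eq _ _ _ (hL i j) (hRt i j) fun g hg => ?_
      -- `g = H ∘ S`
      set H : B × B → ℂ := fun w => g ((pairE T p q).symm w) with hH
      have hHb : BM H := hg.comp (pairE T p q).symm.measurable
      have hHS : ∀ w : B × B, H ((⇑T)^[p] w.1, (⇑T)^[q] w.2) = g w := fun w => by
        have h1 : (pairE T p q).symm (pairE T p q w) = w := (pairE T p q).symm_apply_apply w
        exact congrArg g h1
      have e1 : ∫ w, g w * X ((⇑T)^[p] w.1, (⇑T)^[q] w.2) i j ∂(ρ.map (Prod.map P P)) =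
          ∫ w, H w * X w i j ∂(ρ.map (Prod.map P P)) := by
        conv_rhs => rw [← hρB.inv.map_eq]
        rw [integral_map hρB.inv.measurable.aemeasurable
          (hHb.mul (hXB i j)).1.aestronglyMeasurable]
        refine integral_congr_ae (ae_of_all _ fun w => ?_)
        show g w * X ((⇑T)^[p] w.1, (⇑T)^[q] w.2) i j =
          H ((⇑T)^[p] w.1, (⇑T)^[q] w.2) * X ((⇑T)^[p] w.1, (⇑T)^[q] w.2) i j
        rw [hHS]
      have e2 : ∫ w, H w * X w i j ∂(ρ.map (Prod.map P P)) =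
          ∫ z, H (P z.1, P z.2) * (E z.1 i * conj (E' z.2 j)) ∂ρ := (hXi H i j hHb).symm
      have e3 : ∫ z, H (P z.1, P z.2) * (E z.1 i * conj (E' z.2 j)) ∂ρ =
          ∫ z, H (P ((⇑R)^[p] z.1), P ((⇑R)^[q] z.2)) *
            (E ((⇑R)^[p] z.1) i * conj (E' ((⇑R)^[q] z.2) j)) ∂ρ := by
        have hm : Measurable fun z : Y × Y => H (P z.1, P z.2) * (E z.1 i * conj (E' z.2 j)) :=
          ((hHb.comp hPPm).mul (hEf i j)).1
        conv_lhs => rw [← hρ.inv.map_eq]
        exact integral_map hρ.inv.measurable.aemeasurable hm.aestronglyMeasurable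
      have e4 : ∫ z, H (P ((⇑R)^[p] z.1), P ((⇑R)^[q] z.2)) *
            (E ((⇑R)^[p] z.1) i * conj (E' ((⇑R)^[q] z.2) j)) ∂ρ =
          ∫ z, ∑ a, ∑ b, (g (P z.1, P z.2) * (cm T Ψ p (P z.1) i a *
            conj (cm T Ψ' q (P z.2) j b))) * (E z.1 a * conj (E' z.2 b)) ∂ρ := by
        refine integral_congr_ae ?_
        filter_upwards [hfst.quasiMeasurePreserving.ae (hiter p),
          hsnd.quasiMeasurePreserving.ae (hiter' q)] with z h1 h2
        have hsemi : Function.Semiconj P R T := hPR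
        rw [h1, h2, (hsemi.iterate_right p) z.1, (hsemi.iterate_right q) z.2,
          hHS (P z.1, P z.2)]
        simp only [Matrix.mulVec, dotProduct, map_sum, map_mul]
        rw [Finset.sum_mul_sum, Finset.mul_sum]
        refine Finset.sum_congr rfl fun a _ => ?_
        rw [Finset.mul_sum]
        refine Finset.sum_congr rfl fun b _ => ?_
        ring
      have hgc : ∀ a b, BM fun w : B × B => g w * (cm T Ψ p w.1 i a *
          conj (cm T Ψ' q w.2 j b)) := fun a b =>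
        hg.mul (((hcm i a).comp measurable_fst).mul ((hcm' j b).comp measurable_snd).conj)
      rw [e1, e2, e3, e4, integral_finsetSum]
      · have e5 : ∀ a, ∫ z, ∑ b, (g (P z.1, P z.2) * (cm T Ψ p (P z.1) i a *
            conj (cm T Ψ' q (P z.2) j b))) * (E z.1 a * conj (E' z.2 b)) ∂ρ =
            ∑ b, ∫ w, (g w * (cm T Ψ p w.1 i a * conj (cm T Ψ' q w.2 j b))) * X w a b
              ∂(ρ.map (Prod.map P P)) := by
          intro a
          rw [integral_finsetSum]
          · refine Finset.sum_congr rfl fun b _ => ?_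
            exact hXi _ a b (hgc a b)
          · intro b _
            exact (((hgc a b).comp hPPm).mul (hEf a b)).integrable
        simp_rw [e5]
        have e6 : ∀ a, ∑ b, ∫ w, (g w * (cm T Ψ p w.1 i a * conj (cm T Ψ' q w.2 j b))) * X w a b
              ∂(ρ.map (Prod.map P P)) =
            ∫ w, ∑ b, (g w * (cm T Ψ p w.1 i a * conj (cm T Ψ' q w.2 j b))) * X w a b
              ∂(ρ.map (Prod.map P P)) := by
          intro a
          rw [integral_finsetSum]
          intro b _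
          exact ((hgc a b).mul (hXB a b)).integrable
        simp_rw [e6]
        rw [← integral_finsetSum]
        · refine integral_congr_ae (ae_of_all _ fun w => ?_)
          dsimp only
          simp only [Matrix.mul_apply, Matrix.conjTranspose_apply, Finset.sum_mul, Finset.mul_sum]
          rw [Finset.sum_comm]
          refine Finset.sum_congr rfl fun b _ => Finset.sum_congr rfl fun a _ => ?_
          rw [starRingEnd_apply]
          ring
        · intro a _
          exact integrable_finsetSum _ fun b _ => ((hgc a b).mul (hXB a b)).integrable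
      · intro a _
        exact integrable_finsetSum _ fun b _ => (((hgc a b).comp hPPm).mul (hEf a b)).integrable
    have hall : ∀ᵐ w ∂(ρ.map (Prod.map P P)), ∀ i j,
        X ((⇑T)^[p] w.1, (⇑T)^[q] w.2) i j =
          (cm T Ψ p w.1 * X w * (cm T Ψ' q w.2)ᴴ) i j := by
      rw [ae_all_iff]
      intro i
      rw [ae_all_iff]
      exact key i
    filter_upwards [hall] with w hw
    ext i j
    exact hw i j
  · -- the bound
    intro G hG
    set g : Y → ℂ := fun y => G (P y) ⬝ᵥ E' y with hg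
    have hgB : BM g := BM.sum _ fun j _ => ((hG j).comp hPm).mul (hE' j)
    set W : Fin d → B × B → ℂ := fun i w => ∑ j, X w i j * conj (G w.2 j) with hW
    have hWB : ∀ i, BM (W i) := fun i =>
      BM.sum _ fun j _ => (hXB i j).mul ((hG j).comp measurable_snd).conj
    have hsnd : MeasurePreserving (Prod.snd : Y × Y → Y) ρ m := ⟨measurable_snd, hρ.snd⟩
    have hFB : ∀ i, BM fun z : Y × Y => E z.1 i * conj (g z.2) := fun i =>
      ((hE i).comp measurable_fst).mul (hgB.comp measurable_snd).conj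
    have hWi : ∀ i, ∀ H : B × B → ℂ, BM H →
        ∫ z, H (P z.1, P z.2) * (E z.1 i * conj (g z.2)) ∂ρ =
          ∫ w, H w * W i w ∂(ρ.map (Prod.map P P)) := by
      intro i H hH
      have e1 : ∫ z, H (P z.1, P z.2) * (E z.1 i * conj (g z.2)) ∂ρ =
          ∫ z, ∑ j, (H (P z.1, P z.2) * conj (G (P z.2) j)) * (E z.1 i * conj (E' z.2 j)) ∂ρ := by
        refine integral_congr_ae (ae_of_all _ fun z => ?_)
        simp only [hg, dotProduct, map_sum, map_mul, Finset.mul_sum]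
        refine Finset.sum_congr rfl fun j _ => ?_
        ring
      have hHG : ∀ j, BM fun w : B × B => H w * conj (G w.2 j) := fun j =>
        hH.mul ((hG j).comp measurable_snd).conj
      rw [e1, integral_finsetSum]
      · have e2 : ∀ j, ∫ z, (H (P z.1, P z.2) * conj (G (P z.2) j)) *
            (E z.1 i * conj (E' z.2 j)) ∂ρ =
            ∫ w, (H w * conj (G w.2 j)) * X w i j ∂(ρ.map (Prod.map P P)) := fun j =>
          hXi (fun w => H w * conj (G w.2 j)) i j (hHG j)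
        simp_rw [e2]
        rw [← integral_finsetSum]
        · refine integral_congr_ae (ae_of_all _ fun w => ?_)
          simp only [hW, Finset.mul_sum]
          refine Finset.sum_congr rfl fun j _ => ?_
          ring
        · intro j _
          exact ((hHG j).mul (hXB i j)).integrable
      · intro j _
        exact (((hHG j).comp hPPm).mul (hEf i j)).integrable
    have hsq : ∀ {Ω : Type _} [MeasurableSpace Ω] (ν : Measure Ω) [IsProbabilityMeasure ν]
        (f : Ω → ℂ), BM f → Integrable (fun ω => ‖f ω‖ ^ 2) ν := by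
      intro Ω _ ν _ f hf
      exact (hf.memLp (m := ν) 2).integrable_norm_pow (by norm_num)
    have hWle : ∀ i, ∫ w, ‖W i w‖ ^ 2 ∂(ρ.map (Prod.map P P)) ≤
        ∫ z, ‖E z.1 i * conj (g z.2)‖ ^ 2 ∂ρ := by
      intro i
      have e1 := hWi i (fun w => conj (W i w)) (hWB i).conj
      have e2 : (∫ w, conj (W i w) * W i w ∂(ρ.map (Prod.map P P))) =
          ((∫ w, ‖W i w‖ ^ 2 ∂(ρ.map (Prod.map P P)) : ℝ) : ℂ) := by
        rw [← integral_complex_ofReal]
        refine integral_congr_ae (ae_of_all _ fun w => ?_)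
        dsimp only
        rw [mul_comm, Complex.mul_conj, Complex.normSq_eq_norm_sq]
      have e3 : ∫ w, ‖W i w‖ ^ 2 ∂(ρ.map (Prod.map P P)) =
          ∫ z, ‖W i (P z.1, P z.2)‖ ^ 2 ∂ρ := by
        rw [integral_map hPPm.aemeasurable ((hWB i).1.norm.pow_const 2).aestronglyMeasurable]
        rfl
      have hWP : BM fun z : Y × Y => W i (P z.1, P z.2) := (hWB i).comp hPPm
      have e4 : ∫ w, ‖W i w‖ ^ 2 ∂(ρ.map (Prod.map P P)) =
          ∫ z, (conj (W i (P z.1, P z.2)) * (E z.1 i * conj (g z.2))).re ∂ρ := by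
        have h1 : ((∫ w, ‖W i w‖ ^ 2 ∂(ρ.map (Prod.map P P)) : ℝ) : ℂ) =
            ∫ z, conj (W i (P z.1, P z.2)) * (E z.1 i * conj (g z.2)) ∂ρ := by
          rw [← e2, ← e1]
        have h2 := congrArg Complex.re h1
        rw [Complex.ofReal_re] at h2
        rw [h2]
        exact (integral_re (hWP.conj.mul (hFB i)).integrable).symm
      have e5 : ∫ z, (conj (W i (P z.1, P z.2)) * (E z.1 i * conj (g z.2))).re ∂ρ ≤
          ∫ z, (1 / 2 * ‖W i (P z.1, P z.2)‖ ^ 2 + 1 / 2 * ‖E z.1 i * conj (g z.2)‖ ^ 2) ∂ρ := by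
        refine integral_mono (hWP.conj.mul (hFB i)).integrable.re
          (((hsq ρ _ hWP).const_mul _).add ((hsq ρ _ (hFB i)).const_mul _)) fun z => ?_
        dsimp only
        have h1 : (conj (W i (P z.1, P z.2)) * (E z.1 i * conj (g z.2))).re ≤
            ‖W i (P z.1, P z.2)‖ * ‖E z.1 i * conj (g z.2)‖ := by
          refine (Complex.re_le_norm _).trans (le_of_eq ?_)
          rw [norm_mul, RCLike.norm_conj]
        nlinarith [sq_nonneg (‖W i (P z.1, P z.2)‖ - ‖E z.1 i * conj (g z.2)‖)]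
      rw [integral_add ((hsq ρ _ hWP).const_mul _) ((hsq ρ _ (hFB i)).const_mul _),
        integral_const_mul, integral_const_mul] at e5
      rw [← e4, ← e3] at e5
      linarith
    have hsum : ∑ i, ∫ z, ‖E z.1 i * conj (g z.2)‖ ^ 2 ∂ρ ≤ CE * ∫ z, ‖g z.2‖ ^ 2 ∂ρ := by
      rw [← integral_finsetSum _ fun i _ => hsq ρ _ (hFB i), ← integral_const_mul]
      refine integral_mono (integrable_finsetSum _ fun i _ => hsq ρ _ (hFB i))
        ((hsq ρ _ (hgB.comp measurable_snd)).const_mul _) fun z => ?_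
      dsimp only
      have h1 : ∑ i, ‖E z.1 i * conj (g z.2)‖ ^ 2 = (∑ i, ‖E z.1 i‖ ^ 2) * ‖g z.2‖ ^ 2 := by
        rw [Finset.sum_mul]
        refine Finset.sum_congr rfl fun i _ => ?_
        rw [norm_mul, RCLike.norm_conj, mul_pow]
      rw [h1]
      exact mul_le_mul_of_nonneg_right (hCE z.1) (by positivity)
    have hl2 : ∫ z, ‖g z.2‖ ^ 2 ∂ρ = l2 m g ^ 2 := by
      have h1 : ∫ z, ‖g z.2‖ ^ 2 ∂ρ = ∫ y, ‖g y‖ ^ 2 ∂m := by
        rw [← hsnd.map_eq]
        exact (integral_map hsnd.measurable.aemeasurable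
          (hgB.1.norm.pow_const 2).aestronglyMeasurable).symm
      rw [h1, l2, Real.sq_sqrt (integral_nonneg fun y => by positivity)]
    calc ∑ i, ∫ w, ‖∑ j, X w i j * conj (G w.2 j)‖ ^ 2 ∂(ρ.map (Prod.map P P))
        ≤ ∑ i, ∫ z, ‖E z.1 i * conj (g z.2)‖ ^ 2 ∂ρ := Finset.sum_le_sum fun i _ => hWle i
      _ ≤ CE * ∫ z, ‖g z.2‖ ^ 2 ∂ρ := hsum
      _ = _ := by rw [hl2]

end Pool.Agent.Lib.H82OF
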