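import Pool.Agent.Lib.H82OF.CE
import Pool.Agent.Lib.H82OF.EK2
import Pool.Agent.Lib.H82OF.CQ
import Pool.Agent.Lib.H82OF.RS
import Pool.Agent.Lib.H82OT.KP2
import Pool.Agent.Lib.H82OT.KP1
import Pool.Agent.Lib.H22M.CE

/-!
# Project H82OF, chunk XK2: the kernel on the square of the base
-/

open MeasureTheory Filter Topology Finset ProbabilityTheory
open scoped ENNReal ComplexConjugate Matrix

namespace Pool.Agent.Lib.H82OF

open Pool.Agent.Lib.H22M Pool.Agent.Lib.H82T Pool.Agent.Lib.H82OT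

private noncomputable def XK2_iterE {B : Type*} [MeasurableSpace B] (T : B ≃ᵐ B) (q : ℕ) :
    B ≃ᵐ B where
  toFun := (⇑T)^[q]
  invFun := (⇑T.symm)^[q]
  left_inv := Function.LeftInverse.iterate (fun y => T.symm_apply_apply y) q
  right_inv := Function.LeftInverse.iterate (fun y => T.apply_symm_apply y) q
  measurable_toFun := T.measurable.iterate q
  measurable_invFun := T.symm.measurable.iterate q

private theorem XK2_law {B : Type*} [MeasurableSpace B] [StandardBorelSpace B] (T : B → B)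
    {p q : ℕ} {ρ σ : Measure (B × B)} [IsProbabilityMeasure ρ] (hσ : IsRel T p q ρ σ) :
    (mh ρ (GG_le T p q ρ)).map (fun z : (B × B) × (B × B) => (z.1.2, z.2.2)) = σ := by
  have := hσ.prob
  have hm : Measurable (fun z : (B × B) × (B × B) => (z.1.2, z.2.2)) := by fun_prop
  have : IsProbabilityMeasure
      ((mh ρ (GG_le T p q ρ)).map (fun z : (B × B) × (B × B) => (z.1.2, z.2.2))) :=
    Measure.isProbabilityMeasure_map hm.aemeasurable
  refine prod_ext_of_BM _ _ fun f g hf hg => ?_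
  have hfg : BM (fun z : B × B => f z.1 * g z.2) :=
    (hf.comp measurable_fst).mul (hg.comp measurable_snd)
  rw [integral_map hm.aemeasurable hfg.1.aestronglyMeasurable, hσ.int f g hf hg]
  exact integral_mh_condExp ρ (GG_le T p q ρ) (fun z => f z.2) (fun z => g z.2)
    (hf.comp measurable_snd) (hg.comp measurable_snd)

private theorem XK2_Y_bm {B : Type*} [MeasurableSpace B] {d e : ℕ}
    {X : B × B → Matrix (Fin d) (Fin e) ℂ} (hX : BMM X) {G : B → Fin e → ℂ} (hG : BMR G)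
    (i : Fin d) : BM fun w : B × B => ∑ j, X w i j * conj (G w.2 j) :=
  BM.sum _ fun j _ => (hX i j).mul ((hG j).comp measurable_snd).conj

private theorem XK2_nonempty {Ω : Type*} [MeasurableSpace Ω] (ν : Measure Ω)
    [IsProbabilityMeasure ν] : Nonempty Ω := by
  by_contra hne
  rw [not_nonempty_iff] at hne
  exact (NeZero.ne ν) (Measure.eq_zero_of_isEmpty ν)

/-- A bounded version of the conditional expectation. -/
private theorem XK2_bdd {Ω : Type*} (𝒢 : MeasurableSpace Ω) [mΩ : MeasurableSpace Ω]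
    (ρ : Measure Ω) [IsProbabilityMeasure ρ] (h𝒢 : 𝒢 ≤ mΩ) (f : Ω → ℂ) (hf : BM f) :
    ∃ F : Ω → ℂ, BM F ∧ F =ᵐ[ρ] ρ[f|𝒢] := by
  obtain ⟨C, hC⟩ := hf.2
  obtain ⟨ω₀⟩ := XK2_nonempty ρ
  have hC0 : 0 ≤ C := (norm_nonneg _).trans (hC ω₀)
  obtain ⟨F, hF1, hF2, hF3, _⟩ := exists_version 𝒢 ρ h𝒢 f hf.1 C hC0
    (Filter.Eventually.of_forall hC)
  exact ⟨F, ⟨hF1.mono h𝒢 le_rfl, C, hF2⟩, hF3⟩

private theorem XK2_first {B : Type*} [MeasurableSpace B] [StandardBorelSpace B]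
    (T : B → B) {p q : ℕ} {ρ σ : Measure (B × B)} [IsProbabilityMeasure ρ]
    (hσ : IsRel T p q ρ σ) {d e : ℕ}
    (X : B × B → Matrix (Fin d) (Fin e) ℂ) (hX : BMM X) (C : ℝ) (hC0 : 0 ≤ C)
    (hC : ∀ w i j, ‖X w i j‖ ≤ C) :
    ∃ X' : B × B → Matrix (Fin e) (Fin e) ℂ, BMM X' ∧ (∀ w i j, ‖X' w i j‖ ≤ d * C ^ 2) ∧
      ∀ G H : B → Fin e → ℂ, BMR G → BMR H → QQ σ X' G H =
        ∫ w, ∑ i, conj ((ρ[fun w => ∑ j, X w i j * conj (G w.2 j)|GG T p q ρ]) w) *
          (ρ[fun w => ∑ j, X w i j * conj (H w.2 j)|GG T p q ρ]) w ∂ρ := by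
  have hle := GG_le T p q ρ
  have hm : Measurable (fun z : (B × B) × (B × B) => (z.1.2, z.2.2)) := by fun_prop
  have hMb : ∀ j l : Fin e, BM fun z : (B × B) × (B × B) =>
      ∑ i, conj (X z.1 i j) * X z.2 i l := fun j l =>
    BM.sum _ fun i _ => ((hX i j).comp measurable_fst).conj.mul ((hX i l).comp measurable_snd)
  have hMC : ∀ (j l : Fin e) (z : (B × B) × (B × B)),
      ‖∑ i, conj (X z.1 i j) * X z.2 i l‖ ≤ d * C ^ 2 := by
    intro j l z
    refine (norm_sum_le _ _).trans ?_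
    have h1 : ∀ i ∈ (Finset.univ : Finset (Fin d)), ‖conj (X z.1 i j) * X z.2 i l‖ ≤ C ^ 2 := by
      intro i _
      rw [norm_mul, RCLike.norm_conj, pow_two]
      exact mul_le_mul (hC _ _ _) (hC _ _ _) (norm_nonneg _) hC0
    refine (Finset.sum_le_sum h1).trans ?_
    rw [Finset.sum_const, Finset.card_univ, Fintype.card_fin, nsmul_eq_mul]
  have hex := fun j l : Fin e => exists_cond (mh ρ hle)
    (fun z : (B × B) × (B × B) => (z.1.2, z.2.2)) hm _ (hMb j l).1 (d * C ^ 2) (by positivity)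
    (hMC j l)
  choose v hv1 hv2 hv3 hv4 using hex
  refine ⟨fun w => Matrix.of fun j l => v j l w, ?_, ?_, ?_⟩
  · intro j l
    exact ⟨hv1 j l, _, hv2 j l⟩
  · intro w j l
    exact hv2 j l w
  · intro G H hG hH
    have hGH : ∀ j l : Fin e, BM fun w : B × B => G w.1 j * conj (H w.2 l) := fun j l =>
      ((hG j).comp measurable_fst).mul ((hH l).comp measurable_snd).conj
    have hvb : ∀ j l : Fin e, BM (v j l) := fun j l => ⟨hv1 j l, _, hv2 j l⟩
    have hterm : ∀ j l : Fin e, BM fun w : B × B => G w.1 j * v j l w * conj (H w.2 l) :=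
      fun j l => (((hG j).comp measurable_fst).mul (hvb j l)).mul
        ((hH l).comp measurable_snd).conj
    -- transport to the measure `mh`
    have e1 : QQ σ (fun w => Matrix.of fun j l => v j l w) G H =
        ∫ z, ∑ j, ∑ l, (G z.1.2 j * conj (H z.2.2 l)) * v j l (z.1.2, z.2.2) ∂(mh ρ hle) := by
      have h0 := XK2_law T hσ
      have h1 := integral_map (μ := mh ρ hle) hm.aemeasurable
        (f := fun w : B × B => ∑ j, ∑ l, G w.1 j * v j l w * conj (H w.2 l))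
        (BM.sum _ fun j _ => BM.sum _ fun l _ => hterm j l).1.aestronglyMeasurable
      rw [h0] at h1
      refine Eq.trans h1 (integral_congr_ae (ae_of_all _ fun z => ?_))
      refine Finset.sum_congr rfl fun j _ => Finset.sum_congr rfl fun l _ => ?_
      dsimp only
      ring
    have hb1 : ∀ j l : Fin e, BM fun z : (B × B) × (B × B) =>
        (G z.1.2 j * conj (H z.2.2 l)) * v j l (z.1.2, z.2.2) := fun j l =>
      ((hGH j l).comp hm).mul ((hvb j l).comp hm)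
    have hb2 : ∀ j l : Fin e, BM fun z : (B × B) × (B × B) =>
        (G z.1.2 j * conj (H z.2.2 l)) * ∑ i, conj (X z.1 i j) * X z.2 i l := fun j l =>
      ((hGH j l).comp hm).mul (hMb j l)
    have e2 : ∫ z, ∑ j, ∑ l, (G z.1.2 j * conj (H z.2.2 l)) * v j l (z.1.2, z.2.2) ∂(mh ρ hle) =
        ∫ z, ∑ j, ∑ l, (G z.1.2 j * conj (H z.2.2 l)) * ∑ i, conj (X z.1 i j) * X z.2 i l
          ∂(mh ρ hle) := by
      rw [integral_finsetSum _ fun j _ => (BM.sum _ fun l _ => hb1 j l).integrable,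
        integral_finsetSum _ fun j _ => (BM.sum _ fun l _ => hb2 j l).integrable]
      refine Finset.sum_congr rfl fun j _ => ?_
      rw [integral_finsetSum _ fun l _ => (hb1 j l).integrable,
        integral_finsetSum _ fun l _ => (hb2 j l).integrable]
      refine Finset.sum_congr rfl fun l _ => ?_
      exact (hv4 j l _ (hGH j l)).symm
    have e3 : ∀ z : (B × B) × (B × B),
        ∑ j, ∑ l, (G z.1.2 j * conj (H z.2.2 l)) * ∑ i, conj (X z.1 i j) * X z.2 i l =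
          ∑ i, conj (∑ j, X z.1 i j * conj (G z.1.2 j)) * ∑ l, X z.2 i l * conj (H z.2.2 l) := by
      intro z
      have h1 : ∀ j l : Fin e, (G z.1.2 j * conj (H z.2.2 l)) *
          ∑ i, conj (X z.1 i j) * X z.2 i l =
            ∑ i, conj (X z.1 i j * conj (G z.1.2 j)) * (X z.2 i l * conj (H z.2.2 l)) := by
        intro j l
        rw [Finset.mul_sum]
        refine Finset.sum_congr rfl fun i _ => ?_
        rw [map_mul, Complex.conj_conj]
        ring
      have h2 : ∀ j : Fin e, ∑ l, (G z.1.2 j * conj (H z.2.2 l)) *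
          ∑ i, conj (X z.1 i j) * X z.2 i l =
            ∑ i, ∑ l, conj (X z.1 i j * conj (G z.1.2 j)) * (X z.2 i l * conj (H z.2.2 l)) := by
        intro j
        rw [Finset.sum_congr rfl fun l _ => h1 j l, Finset.sum_comm]
      rw [Finset.sum_congr rfl fun j _ => h2 j, Finset.sum_comm]
      refine Finset.sum_congr rfl fun i _ => ?_
      rw [map_sum, Finset.sum_mul_sum]
    have hY := fun i : Fin d => XK2_Y_bm hX hG i
    have hZ := fun i : Fin d => XK2_Y_bm hX hH i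
    have hb3 : ∀ i : Fin d, BM fun z : (B × B) × (B × B) =>
        conj (∑ j, X z.1 i j * conj (G z.1.2 j)) * ∑ l, X z.2 i l * conj (H z.2.2 l) := fun i =>
      ((hY i).comp measurable_fst).conj.mul ((hZ i).comp measurable_snd)
    rw [e1, e2, integral_congr_ae (ae_of_all _ e3),
      integral_finsetSum _ fun i _ => (hb3 i).integrable]
    have hint : ∀ i : Fin d, Integrable (fun w =>
        conj ((ρ[fun w => ∑ j, X w i j * conj (G w.2 j)|GG T p q ρ]) w) *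
          (ρ[fun w => ∑ j, X w i j * conj (H w.2 j)|GG T p q ρ]) w) ρ := by
      intro i
      obtain ⟨F, hF, hFe⟩ := XK2_bdd (GG T p q ρ) ρ hle _ (hY i)
      obtain ⟨F', hF', hFe'⟩ := XK2_bdd (GG T p q ρ) ρ hle _ (hZ i)
      refine (hF.conj.mul hF').integrable.congr ?_
      filter_upwards [hFe, hFe'] with w h1 h2
      rw [h1, h2]
    rw [integral_finsetSum _ fun i _ => hint i]
    refine Finset.sum_congr rfl fun i _ => ?_
    have e4 := integral_mh_condExp ρ hle (fun w => conj (∑ j, X w i j * conj (G w.2 j)))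
      (fun w => ∑ l, X w i l * conj (H w.2 l)) (hY i).conj (hZ i)
    refine e4.trans (integral_congr_ae ?_)
    filter_upwards [condExp_conj (GG T p q ρ) ρ hle _ (hY i).integrable] with w hw
    rw [hw]

/-- The relative square is invariant under `T^q × T^q`. -/
private theorem XK2_inv {B : Type*} [MeasurableSpace B] (T : B ≃ᵐ B) {m : Measure B} {p q : ℕ}
    {ρ σ : Measure (B × B)} (hρ : IsJoin m T p q ρ) (hσ : IsRel T p q ρ σ) :
    MeasurePreserving (Prod.map (⇑T)^[q] (⇑T)^[q]) σ σ := by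
  have := hσ.prob
  have := hρ.prob
  have hTq : Measurable (⇑T)^[q] := T.measurable.iterate q
  have hm : Measurable (Prod.map (⇑T)^[q] (⇑T)^[q]) := hTq.prodMap hTq
  have hS : MeasurePreserving (pairE T p q) ρ ρ := hρ.inv
  have hce : ∀ f : B → ℂ, BM f → ρ[fun z => f ((⇑T)^[q] z.2)|GG T p q ρ] =ᵐ[ρ]
      fun w => (ρ[fun z => f z.2|GG T p q ρ]) (pairE T p q w) := by
    intro f hf
    exact condExp_comp_equiv (GG T p q ρ) ρ (GG_le T p q ρ) (pairE T p q) hS
      (fun s hs => (GG_preimage T p q ρ hρ.inv s hs).1)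
      (fun s hs => (GG_preimage T p q ρ hρ.inv s hs).2) (fun z => f z.2)
      (hf.comp measurable_snd).integrable
  refine ⟨hm, ?_⟩
  have : IsProbabilityMeasure (σ.map (Prod.map (⇑T)^[q] (⇑T)^[q])) :=
    Measure.isProbabilityMeasure_map hm.aemeasurable
  refine prod_ext_of_BM _ _ fun f g hf hg => ?_
  have hfg : BM (fun z : B × B => f z.1 * g z.2) :=
    (hf.comp measurable_fst).mul (hg.comp measurable_snd)
  rw [integral_map hm.aemeasurable hfg.1.aestronglyMeasurable, hσ.int f g hf hg]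
  have h1 := hσ.int (fun y => f ((⇑T)^[q] y)) (fun y => g ((⇑T)^[q] y)) (hf.comp hTq)
    (hg.comp hTq)
  change ∫ z, f ((⇑T)^[q] z.1) * g ((⇑T)^[q] z.2) ∂σ = _
  rw [h1]
  have h2 : ∫ w, (ρ[fun z => f ((⇑T)^[q] z.2)|GG T p q ρ]) w *
      (ρ[fun z => g ((⇑T)^[q] z.2)|GG T p q ρ]) w ∂ρ =
      ∫ w, (fun w => (ρ[fun z => f z.2|GG T p q ρ]) w * (ρ[fun z => g z.2|GG T p q ρ]) w)
        (pairE T p q w) ∂ρ := by
    refine integral_congr_ae ?_
    filter_upwards [hce f hf, hce g hg] with w h3 h4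
    rw [h3, h4]
  rw [h2]
  exact hS.integral_comp (pairE T p q).measurableEmbedding
    (fun w => (ρ[fun z => f z.2|GG T p q ρ]) w * (ρ[fun z => g z.2|GG T p q ρ]) w)

/-- The evolved row. -/
private theorem XK2_evolve {B : Type*} [MeasurableSpace B] (T : B ≃ᵐ B) {m : Measure B} {p q : ℕ}
    {ρ : Measure (B × B)} (hρ : IsJoin m T p q ρ) {d e : ℕ}
    {Ψ : B → Matrix (Fin d) (Fin d) ℂ} {Ψ' : B → Matrix (Fin e) (Fin e) ℂ}
    (hΨ : BMM Ψ) (hu : ∀ x, Ψ x * (Ψ x)ᴴ = 1)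
    {X : B × B → Matrix (Fin d) (Fin e) ℂ} (hX : BMM X)
    (hXS : ∀ᵐ w ∂ρ, X ((⇑T)^[p] w.1, (⇑T)^[q] w.2) = cm T Ψ p w.1 * X w * (cm T Ψ' q w.2)ᴴ)
    {G : B → Fin e → ℂ} (hG : BMR G) (i : Fin d) :
    ρ[fun w => ∑ j, X w i j * conj (evr (XK2_iterE T q) (cm T Ψ' q) G w.2 j)|GG T p q ρ] =ᵐ[ρ]
      fun w => ∑ k, conj (cm T Ψ p w.1 k i) *
        (ρ[fun w => ∑ j, X w k j * conj (G w.2 j)|GG T p q ρ]) (pairE T p q w) := by
  have := hρ.prob
  have hle := GG_le T p q ρ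
  have hS : MeasurePreserving (pairE T p q) ρ ρ := hρ.inv
  have hcm : BMM (cm T Ψ p) := cm_bmm T T.measurable Ψ hΨ p
  have hY := fun k : Fin d => XK2_Y_bm hX hG k
  have hYS : ∀ k : Fin d, BM fun w => ∑ j, X (pairE T p q w) k j * conj (G (pairE T p q w).2 j) :=
    fun k => (hY k).comp (pairE T p q).measurable
  -- the integrand
  have h1 : (fun w => ∑ j, X w i j * conj (evr (XK2_iterE T q) (cm T Ψ' q) G w.2 j)) =ᵐ[ρ]
      ∑ k, fun w : B × B => conj (cm T Ψ p w.1 k i) *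
        ∑ j, X (pairE T p q w) k j * conj (G (pairE T p q w).2 j) := by
    filter_upwards [hXS] with w hw
    have hun : (cm T Ψ p w.1)ᴴ * cm T Ψ p w.1 = 1 :=
      mul_eq_one_comm.1 (cm_unit T Ψ hu p w.1)
    have hpw : pairE T p q w = ((⇑T)^[p] w.1, (⇑T)^[q] w.2) := rfl
    have hX1 : X w * (cm T Ψ' q w.2)ᴴ = (cm T Ψ p w.1)ᴴ * X (pairE T p q w) := by
      rw [hpw, hw, Matrix.mul_assoc, ← Matrix.mul_assoc, hun, Matrix.one_mul]
    have hL : ∑ j, X w i j * conj (evr (XK2_iterE T q) (cm T Ψ' q) G w.2 j) =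
        (X w *ᵥ star (G ((⇑T)^[q] w.2) ᵥ* cm T Ψ' q w.2)) i := rfl
    have hR : (∑ k, fun w : B × B => conj (cm T Ψ p w.1 k i) *
        ∑ j, X (pairE T p q w) k j * conj (G (pairE T p q w).2 j)) w =
        ((cm T Ψ p w.1)ᴴ *ᵥ (X (pairE T p q w) *ᵥ star (G ((⇑T)^[q] w.2)))) i := by
      rw [Finset.sum_apply]
      rfl
    rw [hL, hR, Matrix.star_vecMul, Matrix.mulVec_mulVec, Matrix.mulVec_mulVec, hX1]
  refine (condExp_congr_ae h1).trans ?_
  refine (condExp_finsetSum (fun k _ => ?_) _).trans ?_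
  · exact (((hcm k i).comp measurable_fst).conj.mul (hYS k)).integrable
  have h2 : ∀ k : Fin d, ρ[fun w : B × B => conj (cm T Ψ p w.1 k i) *
      ∑ j, X (pairE T p q w) k j * conj (G (pairE T p q w).2 j)|GG T p q ρ] =ᵐ[ρ]
      fun w => conj (cm T Ψ p w.1 k i) *
        (ρ[fun w => ∑ j, X w k j * conj (G w.2 j)|GG T p q ρ]) (pairE T p q w) := by
    intro k
    have hf1 : Measurable[GG T p q ρ] fun w : B × B => conj (cm T Ψ p w.1 k i) := by
      have h3 : Measurable[MeasurableSpace.comap (Prod.fst : B × B → B) inferInstance]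
          fun w : B × B => conj (cm T Ψ p w.1 k i) :=
        (hcm k i).conj.1.comp (comap_measurable _)
      exact h3.mono le_sup_left le_rfl
    have h3 : ρ[fun w : B × B => conj (cm T Ψ p w.1 k i) *
        ∑ j, X (pairE T p q w) k j * conj (G (pairE T p q w).2 j)|GG T p q ρ] =ᵐ[ρ]
        fun w => conj (cm T Ψ p w.1 k i) *
          (ρ[fun w => ∑ j, X (pairE T p q w) k j * conj (G (pairE T p q w).2 j)|GG T p q ρ]) w :=
      condExp_bilin_of_stronglyMeasurable_left (ContinuousLinearMap.mul ℝ ℂ)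
        hf1.stronglyMeasurable
        (((hcm k i).comp measurable_fst).conj.mul (hYS k)).integrable (hYS k).integrable
    have h4 := condExp_comp_equiv (GG T p q ρ) ρ hle (pairE T p q) hS
      (fun s hs => (GG_preimage T p q ρ hρ.inv s hs).1)
      (fun s hs => (GG_preimage T p q ρ hρ.inv s hs).2)
      (fun w => ∑ j, X w k j * conj (G w.2 j)) (hY k).integrable
    filter_upwards [h3, h4] with w h5 h6
    rw [h5]
    exact congrArg _ h6
  have h5 : ∀ᵐ w ∂ρ, ∀ k : Fin d, (ρ[fun w : B × B => conj (cm T Ψ p w.1 k i) *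
      ∑ j, X (pairE T p q w) k j * conj (G (pairE T p q w).2 j)|GG T p q ρ]) w =
      conj (cm T Ψ p w.1 k i) *
        (ρ[fun w => ∑ j, X w k j * conj (G w.2 j)|GG T p q ρ]) (pairE T p q w) := by
    rw [ae_all_iff]
    exact h2
  filter_upwards [h5] with w hw
  rw [Finset.sum_apply]
  exact Finset.sum_congr rfl fun k _ => hw k

private theorem XK2_unit {d : ℕ} (A : Matrix (Fin d) (Fin d) ℂ) (hA : A * Aᴴ = 1)
    (u v : Fin d → ℂ) :
    ∑ i, conj (∑ k, conj (A k i) * u k) * ∑ k, conj (A k i) * v k = ∑ k, conj (u k) * v k := by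
  have h1 : ∑ i, conj (∑ k, conj (A k i) * u k) * ∑ k, conj (A k i) * v k =
      star (Aᴴ *ᵥ u) ⬝ᵥ (Aᴴ *ᵥ v) := rfl
  rw [h1, Matrix.star_mulVec, Matrix.conjTranspose_conjTranspose, ← Matrix.dotProduct_mulVec,
    Matrix.mulVec_mulVec, hA, Matrix.one_mulVec]
  rfl

/-- Let `𝒢 = GG T p q ρ` on `B × B` and `L G i = ρ[w ↦ ∑_j X_ij(w) conj (G_j(w.2))|𝒢]`. There is a kernel
`X̃` on `(B × B, σ)` with `QQ σ X̃ G H = ∫ ∑_i conj (L G i) (L H i) dρ`, invariant under `tw^[q]`.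
Proof. Let `τ = mh ρ (GG_le …)` be the relatively independent square of `ρ` over `𝒢`
(`H82OT/Defs.lean`, `KP1`, `KP2`) on `(B × B) × (B × B)`. Its image under `π (ω, ω') = (ω.2, ω'.2)` is `σ`
(`prod_ext_of_BM` in `H22M/SQ.lean`, `integral_mh_condExp`, `IsRel.int`).
`X̃_jl` = the function of `exists_cond` for `τ`, `π` and `M_jl(ω, ω') = ∑_i conj X_ij(ω) X_il(ω')`, bounded by
`d C²`. Formula: `QQ σ X̃ G H = ∫ ∑_jl G_j(ω.2) M_jl conj H_l(ω'.2) dτ = ∑_i ∫ (conj ∘ Y_i)(ω) Z_i(ω') dτ`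
with `Y_i = ∑_j X_ij conj G_j`, `Z_i = ∑_l X_il conj H_l`, and `integral_mh_condExp`, `condExp_conj`
(`H22M/JB.lean`).
Invariance: `S = pairE T p q` preserves `ρ` and `𝒢` (`GG_preimage` in `H22M/CE.lean` gives
`𝒢.comap S = 𝒢`), so `S × S` preserves `τ` (`mh_inv`). By `hXS`:
`M(S ω, S ω') = cm' q (ω.2) X(ω)ᴴ (cm p (ω.1))ᴴ cm p (ω'.1) X(ω') (cm' q (ω'.2))ᴴ`, and
`cm p (ω.1) = cm p (ω'.1)` for `τ`-a.e. `(ω, ω')` (`mh_diag` for the entries, which are functions of the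
first coordinate, so `𝒢`-measurable), so by `cm_unit` `M(S ω, S ω') = cm' q (ω.2) M (cm' q (ω'.2))ᴴ`.
Testing against bounded `H` on `B × B`: `X̃(T^[q] x, T^[q] x') = cm' q x X̃(x, x') (cm' q x')ᴴ` for
`σ`-a.e. `(x, x')`, i.e. `tw^[q] X̃ = X̃` (`tw_iter`). -/
theorem exists_kernel_square {B : Type*} [MeasurableSpace B] [StandardBorelSpace B]
    {mb : Measure B} [IsProbabilityMeasure mb] (T : B ≃ᵐ B) (hT : MeasurePreserving T mb mb)
    {p q : ℕ} {ρ σ : Measure (B × B)} (hρ : IsJoin mb T p q ρ) (hσ : IsRel T p q ρ σ)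
    {d e : ℕ} {Ψ : B → Matrix (Fin d) (Fin d) ℂ} {Ψ' : B → Matrix (Fin e) (Fin e) ℂ}
    (hΨ : BMM Ψ) (hΨ' : BMM Ψ') (hu : ∀ x, Ψ x * (Ψ x)ᴴ = 1) (hu' : ∀ x, Ψ' x * (Ψ' x)ᴴ = 1)
    (X : B × B → Matrix (Fin d) (Fin e) ℂ) (hX : BMM X) (C : ℝ) (hC0 : 0 ≤ C)
    (hC : ∀ w i j, ‖X w i j‖ ≤ C)
    (hXS : ∀ᵐ w ∂ρ, X ((⇑T)^[p] w.1, (⇑T)^[q] w.2) = cm T Ψ p w.1 * X w * (cm T Ψ' q w.2)ᴴ) :
    ∃ X' : B × B → Matrix (Fin e) (Fin e) ℂ, BMM X' ∧ (∀ w i j, ‖X' w i j‖ ≤ d * C ^ 2) ∧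
      (∀ᵐ w ∂σ, ((tw T Ψ')^[q] X') w = X' w) ∧
      ∀ G H : B → Fin e → ℂ, BMR G → BMR H → QQ σ X' G H =
        ∫ w, ∑ i, conj ((ρ[fun w => ∑ j, X w i j * conj (G w.2 j)|GG T p q ρ]) w) *
          (ρ[fun w => ∑ j, X w i j * conj (H w.2 j)|GG T p q ρ]) w ∂ρ := by
  have := hρ.prob
  have := hσ.prob
  obtain ⟨X', hX', hX'C, hX'F⟩ := XK2_first (⇑T) hσ X hX C hC0 hC
  refine ⟨X', hX', hX'C, ?_, hX'F⟩
  have hcm' : BMM (cm T Ψ' q) := cm_bmm T T.measurable Ψ' hΨ' q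
  have hcu' : ∀ x, cm T Ψ' q x * (cm T Ψ' q x)ᴴ = 1 := cm_unit T Ψ' hu' q
  have hS : MeasurePreserving (pairE T p q) ρ ρ := hρ.inv
  have hinv : MeasurePreserving (Prod.map (XK2_iterE T q) (XK2_iterE T q)) σ σ :=
    XK2_inv T hρ hσ
  have hev : ∀ G : B → Fin e → ℂ, BMR G → BMR (evr (XK2_iterE T q) (cm T Ψ' q) G) := by
    intro G hG i
    have h1 : (fun x => evr (XK2_iterE T q) (cm T Ψ' q) G x i) =
        fun x => ∑ k, G (XK2_iterE T q x) k * cm T Ψ' q x k i := rfl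
    rw [h1]
    exact BM.sum _ fun k _ => ((hG k).comp (XK2_iterE T q).measurable).mul (hcm' k i)
  have key := tw_eq_of_QQ σ (XK2_iterE T q) hinv (cm T Ψ' q) hcm' hcu' X' hX' 1 (by
    intro G H hG hH
    rw [Function.iterate_one, hX'F _ _ (hev G hG) (hev H hH), hX'F G H hG hH]
    have e1 : ∀ᵐ w ∂ρ, ∀ i, (ρ[fun w => ∑ j, X w i j *
        conj (evr (XK2_iterE T q) (cm T Ψ' q) G w.2 j)|GG T p q ρ]) w =
        ∑ k, conj (cm T Ψ p w.1 k i) *
          (ρ[fun w => ∑ j, X w k j * conj (G w.2 j)|GG T p q ρ]) (pairE T p q w) := by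
      rw [ae_all_iff]
      exact fun i => XK2_evolve T hρ hΨ hu hX hXS hG i
    have e2 : ∀ᵐ w ∂ρ, ∀ i, (ρ[fun w => ∑ j, X w i j *
        conj (evr (XK2_iterE T q) (cm T Ψ' q) H w.2 j)|GG T p q ρ]) w =
        ∑ k, conj (cm T Ψ p w.1 k i) *
          (ρ[fun w => ∑ j, X w k j * conj (H w.2 j)|GG T p q ρ]) (pairE T p q w) := by
      rw [ae_all_iff]
      exact fun i => XK2_evolve T hρ hΨ hu hX hXS hH i
    have e3 : ∫ w, ∑ i, conj ((ρ[fun w => ∑ j, X w i j *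
        conj (evr (XK2_iterE T q) (cm T Ψ' q) G w.2 j)|GG T p q ρ]) w) *
        (ρ[fun w => ∑ j, X w i j *
          conj (evr (XK2_iterE T q) (cm T Ψ' q) H w.2 j)|GG T p q ρ]) w ∂ρ =
        ∫ w, (fun w => ∑ i, conj ((ρ[fun w => ∑ j, X w i j * conj (G w.2 j)|GG T p q ρ]) w) *
          (ρ[fun w => ∑ j, X w i j * conj (H w.2 j)|GG T p q ρ]) w) (pairE T p q w) ∂ρ := by
      refine integral_congr_ae ?_
      filter_upwards [e1, e2] with w h1 h2
      have h3 := XK2_unit (cm T Ψ p w.1) (cm_unit T Ψ hu p w.1)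
        (fun k => (ρ[fun w => ∑ j, X w k j * conj (G w.2 j)|GG T p q ρ]) (pairE T p q w))
        (fun k => (ρ[fun w => ∑ j, X w k j * conj (H w.2 j)|GG T p q ρ]) (pairE T p q w))
      refine Eq.trans (Finset.sum_congr rfl fun i _ => ?_) h3
      rw [h1 i, h2 i]
    rw [e3]
    exact hS.integral_comp (pairE T p q).measurableEmbedding
      (fun w => ∑ i, conj ((ρ[fun w => ∑ j, X w i j * conj (G w.2 j)|GG T p q ρ]) w) *
        (ρ[fun w => ∑ j, X w i j * conj (H w.2 j)|GG T p q ρ]) w))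
  filter_upwards [key] with w hw
  rw [Function.iterate_one] at hw
  rw [tw_iter]
  exact hw

end Pool.Agent.Lib.H82OF
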