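import Pool.Agent.Lib.H82OF.XK1
import Pool.Agent.Lib.H82OF.XK2
import Pool.Agent.Lib.H22M.JB

/-!
# Project H82OF, chunk XK3: the pairing of two functions of the top step
-/

open MeasureTheory Filter Topology Finset ProbabilityTheory
open scoped ENNReal ComplexConjugate Matrix

namespace Pool.Agent.Lib.H82OF

open Pool.Agent.Lib.H22M Pool.Agent.Lib.H82T Pool.Agent.Lib.H82OT

private theorem XK3_ver {Ω : Type*} (𝒢 : MeasurableSpace Ω) [mΩ : MeasurableSpace Ω]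
    (ν : Measure Ω) [IsProbabilityMeasure ν] (h𝒢 : 𝒢 ≤ mΩ) (Y : Ω → ℂ) (hY : BM Y) :
    ∃ L : Ω → ℂ, BM L ∧ L =ᵐ[ν] ν[Y|𝒢] ∧ l2 ν L ≤ l2 ν Y ∧
      ∀ f : Ω → ℂ, Measurable[𝒢] f → (∃ C' : ℝ, ∀ᵐ ω ∂ν, ‖f ω‖ ≤ C') →
        ∫ ω, f ω * Y ω ∂ν = ∫ ω, f ω * L ω ∂ν := by
  obtain ⟨hm, C, hC⟩ := hY
  obtain ⟨g, hg1, hg2, hg3, hg4⟩ := exists_version 𝒢 ν h𝒢 Y hm (max C 0) (le_max_right _ _)
    (Eventually.of_forall fun ω => (hC ω).trans (le_max_left _ _))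
  refine ⟨g, ⟨hg1.mono h𝒢 le_rfl, _, hg2⟩, hg3, ?_, hg4⟩
  rw [Pool.Agent.Lib.H22M.l2_congr hg3]
  exact l2_condExp_le 𝒢 ν h𝒢 Y ⟨hm, C, hC⟩

private theorem XK3_cs {Ω : Type*} [MeasurableSpace Ω] (ν : Measure Ω) [IsProbabilityMeasure ν]
    {d : ℕ} (f g : Fin d → Ω → ℂ) (hf : ∀ i, BM (f i)) (hg : ∀ i, BM (g i)) :
    ‖∑ i, ∫ w, f i w * g i w ∂ν‖ ^ 2 ≤ (∑ i, l2 ν (f i) ^ 2) * ∑ i, l2 ν (g i) ^ 2 := by
  have h1 : ‖∑ i, ∫ w, f i w * g i w ∂ν‖ ≤ ∑ i, l2 ν (f i) * l2 ν (g i) :=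
    (norm_sum_le _ _).trans (Finset.sum_le_sum fun i _ =>
      Pool.Agent.Lib.H82OT.norm_integral_mul_le ν _ _ (hf i) (hg i))
  exact (pow_le_pow_left₀ (norm_nonneg _) h1 2).trans (Finset.sum_mul_sq_le_sq_mul_sq _ _ _)

private theorem XK3_conj {Ω : Type*} [MeasurableSpace Ω] (ν : Measure Ω) (f : Ω → ℂ) :
    l2 ν (fun w => conj (f w)) = l2 ν f := by
  unfold l2
  simp only [RCLike.norm_conj]

/-- Proof. `ρ_B = ρ.map (P × P)` (`isJoin_map`), `X` from `exists_X`, `X̃` from `exists_kernel_square`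
(`C = √(CE CE')`, so `d C² = d CE CE'`), `𝒢 = GG T p q ρ_B`, `L G i = ρ_B[∑_j X_ij conj (G_j(w.2))|𝒢]`.
(a) `∫ (F(P z.1) ⬝ᵥ E z.1) conj (G(P z.2) ⬝ᵥ E' z.2) dρ = ∫ ∑_i F_i(w.1) ∑_j X_ij(w) conj (G_j(w.2)) dρ_B
= ∫ ∑_i F_i(w.1) L G i dρ_B` (`F_i(w.1)` is `𝒢`-measurable and bounded: `exists_version`), Cauchy-Schwarz for
the sum over `i` and the integral, and `∫ ∑_i |L G i|² dρ_B = QQ σ X̃ G G` (a nonnegative real number).
(b) `‖QQ σ X̃ G H‖ ≤ (∑_i ‖L G i‖²)^(1/2) (∑_i ‖L H i‖²)^(1/2)` (Cauchy-Schwarz) and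
`∑_i ‖L G i‖_2² ≤ ∑_i ∫ |∑_j X_ij conj G_j|² dρ_B ≤ CE l2 m(g)²` (`l2_condExp_le` in `H22M/JB.lean`). -/
theorem pair_kernel {Y B : Type*} [MeasurableSpace Y] [MeasurableSpace B]
    [StandardBorelSpace B] {m : Measure Y}
    [IsProbabilityMeasure m] {mb : Measure B} [IsProbabilityMeasure mb] (R : Y ≃ᵐ Y)
    (hR : MeasurePreserving R m m)
    (T : B ≃ᵐ B) (hT : MeasurePreserving T mb mb) {P : Y → B}
    (hP : MeasurePreserving P m mb) (hPR : ∀ y, P (R y) = T (P y))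
    {d e : ℕ} {Ψ : B → Matrix (Fin d) (Fin d) ℂ} {Ψ' : B → Matrix (Fin e) (Fin e) ℂ}
    (hΨ : BMM Ψ) (hΨ' : BMM Ψ') (hu : ∀ x, Ψ x * (Ψ x)ᴴ = 1) (hu' : ∀ x, Ψ' x * (Ψ' x)ᴴ = 1)
    (E : Y → Fin d → ℂ) (E' : Y → Fin e → ℂ) (hE : BMR E) (hE' : BMR E')
    (hER : ∀ᵐ y ∂m, E (R y) = Ψ (P y) *ᵥ E y) (hER' : ∀ᵐ y ∂m, E' (R y) = Ψ' (P y) *ᵥ E' y)
    (CE CE' : ℝ) (hCE0 : 0 ≤ CE) (hCE0' : 0 ≤ CE') (hCE : ∀ y, ∑ i, ‖E y i‖ ^ 2 ≤ CE)
    (hCE' : ∀ y, ∑ i, ‖E' y i‖ ^ 2 ≤ CE')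
    {p q : ℕ} {ρ : Measure (Y × Y)} (hρ : IsJoin m R p q ρ) {σ : Measure (B × B)}
    (hσ : IsRel T p q (ρ.map (Prod.map P P)) σ) :
    ∃ X : B × B → Matrix (Fin e) (Fin e) ℂ, BMM X ∧
      (∀ w i j, ‖X w i j‖ ≤ d * (CE * CE')) ∧ (∀ᵐ w ∂σ, ((tw T Ψ')^[q] X) w = X w) ∧
      (∀ (F : B → Fin d → ℂ) (G : B → Fin e → ℂ), BMR F → BMR G →
        ‖∫ z, (F (P z.1) ⬝ᵥ E z.1) * conj (G (P z.2) ⬝ᵥ E' z.2) ∂ρ‖ ^ 2 ≤
          (∫ x, ∑ i, ‖F x i‖ ^ 2 ∂mb) * ‖QQ σ X G G‖) ∧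
      ∀ G H : B → Fin e → ℂ, BMR G → BMR H → ‖QQ σ X G H‖ ≤
        CE * (l2 m (fun y => G (P y) ⬝ᵥ E' y) * l2 m (fun y => H (P y) ⬝ᵥ E' y)) := by
  have hjB : IsJoin mb T p q (ρ.map (Prod.map P P)) := isJoin_map T.measurable hP hPR hρ
  haveI := hρ.prob
  haveI := hjB.prob
  haveI := hσ.prob
  obtain ⟨X, hX, hXC, hXH, hXS, hXl⟩ := exists_X R hR T hP hPR hΨ hΨ' hu hu' E E' hE hE' hER hER'
    CE CE' hCE hCE' hρ
  obtain ⟨X', hX', hXC', hXt, hXQ⟩ := exists_kernel_square T hT hjB hσ hΨ hΨ' hu hu' X hX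
    (Real.sqrt (CE * CE')) (Real.sqrt_nonneg _) hXC hXS
  have hY : ∀ G : B → Fin e → ℂ, BMR G → ∀ i,
      BM fun w : B × B => ∑ j, X w i j * conj (G w.2 j) := fun G hG i =>
    BM.sum _ fun j _ => (hX i j).mul ((hG j).comp measurable_snd).conj
  have hver : ∀ G : B → Fin e → ℂ, BMR G → ∃ L : Fin d → B × B → ℂ, (∀ i, BM (L i)) ∧
      (∀ i, L i =ᵐ[ρ.map (Prod.map P P)] (ρ.map (Prod.map P P))[fun w => ∑ j, X w i j *
        conj (G w.2 j)|GG T p q (ρ.map (Prod.map P P))]) ∧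
      (∀ i, l2 (ρ.map (Prod.map P P)) (L i) ≤
        l2 (ρ.map (Prod.map P P)) (fun w => ∑ j, X w i j * conj (G w.2 j))) ∧
      ∀ i (f : B × B → ℂ), Measurable[GG T p q (ρ.map (Prod.map P P))] f →
        (∃ C' : ℝ, ∀ᵐ ω ∂(ρ.map (Prod.map P P)), ‖f ω‖ ≤ C') →
        ∫ w, f w * (∑ j, X w i j * conj (G w.2 j)) ∂(ρ.map (Prod.map P P)) =
          ∫ w, f w * L i w ∂(ρ.map (Prod.map P P)) := by
    intro G hG
    choose L h1 h2 h3 h4 using fun i => XK3_ver (GG T p q (ρ.map (Prod.map P P)))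
      (ρ.map (Prod.map P P)) (GG_le _ _ _ _) _ (hY G hG i)
    exact ⟨L, h1, h2, h3, h4⟩
  have hQ : ∀ G H : B → Fin e → ℂ, BMR G → BMR H → ∀ L M : Fin d → B × B → ℂ,
      (∀ i, BM (L i)) → (∀ i, BM (M i)) →
      (∀ i, L i =ᵐ[ρ.map (Prod.map P P)] (ρ.map (Prod.map P P))[fun w => ∑ j, X w i j *
        conj (G w.2 j)|GG T p q (ρ.map (Prod.map P P))]) →
      (∀ i, M i =ᵐ[ρ.map (Prod.map P P)] (ρ.map (Prod.map P P))[fun w => ∑ j, X w i j *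
        conj (H w.2 j)|GG T p q (ρ.map (Prod.map P P))]) →
      QQ σ X' G H = ∑ i, ∫ w, conj (L i w) * M i w ∂(ρ.map (Prod.map P P)) := by
    intro G H hG hH L M hLb hMb hL hM
    rw [hXQ G H hG hH, ← integral_finset_sum _ fun i _ => ((hLb i).conj.mul (hMb i)).integrable]
    refine integral_congr_ae ?_
    filter_upwards [ae_all_iff.2 hL, ae_all_iff.2 hM] with w h1 h2
    refine Finset.sum_congr rfl fun i _ => ?_
    rw [h1 i, h2 i]
  refine ⟨X', hX', ?_, hXt, ?_, ?_⟩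
  · intro w i j
    have h1 := hXC' w i j
    rwa [Real.sq_sqrt (mul_nonneg hCE0 hCE0')] at h1
  · intro F G hF hG
    obtain ⟨L, hLb, hL, hLl, hLf⟩ := hver G hG
    have hFb : ∀ i, BM fun w : B × B => F w.1 i := fun i => (hF i).comp measurable_fst
    have h1 : ∫ z, (F (P z.1) ⬝ᵥ E z.1) * conj (G (P z.2) ⬝ᵥ E' z.2) ∂ρ =
        ∑ i, ∫ w, F w.1 i * L i w ∂(ρ.map (Prod.map P P)) := by
      have h2 : ∀ z : Y × Y, (F (P z.1) ⬝ᵥ E z.1) * conj (G (P z.2) ⬝ᵥ E' z.2) =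
          ∑ i, ∑ j, (F (P z.1) i * conj (G (P z.2) j)) * (E z.1 i * conj (E' z.2 j)) := by
        intro z
        rw [dotProduct, dotProduct, map_sum, Finset.sum_mul_sum]
        refine Finset.sum_congr rfl fun i _ => Finset.sum_congr rfl fun j _ => ?_
        rw [map_mul]
        ring
      have h3 : ∀ i j, BM fun z : Y × Y =>
          (F (P z.1) i * conj (G (P z.2) j)) * (E z.1 i * conj (E' z.2 j)) := fun i j =>
        (((hF i).comp (hP.measurable.comp measurable_fst)).mul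
          ((hG j).comp (hP.measurable.comp measurable_snd)).conj).mul
          (((hE i).comp measurable_fst).mul ((hE' j).comp measurable_snd).conj)
      simp_rw [h2]
      rw [integral_finset_sum _ fun i _ => (BM.sum _ fun j _ => h3 i j).integrable]
      refine Finset.sum_congr rfl fun i _ => ?_
      rw [integral_finset_sum _ fun j _ => (h3 i j).integrable]
      have h4 : ∀ j, ∫ z, (F (P z.1) i * conj (G (P z.2) j)) * (E z.1 i * conj (E' z.2 j)) ∂ρ =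
          ∫ w, (F w.1 i * conj (G w.2 j)) * X w i j ∂(ρ.map (Prod.map P P)) := fun j =>
        hXH (fun w => F w.1 i * conj (G w.2 j)) i j ((hFb i).mul ((hG j).comp measurable_snd).conj)
      rw [Finset.sum_congr rfl fun j _ => h4 j, ← integral_finset_sum _ fun j _ =>
        (((hFb i).mul ((hG j).comp measurable_snd).conj).mul (hX i j)).integrable]
      have hFm : Measurable[GG T p q (ρ.map (Prod.map P P))] (fun w : B × B => F w.1 i) := by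
        have h5 : Measurable[MeasurableSpace.comap Prod.fst inferInstance ⊔
            aeInv (ρ.map (Prod.map P P)) (Prod.map (T^[p]) (T^[q]))]
            (fun w : B × B => F w.1 i) :=
          Measurable.mono ((hF i).1.comp (comap_measurable Prod.fst)) le_sup_left le_rfl
        exact h5
      rw [← hLf i (fun w => F w.1 i) hFm]
      · refine integral_congr_ae (Eventually.of_forall fun w => ?_)
        simp only
        rw [Finset.mul_sum]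
        refine Finset.sum_congr rfl fun j _ => ?_
        ring
      · obtain ⟨C', hC'⟩ := (hFb i).2
        exact ⟨C', Eventually.of_forall hC'⟩
    have h6 : ‖QQ σ X' G G‖ = ∑ i, l2 (ρ.map (Prod.map P P)) (L i) ^ 2 := by
      rw [hQ G G hG hG L L hLb hLb hL hL]
      have h7 : ∀ i, ∫ w, conj (L i w) * L i w ∂(ρ.map (Prod.map P P)) =
          ((l2 (ρ.map (Prod.map P P)) (L i) ^ 2 : ℝ) : ℂ) := fun i => by
        rw [← integral_mul_conj]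
        exact integral_congr_ae (Eventually.of_forall fun w => mul_comm _ _)
      rw [Finset.sum_congr rfl fun i _ => h7 i, ← Complex.ofReal_sum, Complex.norm_real,
        Real.norm_of_nonneg (Finset.sum_nonneg fun i _ => sq_nonneg _)]
    have h8 : ∫ x, ∑ i, ‖F x i‖ ^ 2 ∂mb =
        ∑ i, l2 (ρ.map (Prod.map P P)) (fun w => F w.1 i) ^ 2 := by
      rw [integral_finset_sum _ fun i _ => ?_]
      · refine Finset.sum_congr rfl fun i _ => ?_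
        rw [← Pool.Agent.Lib.H82OT.l2_sq]
        congr 1
        conv_lhs => rw [← hjB.fst]
        exact (l2_map measurable_fst (hF i).1)
      · obtain ⟨hm, C', hC'⟩ := hF i
        refine Integrable.of_bound (hm.norm.pow_const 2).aestronglyMeasurable (C' ^ 2)
          (Eventually.of_forall fun x => ?_)
        rw [Real.norm_of_nonneg (sq_nonneg _)]
        exact pow_le_pow_left₀ (norm_nonneg _) (hC' x) 2
    rw [h1, h6, h8]
    exact XK3_cs (ρ.map (Prod.map P P)) (fun i w => F w.1 i) L hFb hLb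
  · intro G H hG hH
    obtain ⟨L, hLb, hL, hLl, hLf⟩ := hver G hG
    obtain ⟨M, hMb, hM, hMl, hMf⟩ := hver H hH
    have key : ∀ (G : B → Fin e → ℂ) (L : Fin d → B × B → ℂ), BMR G →
        (∀ i, l2 (ρ.map (Prod.map P P)) (L i) ≤
        l2 (ρ.map (Prod.map P P)) (fun w => ∑ j, X w i j * conj (G w.2 j))) →
        ∑ i, l2 (ρ.map (Prod.map P P)) (L i) ^ 2 ≤
          CE * l2 m (fun y => G (P y) ⬝ᵥ E' y) ^ 2 := by
      intro G L hG hL
      refine le_trans (Finset.sum_le_sum fun i _ => ?_) (hXl G hG)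
      rw [← Pool.Agent.Lib.H82OT.l2_sq]
      exact pow_le_pow_left₀ (l2_nonneg _ _) (hL i) 2
    have h1 := XK3_cs (ρ.map (Prod.map P P)) (fun i w => conj (L i w)) M
      (fun i => (hLb i).conj) hMb
    rw [← hQ G H hG hH L M hLb hMb hL hM] at h1
    simp_rw [XK3_conj] at h1
    have h2 := key G L hG hLl
    have h3 := key H M hH hMl
    have h4 : ‖QQ σ X' G H‖ ^ 2 ≤ (CE * (l2 m (fun y => G (P y) ⬝ᵥ E' y) *
        l2 m (fun y => H (P y) ⬝ᵥ E' y))) ^ 2 := by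
      refine h1.trans ((mul_le_mul h2 h3 (Finset.sum_nonneg fun i _ => sq_nonneg _)
        (mul_nonneg hCE0 (sq_nonneg _))).trans (le_of_eq ?_))
      ring
    exact (pow_le_pow_iff_left₀ (norm_nonneg _)
      (mul_nonneg hCE0 (mul_nonneg (l2_nonneg _ _) (l2_nonneg _ _))) two_ne_zero).1 h4

end Pool.Agent.Lib.H82OF
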